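import Pool.Agent.Lib.MP_06793c_ag.PG.Defs

/-!
# Saturation can be tested with linear forms
Plan: k algebraically closed. Step 1: if r ≠ 0 is homogeneous (binary form), it is a nonzero
constant times a product of forms lp p (induction on the degree: a binary form of positive degree
has a zero p ≠ 0 over an algebraically closed field, and is then divisible by lp p). So the
hypothesis gives the claim for homogeneous r ≠ 0 and homogeneous v (induction on the degree of r;
intermediate vectors are homogeneous). Step 2: general r, v with r • v ∈ N: let r_a, v_b be the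
highest nonzero components; the component of degree a + b of r • v is r_a • v_b, in N by Gr, so
v_b ∈ N; subtract v_b from v and use induction on the number of components (or on the degree).
-/

namespace MP_06793c_ag

open MvPolynomial

universe u

variable {k : Type u} [Field k] {m : ℕ}

private theorem SatL_deg {i : ℕ} {r : R k} (hr : r.IsHomogeneous i) {d : Fin 2 →₀ ℕ}
    (hd : d ∈ r.support) : d 0 + d 1 = i := by
  by_contra hne
  have h1 : d.degree ≠ i := by
    rw [Finsupp.degree_eq_sum, Fin.sum_univ_two]
    exact hne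
  exact (mem_support_iff.1 hd) (hr.coeff_eq_zero h1)

private theorem SatL_coeff {i : ℕ} {r : R k} (hr : r.IsHomogeneous i) :
    (aeval (![Polynomial.X, 1] : Fin 2 → Polynomial k) r).coeff i = eval ![1, 0] r := by
  rw [aeval_def, eval₂_eq', eval_eq', Polynomial.finsetSum_coeff]
  refine Finset.sum_congr rfl fun d hd => ?_
  have h1 := SatL_deg hr hd
  rw [Fin.prod_univ_two, Fin.prod_univ_two]
  simp only [Matrix.cons_val_zero, Matrix.cons_val_one, one_pow, mul_one, one_mul]
  rw [← Polynomial.C_eq_algebraMap, Polynomial.coeff_C_mul, Polynomial.coeff_X_pow]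
  by_cases h : i = d 0
  · have h2 : d 1 = 0 := by omega
    rw [if_pos h, h2, pow_zero]
  · have h2 : d 1 ≠ 0 := by omega
    rw [if_neg h, zero_pow h2]

theorem exists_zero [IsAlgClosed k] {i : ℕ} {r : R k} (hi : 0 < i) (hr : r.IsHomogeneous i) :
    ∃ p : Fin 2 → k, p ≠ 0 ∧ eval p r = 0 := by
  by_contra hcon
  push Not at hcon
  obtain ⟨f, hf⟩ : ∃ f, f = aeval (![Polynomial.X, 1] : Fin 2 → Polynomial k) r := ⟨_, rfl⟩
  have hev : ∀ t : k, f.eval t = eval ![t, 1] r := by
    intro t
    rw [hf, aeval_def, eval₂_eq', eval_eq', Polynomial.eval_finsetSum]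
    refine Finset.sum_congr rfl fun d _ => ?_
    rw [Fin.prod_univ_two, Fin.prod_univ_two]
    simp only [Matrix.cons_val_zero, Matrix.cons_val_one, one_pow, mul_one]
    rw [← Polynomial.C_eq_algebraMap, Polynomial.eval_mul, Polynomial.eval_C, Polynomial.eval_pow,
      Polynomial.eval_X]
  have hdeg : f.degree = 0 := by
    by_contra hne
    obtain ⟨t, ht⟩ := IsAlgClosed.exists_root f hne
    have h1 : (![t, 1] : Fin 2 → k) ≠ 0 := by
      intro h
      have := congrFun h 1
      simp at this
    exact hcon _ h1 (by rw [← hev t]; exact ht)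
  have h1 : (![1, 0] : Fin 2 → k) ≠ 0 := by
    intro h
    have := congrFun h 0
    simp at this
  apply hcon _ h1
  rw [← SatL_coeff hr, ← hf, Polynomial.eq_C_of_degree_eq_zero hdeg, Polynomial.coeff_C,
    if_neg hi.ne']

private theorem SatL_scale {A : Type u} [CommRing A] [Algebra k A] {i : ℕ} {r : R k}
    (hr : r.IsHomogeneous i) (a : A) (f : Fin 2 → A) :
    aeval (fun j => a * f j) r = a ^ i * aeval f r := by
  rw [aeval_def, aeval_def, eval₂_eq', eval₂_eq', Finset.mul_sum]
  refine Finset.sum_congr rfl fun d hd => ?_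
  rw [Fin.prod_univ_two, Fin.prod_univ_two, ← SatL_deg hr hd]
  ring

private theorem SatL_dvd {i : ℕ} {r : R k} (hr : r.IsHomogeneous i) {p : Fin 2 → k} (hp : p ≠ 0)
    (h0 : eval p r = 0) : lp k p ∣ r := by
  obtain ⟨q, hq⟩ : ∃ q : R k →ₐ[k] (R k ⧸ Ideal.span {lp k p}),
    q = Ideal.Quotient.mkₐ k (Ideal.span {lp k p}) := ⟨_, rfl⟩
  have hq0 : q (lp k p) = 0 := by
    rw [hq]
    exact Ideal.Quotient.eq_zero_iff_mem.2 (Ideal.mem_span_singleton_self _)
  have hker : q r = 0 → lp k p ∣ r := by
    intro h
    rw [hq] at h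
    exact Ideal.mem_span_singleton.1 (Ideal.Quotient.eq_zero_iff_mem.1 h)
  apply hker
  have hqr : q r = aeval (fun j => q (X j)) r := by
    have h1 : q = aeval (fun j => q (X j)) := by
      apply MvPolynomial.algHom_ext
      intro j
      rw [aeval_X]
    exact DFunLike.congr_fun h1 r
  have hrel : q (C (p 1)) * q (X 0) = q (C (p 0)) * q (X 1) := by
    have h1 : q (C (p 1) * X 0 - C (p 0) * X 1) = 0 := hq0
    rw [map_sub, map_mul, map_mul, sub_eq_zero] at h1
    exact h1
  have hC : ∀ c : k, q (C c) = algebraMap k _ c := by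
    intro c
    rw [← MvPolynomial.algebraMap_eq]
    exact q.commutes c
  have hev : ∀ y : (R k ⧸ Ideal.span {lp k p}),
      aeval (fun j => y * algebraMap k (R k ⧸ Ideal.span {lp k p}) (p j)) r = 0 := by
    intro y
    rw [SatL_scale hr]
    have h1 : aeval (fun j => algebraMap k (R k ⧸ Ideal.span {lp k p}) (p j)) r =
        algebraMap k _ (eval p r) := by
      rw [aeval_def, eval₂_eq', eval_eq', map_sum]
      refine Finset.sum_congr rfl fun d _ => ?_
      rw [map_mul, map_prod]
      simp only [map_pow]
    rw [h1, h0, map_zero, mul_zero]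
  have key : ∀ j : Fin 2, p j ≠ 0 → q r = 0 := by
    intro j hj
    have h1 : (fun l => algebraMap k (R k ⧸ Ideal.span {lp k p}) (p j) * q (X l)) =
        fun l => q (X j) * algebraMap k (R k ⧸ Ideal.span {lp k p}) (p l) := by
      funext l
      rw [hC, hC] at hrel
      fin_cases j <;> fin_cases l
      · exact mul_comm _ _
      · change algebraMap k _ (p 0) * q (X 1) = q (X 0) * algebraMap k _ (p 1)
        rw [← hrel, mul_comm]
      · change algebraMap k _ (p 1) * q (X 0) = q (X 1) * algebraMap k _ (p 0)
        rw [hrel, mul_comm]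
      · exact mul_comm _ _
    have h2 := SatL_scale hr (algebraMap k (R k ⧸ Ideal.span {lp k p}) (p j)) (fun l => q (X l))
    rw [h1, hev, ← hqr, ← map_pow] at h2
    have h3 : algebraMap k (R k ⧸ Ideal.span {lp k p}) ((p j ^ i)⁻¹) *
        (algebraMap k _ (p j ^ i) * q r) = 0 := by
      rw [← h2, mul_zero]
    rwa [← mul_assoc, ← map_mul, inv_mul_cancel₀ (pow_ne_zero _ hj), map_one, one_mul] at h3
  by_contra hcon
  apply hp
  funext j
  by_contra hj
  exact hcon (key j hj)

private theorem SatL_lp_hom (p : Fin 2 → k) : (lp k p).IsHomogeneous 1 :=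
  (isHomogeneous_C_mul_X _ _).sub (isHomogeneous_C_mul_X _ _)

private theorem SatL_top {r f : R k} {a n : ℕ} (hr : ∀ s, a < s → homogeneousComponent s r = 0)
    (hf : ∀ t, n < t → homogeneousComponent t f = 0) :
    homogeneousComponent (a + n) (r * f) = homogeneousComponent a r * homogeneousComponent n f := by
  classical
  have hr' : ∀ d : Fin 2 →₀ ℕ, a < d.degree → coeff d r = 0 := by
    intro d hd
    have h1 := congrArg (coeff d) (hr _ hd)
    rwa [coeff_homogeneousComponent, if_pos rfl, coeff_zero] at h1
  have hf' : ∀ d : Fin 2 →₀ ℕ, n < d.degree → coeff d f = 0 := by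
    intro d hd
    have h1 := congrArg (coeff d) (hf _ hd)
    rwa [coeff_homogeneousComponent, if_pos rfl, coeff_zero] at h1
  ext d
  rw [coeff_homogeneousComponent]
  split_ifs with hd
  · rw [coeff_mul, coeff_mul]
    refine Finset.sum_congr rfl fun x hx => ?_
    rw [Finset.HasAntidiagonal.mem_antidiagonal] at hx
    have h1 : x.1.degree + x.2.degree = a + n := by
      rw [← hd, ← hx]
      exact (map_add _ _ _).symm
    rw [coeff_homogeneousComponent, coeff_homogeneousComponent]
    by_cases h2 : x.1.degree = a
    · have h3 : x.2.degree = n := by omega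
      rw [if_pos h2, if_pos h3]
    · rw [if_neg h2, zero_mul]
      by_cases h3 : a < x.1.degree
      · rw [hr' _ h3, zero_mul]
      · rw [hf' _ (by omega), mul_zero]
  · exact (((homogeneousComponent_isHomogeneous a r).mul
      (homogeneousComponent_isHomogeneous n f)).coeff_eq_zero hd).symm

private theorem SatL_of_hom {i : ℕ} {r : R k} (hr : r.IsHomogeneous i) {s : ℕ} (hs : s ≠ i) :
    homogeneousComponent s r = 0 := by
  rw [homogeneousComponent_of_mem ((mem_homogeneousSubmodule _ _).2 hr), if_neg hs]

private theorem SatL_factor {i : ℕ} {l r g : R k} (hl : l.IsHomogeneous 1)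
    (hr : r.IsHomogeneous (i + 1)) (h : r = l * g) : r = l * homogeneousComponent i g := by
  classical
  have h1 : homogeneousComponent (i + 1) r = r := homogeneousComponent_eq_self hr
  rw [← h1, h]
  ext d
  rw [coeff_homogeneousComponent]
  split_ifs with hd
  · rw [coeff_mul, coeff_mul]
    refine Finset.sum_congr rfl fun x hx => ?_
    rw [Finset.HasAntidiagonal.mem_antidiagonal] at hx
    have h2 : x.1.degree + x.2.degree = i + 1 := by
      rw [← hd, ← hx]
      exact (map_add _ _ _).symm
    rw [coeff_homogeneousComponent]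
    by_cases h3 : x.1.degree = 1
    · rw [if_pos (by omega)]
    · rw [hl.coeff_eq_zero h3, zero_mul, zero_mul]
  · have h2 := hl.mul (homogeneousComponent_isHomogeneous i g)
    rw [add_comm] at h2
    exact (h2.coeff_eq_zero hd).symm

private theorem SatL_step1 [IsAlgClosed k] {N : Submodule (R k) (Fin (m + 1) → R k)}
    (h : ∀ p : Fin 2 → k, p ≠ 0 → ∀ i : ℕ, ∀ v, HomV i v → lp k p • v ∈ N → v ∈ N) :
    ∀ i : ℕ, ∀ r : R k, r.IsHomogeneous i → r ≠ 0 → ∀ n : ℕ, ∀ v : Fin (m + 1) → R k, HomV n v →
      r • v ∈ N → v ∈ N := by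
  intro i
  induction i with
  | zero =>
    intro r hr hr0 n v _ hrv
    have h1 : r = C (coeff 0 r) := by
      rw [← homogeneousComponent_zero]
      exact (homogeneousComponent_eq_self hr).symm
    have h2 : coeff 0 r ≠ 0 := by
      intro h2
      rw [h2, C_0] at h1
      exact hr0 h1
    have h3 : v = (C (coeff 0 r)⁻¹ : R k) • (r • v) := by
      rw [smul_smul]
      nth_rewrite 2 [h1]
      rw [← C_mul, inv_mul_cancel₀ h2, C_1, one_smul]
    rw [h3]
    exact N.smul_mem _ hrv
  | succ i ih =>
    intro r hr hr0 n v hv hrv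
    obtain ⟨p, hp, hp0⟩ := exists_zero (Nat.succ_pos i) hr
    obtain ⟨g, hg⟩ := SatL_dvd hr hp hp0
    have hg' := SatL_factor (SatL_lp_hom p) hr hg
    obtain ⟨r', hr'⟩ : ∃ r', r' = homogeneousComponent i g := ⟨_, rfl⟩
    rw [← hr'] at hg'
    have hr'h : r'.IsHomogeneous i := by
      rw [hr']
      exact homogeneousComponent_isHomogeneous i g
    have hr'0 : r' ≠ 0 := by
      rintro rfl
      rw [mul_zero] at hg'
      exact hr0 hg'
    have h1 : HomV (i + n) (r' • v) := by
      intro j
      rw [Pi.smul_apply, smul_eq_mul]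
      exact hr'h.mul (hv j)
    have h2 : lp k p • (r' • v) ∈ N := by
      rw [smul_smul, ← hg']
      exact hrv
    exact ih r' hr'h hr'0 n v hv (h p hp _ _ h1 h2)

private theorem SatL_zero {f : R k} (h : ∀ t : ℕ, homogeneousComponent t f = 0) : f = 0 := by
  rw [← sum_homogeneousComponent f]
  exact Finset.sum_eq_zero fun t _ => h t

private theorem SatL_high {r : R k} (hr : r ≠ 0) : ∃ a : ℕ, homogeneousComponent a r ≠ 0 ∧
    ∀ s, a < s → homogeneousComponent s r = 0 := by
  classical
  obtain ⟨s, hs⟩ : ∃ s, homogeneousComponent s r ≠ 0 := by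
    by_contra hcon
    push Not at hcon
    exact hr (SatL_zero hcon)
  have hs' : s ≤ r.totalDegree := by
    by_contra hlt
    push Not at hlt
    exact hs (homogeneousComponent_eq_zero _ _ hlt)
  refine ⟨Nat.findGreatest (fun s => homogeneousComponent s r ≠ 0) r.totalDegree,
    Nat.findGreatest_spec (P := fun s => homogeneousComponent s r ≠ 0) hs' hs, fun t ht => ?_⟩
  by_cases h1 : t ≤ r.totalDegree
  · have h2 := Nat.findGreatest_is_greatest ht h1
    push Not at h2
    exact h2
  · exact homogeneousComponent_eq_zero _ _ (not_le.1 h1)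

theorem sat_of_lin [IsAlgClosed k] {N : Submodule (R k) (Fin (m + 1) → R k)} (hG : Gr N)
    (h : ∀ p : Fin 2 → k, p ≠ 0 → ∀ i : ℕ, ∀ v, HomV i v → lp k p • v ∈ N → v ∈ N) : Sat N := by
  intro r hr0
  obtain ⟨a, ha, ha2⟩ := SatL_high hr0
  have key : ∀ n : ℕ, ∀ v : Fin (m + 1) → R k,
      (∀ j t, n ≤ t → homogeneousComponent t (v j) = 0) → r • v ∈ N → v ∈ N := by
    intro n
    induction n with
    | zero =>
      intro v hv _
      have h1 : v = 0 := by
        funext j
        exact SatL_zero fun t => hv j t (Nat.zero_le t)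
      rw [h1]
      exact N.zero_mem
    | succ n ih =>
      intro v hv hrv
      obtain ⟨w, hw⟩ : ∃ w : Fin (m + 1) → R k, w = fun j => homogeneousComponent n (v j) :=
        ⟨_, rfl⟩
      have hwh : HomV n w := by
        intro j
        rw [hw]
        exact homogeneousComponent_isHomogeneous n (v j)
      have h1 : homogeneousComponent a r • w ∈ N := by
        have h2 := hG _ hrv (a + n)
        have h3 : (fun j => homogeneousComponent (a + n) ((r • v) j)) =
            homogeneousComponent a r • w := by
          funext j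
          rw [Pi.smul_apply, Pi.smul_apply, smul_eq_mul, smul_eq_mul, hw]
          exact SatL_top ha2 (fun t ht => hv j t ht)
        rwa [h3] at h2
      have h2 : w ∈ N := SatL_step1 h a _ (homogeneousComponent_isHomogeneous a r) ha n w hwh h1
      have h3 : v - w ∈ N := by
        refine ih (v - w) (fun j t ht => ?_) ?_
        · rw [Pi.sub_apply, map_sub, hw]
          rcases Nat.lt_or_ge n t with h4 | h4
          · rw [hv j t h4, SatL_of_hom (homogeneousComponent_isHomogeneous n (v j)) h4.ne',
              sub_zero]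
          · have h5 : t = n := le_antisymm h4 ht
            rw [h5, homogeneousComponent_eq_self (homogeneousComponent_isHomogeneous n (v j)),
              sub_self]
        · rw [smul_sub]
          exact N.sub_mem hrv (N.smul_mem _ h2)
      have h4 := N.add_mem h3 h2
      rwa [sub_add_cancel] at h4
  intro v hv
  refine key ((∑ j, (v j).totalDegree) + 1) v (fun j t ht => ?_) hv
  apply homogeneousComponent_eq_zero
  have h1 : (v j).totalDegree ≤ ∑ j, (v j).totalDegree :=
    Finset.single_le_sum (f := fun j => (v j).totalDegree) (fun _ _ => Nat.zero_le _)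
      (Finset.mem_univ j)
  omega

end MP_06793c_ag
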