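import Pool.Agent.Lib.MP_06793c_ag.PG.Dv
import Pool.Agent.Lib.MP_06793c_ag.PG.SatL

/-!
# The action of matrices which are injective on the values of `N`
Plan: entries of M are constants, so (M v)(p) = M (v(p)) and homogeneous components commute with M.
Gr: clear. Sat: by sat_of_lin; if lp p • w = M v with w homogeneous of degree i, v ∈ N (may be taken
homogeneous of degree i + 1 by Gr), then M (v(p)) = 0, so v(p) = 0, v = lp p • v' (dvd_of_evp),
v' ∈ N by Sat N, and w = M v'. Dimension: M is injective on N (eq_zero_of_evp), degree i parts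
correspond. Independence: M injective on N.
-/

namespace MP_06793c_ag

open MvPolynomial

universe u

variable {k : Type u} [Field k] {m : ℕ}

private theorem Act_apply (M : Matrix (Fin (m + 1)) (Fin (m + 1)) k) (v : Fin (m + 1) → R k)
    (j : Fin (m + 1)) :
    Matrix.mulVecLin (M.map (C : k →+* R k)) v j = ∑ l, C (M j l) * v l := by
  simp [Matrix.mulVec, dotProduct]

private theorem Act_evp (M : Matrix (Fin (m + 1)) (Fin (m + 1)) k) (v : Fin (m + 1) → R k)
    (p : Fin 2 → k) :
    evp p (Matrix.mulVecLin (M.map (C : k →+* R k)) v) = M.mulVec (evp p v) := by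
  funext j
  show eval p (Matrix.mulVecLin (M.map (C : k →+* R k)) v j) = _
  rw [Act_apply, map_sum]
  simp only [map_mul, eval_C, Matrix.mulVec, dotProduct]
  rfl

private theorem Act_hc (M : Matrix (Fin (m + 1)) (Fin (m + 1)) k) (v : Fin (m + 1) → R k)
    (i : ℕ) :
    (fun j => homogeneousComponent i (Matrix.mulVecLin (M.map (C : k →+* R k)) v j)) =
      Matrix.mulVecLin (M.map (C : k →+* R k)) (fun j => homogeneousComponent i (v j)) := by
  funext j
  rw [Act_apply, Act_apply, map_sum]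
  refine Finset.sum_congr rfl fun l _ => ?_
  rw [homogeneousComponent_C_mul]

private theorem Act_hc_self {i : ℕ} {v : Fin (m + 1) → R k} (h : HomV i v) :
    (fun j => homogeneousComponent i (v j)) = v := by
  funext j
  rw [homogeneousComponent_of_mem (h j), if_pos rfl]

private theorem Act_homV (v : Fin (m + 1) → R k) (i : ℕ) :
    HomV i (fun j => homogeneousComponent i (v j)) :=
  fun j => homogeneousComponent_isHomogeneous i (v j)

private theorem Act_inj [Infinite k] {N : Submodule (R k) (Fin (m + 1) → R k)}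
    {M : Matrix (Fin (m + 1)) (Fin (m + 1)) k} (hM : InjOn M N) {v : Fin (m + 1) → R k}
    (hv : v ∈ N) (h : Matrix.mulVecLin (M.map (C : k →+* R k)) v = 0) : v = 0 := by
  apply eq_zero_of_evp
  intro p hp
  refine hM p hp _ ⟨v, hv, rfl⟩ ?_
  rw [← Act_evp, h, map_zero]

theorem act_gr {N : Submodule (R k) (Fin (m + 1) → R k)} (hG : Gr N)
    (M : Matrix (Fin (m + 1)) (Fin (m + 1)) k) : Gr (act M N) := by
  rintro _ ⟨v, hv, rfl⟩ i
  rw [Act_hc]
  exact ⟨_, hG v hv i, rfl⟩

theorem act_sat [IsAlgClosed k] {N : Submodule (R k) (Fin (m + 1) → R k)} (hG : Gr N) (hS : Sat N)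
    {M : Matrix (Fin (m + 1)) (Fin (m + 1)) k} (hM : InjOn M N) : Sat (act M N) := by
  apply sat_of_lin (act_gr hG M)
  rintro p hp i w hw ⟨v, hv, hvw⟩
  have hw1 : HomV (i + 1) (lp k p • w) := by
    intro j
    have := (lp_homog p).mul (hw j)
    rw [add_comm] at this
    exact this
  have h1 : Matrix.mulVecLin (M.map (C : k →+* R k)) (fun j => homogeneousComponent (i + 1) (v j)) =
      lp k p • w := by
    rw [← Act_hc, ← Act_hc_self hw1]
    funext j
    rw [hvw]
  set v1 : Fin (m + 1) → R k := fun j => homogeneousComponent (i + 1) (v j) with hv1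
  have hv1N : v1 ∈ N := hG v hv (i + 1)
  have h2 : evp p v1 = 0 := by
    refine hM p hp _ ⟨v1, hv1N, rfl⟩ ?_
    rw [← Act_evp, h1]
    funext j
    show eval p ((lp k p • w) j) = 0
    rw [Pi.smul_apply, smul_eq_mul, map_mul, eval_lp_self, zero_mul]
  obtain ⟨v', -, hv'⟩ := dvd_of_evp hp (Act_homV v (i + 1)) h2
  have hv'N : v' ∈ N := hS (lp k p) (lp_ne_zero hp) v' (by rw [← hv']; exact hv1N)
  refine ⟨v', hv'N, ?_⟩
  have h3 : lp k p • Matrix.mulVecLin (M.map (C : k →+* R k)) v' = lp k p • w := by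
    rw [← map_smul, ← hv']
    exact h1
  funext j
  have h4 := congrFun h3 j
  simp only [Pi.smul_apply, smul_eq_mul] at h4
  exact mul_left_cancel₀ (lp_ne_zero hp) h4

private theorem Act_degN (N : Submodule (R k) (Fin (m + 1) → R k)) (hG : Gr N)
    (M : Matrix (Fin (m + 1)) (Fin (m + 1)) k) (i : ℕ) :
    degN (act M N) i = (degN N i).map
      ((Matrix.mulVecLin (M.map (C : k →+* R k))).restrictScalars k) := by
  ext x
  constructor
  · rintro ⟨⟨v, hv, hvx⟩, hx⟩
    have hx' : HomV i x := fun j => (mem_homogeneousSubmodule i (x j)).1 (hx j (Set.mem_univ j))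
    refine ⟨fun j => homogeneousComponent i (v j), ⟨hG v hv i, ?_⟩, ?_⟩
    · intro j _
      exact (mem_homogeneousSubmodule i _).2 (homogeneousComponent_isHomogeneous i (v j))
    · show Matrix.mulVecLin (M.map (C : k →+* R k)) (fun j => homogeneousComponent i (v j)) = x
      rw [← Act_hc, ← Act_hc_self hx']
      funext j
      rw [hvx]
  · rintro ⟨v, ⟨hv, hvi⟩, rfl⟩
    refine ⟨⟨v, hv, rfl⟩, ?_⟩
    have hv' : HomV i v := fun j => (mem_homogeneousSubmodule i (v j)).1 (hvi j (Set.mem_univ j))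
    intro j _
    show Matrix.mulVecLin (M.map (C : k →+* R k)) v j ∈ homogeneousSubmodule (Fin 2) k i
    rw [← Act_hc_self hv', ← Act_hc]
    exact (mem_homogeneousSubmodule i _).2 (homogeneousComponent_isHomogeneous i _)

theorem act_hN [Infinite k] {N : Submodule (R k) (Fin (m + 1) → R k)} (hG : Gr N)
    {M : Matrix (Fin (m + 1)) (Fin (m + 1)) k} (hM : InjOn M N) (i : ℕ) :
    hN (act M N) i = hN N i := by
  unfold hN
  rw [Act_degN N hG M i, ← LinearMap.range_domRestrict, LinearMap.finrank_range_of_inj]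
  rw [← LinearMap.ker_eq_bot, LinearMap.ker_eq_bot']
  rintro ⟨v, hv⟩ h
  apply Subtype.ext
  exact Act_inj hM hv.1 h

theorem act_rk [Infinite k] {N : Submodule (R k) (Fin (m + 1) → R k)}
    {M : Matrix (Fin (m + 1)) (Fin (m + 1)) k} (hM : InjOn M N) {r : ℕ} (h : Rk r N) :
    Rk r (act M N) := by
  intro w hw hli
  choose v hv hvw using hw
  refine h v hv ?_
  apply LinearIndependent.of_comp (Matrix.mulVecLin (M.map (C : k →+* R k)))
  have : (Matrix.mulVecLin (M.map (C : k →+* R k))) ∘ v = w := funext hvw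
  rw [this]
  exact hli

theorem act_ind [Infinite k] {N : Submodule (R k) (Fin (m + 1) → R k)}
    {M : Matrix (Fin (m + 1)) (Fin (m + 1)) k} (hM : InjOn M N) {r : ℕ} (h : Ind r N) :
    Ind r (act M N) := by
  obtain ⟨v, hv, hli⟩ := h
  refine ⟨fun i => Matrix.mulVecLin (M.map (C : k →+* R k)) (v i), fun i => ⟨v i, hv i, rfl⟩, ?_⟩
  apply hli.map (f := Matrix.mulVecLin (M.map (C : k →+* R k)))
  rw [Submodule.disjoint_def]
  intro x hx hx0
  have hxN : x ∈ N := by
    have : Submodule.span (R k) (Set.range v) ≤ N := by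
      rw [Submodule.span_le]
      rintro _ ⟨i, rfl⟩
      exact hv i
    exact this hx
  exact Act_inj hM hxN hx0

theorem Np_act (N : Submodule (R k) (Fin (m + 1) → R k))
    (M : Matrix (Fin (m + 1)) (Fin (m + 1)) k) (p : Fin 2 → k) :
    Np p (act M N) = (Np p N).map M.mulVecLin := by
  ext w
  constructor
  · rintro ⟨_, ⟨v, hv, rfl⟩, rfl⟩
    refine ⟨evp p v, ⟨v, hv, rfl⟩, ?_⟩
    rw [Act_evp, Matrix.mulVecLin_apply]
  · rintro ⟨_, ⟨v, hv, rfl⟩, rfl⟩
    refine ⟨_, ⟨v, hv, rfl⟩, ?_⟩
    rw [Act_evp, Matrix.mulVecLin_apply]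

end MP_06793c_ag
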