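import Pool.Agent.Lib.MP_06793c_ag.PG.Defs

/-!
# Membership in `KN`
-/

namespace MP_06793c_ag

open MvPolynomial

universe u

variable {k : Type u} [Field k] {m : ℕ}

private theorem Mem_inj : Function.Injective (![0, 1] : Fin 2 → Fin 4) := by
  intro i j hij
  fin_cases i <;> fin_cases j <;> simp_all

/-- the exponents of `x0`, `x1` -/
private noncomputable def Mem_lo (s : Fin 4 →₀ ℕ) : Fin 2 →₀ ℕ := Finsupp.equivFunOnFinite.symm ![s 0, s 1]

private theorem Mem_lo0 (s : Fin 4 →₀ ℕ) : Mem_lo s 0 = s 0 := by simp [Mem_lo]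

private theorem Mem_lo1 (s : Fin 4 →₀ ℕ) : Mem_lo s 1 = s 1 := by simp [Mem_lo]

private theorem Mem_map (u : Fin 2 →₀ ℕ) : (u.mapDomain (![0, 1] : Fin 2 → Fin 4)) 0 = u 0 ∧
    (u.mapDomain (![0, 1] : Fin 2 → Fin 4)) 1 = u 1 ∧ (u.mapDomain (![0, 1] : Fin 2 → Fin 4)) 2 = 0 ∧
    (u.mapDomain (![0, 1] : Fin 2 → Fin 4)) 3 = 0 := by
  refine ⟨?_, ?_, ?_, ?_⟩
  · exact Finsupp.mapDomain_apply Mem_inj u 0
  · exact Finsupp.mapDomain_apply Mem_inj u 1
  · apply Finsupp.mapDomain_of_notMem_range
    rintro ⟨i, hi⟩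
    fin_cases i <;> simp at hi
  · apply Finsupp.mapDomain_of_notMem_range
    rintro ⟨i, hi⟩
    fin_cases i <;> simp at hi

/-- the exponents of `x2^a x3^b` -/
private noncomputable def Mem_e (a b : ℕ) : Fin 4 →₀ ℕ := Finsupp.single 2 a + Finsupp.single 3 b

private theorem Mem_e_apply (a b : ℕ) : Mem_e a b 0 = 0 ∧ Mem_e a b 1 = 0 ∧ Mem_e a b 2 = a ∧ Mem_e a b 3 = b := by
  simp [Mem_e]

private theorem Mem_mon (j : Fin (m + 1)) : mon k m j = monomial (Mem_e j (m - j)) 1 := by
  rw [mon, X_pow_eq_monomial, X_pow_eq_monomial, monomial_mul, one_mul, Mem_e]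

private theorem Mem_coeff1 (p : R k) (j : Fin (m + 1)) (s : Fin 4 →₀ ℕ) :
    coeff s (io k p * mon k m j) = if s 2 = j ∧ s 3 = m - j then coeff (Mem_lo s) p else 0 := by
  obtain ⟨e0, e1, e2, e3⟩ := Mem_e_apply (j : ℕ) (m - j)
  rw [Mem_mon, coeff_mul_monomial', mul_one]
  by_cases h : s 2 = j ∧ s 3 = m - j
  · rw [if_pos h]
    have hle : Mem_e j (m - j) ≤ s := by
      intro i
      fin_cases i
      · show Mem_e _ _ 0 ≤ s 0
        omega
      · show Mem_e _ _ 1 ≤ s 1
        omega
      · show Mem_e _ _ 2 ≤ s 2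
        omega
      · show Mem_e _ _ 3 ≤ s 3
        omega
    rw [if_pos hle]
    have h1 : s - Mem_e j (m - j) = (Mem_lo s).mapDomain (![0, 1] : Fin 2 → Fin 4) := by
      obtain ⟨m0, m1, m2, m3⟩ := Mem_map (Mem_lo s)
      have l0 := Mem_lo0 s
      have l1 := Mem_lo1 s
      ext i
      rw [Finsupp.tsub_apply]
      fin_cases i
      · show s 0 - Mem_e _ _ 0 = (Finsupp.mapDomain _ _) 0
        omega
      · show s 1 - Mem_e _ _ 1 = (Finsupp.mapDomain _ _) 1
        omega
      · show s 2 - Mem_e _ _ 2 = (Finsupp.mapDomain _ _) 2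
        omega
      · show s 3 - Mem_e _ _ 3 = (Finsupp.mapDomain _ _) 3
        omega
    rw [h1, io, coeff_rename_mapDomain _ Mem_inj]
  · rw [if_neg h]
    split_ifs with hle
    · apply coeff_rename_eq_zero
      intro u hu
      exfalso
      apply h
      obtain ⟨m0, m1, m2, m3⟩ := Mem_map u
      have h2 := DFunLike.congr_fun hu 2
      have h3 := DFunLike.congr_fun hu 3
      rw [Finsupp.tsub_apply] at h2 h3
      have h4 := hle 2
      have h5 := hle 3
      omega
    · rfl

private theorem Mem_coeff (v : Fin (m + 1) → R k) (s : Fin 4 →₀ ℕ) :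
    coeff s (em k m v) = if h : s 2 + s 3 = m then coeff (Mem_lo s) (v ⟨s 2, by omega⟩) else 0 := by
  unfold em
  rw [coeff_sum]
  simp only [Mem_coeff1]
  split_ifs with h
  · rw [Finset.sum_eq_single ⟨s 2, by omega⟩]
    · rw [if_pos]
      exact ⟨rfl, by simp only []; omega⟩
    · intro j _ hj
      rw [if_neg]
      rintro ⟨h1, -⟩
      exact hj (Fin.ext h1.symm)
    · intro h1
      exact absurd (Finset.mem_univ _) h1
  · refine Finset.sum_eq_zero fun j _ => ?_
    rw [if_neg]
    rintro ⟨h1, h2⟩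
    have := j.2
    omega

/-- the exponent of `x^u x2^j x3^(m-j)` -/
private noncomputable def Mem_hi (m : ℕ) (u : Fin 2 →₀ ℕ) (j : Fin (m + 1)) : Fin 4 →₀ ℕ :=
  u.mapDomain (![0, 1] : Fin 2 → Fin 4) + Mem_e j (m - j)

private theorem Mem_hi_apply (u : Fin 2 →₀ ℕ) (j : Fin (m + 1)) : Mem_hi m u j 0 = u 0 ∧ Mem_hi m u j 1 = u 1 ∧
    Mem_hi m u j 2 = j ∧ Mem_hi m u j 3 = m - j := by
  obtain ⟨m0, m1, m2, m3⟩ := Mem_map u
  obtain ⟨e0, e1, e2, e3⟩ := Mem_e_apply (j : ℕ) (m - j)
  unfold Mem_hi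
  simp only [Finsupp.add_apply]
  omega

private theorem Mem_lo_hi (u : Fin 2 →₀ ℕ) (j : Fin (m + 1)) : Mem_lo (Mem_hi m u j) = u := by
  obtain ⟨h0, h1, -, -⟩ := Mem_hi_apply u j
  ext i
  fin_cases i
  · exact (Mem_lo0 _).trans h0
  · exact (Mem_lo1 _).trans h1

private theorem Mem_coeff_hi (v : Fin (m + 1) → R k) (u : Fin 2 →₀ ℕ) (j : Fin (m + 1)) :
    coeff (Mem_hi m u j) (em k m v) = coeff u (v j) := by
  obtain ⟨h0, h1, h2, h3⟩ := Mem_hi_apply u j
  have hj := j.2
  rw [Mem_coeff, dif_pos (by omega), Mem_lo_hi]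
  congr 2
  exact Fin.ext h2

theorem mem_pow23 (j : ℕ) (f : S k) :
    f ∈ (Ideal.span {X 2, X 3} : Ideal (S k)) ^ j ↔ ∀ s ∈ f.support, j ≤ s 2 + s 3 := by
  classical
  constructor
  · induction j generalizing f with
    | zero => exact fun _ s _ => Nat.zero_le _
    | succ j ih =>
      intro hf
      rw [pow_succ] at hf
      refine Submodule.mul_induction_on hf ?_ ?_
      · intro a ha b hb s hs
        obtain ⟨s1, h1, s2, h2, rfl⟩ := Finset.mem_add.mp (MvPolynomial.support_mul _ _ hs)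
        have h3 := ih a ha s1 h1
        have h4 : s2 2 ≠ 0 ∨ s2 3 ≠ 0 := by
          have h5 : (({X 2, X 3} : Set (S k))) = X '' ({2, 3} : Set (Fin 4)) := by
            rw [Set.image_pair]
          rw [h5, mem_ideal_span_X_image] at hb
          obtain ⟨i, hi, h6⟩ := hb s2 h2
          rcases hi with rfl | hi
          · exact Or.inl h6
          · rw [Set.mem_singleton_iff] at hi
            rw [hi] at h6
            exact Or.inr h6
        simp only [Finsupp.add_apply]
        omega
      · intro a b ha hb s hs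
        rcases Finset.mem_union.mp (MvPolynomial.support_add hs) with h | h
        · exact ha s h
        · exact hb s h
  · intro hf
    rw [← support_sum_monomial_coeff f]
    refine Ideal.sum_mem _ fun s hs => ?_
    rw [monomial_eq, Finsupp.prod_fintype _ _ (fun i => pow_zero _), Fin.prod_univ_four]
    have h1 : (X 2 : S k) ^ s 2 * X 3 ^ s 3 ∈ (Ideal.span {X 2, X 3} : Ideal (S k)) ^ j := by
      refine Ideal.pow_le_pow_right (hf s hs) ?_
      rw [pow_add]
      exact Ideal.mul_mem_mul (Ideal.pow_mem_pow (Ideal.subset_span (by simp)) _)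
        (Ideal.pow_mem_pow (Ideal.subset_span (by simp)) _)
    have h2 : C (coeff s f) * (X 0 ^ s 0 * X 1 ^ s 1 * X 2 ^ s 2 * X 3 ^ s 3) =
        (C (coeff s f) * (X 0 ^ s 0 * X 1 ^ s 1)) * ((X 2 : S k) ^ s 2 * X 3 ^ s 3) := by ring
    rw [h2]
    exact Ideal.mul_mem_left _ _ h1

theorem support_em (v : Fin (m + 1) → R k) : ∀ s ∈ (em k m v).support, s 2 + s 3 = m := by
  intro s hs
  rw [mem_support_iff, Mem_coeff] at hs
  by_contra h
  rw [dif_neg h] at hs
  exact hs rfl

theorem em_inj {v w : Fin (m + 1) → R k} (h : em k m v = em k m w) : v = w := by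
  funext j
  ext u
  rw [← Mem_coeff_hi, ← Mem_coeff_hi, h]

private theorem Mem_add (v w : Fin (m + 1) → R k) : em k m (v + w) = em k m v + em k m w := by
  simp only [em, Pi.add_apply, map_add, add_mul, Finset.sum_add_distrib]

private theorem Mem_zero : em k m 0 = 0 := by
  simp [em]

private theorem Mem_sub (v w : Fin (m + 1) → R k) : em k m (v - w) = em k m v - em k m w := by
  have h := Mem_add (v - w) w
  rw [sub_add_cancel] at h
  rw [h, add_sub_cancel_right]

/-- All polynomials whose monomials have degree `m` in `x2, x3` are of the form `em v`. -/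
theorem exists_em {f : S k} (hf : ∀ s ∈ f.support, s 2 + s 3 = m) : ∃ v, f = em k m v := by
  classical
  have key : ∀ T : Finset (Fin 4 →₀ ℕ), (∀ s ∈ T, s 2 + s 3 = m) →
      ∃ v, ∑ s ∈ T, monomial s (coeff s f) = em k m v := by
    intro T
    induction T using Finset.induction_on with
    | empty => exact fun _ => ⟨0, by rw [Finset.sum_empty, Mem_zero]⟩
    | insert s T hs ih =>
      intro h
      obtain ⟨v, hv⟩ := ih fun t ht => h t (Finset.mem_insert_of_mem ht)
      have h1 := h s (Finset.mem_insert_self _ _)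
      refine ⟨(Pi.single (⟨s 2, by omega⟩ : Fin (m + 1)) (monomial (Mem_lo s) (coeff s f)) :
        Fin (m + 1) → R k) + v, ?_⟩
      rw [Finset.sum_insert hs, Mem_add, hv]
      congr 1
      ext t
      rw [Mem_coeff, coeff_monomial]
      by_cases h2 : s = t
      · subst h2
        rw [if_pos rfl, dif_pos h1, Pi.single_eq_same, coeff_monomial, if_pos rfl]
      · rw [if_neg h2]
        split_ifs with h3
        · by_cases h4 : t 2 = s 2
          · have h5 : (⟨t 2, by omega⟩ : Fin (m + 1)) = ⟨s 2, by omega⟩ := Fin.ext h4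
            rw [h5, Pi.single_eq_same, coeff_monomial, if_neg]
            intro h6
            apply h2
            have h7 := DFunLike.congr_fun h6 0
            have h8 := DFunLike.congr_fun h6 1
            rw [Mem_lo0, Mem_lo0] at h7
            rw [Mem_lo1, Mem_lo1] at h8
            ext i
            fin_cases i
            · exact h7
            · exact h8
            · exact h4.symm
            · show s 3 = t 3
              omega
          · have h5 : (⟨t 2, by omega⟩ : Fin (m + 1)) ≠ ⟨s 2, by omega⟩ := fun h6 => h4 (Fin.mk.inj h6)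
            rw [Pi.single_eq_of_ne h5, coeff_zero]
        · rfl
  obtain ⟨v, hv⟩ := key f.support hf
  exact ⟨v, by rw [← hv, support_sum_monomial_coeff]⟩

theorem em_homog {v : Fin (m + 1) → R k} {i : ℕ} : HomV i v ↔ (em k m v).IsHomogeneous (i + m) := by
  have w2 : ∀ d : Fin 2 →₀ ℕ, Finsupp.weight 1 d = d 0 + d 1 := by
    intro d
    simp [Finsupp.weight_apply, Finsupp.sum_fintype, Fin.sum_univ_two]
  have w4 : ∀ d : Fin 4 →₀ ℕ, Finsupp.weight 1 d = d 0 + d 1 + d 2 + d 3 := by
    intro d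
    simp [Finsupp.weight_apply, Finsupp.sum_fintype, Fin.sum_univ_four]
  constructor
  · intro h s hs
    have h1 := support_em v s (mem_support_iff.2 hs)
    rw [Mem_coeff, dif_pos h1] at hs
    have h2 := h _ hs
    rw [w2, Mem_lo0, Mem_lo1] at h2
    rw [w4]
    omega
  · intro h j u hu
    rw [← Mem_coeff_hi] at hu
    have h1 := h hu
    obtain ⟨h2, h3, h4, h5⟩ := Mem_hi_apply u j
    have hj := j.2
    rw [w4] at h1
    rw [w2]
    omega

private theorem Mem_io_em (r : R k) (v : Fin (m + 1) → R k) : io k r * em k m v = em k m (r • v) := by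
  simp only [em, Pi.smul_apply, smul_eq_mul, map_mul, Finset.mul_sum, mul_assoc]

private theorem Mem_em_pow (v : Fin (m + 1) → R k) : em k m v ∈ (Ideal.span {X 2, X 3} : Ideal (S k)) ^ m := by
  rw [mem_pow23]
  exact fun s hs => (support_em v s hs).ge

private theorem Mem_red (c : S k) : ∃ r : R k, c - io k r ∈ (Ideal.span {X 2, X 3} : Ideal (S k)) := by
  refine ⟨aeval (![X 0, X 1, 0, 0] : Fin 4 → R k) c, ?_⟩
  rw [← Ideal.Quotient.eq]
  have h : (Ideal.Quotient.mkₐ k (Ideal.span {X 2, X 3} : Ideal (S k))) =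
      ((Ideal.Quotient.mkₐ k (Ideal.span {X 2, X 3} : Ideal (S k))).comp (io k)).comp
        (aeval (![X 0, X 1, 0, 0] : Fin 4 → R k)) := by
    apply MvPolynomial.algHom_ext
    intro i
    fin_cases i
    · simp [io]
    · simp [io]
    · simp [io, Ideal.Quotient.eq_zero_iff_mem]
      exact Ideal.subset_span (by simp)
    · simp [io, Ideal.Quotient.eq_zero_iff_mem]
      exact Ideal.subset_span (by simp)
  exact DFunLike.congr_fun h c

theorem mem_KN (N : Submodule (R k) (Fin (m + 1) → R k)) (f : S k) :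
    f ∈ KN k m (N : Set (Fin (m + 1) → R k)) ↔
      ∃ v ∈ N, f - em k m v ∈ (Ideal.span {X 2, X 3} : Ideal (S k)) ^ (m + 1) := by
  constructor
  · intro hf
    unfold KN at hf
    obtain ⟨a, ha, b, hb, rfl⟩ := Submodule.mem_sup.1 hf
    have key : ∃ v ∈ N, a - em k m v ∈ (Ideal.span {X 2, X 3} : Ideal (S k)) ^ (m + 1) := by
      refine Submodule.span_induction ?_ ?_ ?_ ?_ ha
      · rintro _ ⟨v, hv, rfl⟩
        exact ⟨v, hv, by rw [sub_self]; exact zero_mem _⟩
      · exact ⟨0, N.zero_mem, by rw [Mem_zero, sub_zero]; exact zero_mem _⟩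
      · rintro x y _ _ ⟨v, hv, h1⟩ ⟨w, hw, h2⟩
        refine ⟨v + w, N.add_mem hv hw, ?_⟩
        have h3 : x + y - em k m (v + w) = (x - em k m v) + (y - em k m w) := by
          rw [Mem_add]
          ring
        rw [h3]
        exact Ideal.add_mem _ h1 h2
      · rintro c x _ ⟨v, hv, h1⟩
        obtain ⟨r, hr⟩ := Mem_red c
        refine ⟨r • v, N.smul_mem r hv, ?_⟩
        have h3 : c • x - em k m (r • v) = c * (x - em k m v) + em k m v * (c - io k r) := by
          rw [← Mem_io_em, smul_eq_mul]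
          ring
        rw [h3]
        refine Ideal.add_mem _ (Ideal.mul_mem_left _ _ h1) ?_
        rw [pow_succ]
        exact Ideal.mul_mem_mul (Mem_em_pow v) hr
    obtain ⟨v, hv, h1⟩ := key
    refine ⟨v, hv, ?_⟩
    have h2 : a + b - em k m v = (a - em k m v) + b := by ring
    rw [h2]
    exact Ideal.add_mem _ h1 hb
  · rintro ⟨v, hv, h⟩
    have h1 : f = em k m v + (f - em k m v) := by ring
    rw [h1]
    exact Submodule.mem_sup.2 ⟨_, Ideal.subset_span ⟨v, hv, rfl⟩, _, h, rfl⟩

theorem em_mem_KN (N : Submodule (R k) (Fin (m + 1) → R k)) (v : Fin (m + 1) → R k) :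
    em k m v ∈ KN k m (N : Set (Fin (m + 1) → R k)) ↔ v ∈ N := by
  constructor
  · intro h
    obtain ⟨w, hw, h1⟩ := (mem_KN N _).1 h
    rw [← Mem_sub, mem_pow23] at h1
    have h2 : em k m (v - w) = 0 := by
      rw [← support_eq_empty, Finset.eq_empty_iff_forall_notMem]
      intro s hs
      have h3 := h1 s hs
      have h4 := support_em _ s hs
      omega
    have h3 := em_inj (h2.trans Mem_zero.symm)
    rw [sub_eq_zero.1 h3]
    exact hw
  · intro h
    exact (mem_KN N _).2 ⟨v, h, by rw [sub_self]; exact zero_mem _⟩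

end MP_06793c_ag
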