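import Pool.Agent.Lib.MP_06793c_ag.PG.Pw
import Pool.Agent.Lib.MP_06793c_ag.PG.Mem

/-!
# The Koszul relations generate the kernel of a row in large degrees
-/

namespace MP_06793c_ag

open MvPolynomial

universe u

variable {k : Type u} [Field k] {m : ℕ}

/-- If `F ≤ I` and a power of `mm` multiplies `I` into `F`, then they agree. -/
theorem agree_of_mul {F I : Ideal (S k)} (h : F ≤ I) {L : ℕ} (hL : mm k ^ L * I ≤ F) :
    Agree k F I := by
  obtain ⟨c, hc⟩ := Ideal.exists_pow_inf_eq_pow_smul (mm k) (I : Ideal (S k))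
  have hc2 := hc (c + L) (by omega)
  have e1 : (mm k ^ (c + L) • (⊤ : Submodule (S k) (S k))) = mm k ^ (c + L) := by
    rw [smul_eq_mul, Ideal.mul_top]
  rw [e1, Nat.add_sub_cancel_left] at hc2
  refine ⟨c + L, le_antisymm (inf_le_inf_right _ h) (le_inf ?_ inf_le_right)⟩
  rw [inf_comm]
  refine (le_of_eq hc2).trans (le_trans ?_ hL)
  rw [smul_eq_mul]
  exact Ideal.mul_mono_right inf_le_right

private theorem em_add (v w : Fin (m + 1) → R k) : em k m (v + w) = em k m v + em k m w := by
  simp only [em, Pi.add_apply, map_add, add_mul, Finset.sum_add_distrib]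

private theorem em_zero : em k m (0 : Fin (m + 1) → R k) = 0 := by
  simp only [em, Pi.zero_apply, map_zero, zero_mul, Finset.sum_const_zero]

private theorem em_smul (c : R k) (v : Fin (m + 1) → R k) :
    em k m (c • v) = io k c * em k m v := by
  simp only [em, Pi.smul_apply, smul_eq_mul, map_mul, Finset.mul_sum, mul_assoc]

private theorem em_span {s : Set (Fin (m + 1) → R k)} {w : Fin (m + 1) → R k}
    (hw : w ∈ Submodule.span (R k) s) : em k m w ∈ Ideal.span (em k m '' s) := by
  induction hw using Submodule.span_induction with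
  | mem x hx => exact Ideal.subset_span ⟨x, hx, rfl⟩
  | zero => rw [em_zero]; exact Ideal.zero_mem _
  | add x y _ _ hx hy => rw [em_add]; exact Ideal.add_mem _ hx hy
  | smul a x _ hx => rw [em_smul]; exact Ideal.mul_mem_left _ _ hx

private theorem kos_sub {r : ℕ} {q : Fin (m + 1) → R k} :
    kos k m r q ⊆ (Nq r q : Set (Fin (m + 1) → R k)) := by
  rintro v ⟨i, j, hi, hj, rfl⟩
  refine ⟨fun l hl => ?_, ?_⟩
  · have h1 : l ≠ i := by
      rintro rfl
      omega
    have h2 : l ≠ j := by
      rintro rfl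
      omega
    simp only [Pi.sub_apply, Pi.single_eq_of_ne h1, Pi.single_eq_of_ne h2, sub_zero]
  · simp only [Pi.sub_apply, mul_sub, Finset.sum_sub_distrib]
    have h1 : ∀ (a : Fin (m + 1)) (c : R k), ∑ l, q l * (Pi.single a c : Fin (m + 1) → R k) l = q a * c := by
      intro a c
      rw [Finset.sum_eq_single a]
      · rw [Pi.single_eq_same]
      · intro b _ hb
        rw [Pi.single_eq_of_ne hb, mul_zero]
      · intro h
        exact absurd (Finset.mem_univ _) h
    rw [h1, h1]
    ring

private theorem kos_comb {r : ℕ} {q : Fin (m + 1) → R k}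
    (h0 : ∀ j : Fin (m + 1), r < (j : ℕ) → q j = 0) {x : R k} (hx : x ∈ Ideal.span (Set.range q))
    {v : Fin (m + 1) → R k} (hv : v ∈ Nq r q) :
    x • v ∈ Submodule.span (R k) (kos k m r q) := by
  classical
  obtain ⟨c, hc⟩ := Ideal.mem_span_range_iff_exists_fun.1 hx
  have hv1 : ∀ j : Fin (m + 1), r < (j : ℕ) → v j = 0 := hv.1
  have hv2 : ∑ j, q j * v j = 0 := hv.2
  obtain ⟨a, ha⟩ : ∃ a : Fin (m + 1) → R k, a = fun i : Fin (m + 1) => if (i : ℕ) ≤ r then c i else 0 :=
    ⟨_, rfl⟩
  have hax : ∑ i, a i * q i = x := by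
    rw [← hc]
    refine Finset.sum_congr rfl fun i _ => ?_
    rw [ha]
    by_cases hi : (i : ℕ) ≤ r
    · simp only [hi, if_true]
    · rw [h0 i (by omega), mul_zero, mul_zero]
  have key : x • v = ∑ i, ∑ j, (a i * v j) •
      ((Pi.single j (q i) : Fin (m + 1) → R k) - Pi.single i (q j)) := by
    funext l
    simp only [Pi.smul_apply, Finset.sum_apply, smul_eq_mul, Pi.sub_apply]
    have h1 : ∀ i, ∑ j, a i * v j * ((Pi.single j (q i) : Fin (m + 1) → R k) l - (Pi.single i (q j) : Fin (m + 1) → R k) l)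
        = a i * q i * v l - ∑ j, a i * v j * (Pi.single i (q j) : Fin (m + 1) → R k) l := by
      intro i
      simp only [mul_sub, Finset.sum_sub_distrib]
      congr 1
      rw [Finset.sum_eq_single l]
      · rw [Pi.single_eq_same]
        ring
      · intro b _ hb
        rw [Pi.single_eq_of_ne (Ne.symm hb), mul_zero]
      · intro h
        exact absurd (Finset.mem_univ _) h
    have h2 : ∀ i, ∑ j, a i * v j * (Pi.single i (q j) : Fin (m + 1) → R k) l = 0 := by
      intro i
      by_cases hi : l = i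
      · subst hi
        simp only [Pi.single_eq_same]
        have h3 : ∑ j, a l * v j * q j = a l * ∑ j, q j * v j := by
          rw [Finset.mul_sum]
          refine Finset.sum_congr rfl fun j _ => ?_
          ring
        rw [h3, hv2, mul_zero]
      · refine Finset.sum_eq_zero fun j _ => ?_
        rw [Pi.single_eq_of_ne hi, mul_zero]
    simp only [h1, h2, sub_zero]
    rw [← Finset.sum_mul, hax]
  rw [key]
  refine Submodule.sum_mem _ fun i _ => Submodule.sum_mem _ fun j _ => ?_
  by_cases hi : (i : ℕ) ≤ r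
  · by_cases hj : (j : ℕ) ≤ r
    · exact Submodule.smul_mem _ _ (Submodule.subset_span ⟨i, j, hi, hj, rfl⟩)
    · rw [hv1 j (by omega), mul_zero, zero_smul]
      exact Submodule.zero_mem _
  · have h4 : a i = 0 := by
      rw [ha]
      simp only [hi, if_false]
    rw [h4, zero_mul, zero_smul]
    exact Submodule.zero_mem _

/-- the ideal of the `x` with `x I ≤ F` -/
private def quo (F I : Ideal (S k)) : Ideal (S k) where
  carrier := {x | ∀ y ∈ I, x * y ∈ F}
  add_mem' := by
    intro a b ha hb y hy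
    rw [add_mul]
    exact F.add_mem (ha y hy) (hb y hy)
  zero_mem' := by
    intro y _
    rw [zero_mul]
    exact F.zero_mem
  smul_mem' := by
    intro c x hx y hy
    rw [smul_eq_mul, mul_assoc]
    exact F.mul_mem_left _ (hx y hy)

private theorem pow_quo {r : ℕ} {q : Fin (m + 1) → R k}
    (h0 : ∀ j : Fin (m + 1), r < (j : ℕ) → q j = 0) {x : R k} (hx : x ∈ Ideal.span (Set.range q)) :
    io k x ∈ quo (KN k m (kos k m r q)) (KN k m (Nq r q : Set (Fin (m + 1) → R k))) := by
  intro y hy
  obtain ⟨a, ha, b, hb, rfl⟩ := Submodule.mem_sup.1 hy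
  clear hy
  rw [mul_add]
  refine Ideal.add_mem _ ?_ (Ideal.mul_mem_left _ _ ((le_sup_right : _ ≤ KN k m (kos k m r q)) hb))
  induction ha using Submodule.span_induction with
  | mem z hz =>
    obtain ⟨v, hv, rfl⟩ := hz
    rw [← em_smul]
    exact (le_sup_left : _ ≤ KN k m (kos k m r q)) (em_span (kos_comb h0 hx hv))
  | zero => rw [mul_zero]; exact Ideal.zero_mem _
  | add z w _ _ hz hw => rw [mul_add]; exact Ideal.add_mem _ hz hw
  | smul c z _ hz =>
    rw [smul_eq_mul, mul_left_comm]
    exact Ideal.mul_mem_left _ _ hz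

private theorem pow_quo' {r : ℕ} {q : Fin (m + 1) → R k} {x : S k}
    (hx : x ∈ (Ideal.span {X 2, X 3} : Ideal (S k))) :
    x ^ (m + 1) ∈ quo (KN k m (kos k m r q)) (KN k m (Nq r q : Set (Fin (m + 1) → R k))) := by
  intro y _
  exact Ideal.mul_mem_right _ _ ((le_sup_right : _ ≤ KN k m (kos k m r q)) (Ideal.pow_mem_pow hx _))

theorem agree_kos [IsAlgClosed k] {nu : ℕ} {r : ℕ} (hr : r ≤ m) {q : Fin (m + 1) → R k}
    (hq : HomV nu q) (hz : NoZ q) (h0 : ∀ j : Fin (m + 1), r < (j : ℕ) → q j = 0) :
    Agree k (KN k m (kos k m r q)) (KN k m (Nq r q : Set (Fin (m + 1) → R k))) := by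
  obtain ⟨M, hM0, hM1⟩ := pow_mem_of_noZ hq hz
  have hrad : mm k ≤ (quo (KN k m (kos k m r q)) (KN k m (Nq r q : Set (Fin (m + 1) → R k)))).radical := by
    have h1 : ∀ i : Fin 4, (X i : S k) ∈
        (quo (KN k m (kos k m r q)) (KN k m (Nq r q : Set (Fin (m + 1) → R k)))).radical := by
      have e0 : io k (X 0 ^ M) = (X 0 : S k) ^ M := by
        rw [map_pow]
        simp [io]
      have e1 : io k (X 1 ^ M) = (X 1 : S k) ^ M := by
        rw [map_pow]
        simp [io]
      intro i
      fin_cases i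
      · refine ⟨M, ?_⟩
        have h2 := pow_quo h0 hM0
        rw [e0] at h2
        exact h2
      · refine ⟨M, ?_⟩
        have h2 := pow_quo h0 hM1
        rw [e1] at h2
        exact h2
      · exact ⟨m + 1, pow_quo' (Ideal.subset_span (by simp))⟩
      · exact ⟨m + 1, pow_quo' (Ideal.subset_span (by simp))⟩
    rw [mm, idealOfVars, Ideal.span_le]
    rintro _ ⟨i, rfl⟩
    exact h1 i
  obtain ⟨L, hL⟩ := Ideal.exists_pow_le_of_le_radical_of_fg hrad (IsNoetherian.noetherian _)
  refine agree_of_mul (sup_le_sup_right (Ideal.span_mono (Set.image_mono kos_sub)) _) (L := L) ?_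
  rw [Ideal.mul_le]
  intro a ha b hb
  exact hL ha b hb

end MP_06793c_ag
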