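import Pool.Agent.Lib.MP_06793c_ag.PG.NIs
import Pool.Agent.Lib.MP_06793c_ag.PG.Kos

/-!
# The ideal of leading forms agrees with `KN (NI m I)`
`tpj j f`: the part of f of degree j in x2, x3; `inI I` is generated by the tpj j f for f ∈ I with all
monomials of degree ≤ j in x2, x3.
Plan: inI ≤ KN: if j > m, tpj j f ∈ (x2,x3)^(m+1); if j = m: f = em v + u, v ∈ NI, tpj m f = em v;
if j < m: f = 0 by h0. For the converse, agree_of_mul is not needed: show directly, for n ≥ n0, every
homogeneous f ∈ KN of degree n is in inI: f = em v + f', v ∈ NI (homogeneous), f' in (x2,x3)^(m+1); em v ∈ inI;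
f' = ∑_{j>m} (its part f_j of degree j in x2,x3), each f_j homogeneous of degree n,
f_j = i + t by hg, t ∈ lt (m+1), so i = f_j - t ∈ I has top j part f_j. So KN_n ≤ inI for n ≥ n0; both
are homogeneous, so KN ⊓ mm^(n0) = inI ⊓ mm^(n0).
-/

namespace MP_06793c_ag

open MvPolynomial

universe u

variable {k : Type u} [Field k] {m : ℕ}

/-- The part of degree `j` in `x2, x3`. -/
noncomputable def tpj (j : ℕ) (f : S k) : S k :=
  f.support.sum fun s => if s 2 + s 3 = j then monomial s (coeff s f) else 0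

/-- The ideal of leading forms. -/
noncomputable def inI (I : Ideal (S k)) : Ideal (S k) :=
  Ideal.span {g | ∃ (j : ℕ) (f : S k), f ∈ I ∧ f ∈ lt k (j + 1) ∧ g = tpj j f}

private theorem AgI_coeff (j : ℕ) (f : S k) (s : Fin 4 →₀ ℕ) :
    coeff s (tpj j f) = if s 2 + s 3 = j then coeff s f else 0 := by
  classical
  have h1 : ∀ t : Fin 4 →₀ ℕ, coeff s (if t 2 + t 3 = j then monomial t (coeff t f) else 0) =
      if t = s then (if s 2 + s 3 = j then coeff s f else 0) else 0 := by
    intro t
    by_cases h : t = s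
    · subst h
      by_cases h' : t 2 + t 3 = j
      · simp [h']
      · simp [h']
    · by_cases h' : t 2 + t 3 = j
      · simp [h', h, coeff_monomial]
      · simp [h', h]
  rw [tpj, coeff_sum, Finset.sum_congr rfl fun t _ => h1 t, Finset.sum_ite_eq' f.support s]
  by_cases h : s ∈ f.support
  · simp [h]
  · have h2 : coeff s f = 0 := notMem_support_iff.mp h
    simp [h2]

private theorem AgI_supp {j : ℕ} {f : S k} {s : Fin 4 →₀ ℕ} (h : s ∈ (tpj j f).support) :
    s 2 + s 3 = j ∧ s ∈ f.support := by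
  rw [mem_support_iff, AgI_coeff] at h
  by_cases h' : s 2 + s 3 = j
  · rw [if_pos h'] at h
    exact ⟨h', mem_support_iff.mpr h⟩
  · rw [if_neg h'] at h
    exact absurd rfl h

private theorem AgI_lt {j : ℕ} {f : S k} (hf : f ∈ lt k (j + 1)) : f - tpj j f ∈ lt k j := by
  intro s hs
  rw [mem_support_iff, coeff_sub, AgI_coeff] at hs
  by_cases h' : s 2 + s 3 = j
  · rw [if_pos h', sub_self] at hs
    exact absurd rfl hs
  · rw [if_neg h', sub_zero] at hs
    have := hf s (mem_support_iff.mpr hs)
    omega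

private theorem AgI_le {I : Ideal (S k)} (h0 : ∀ f : S k, f ∈ I → f ∈ lt k m → f = 0) :
    inI I ≤ KN k m (NI m I : Set (Fin (m + 1) → R k)) := by
  refine Ideal.span_le.mpr ?_
  rintro g ⟨j, f, hf, hl, rfl⟩
  rcases lt_trichotomy j m with h | h | h
  · have h1 : f = 0 := h0 f hf fun s hs => lt_of_lt_of_le (hl s hs) h
    subst h1
    have h2 : tpj j (0 : S k) = 0 := by simp [tpj]
    rw [h2]
    exact Ideal.zero_mem _
  · subst h
    obtain ⟨v, hv⟩ := exists_em (m := j) (f := tpj j f) fun s hs => (AgI_supp hs).1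
    rw [SetLike.mem_coe, hv, em_mem_KN]
    refine ⟨f - tpj j f, AgI_lt hl, ?_⟩
    rw [← hv, add_sub_cancel]
    exact hf
  · refine Ideal.mem_sup_right ?_
    rw [mem_pow23]
    intro s hs
    have := (AgI_supp hs).1
    omega

private theorem AgI_hom {I : Ideal (S k)} {n₀ : ℕ}
    (hg : ∀ n ≥ n₀, ∀ f : S k, f.IsHomogeneous n → ∃ i ∈ I, ∃ t ∈ lt k (m + 1), f = i + t)
    {n : ℕ} (hn : n₀ ≤ n) {f : S k} (hf : f.IsHomogeneous n)
    (hK : f ∈ KN k m (NI m I : Set (Fin (m + 1) → R k))) : f ∈ inI I := by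
  classical
  obtain ⟨v, ⟨u, hu, hI⟩, hv⟩ := (mem_KN _ f).mp hK
  rw [mem_pow23] at hv
  have h1 : f = ∑ j ∈ f.support.image (fun s => s 2 + s 3), tpj j f := by
    ext s
    rw [coeff_sum, Finset.sum_congr rfl fun j _ => AgI_coeff j f s, Finset.sum_ite_eq]
    by_cases h : s ∈ f.support
    · rw [if_pos (Finset.mem_image_of_mem _ h)]
    · have h2 : coeff s f = 0 := notMem_support_iff.mp h
      simp [h2]
  rw [h1]
  refine Ideal.sum_mem _ fun j _ => ?_
  have hc : ∀ s : Fin 4 →₀ ℕ, s 2 + s 3 ≤ m → coeff s f = coeff s (em k m v) := by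
    intro s hs
    by_contra hne
    have h3 : s ∈ (f - em k m v).support := by
      rw [mem_support_iff, coeff_sub]
      exact sub_ne_zero.mpr hne
    have := hv s h3
    omega
  have he : ∀ s : Fin 4 →₀ ℕ, s 2 + s 3 ≠ m → coeff s (em k m v) = 0 := by
    intro s hs
    by_contra hne
    exact hs (support_em v s (mem_support_iff.mpr hne))
  rcases lt_trichotomy j m with h | h | h
  · have h2 : tpj j f = 0 := by
      ext s
      rw [AgI_coeff, coeff_zero]
      by_cases h' : s 2 + s 3 = j
      · rw [if_pos h', hc s (by omega), he s (by omega)]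
      · rw [if_neg h']
    rw [h2]
    exact Ideal.zero_mem _
  · subst h
    refine Ideal.subset_span ⟨j, em k j v + u, hI, ?_, ?_⟩
    · refine add_mem (fun s hs => ?_) (fun s hs => ?_)
      · rw [support_em v s hs]
        exact Nat.lt_succ_self j
      · exact lt_trans (hu s hs) (Nat.lt_succ_self j)
    · ext s
      rw [AgI_coeff, AgI_coeff]
      by_cases h' : s 2 + s 3 = j
      · rw [if_pos h', if_pos h', hc s (by omega), coeff_add]
        have h3 : coeff s u = 0 := by
          by_contra hne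
          have := hu s (mem_support_iff.mpr hne)
          omega
        rw [h3, add_zero]
      · rw [if_neg h', if_neg h']
  · have hh : (tpj j f).IsHomogeneous n := by
      intro s hs
      exact hf (mem_support_iff.mp (AgI_supp (mem_support_iff.mpr hs)).2)
    obtain ⟨i, hi, t, ht, hit⟩ := hg n hn _ hh
    refine Ideal.subset_span ⟨j, i, hi, ?_, ?_⟩
    · have h2 : i = tpj j f - t := by rw [hit, add_sub_cancel_right]
      rw [h2]
      refine sub_mem (fun s hs => ?_) (fun s hs => ?_)
      · rw [(AgI_supp hs).1]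
        exact Nat.lt_succ_self j
      · exact lt_trans (ht s hs) (by omega)
    · ext s
      rw [AgI_coeff j i]
      have h2 : coeff s (tpj j f) = coeff s i + coeff s t := by rw [hit, coeff_add]
      by_cases h' : s 2 + s 3 = j
      · rw [if_pos h', h2]
        have h3 : coeff s t = 0 := by
          by_contra hne
          have := ht s (mem_support_iff.mpr hne)
          omega
        rw [h3, add_zero]
      · rw [if_neg h', AgI_coeff, if_neg h']

theorem agree_inI {I : Ideal (S k)} (hI : IsHom I)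
    (h0 : ∀ f : S k, f ∈ I → f ∈ lt k m → f = 0)
    (hg : ∃ n₀ : ℕ, ∀ n ≥ n₀, ∀ f : S k, f.IsHomogeneous n →
      ∃ i ∈ I, ∃ t ∈ lt k (m + 1), f = i + t) :
    Agree k (inI I) (KN k m (NI m I : Set (Fin (m + 1) → R k))) := by
  obtain ⟨n₀, hg⟩ := hg
  refine ⟨n₀, le_antisymm (inf_le_inf_right _ (AgI_le h0)) ?_⟩
  rintro f ⟨hf, hm⟩
  refine ⟨?_, hm⟩
  have hK : IsHom (KN k m (NI m I : Set (Fin (m + 1) → R k))) :=
    isHom_KN _ fun v hv i => gr_NI hI v hv i
  rw [SetLike.mem_coe, ← sum_homogeneousComponent f]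
  refine Ideal.sum_mem _ fun n _ => ?_
  by_cases hn : n₀ ≤ n
  · exact AgI_hom hg hn (homogeneousComponent_isHomogeneous n f) (hK f hf n)
  · have h2 : homogeneousComponent n f = 0 := by
      ext s
      rw [coeff_homogeneousComponent, coeff_zero]
      by_cases h' : s.degree = n
      · rw [if_pos h']
        exact (mem_pow_idealOfVars_iff' _ _).mp hm s (by omega)
      · rw [if_neg h']
    rw [h2]
    exact Ideal.zero_mem _

end MP_06793c_ag
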