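import Pool.Agent.Lib.MP_06793c_ag.PG.Path

/-!
# Moving `V` to the first `r + 1` coordinates
Plan: choose an invertible matrix M with M V = {w | w j = 0 for j > r} (finrank V = r + 1: extend a
basis of V to a basis of k^(m+1)), G = (1 - X) • 1 + X • M (entries in k[X]), h = det G:
h(0) = 1, h(1) = det M ≠ 0. InjOn if det ≠ 0 is clear. gl_path from 0 to 1 (act 1 N = N). The values
of act M N lie in M V; so for v ∈ act M N and j > r, v j vanishes at all p ≠ 0, so v j = 0
(eq_zero_of_evp style).
-/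

namespace MP_06793c_ag

open MvPolynomial

universe u

variable {k : Type u} [Field k] {m : ℕ}

/-- A basis of `k^(m+1)` in which the elements of `V` have the last coordinates zero. -/
private theorem Ali_basis {r : ℕ} (hr : r ≤ m) (V : Submodule k (Fin (m + 1) → k))
    (hV : Module.finrank k V = r + 1) :
    ∃ M : Matrix (Fin (m + 1)) (Fin (m + 1)) k, M.det ≠ 0 ∧
      ∀ v ∈ V, ∀ j : Fin (m + 1), r < (j : ℕ) → M.mulVec v j = 0 := by
  classical
  obtain ⟨V', hc⟩ := Submodule.exists_isCompl V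
  have hV' : Module.finrank k V' = m - r := by
    have h1 := Submodule.finrank_add_eq_of_isCompl hc
    rw [hV, Module.finrank_fin_fun] at h1
    omega
  let b := Module.finBasisOfFinrankEq k V hV
  let b' := Module.finBasisOfFinrankEq k V' hV'
  have hm : r + 1 + (m - r) = m + 1 := by omega
  let e : Fin (r + 1) ⊕ Fin (m - r) ≃ Fin (m + 1) := finSumFinEquiv.trans (finCongr hm)
  let B : Module.Basis (Fin (m + 1)) k (Fin (m + 1) → k) :=
    ((b.prod b').map (Submodule.prodEquivOfIsCompl V V' hc)).reindex e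
  let L : (Fin (m + 1) → k) ≃ₗ[k] (Fin (m + 1) → k) := B.equivFun
  refine ⟨LinearMap.toMatrix' (L : (Fin (m + 1) → k) →ₗ[k] (Fin (m + 1) → k)), ?_, ?_⟩
  · have h1 : IsUnit (LinearMap.det (L : (Fin (m + 1) → k) →ₗ[k] (Fin (m + 1) → k))) :=
      LinearEquiv.isUnit_det' L
    rw [← LinearMap.det_toMatrix'] at h1
    exact h1.ne_zero
  · intro v hv j hj
    have h1 : (LinearMap.toMatrix' (L : (Fin (m + 1) → k) →ₗ[k] (Fin (m + 1) → k))).mulVec v = L v := by
      rw [← Matrix.toLin'_apply, Matrix.toLin'_toMatrix']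
      rfl
    rw [h1]
    have h2 : L v j = (b.prod b').repr ((Submodule.prodEquivOfIsCompl V V' hc).symm v) (e.symm j) := by
      change B.repr v j = _
      simp [B, Module.Basis.reindex, Module.Basis.map]
    rw [h2]
    have h3 : (Submodule.prodEquivOfIsCompl V V' hc).symm v = ((⟨v, hv⟩ : V), 0) := by
      rw [LinearEquiv.symm_apply_eq]
      simp
    rw [h3]
    rcases he : e.symm j with i | i
    · exfalso
      have h4 : j = e (Sum.inl i) := by rw [← he, Equiv.apply_symm_apply]
      have h5 : (j : ℕ) = i := by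
        rw [h4]
        simp [e]
      have := i.2
      omega
    · rw [Module.Basis.prod_repr_inr]
      simp

private theorem Ali_act_one (N : Submodule (R k) (Fin (m + 1) → R k)) : act 1 N = N := by
  unfold act
  have h : ((1 : Matrix (Fin (m + 1)) (Fin (m + 1)) k).map (C : k →+* R k)) = 1 := by
    exact Matrix.map_one _ (map_zero _) (map_one _)
  rw [h, Matrix.mulVecLin_one, Submodule.map_id]

theorem align_V [IsAlgClosed k] {d : ℕ} {g : ℤ} {r : ℕ} (hr : r ≤ m)
    {N : Submodule (R k) (Fin (m + 1) → R k)}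
    (hG : Gr N) (hS : Sat N) (hR : Rk r N) (hI : Ind r N)
    (hC : IsCurve k d g (KN k m (N : Set (Fin (m + 1) → R k))))
    (V : Submodule k (Fin (m + 1) → k)) (hV : Module.finrank k V = r + 1)
    (hN : ∀ p : Fin 2 → k, p ≠ 0 → Np p N ≤ V) :
    ∃ N' : Submodule (R k) (Fin (m + 1) → R k), Gr N' ∧ Sat N' ∧ Rk r N' ∧ Ind r N' ∧
      SameComp k d g (KN k m (N : Set (Fin (m + 1) → R k)))
        (KN k m (N' : Set (Fin (m + 1) → R k))) ∧
      IsCurve k d g (KN k m (N' : Set (Fin (m + 1) → R k))) ∧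
      ∀ v ∈ N', ∀ j : Fin (m + 1), r < (j : ℕ) → v j = 0 := by
  classical
  obtain ⟨M, hM, hMV⟩ := Ali_basis hr V hV
  obtain ⟨G, hGd⟩ : ∃ G : Matrix (Fin (m + 1)) (Fin (m + 1)) (Polynomial k), G = Matrix.of fun i j =>
      (1 - Polynomial.X) * Polynomial.C ((1 : Matrix (Fin (m + 1)) (Fin (m + 1)) k) i j) +
        Polynomial.X * Polynomial.C (M i j) := ⟨_, rfl⟩
  have hev : ∀ c : k, (G.det).eval c = (G.map (Polynomial.eval c)).det := by
    intro c
    have h1 := RingHom.map_det (Polynomial.evalRingHom c) G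
    rw [Polynomial.coe_evalRingHom] at h1
    rw [h1]
    rfl
  have h0 : G.map (Polynomial.eval 0) = 1 := by
    ext i j
    simp [hGd]
  have h1 : G.map (Polynomial.eval 1) = M := by
    ext i j
    simp [hGd]
  have hinj : ∀ c : k, (G.det).eval c ≠ 0 → InjOn (G.map (Polynomial.eval c)) N := by
    intro c hc p _ w _ hw
    rw [hev] at hc
    exact Matrix.eq_zero_of_mulVec_eq_zero hc hw
  have e0 : (G.det).eval 0 ≠ 0 := by
    rw [hev, h0, Matrix.det_one]
    exact one_ne_zero
  have e1 : (G.det).eval 1 ≠ 0 := by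
    rw [hev, h1]
    exact hM
  have hMi : InjOn M N := by
    have := hinj 1 e1
    rwa [h1] at this
  have hfam := gl_path hG hS G G.det hinj hC 0 1 e0 e1
  rw [h0, h1, Ali_act_one] at hfam
  refine ⟨act M N, act_gr hG M, act_sat hG hS hMi, act_rk hMi hR, act_ind hMi hI,
    ⟨hC, Relation.ReflTransGen.single hfam⟩, hfam.2.1, ?_⟩
  intro v hv j hj
  have key : (fun _ : Fin (m + 1) => v j) = 0 := by
    apply eq_zero_of_evp
    intro p hp
    have h2 : evp p v ∈ Np p (act M N) := ⟨v, hv, rfl⟩
    rw [Np_act] at h2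
    obtain ⟨u, hu, huv⟩ := h2
    have h3 := hMV u (hN p hp hu) j hj
    have h4 : eval p (v j) = 0 := by
      have h5 := congrFun huv j
      rw [Matrix.mulVecLin_apply, h3] at h5
      exact h5.symm
    funext i
    exact h4
  exact congrFun key j

end MP_06793c_ag
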