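import Pool.Agent.Lib.MP_06793c_ag.PG.SatL

/-!
# From all planes to the whole curve
`T n` = image of the forms of degree `n` in `Q = S/(I + lt (m+1))`. Its dimension is finite and
nonincreasing for large `n`, so eventually constant, and multiplication by `X0`, `X1` and by each
linear form `lp p` is bijective from `T n` to `T (n+1)` for large `n`. An eigenvector of
`X0⁻¹ X1` on `T n₁ ≠ 0` gives a contradiction.
-/

namespace MP_06793c_ag

open MvPolynomial

universe u

variable {k : Type u} [Field k] {m : ℕ}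

/-- `lt` is stable under `k[x0, x1]`. -/
private theorem GenA_lt_mul {m : ℕ} {u : S k} (hu : u ∈ lt k m) (c : R k) :
    io k c * u ∈ lt k m := by
  intro s hs
  obtain ⟨a, ha, b, hb, rfl⟩ := Finset.mem_add.mp (MvPolynomial.support_mul _ _ hs)
  have h1 : a 2 = 0 ∧ a 3 = 0 := by
    rw [io, support_rename_of_injective (by intro i j hij; fin_cases i <;> fin_cases j <;> simp_all)] at ha
    obtain ⟨t, -, rfl⟩ := Finset.mem_image.mp ha
    refine ⟨Finsupp.mapDomain_of_notMem_range _ _ ?_, Finsupp.mapDomain_of_notMem_range _ _ ?_⟩ <;>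
    · rintro ⟨i, hi⟩; fin_cases i <;> simp at hi
  have := hu b hb
  simp only [Finsupp.add_apply, h1.1, h1.2]; omega

/-- the subspace `I + lt (m+1)` -/
private noncomputable def GenA_V (m : ℕ) (I : Ideal (S k)) : Submodule k (S k) :=
  (I.restrictScalars k) ⊔ lt k (m + 1)

private theorem GenA_mem {I : Ideal (S k)} {f : S k} :
    f ∈ GenA_V m I ↔ ∃ i ∈ I, ∃ t ∈ lt k (m + 1), f = i + t := by
  rw [GenA_V, Submodule.mem_sup]
  constructor
  · rintro ⟨i, hi, t, ht, rfl⟩; exact ⟨i, hi, t, ht, rfl⟩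
  · rintro ⟨i, hi, t, ht, rfl⟩; exact ⟨i, hi, t, ht, rfl⟩

private theorem GenA_V_mul {I : Ideal (S k)} (c : R k) {f : S k} (hf : f ∈ GenA_V m I) :
    io k c * f ∈ GenA_V m I := by
  obtain ⟨i, hi, t, ht, rfl⟩ := GenA_mem.1 hf
  exact GenA_mem.2 ⟨_, I.mul_mem_left _ hi, _, GenA_lt_mul ht c, mul_add _ _ _⟩

/-- multiplication by `io c` on `S / V` -/
private noncomputable def GenA_mu (m : ℕ) (I : Ideal (S k)) (c : R k) :
    (S k ⧸ GenA_V m I) →ₗ[k] (S k ⧸ GenA_V m I) :=
  Submodule.mapQ _ _ (LinearMap.mulLeft k (io k c)) (fun _ hf => GenA_V_mul c hf)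

private theorem GenA_mu_mk (m : ℕ) (I : Ideal (S k)) (c : R k) (f : S k) :
    GenA_mu m I c (Submodule.Quotient.mk f) = Submodule.Quotient.mk (io k c * f) := rfl

private theorem GenA_mu_comm (m : ℕ) (I : Ideal (S k)) (c d : R k) (w : S k ⧸ GenA_V m I) :
    GenA_mu m I c (GenA_mu m I d w) = GenA_mu m I d (GenA_mu m I c w) := by
  obtain ⟨f, rfl⟩ := Submodule.Quotient.mk_surjective _ w
  simp only [GenA_mu_mk]
  rw [← mul_assoc, ← mul_assoc, mul_comm (io k c)]

/-- the image of the forms of degree `n` -/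
private noncomputable def GenA_T (m : ℕ) (I : Ideal (S k)) (n : ℕ) :
    Submodule k (S k ⧸ GenA_V m I) :=
  (homogeneousSubmodule (Fin 4) k n).map (Submodule.mkQ (GenA_V m I))

private theorem GenA_mem_T {I : Ideal (S k)} {n : ℕ} {w : S k ⧸ GenA_V m I} :
    w ∈ GenA_T m I n ↔ ∃ f : S k, f.IsHomogeneous n ∧ Submodule.Quotient.mk f = w := by
  rw [GenA_T, Submodule.mem_map]
  rfl

private instance GenA_fin (n : ℕ) : FiniteDimensional k (homogeneousSubmodule (Fin 4) k n) :=
  Module.Finite.iff_fg.2 (homogeneousSubmodule_fg _ _ n)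

private instance GenA_finT (m : ℕ) (I : Ideal (S k)) (n : ℕ) :
    FiniteDimensional k (GenA_T m I n) := by
  unfold GenA_T; infer_instance

private theorem GenA_lp_hom (p : Fin 2 → k) : (lp k p).IsHomogeneous 1 := by
  unfold lp
  refine IsHomogeneous.sub ?_ ?_
  · simpa using (isHomogeneous_C (Fin 2) (p 1)).mul (isHomogeneous_X k (0 : Fin 2))
  · simpa using (isHomogeneous_C (Fin 2) (p 0)).mul (isHomogeneous_X k (1 : Fin 2))

private theorem GenA_io_hom {r : R k} {n : ℕ} (hr : r.IsHomogeneous n) :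
    (io k r).IsHomogeneous n := by
  exact hr.rename_isHomogeneous

private theorem GenA_mu_T (I : Ideal (S k)) {r : R k} (hr : r.IsHomogeneous 1) {n : ℕ}
    {w : S k ⧸ GenA_V m I} (hw : w ∈ GenA_T m I n) : GenA_mu m I r w ∈ GenA_T m I (n + 1) := by
  obtain ⟨f, hf, rfl⟩ := GenA_mem_T.1 hw
  refine GenA_mem_T.2 ⟨io k r * f, ?_, rfl⟩
  have := (GenA_io_hom hr).mul hf
  rwa [add_comm] at this

/-- the restricted multiplication -/
private noncomputable def GenA_nu (m : ℕ) (I : Ideal (S k)) (r : R k) (hr : r.IsHomogeneous 1)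
    (n : ℕ) : GenA_T m I n →ₗ[k] GenA_T m I (n + 1) :=
  (GenA_mu m I r).restrict (fun _ hw => GenA_mu_T I hr hw)

private theorem GenA_hc_mul {L : S k} (hL : L.IsHomogeneous 1) (n : ℕ) (s : S k) :
    homogeneousComponent (n + 1) (L * s) = L * homogeneousComponent n s := by
  conv_lhs => rw [← sum_homogeneousComponent s]
  rw [Finset.mul_sum, map_sum]
  have : ∀ i, homogeneousComponent (n + 1) (L * homogeneousComponent i s) =
      if i = n then L * homogeneousComponent n s else 0 := by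
    intro i
    have h1 : L * homogeneousComponent i s ∈ homogeneousSubmodule (Fin 4) k (1 + i) :=
      hL.mul (homogeneousComponent_isHomogeneous i s)
    rw [homogeneousComponent_of_mem h1]
    by_cases hi : i = n
    · subst hi; rw [if_pos (add_comm _ _), if_pos rfl]
    · rw [if_neg (by omega), if_neg hi]
  simp only [this, Finset.sum_ite_eq']
  split_ifs with h
  · rfl
  · rw [homogeneousComponent_eq_zero _ _ (by simpa using h), mul_zero]

private theorem GenA_nu_surj {I : Ideal (S k)} (hI : IsHom I) {p : Fin 2 → k} {n₀ : ℕ}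
    (h : ∀ n ≥ n₀, ∀ f : S k, f.IsHomogeneous n →
      ∃ i ∈ I, ∃ t ∈ lt k (m + 1), ∃ s : S k, f = i + t + io k (lp k p) * s) {n : ℕ}
    (hn : n₀ ≤ n) : Function.Surjective (GenA_nu m I (lp k p) (GenA_lp_hom p) n) := by
  rintro ⟨w, hw⟩
  obtain ⟨f, hf, rfl⟩ := GenA_mem_T.1 hw
  obtain ⟨i, hi, t, ht, s, hs⟩ := h (n + 1) (by omega) f hf
  refine ⟨⟨Submodule.Quotient.mk (homogeneousComponent n s),
    GenA_mem_T.2 ⟨_, homogeneousComponent_isHomogeneous _ _, rfl⟩⟩, ?_⟩
  apply Subtype.ext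
  change Submodule.Quotient.mk (io k (lp k p) * homogeneousComponent n s) =
    Submodule.Quotient.mk f
  rw [Submodule.Quotient.eq]
  have h1 : f = homogeneousComponent (n + 1) i + homogeneousComponent (n + 1) t +
      io k (lp k p) * homogeneousComponent n s := by
    rw [← GenA_hc_mul (GenA_io_hom (GenA_lp_hom p)), ← map_add, ← map_add, ← hs]
    exact (homogeneousComponent_eq_self hf).symm
  have h2 : homogeneousComponent (n + 1) t ∈ lt k (m + 1) := fun s hs =>
    ht s (by rw [support_homogeneousComponent] at hs; exact (Finset.mem_filter.1 hs).1)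
  have h3 : homogeneousComponent (n + 1) i ∈ I := hI i hi (n + 1)
  rw [h1]
  have : io k (lp k p) * homogeneousComponent n s - (homogeneousComponent (n + 1) i +
      homogeneousComponent (n + 1) t + io k (lp k p) * homogeneousComponent n s) =
      (-homogeneousComponent (n + 1) i) + (-homogeneousComponent (n + 1) t) := by ring
  rw [this]
  exact GenA_mem.2 ⟨_, neg_mem h3, _, neg_mem h2, rfl⟩

private theorem GenA_const {d : ℕ → ℕ} {a : ℕ} (h : ∀ n ≥ a, d (n + 1) ≤ d n) :
    ∃ b ≥ a, ∀ n ≥ b, d (n + 1) = d n := by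
  obtain ⟨n, hn, hmin⟩ : ∃ n ≥ a, ∀ j ≥ a, d n ≤ d j := by
    have hne : ((fun n => d n) '' Set.Ici a).Nonempty := ⟨_, a, Set.mem_Ici.2 (le_refl a), rfl⟩
    obtain ⟨n, hn, hn2⟩ := Nat.sInf_mem hne
    exact ⟨n, hn, fun j hj => by
      have : sInf ((fun n => d n) '' Set.Ici a) ≤ d j := Nat.sInf_le ⟨j, hj, rfl⟩
      simp only at hn2; omega⟩
  refine ⟨n, hn, fun j hj => ?_⟩
  have h1 : ∀ i ≥ n, d i ≤ d n := by
    intro i hi
    induction i, hi using Nat.le_induction with
    | base => exact le_refl _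
    | succ i hi ih => exact (h i (by omega)).trans ih
  have h2 := h1 j hj
  have h3 := h1 (j + 1) (by omega)
  have h4 := hmin j (by omega)
  have h5 := hmin (j + 1) (by omega)
  omega

theorem gen_all [IsAlgClosed k] {I : Ideal (S k)} (hI : IsHom I)
    (hD : Dis k I (Ideal.span {X 0, X 1}))
    (h : ∀ p : Fin 2 → k, p ≠ 0 → ∃ n₀ : ℕ, ∀ n ≥ n₀, ∀ f : S k, f.IsHomogeneous n →
      ∃ i ∈ I, ∃ t ∈ lt k (m + 1), ∃ s : S k, f = i + t + io k (lp k p) * s) :
    ∃ n₀ : ℕ, ∀ n ≥ n₀, ∀ f : S k, f.IsHomogeneous n → ∃ i ∈ I, ∃ t ∈ lt k (m + 1), f = i + t := by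
  classical
  have _ := hD
  choose n₀ hn₀ using h
  have hsurj : ∀ (p : Fin 2 → k) (hp : p ≠ 0), ∀ n ≥ n₀ p hp,
      Function.Surjective (GenA_nu m I (lp k p) (GenA_lp_hom p) n) :=
    fun p hp n hn => GenA_nu_surj hI (hn₀ p hp) hn
  have hp0 : (![0, 1] : Fin 2 → k) ≠ 0 := by
    intro h; simpa using congr_fun h 1
  have hp1 : (![-1, 0] : Fin 2 → k) ≠ 0 := by
    intro h; simpa using congr_fun h 0
  obtain ⟨b, hb, hbc⟩ := GenA_const (d := fun n => Module.finrank k (GenA_T m I n))
    (a := n₀ _ hp0) (fun n hn => LinearMap.finrank_le_finrank_of_surjective (hsurj _ hp0 n hn))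
  have hinj : ∀ (p : Fin 2 → k) (hp : p ≠ 0), ∀ n ≥ b, n ≥ n₀ p hp →
      Function.Injective (GenA_nu m I (lp k p) (GenA_lp_hom p) n) := by
    intro p hp n hn hn2
    exact (LinearMap.injective_iff_surjective_of_finrank_eq_finrank (hbc n hn).symm).2
      (hsurj p hp n hn2)
  set n₁ := max b (n₀ _ hp1) with hn₁
  have hX0 : ∀ n ≥ n₁, Function.Injective (GenA_nu m I (lp k ![0, 1]) (GenA_lp_hom _) n) :=
    fun n hn => hinj _ hp0 n (by omega) (by omega)
  -- claim: `T n₁ = ⊥`
  have hbot : GenA_T m I n₁ = ⊥ := by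
    by_contra hne
    have hnt : Nontrivial (GenA_T m I n₁) := Submodule.nontrivial_iff_ne_bot.2 hne
    let e : GenA_T m I n₁ ≃ₗ[k] GenA_T m I (n₁ + 1) :=
      LinearEquiv.ofBijective (GenA_nu m I (lp k ![0, 1]) (GenA_lp_hom _) n₁)
        ⟨hX0 n₁ le_rfl, hsurj _ hp0 n₁ (by omega)⟩
    let φ : Module.End k (GenA_T m I n₁) :=
      e.symm.toLinearMap ∘ₗ GenA_nu m I (lp k ![-1, 0]) (GenA_lp_hom _) n₁
    obtain ⟨lam, hlam⟩ := Module.End.exists_eigenvalue φ
    obtain ⟨w, hw, hw0⟩ := hlam.exists_hasEigenvector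
    have hw1 : φ w = lam • w := Module.End.mem_eigenspace_iff.1 hw
    have hw2 : GenA_nu m I (lp k ![-1, 0]) (GenA_lp_hom _) n₁ w =
        lam • GenA_nu m I (lp k ![0, 1]) (GenA_lp_hom _) n₁ w := by
      have := congr_arg e hw1
      simp only [φ, LinearMap.comp_apply, LinearEquiv.coe_coe, LinearEquiv.apply_symm_apply,
        map_smul] at this
      exact this
    have hp : (![1, lam] : Fin 2 → k) ≠ 0 := by
      intro h; simpa using congr_fun h 0
    have hw3 : GenA_mu m I (lp k ![1, lam]) (w : S k ⧸ GenA_V m I) = 0 := by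
      have h1 : GenA_mu m I (lp k ![-1, 0]) (w : S k ⧸ GenA_V m I) =
          lam • GenA_mu m I (lp k ![0, 1]) (w : S k ⧸ GenA_V m I) :=
        congr_arg Subtype.val hw2
      have h2 : GenA_mu m I (lp k ![1, lam]) (w : S k ⧸ GenA_V m I) =
          lam • GenA_mu m I (lp k ![0, 1]) (w : S k ⧸ GenA_V m I) -
            GenA_mu m I (lp k ![-1, 0]) (w : S k ⧸ GenA_V m I) := by
        obtain ⟨f, hf⟩ := Submodule.Quotient.mk_surjective _ (w : S k ⧸ GenA_V m I)
        rw [← hf]
        simp only [GenA_mu_mk]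
        rw [← Submodule.Quotient.mk_smul, ← Submodule.Quotient.mk_sub]
        congr 1
        simp only [lp, map_sub, map_mul, smul_eq_C_mul]
        have hC : ∀ a : k, io k (C a) = C a := fun a => by simp [io]
        simp [hC]
        ring
      rw [h2, h1, sub_self]
    -- transport to large degrees
    have key : ∀ j : ℕ, ∃ w' : S k ⧸ GenA_V m I, w' ∈ GenA_T m I (n₁ + j) ∧ w' ≠ 0 ∧
        GenA_mu m I (lp k ![1, lam]) w' = 0 := by
      intro j
      induction j with
      | zero => exact ⟨w, w.2, fun h => hw0 (Subtype.ext h), hw3⟩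
      | succ j ih =>
        obtain ⟨w', h1, h2, h3⟩ := ih
        refine ⟨GenA_mu m I (lp k ![0, 1]) w', GenA_mu_T I (GenA_lp_hom _) h1, ?_, ?_⟩
        · intro h0
          apply h2
          have : (⟨w', h1⟩ : GenA_T m I (n₁ + j)) = 0 := by
            apply hX0 (n₁ + j) (by omega)
            apply Subtype.ext
            rw [map_zero]
            exact h0
          exact congr_arg Subtype.val this
        · rw [GenA_mu_comm, h3, map_zero]
    obtain ⟨w', h1, h2, h3⟩ := key (n₀ _ hp)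
    apply h2
    have : (⟨w', h1⟩ : GenA_T m I (n₁ + n₀ _ hp)) = 0 := by
      apply hinj _ hp (n₁ + n₀ _ hp) (by omega) (by omega)
      apply Subtype.ext
      rw [map_zero]
      exact h3
    exact congr_arg Subtype.val this
  have hall : ∀ n ≥ n₁, GenA_T m I n = ⊥ := by
    intro n hn
    induction n, hn using Nat.le_induction with
    | base => exact hbot
    | succ n hn ih =>
      rw [eq_bot_iff]
      intro w hw
      obtain ⟨⟨v, hv⟩, hv2⟩ := hsurj _ hp0 n (by omega) ⟨w, hw⟩
      have hv0 : v = 0 := by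
        have := hv; rw [ih] at this; simpa using this
      have h4 := congr_arg Subtype.val hv2
      have h5 : GenA_mu m I (lp k ![0, 1]) v = w := h4
      rw [hv0, map_zero] at h5
      rw [← h5]; exact Submodule.zero_mem _
  refine ⟨n₁, fun n hn f hf => ?_⟩
  have h6 : (Submodule.Quotient.mk f : S k ⧸ GenA_V m I) ∈ GenA_T m I n :=
    GenA_mem_T.2 ⟨f, hf, rfl⟩
  rw [hall n hn, Submodule.mem_bot, Submodule.Quotient.mk_eq_zero] at h6
  exact GenA_mem.1 h6

end MP_06793c_ag
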