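import Pool.Agent.Lib.MP_06793c_ag.PG.SNz

/-!
# Large degree forms modulo `I` and `l`
-/

namespace MP_06793c_ag

open MvPolynomial

universe u

variable {k : Type u} [Field k] {m : ℕ}

private theorem gs_pow {n N : ℕ} (h : N ≤ n) {p : S k} (hp : p.IsHomogeneous n) :
    p ∈ mm k ^ N := by
  rw [mem_pow_idealOfVars_iff']
  intro x hx
  exact hp.coeff_eq_zero (by omega)

private theorem gs_fg (I : Ideal (S k)) (l : S k) :
    ∃ N : ℕ, mm k ^ N * sec k I l ≤ I ⊔ Ideal.span {l} := by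
  obtain ⟨s, hs⟩ := (IsNoetherian.noetherian (sec k I l) : (sec k I l).FG)
  have h1 : ∀ g ∈ s, ∃ N : ℕ, ∀ p ∈ mm k ^ N, p * g ∈ I ⊔ Ideal.span {l} := fun g hg => by
    have h2 : g ∈ sec k I l := by
      rw [← hs]
      exact Submodule.subset_span hg
    exact h2
  choose! N hN using h1
  refine ⟨s.sup N, ?_⟩
  rw [Ideal.mul_le]
  intro p hp q hq
  rw [← hs] at hq
  induction hq using Submodule.span_induction with
  | mem x hx => exact hN x hx p (Ideal.pow_le_pow_right (Finset.le_sup hx) hp)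
  | zero => rw [mul_zero]; exact Ideal.zero_mem _
  | add x y _ _ hx hy => rw [mul_add]; exact Ideal.add_mem _ hx hy
  | smul a x _ hx =>
    rw [smul_eq_mul, mul_left_comm]
    exact Ideal.mul_mem_left _ _ hx

/-- homogeneous elements of large degree of the section ideal -/
private theorem gs_large (I : Ideal (S k)) (l : S k) :
    ∃ n₀ : ℕ, ∀ n ≥ n₀, ∀ f : S k, f.IsHomogeneous n → f ∈ sec k I l →
      f ∈ I ⊔ Ideal.span {l} := by
  obtain ⟨N, hN⟩ := gs_fg I l
  obtain ⟨c, hc⟩ := Ideal.exists_pow_inf_eq_pow_smul (mm k) (sec k I l)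
  refine ⟨c + N, fun n hn f hf hfJ => ?_⟩
  have hc2 := hc (c + N) (by omega)
  have e1 : (mm k ^ (c + N) • (⊤ : Submodule (S k) (S k))) = mm k ^ (c + N) := by
    rw [smul_eq_mul, Ideal.mul_top]
  rw [e1, Nat.add_sub_cancel_left] at hc2
  have h1 : f ∈ mm k ^ (c + N) ⊓ sec k I l := ⟨gs_pow hn hf, hfJ⟩
  rw [hc2] at h1
  refine hN ?_
  rw [smul_eq_mul] at h1
  exact Ideal.mul_mono_right inf_le_right h1

private theorem gs_pow_nzd {d : ℕ} {I : Ideal (S k)} (hI : IsHom I) (hS : Std k d I)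
    {p : Fin 2 → k} (hp : p ≠ 0) {r : R k} (hr : r.IsHomogeneous 1) (hr0 : eval p r ≠ 0)
    (j : ℕ) : ∀ {n : ℕ} {f : S k}, f.IsHomogeneous n →
      io k r ^ j * f ∈ sec k I (io k (lp k p)) → f ∈ sec k I (io k (lp k p)) := by
  induction j with
  | zero => intro n f _ h; simpa using h
  | succ j ih =>
    intro n f hf h
    have h1 : (io k r).IsHomogeneous 1 := hr.rename_isHomogeneous
    have h2 : (io k r ^ j * f).IsHomogeneous (1 * j + n) := (h1.pow j).mul hf
    rw [pow_succ', mul_assoc] at h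
    exact ih hf (sec_nzd hI hS hp hr hr0 h2 h)

private theorem gs_io_mul {u : S k} (hu : u ∈ lt k m) (c : R k) : io k c * u ∈ lt k m := by
  intro s hs
  obtain ⟨a, ha, b, hb, rfl⟩ := Finset.mem_add.mp (MvPolynomial.support_mul _ _ hs)
  have h1 : a 2 = 0 ∧ a 3 = 0 := by
    rw [io, support_rename_of_injective
      (by intro i j hij; fin_cases i <;> fin_cases j <;> simp_all)] at ha
    obtain ⟨t, -, rfl⟩ := Finset.mem_image.mp ha
    refine ⟨Finsupp.mapDomain_of_notMem_range _ _ ?_, Finsupp.mapDomain_of_notMem_range _ _ ?_⟩ <;>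
    · rintro ⟨i, hi⟩; fin_cases i <;> simp at hi
  have := hu b hb
  simp only [Finsupp.add_apply, h1.1, h1.2]; omega

private theorem gs_lt {f : S k} (hf : f.IsHomogeneous m) : f ∈ lt k (m + 1) := by
  intro s hs
  have h1 : s.degree = m := by
    by_contra hne
    exact (MvPolynomial.mem_support_iff.1 hs) (hf.coeff_eq_zero hne)
  rw [Finsupp.degree_eq_sum, Fin.sum_univ_four] at h1
  omega

/-- surjectivity of the multiplication -/
private theorem gs_surj {d : ℕ} {I : Ideal (S k)} (hI : IsHom I) (hS : Std k d I)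
    (hm : d ≤ (m + 1) * (m + 2) / 2) {p : Fin 2 → k} (hp : p ≠ 0) {r : R k}
    (hr : r.IsHomogeneous 1) (hr0 : eval p r ≠ 0) {n : ℕ} (hn : m ≤ n) {f : S k}
    (hff : f.IsHomogeneous n) :
    ∃ f0 : S k, f0.IsHomogeneous m ∧
      ∃ s : S k, s.IsHomogeneous n ∧ s ∈ sec k I (io k (lp k p)) ∧
        f = io k r ^ (n - m) * f0 + s := by
  have hl : io k (lp k p) = C (p 1) * X 0 + C (-p 0) * X 1 := by
    simp [io, lp, sub_eq_add_neg]
  have h01 : p 1 ≠ 0 ∨ -p 0 ≠ 0 := by
    by_contra h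
    push Not at h
    refine hp (funext fun i => ?_)
    fin_cases i
    · simpa using h.2
    · simpa using h.1
  have hgen : ∀ q : ℕ, m ≤ q → hf k (sec k I (io k (lp k p))) q = d := fun q hq => by
    rw [hl, hS.gen _ _ h01 q, min_eq_left]
    have h1 : (m + 1) * (m + 2) / 2 ≤ (q + 1) * (q + 2) / 2 :=
      Nat.div_le_div_right (Nat.mul_le_mul (by omega) (by omega))
    exact_mod_cast hm.trans h1
  have hnzd := fun (g : S k) (hg : g.IsHomogeneous m) => gs_pow_nzd hI hS hp hr hr0 (n - m) hg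
  set J := sec k I (io k (lp k p)) with hJ
  set y : S k := io k r ^ (n - m) with hy
  have hio : (io k r).IsHomogeneous 1 := hr.rename_isHomogeneous
  have hyh : y.IsHomogeneous (n - m) := by
    have := hio.pow (n - m)
    rwa [one_mul] at this
  have hr1 : r ≠ 0 := by
    rintro rfl
    exact hr0 (map_zero _)
  have hio0 : io k r ≠ 0 := by
    intro h
    refine hr1 (rename_injective (![0, 1] : Fin 2 → Fin 4)
      (by intro i j hij; fin_cases i <;> fin_cases j <;> simp_all) ?_)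
    rw [map_zero]
    exact h
  have hy0 : y ≠ 0 := pow_ne_zero _ hio0
  let φ : S k →ₗ[k] S k := LinearMap.mulLeft k y
  have hφ : Function.Injective φ := fun a b hab => mul_left_cancel₀ hy0 hab
  have hfin : ∀ q : ℕ, Module.Finite k (deg k q) := fun q =>
    Module.Finite.iff_fg.2 (homogeneousSubmodule_fg _ _ q)
  have hfm := hfin m
  have hfn := hfin n
  have hJm : Module.Finite k ((J.restrictScalars k ⊓ deg k m : Submodule k (S k))) :=
    Submodule.finiteDimensional_inf_right _ _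
  have hJn : Module.Finite k ((J.restrictScalars k ⊓ deg k n : Submodule k (S k))) :=
    Submodule.finiteDimensional_inf_right _ _
  have hle : (deg k m).map φ ⊔ (J.restrictScalars k ⊓ deg k n) ≤ deg k n := by
    refine sup_le ?_ inf_le_right
    rintro _ ⟨g, hg, rfl⟩
    have h1 : (y * g).IsHomogeneous (n - m + m) := hyh.mul ((mem_homogeneousSubmodule m g).1 hg)
    rw [Nat.sub_add_cancel hn] at h1
    exact (mem_homogeneousSubmodule n _).2 h1
  have hinf : (deg k m).map φ ⊓ (J.restrictScalars k ⊓ deg k n)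
      ≤ (J.restrictScalars k ⊓ deg k m).map φ := by
    rintro _ ⟨⟨g, hg, rfl⟩, hgJ, -⟩
    exact ⟨g, ⟨hnzd g ((mem_homogeneousSubmodule m g).1 hg) hgJ, hg⟩, rfl⟩
  have e1 : Module.finrank k (deg k m) = Module.finrank k ((deg k m).map φ) :=
    (Submodule.equivMapOfInjective φ hφ (deg k m)).finrank_eq
  have e2 : Module.finrank k ((J.restrictScalars k ⊓ deg k m : Submodule k (S k)))
      = Module.finrank k ((J.restrictScalars k ⊓ deg k m : Submodule k (S k)).map φ) :=
    (Submodule.equivMapOfInjective φ hφ _).finrank_eq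
  have hmapm : Module.Finite k ((deg k m).map φ) := Module.Finite.map _ _
  have hmapJ : Module.Finite k ((J.restrictScalars k ⊓ deg k m : Submodule k (S k)).map φ) :=
    Module.Finite.map _ _
  have e3 := Submodule.finrank_sup_add_finrank_inf_eq ((deg k m).map φ)
    (J.restrictScalars k ⊓ deg k n : Submodule k (S k))
  have e4 := Submodule.finrank_mono hinf
  have g1 := hgen m le_rfl
  have g2 := hgen n hn
  unfold MP_06793c_ag.hf at g1 g2
  have heq := Submodule.eq_of_le_of_finrank_le hle (by omega)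
  have hfW : f ∈ (deg k m).map φ ⊔ (J.restrictScalars k ⊓ deg k n) := by
    rw [heq]
    exact (mem_homogeneousSubmodule n f).2 hff
  obtain ⟨_, ⟨f0, hf0, rfl⟩, s, hs, hfs⟩ := Submodule.mem_sup.1 hfW
  exact ⟨f0, (mem_homogeneousSubmodule m f0).1 hf0, s, (mem_homogeneousSubmodule n s).1 hs.2,
    hs.1, hfs.symm⟩

theorem gen_sec {d : ℕ} {g : ℤ} {I : Ideal (S k)} (hI : IsCurve k d g I) (hS : Std k d I)
    (hm : d ≤ (m + 1) * (m + 2) / 2) {p : Fin 2 → k} (hp : p ≠ 0) :
    ∃ n₀ : ℕ, ∀ n ≥ n₀, ∀ f : S k, f.IsHomogeneous n →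
      ∃ i ∈ I, ∃ t ∈ lt k (m + 1), ∃ s : S k, f = i + t + io k (lp k p) * s := by
  obtain ⟨n₀, h₀⟩ := gs_large I (io k (lp k p))
  obtain ⟨j, hj⟩ : ∃ j, p j ≠ 0 := by
    by_contra h
    push Not at h
    exact hp (funext h)
  refine ⟨max n₀ m, fun n hn f hf => ?_⟩
  obtain ⟨f0, hf0, s, hs, hsJ, hfs⟩ := gs_surj hI.hom hS hm hp (isHomogeneous_X k j)
    (by simpa using hj) ((le_max_right _ _).trans hn) hf
  obtain ⟨i, hi, q, hq, hiq⟩ := Submodule.mem_sup.1
    (h₀ n ((le_max_left _ _).trans hn) s hs hsJ)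
  obtain ⟨s', hs'⟩ := Ideal.mem_span_singleton'.1 hq
  refine ⟨i, hi, io k (X j) ^ (n - m) * f0, ?_, s', ?_⟩
  · rw [← map_pow]
    exact gs_io_mul (gs_lt hf0) _
  · rw [hfs, ← hiq, ← hs']
    ring

end MP_06793c_ag
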