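import Pool.Agent.Lib.MP_06793c_ag.PG.Defs

/-!
# Fibres of `KN` and homogeneity
-/

namespace MP_06793c_ag

open MvPolynomial

universe u

variable {k : Type u} [Field k] {m : ℕ}

private theorem Fib_map_em {A B : Type u} [CommRing A] [CommRing B] (φ : A →+* B) (v : Fin (m + 1) → R A) :
    MvPolynomial.map φ (em A m v) = em B m (fun j => MvPolynomial.map φ (v j)) := by
  unfold em
  rw [map_sum]
  refine Finset.sum_congr rfl fun j _ => ?_
  rw [map_mul]
  congr 1
  · unfold io
    rw [map_rename]
  · unfold mon
    rw [map_mul, map_pow, map_pow, map_X, map_X]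

theorem fib_KN {A : Type u} [CommRing A] [Algebra k A] (φ : A →ₐ[k] k)
    (s : Set (Fin (m + 1) → R A)) :
    fib φ (KN A m s) =
      KN k m ((fun v j => MvPolynomial.map (φ : A →+* k) (v j)) '' s) := by
  unfold fib KN
  rw [Ideal.map_sup, Ideal.map_span, Ideal.map_pow, Ideal.map_span]
  have h1 : MvPolynomial.map (φ : A →+* k) '' (em A m '' s) =
      em k m '' ((fun v j => MvPolynomial.map (φ : A →+* k) (v j)) '' s) := by
    rw [Set.image_image, Set.image_image]
    exact Set.image_congr fun v _ => Fib_map_em (φ : A →+* k) v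
  have h2 : MvPolynomial.map (φ : A →+* k) '' {(X 2 : S A), X 3} = {(X 2 : S k), X 3} := by
    rw [Set.image_pair, map_X, map_X]
  rw [h1, h2]

private theorem Fib_mon_hom {A : Type u} [CommRing A] (j : Fin (m + 1)) : (mon A m j).IsHomogeneous m := by
  unfold mon
  have h := (isHomogeneous_X_pow (R := A) (2 : Fin 4) (j : ℕ)).mul
    (isHomogeneous_X_pow (R := A) (3 : Fin 4) (m - (j : ℕ)))
  have h2 : (j : ℕ) + (m - (j : ℕ)) = m := by
    have := j.2
    omega
  rwa [h2] at h

private theorem Fib_comp_mul {A : Type u} [CommRing A] (p q : S A) (n d : ℕ) (hq : q.IsHomogeneous d) :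
    homogeneousComponent (n + d) (p * q) = homogeneousComponent n p * q := by
  conv_lhs => rw [← sum_homogeneousComponent p]
  rw [Finset.sum_mul, map_sum]
  have h1 : ∀ i ∈ Finset.range (p.totalDegree + 1),
      homogeneousComponent (n + d) (homogeneousComponent i p * q) =
        if n = i then homogeneousComponent n p * q else 0 := by
    intro i _
    have h2 : homogeneousComponent i p * q ∈ homogeneousSubmodule (Fin 4) A (i + d) :=
      (homogeneousComponent_isHomogeneous i p).mul hq
    rw [homogeneousComponent_of_mem h2]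
    by_cases h : n = i
    · subst h
      simp
    · rw [if_neg (by omega), if_neg h]
  rw [Finset.sum_congr rfl h1, Finset.sum_ite_eq]
  split_ifs with h
  · rfl
  · rw [Finset.mem_range, not_lt] at h
    rw [homogeneousComponent_eq_zero n p (by omega), zero_mul]

private theorem Fib_comp_mul_lt {A : Type u} [CommRing A] (p q : S A) (n d : ℕ) (hq : q.IsHomogeneous d)
    (hn : n < d) : homogeneousComponent n (p * q) = 0 := by
  conv_lhs => rw [← sum_homogeneousComponent p]
  rw [Finset.sum_mul, map_sum]
  refine Finset.sum_eq_zero fun i _ => ?_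
  have h2 : homogeneousComponent i p * q ∈ homogeneousSubmodule (Fin 4) A (i + d) :=
    (homogeneousComponent_isHomogeneous i p).mul hq
  rw [homogeneousComponent_of_mem h2, if_neg (by omega)]

theorem em_comp {A : Type u} [CommRing A] (v : Fin (m + 1) → R A) (n : ℕ) :
    homogeneousComponent (n + m) (em A m v) =
      em A m (fun j => homogeneousComponent n (v j)) := by
  unfold em
  rw [map_sum]
  refine Finset.sum_congr rfl fun j _ => ?_
  rw [Fib_comp_mul _ _ _ _ (Fib_mon_hom j)]
  unfold io
  rw [← rename_homogeneousComponent]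

theorem isHom_KN {A : Type u} [CommRing A] (s : Set (Fin (m + 1) → R A))
    (hs : ∀ v ∈ s, ∀ i : ℕ, (fun j => homogeneousComponent i (v j)) ∈ s) : IsHom (KN A m s) := by
  unfold KN
  refine isHom_sup ?_ ?_
  · intro q hq
    refine Submodule.span_induction
      (p := fun q _ => ∀ n, homogeneousComponent n q ∈ Ideal.span (em A m '' s)) ?_ ?_ ?_ ?_ hq
    · rintro _ ⟨v, hv, rfl⟩ n
      rcases lt_or_ge n m with h | h
      · have h1 : homogeneousComponent n (em A m v) = 0 := by
          unfold em
          rw [map_sum]
          exact Finset.sum_eq_zero fun j _ => Fib_comp_mul_lt _ _ _ _ (Fib_mon_hom j) h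
        rw [h1]
        exact Ideal.zero_mem _
      · obtain ⟨i, rfl⟩ : ∃ i, n = i + m := ⟨n - m, by omega⟩
        rw [em_comp]
        exact Ideal.subset_span ⟨_, hs v hv i, rfl⟩
    · intro n
      simp
    · intro x y _ _ hx hy n
      rw [map_add]
      exact Ideal.add_mem _ (hx n) (hy n)
    · intro a x _ hx n
      exact comp_mul_mem hx a n
  · have h1 : IsHom (Ideal.span {(X 2 : S A), X 3}) := by
      refine isHom_of_span ?_
      rintro p (rfl | rfl)
      · exact ⟨1, isHomogeneous_X A 2⟩
      · exact ⟨1, isHomogeneous_X A 3⟩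
    have h2 : ∀ n : ℕ, IsHom ((Ideal.span {(X 2 : S A), X 3}) ^ (n + 1)) := by
      intro n
      induction n with
      | zero =>
        rw [zero_add, pow_one]
        exact h1
      | succ n ih =>
        rw [pow_succ]
        exact isHom_mul ih h1
    exact h2 m

end MP_06793c_ag
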