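import Pool.Agent.Lib.MP_06793c_ag.PG.Mem
import Pool.Agent.Lib.MP_06793c_ag.PG.Fib

/-!
# The Hilbert function of `KN`
Plan: the degree n+m part of KN maps onto degN N n (f ↦ the v of mem_KN; or consider the linear map
degN N n × ((x2,x3)^(m+1) ⊓ deg (n+m)) → KN ⊓ deg (n+m), (v, f) ↦ em v + f, which is bijective:
injective by supports, surjective by mem_KN and taking homogeneous components). So
finrank (KN ⊓ deg (n+m)) = hN N n + finrank ((x2,x3)^(m+1) ⊓ deg (n+m)); subtract.
-/

namespace MP_06793c_ag

open MvPolynomial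

universe u

variable {k : Type u} [Field k] {m : ℕ}

private theorem HK_em_add (v w : Fin (m + 1) → R k) : em k m (v + w) = em k m v + em k m w := by
  simp only [em, Pi.add_apply, map_add, add_mul, Finset.sum_add_distrib]

private theorem HK_em_smul (c : k) (v : Fin (m + 1) → R k) : em k m (c • v) = c • em k m v := by
  simp only [em, Pi.smul_apply, map_smul, smul_mul_assoc, Finset.smul_sum]

/-- `em` as a linear map. -/
private noncomputable def HK_emL (k : Type u) [Field k] (m : ℕ) : (Fin (m + 1) → R k) →ₗ[k] S k where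
  toFun := em k m
  map_add' := HK_em_add
  map_smul' := HK_em_smul

private theorem HK_emL_apply (v : Fin (m + 1) → R k) : HK_emL k m v = em k m v := rfl

private theorem HK_mem_degN {N : Submodule (R k) (Fin (m + 1) → R k)} {n : ℕ}
    {v : Fin (m + 1) → R k} : v ∈ degN N n ↔ v ∈ N ∧ HomV n v := by
  simp only [degN, Submodule.mem_inf, Submodule.restrictScalars_mem, Submodule.mem_pi,
    Set.mem_univ, true_implies, mem_homogeneousSubmodule]
  rfl

private theorem HK_dim {N : Submodule (R k) (Fin (m + 1) → R k)} (hG : Gr N) (n : ℕ) :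
    (Module.finrank k (((KN k m (N : Set (Fin (m + 1) → R k))).restrictScalars k ⊓
        deg k (n + m) : Submodule k (S k))) : ℤ) =
      hN N n + (Module.finrank k ((((Ideal.span {X 2, X 3} : Ideal (S k)) ^ (m + 1)).restrictScalars k
        ⊓ deg k (n + m) : Submodule k (S k))) : ℤ) := by
  have hfin : Module.Finite k (deg k (n + m)) :=
    Module.Finite.iff_fg.2 (homogeneousSubmodule_fg _ _ (n + m))
  have h1 : ((KN k m (N : Set (Fin (m + 1) → R k))).restrictScalars k ⊓
        deg k (n + m) : Submodule k (S k)) =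
      (degN N n).map (HK_emL k m) ⊔
        (((Ideal.span {X 2, X 3} : Ideal (S k)) ^ (m + 1)).restrictScalars k ⊓ deg k (n + m)) := by
    apply le_antisymm
    · rintro f ⟨hf1, hf2⟩
      obtain ⟨v, hv, hu⟩ := (mem_KN N f).1 hf1
      have hf3 : f.IsHomogeneous (n + m) := (mem_homogeneousSubmodule _ _).1 hf2
      have hc : homogeneousComponent (n + m) f = f := homogeneousComponent_of_mem hf2 |>.trans (by simp)
      have hv' : (fun j => homogeneousComponent n (v j)) ∈ degN N n :=
        HK_mem_degN.2 ⟨hG v hv n, fun j => homogeneousComponent_isHomogeneous n (v j)⟩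
      have hw : homogeneousComponent (n + m) (f - em k m v) =
          f - em k m (fun j => homogeneousComponent n (v j)) := by
        rw [map_sub, hc, em_comp]
      refine Submodule.mem_sup.2 ⟨em k m (fun j => homogeneousComponent n (v j)), ⟨_, hv', rfl⟩,
        f - em k m (fun j => homogeneousComponent n (v j)), ⟨?_, ?_⟩, by ring⟩
      · show _ ∈ (Ideal.span {X 2, X 3} : Ideal (S k)) ^ (m + 1)
        rw [← hw, mem_pow23]
        intro s hs
        have hs' : s ∈ (f - em k m v).support := by
          rw [mem_support_iff, coeff_homogeneousComponent] at hs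
          rw [mem_support_iff]
          intro h0
          exact hs (by rw [h0]; simp)
        exact (mem_pow23 (m + 1) _).1 hu s hs'
      · show _ ∈ deg k (n + m)
        rw [← hw]
        exact homogeneousComponent_mem _ _
    · refine sup_le ?_ (inf_le_inf_right _ ?_)
      · rintro _ ⟨v, hv, rfl⟩
        have hv' := HK_mem_degN.1 hv
        refine ⟨(em_mem_KN N v).2 hv'.1, ?_⟩
        exact (mem_homogeneousSubmodule _ _).2 (em_homog.1 hv'.2)
      · intro f hf
        exact (le_sup_right : _ ≤ KN k m (N : Set (Fin (m + 1) → R k))) hf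
  have h2 : (degN N n).map (HK_emL k m) ⊓
      (((Ideal.span {X 2, X 3} : Ideal (S k)) ^ (m + 1)).restrictScalars k ⊓ deg k (n + m)) = ⊥ := by
    rw [eq_bot_iff]
    rintro _ ⟨⟨v, -, rfl⟩, hf, -⟩
    have hf' := (mem_pow23 (m + 1) _).1 hf
    rw [Submodule.mem_bot, HK_emL_apply, ← support_eq_empty, Finset.eq_empty_iff_forall_notMem]
    intro s hs
    have h3 := support_em v s hs
    have h4 := hf' s hs
    omega
  have hle1 : (degN N n).map (HK_emL k m) ≤ deg k (n + m) := by
    rintro _ ⟨v, hv, rfl⟩
    exact (mem_homogeneousSubmodule _ _).2 (em_homog.1 (HK_mem_degN.1 hv).2)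
  have hf1 : FiniteDimensional k ((degN N n).map (HK_emL k m)) :=
    Submodule.finiteDimensional_of_le hle1
  have hf2 : FiniteDimensional k ((((Ideal.span {X 2, X 3} : Ideal (S k)) ^ (m + 1)).restrictScalars k
      ⊓ deg k (n + m) : Submodule k (S k))) :=
    Submodule.finiteDimensional_of_le inf_le_right
  have h5 := Submodule.finrank_sup_add_finrank_inf_eq ((degN N n).map (HK_emL k m))
    (((Ideal.span {X 2, X 3} : Ideal (S k)) ^ (m + 1)).restrictScalars k ⊓ deg k (n + m))
  rw [h2, finrank_bot, add_zero, ← h1] at h5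
  have hinj : Function.Injective (HK_emL k m) := fun v w h => em_inj h
  have h6 : Module.finrank k ((degN N n).map (HK_emL k m)) = Module.finrank k (degN N n) :=
    (Submodule.equivMapOfInjective (HK_emL k m) hinj (degN N n)).finrank_eq.symm
  rw [h5, h6, hN]
  push_cast
  ring

theorem hf_KN_sub {N N' : Submodule (R k) (Fin (m + 1) → R k)} (hG : Gr N) (hG' : Gr N') (n : ℕ) :
    hf k (KN k m (N : Set (Fin (m + 1) → R k))) (n + m)
      - hf k (KN k m (N' : Set (Fin (m + 1) → R k))) (n + m) = hN N' n - hN N n := by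
  rw [hf, hf, HK_dim hG n, HK_dim hG' n]
  ring

end MP_06793c_ag
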