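import Pool.Agent.Lib.MP_06793c_ag.PG.NIs
import Pool.Agent.Lib.MP_06793c_ag.PG.HK

/-!
# The Hilbert function of `KN (NI m I)` is that of `I` in large degrees
Plan: n ≥ n0 + m. Let T = lt (m+1) ⊓ S_n. hg: S_n = I_n + T, so dim S_n/I_n = dim T - dim (I_n ⊓ T).
Also S_n = (KN)_n + T because (x2,x3)^(m+1) ≤ KN and every polynomial is (lt (m+1)) + (x2,x3)^(m+1);
dim S_n / (KN)_n = dim T - dim (KN_n ⊓ T). I_n ⊓ T ≅ (NI)_(n-m) by f = em v + u ↦ v (well defined and
injective by h0: u is determined), and KN_n ⊓ T = em (NI)_(n-m) (mem_KN, supports).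
-/

namespace MP_06793c_ag

open MvPolynomial

universe u

variable {k : Type u} [Field k] {m : ℕ}

/-- The weight `s 2 + s 3`. -/
private def HNI_w : Fin 4 → ℕ := ![0, 0, 1, 1]

private theorem HNI_weight (s : Fin 4 →₀ ℕ) : Finsupp.weight HNI_w s = s 2 + s 3 := by
  rw [Finsupp.weight_apply, Finsupp.sum_fintype _ _ (by simp)]
  simp [Fin.sum_univ_four, HNI_w]

/-- The part of degree `m` in `x2, x3`. -/
private noncomputable def HNI_pi (k : Type u) [Field k] (m : ℕ) : S k →ₗ[k] S k :=
  weightedHomogeneousComponent HNI_w m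

private theorem HNI_coeff (j : ℕ) (f : S k) (s : Fin 4 →₀ ℕ) :
    coeff s (HNI_pi k j f) = if s 2 + s 3 = j then coeff s f else 0 := by
  rw [HNI_pi, coeff_weightedHomogeneousComponent, HNI_weight]

private theorem HNI_supp (j : ℕ) (f : S k) : ∀ s ∈ (HNI_pi k j f).support, s 2 + s 3 = j := by
  intro s hs
  rw [mem_support_iff, HNI_coeff] at hs
  by_contra h
  exact hs (if_neg h)

private theorem HNI_hom {j n : ℕ} {f : S k} (hf : f.IsHomogeneous n) :
    (HNI_pi k j f).IsHomogeneous n := by
  intro s hs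
  rw [HNI_coeff] at hs
  split_ifs at hs with h
  · exact hf hs
  · exact absurd rfl hs

private theorem HNI_of_supp {j : ℕ} {f : S k} (hf : ∀ s ∈ f.support, s 2 + s 3 = j) :
    HNI_pi k j f = f := by
  ext s
  rw [HNI_coeff]
  split_ifs with h
  · rfl
  · by_contra h2
    exact h (hf s (mem_support_iff.mpr (Ne.symm h2)))

private theorem HNI_of_lt {j : ℕ} {f : S k} (hf : f ∈ lt k j) : HNI_pi k j f = 0 := by
  ext s
  rw [HNI_coeff, coeff_zero]
  split_ifs with h
  · by_contra h2
    have := hf s (mem_support_iff.mpr h2)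
    omega
  · rfl

private theorem HNI_sub {j : ℕ} {f : S k} (hf : f ∈ lt k (j + 1)) : f - HNI_pi k j f ∈ lt k j := by
  intro s hs
  rw [mem_support_iff, coeff_sub, HNI_coeff] at hs
  split_ifs at hs with h
  · exact absurd (sub_self _) hs
  · rw [sub_zero] at hs
    have := hf s (mem_support_iff.mpr hs)
    omega

private theorem HNI_comm (j n : ℕ) (f : S k) :
    HNI_pi k j (homogeneousComponent n f) = homogeneousComponent n (HNI_pi k j f) := by
  ext s
  rw [HNI_coeff, coeff_homogeneousComponent, coeff_homogeneousComponent, HNI_coeff]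
  split_ifs <;> rfl

private theorem HNI_lt_comp {j : ℕ} (n : ℕ) {f : S k} (hf : f ∈ lt k j) :
    homogeneousComponent n f ∈ lt k j := by
  intro s hs
  rw [mem_support_iff, coeff_homogeneousComponent] at hs
  split_ifs at hs with h
  · exact hf s (mem_support_iff.mpr hs)
  · exact absurd rfl hs

private theorem HNI_split (j : ℕ) (f : S k) : ∃ t ∈ lt k j,
    f - t ∈ (Ideal.span {X 2, X 3} : Ideal (S k)) ^ j ∧
      ∀ n, f.IsHomogeneous n → t.IsHomogeneous n := by
  classical
  have hc : ∀ s, coeff s (∑ i ∈ Finset.range j, HNI_pi k i f) =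
      if s 2 + s 3 < j then coeff s f else 0 := by
    intro s
    rw [coeff_sum]
    simp only [HNI_coeff]
    rw [Finset.sum_ite_eq]
    simp
  refine ⟨∑ i ∈ Finset.range j, HNI_pi k i f, ?_, ?_, ?_⟩
  · intro s hs
    rw [mem_support_iff, hc] at hs
    by_contra h
    exact hs (if_neg h)
  · rw [mem_pow23]
    intro s hs
    rw [mem_support_iff, coeff_sub, hc] at hs
    split_ifs at hs with h
    · exact absurd (sub_self _) hs
    · omega
  · intro n hn
    exact IsHomogeneous.sum _ _ _ fun i _ => HNI_hom hn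

private theorem HNI_lt_mono {j : ℕ} {f : S k} (hf : f ∈ lt k j) : f ∈ lt k (j + 1) := by
  intro s hs
  have := hf s hs
  omega

theorem hf_NI {I : Ideal (S k)} (hI : IsHom I)
    (h0 : ∀ f : S k, f ∈ I → f ∈ lt k m → f = 0)
    (hg : ∃ n₀ : ℕ, ∀ n ≥ n₀, ∀ f : S k, f.IsHomogeneous n →
      ∃ i ∈ I, ∃ t ∈ lt k (m + 1), f = i + t) :
    ∃ n₀ : ℕ, ∀ n ≥ n₀,
      hf k (KN k m (NI m I : Set (Fin (m + 1) → R k))) n = hf k I n := by
  classical
  obtain ⟨n₀, hn₀⟩ := hg
  refine ⟨n₀, fun n hn => ?_⟩
  set J := KN k m (NI m I : Set (Fin (m + 1) → R k)) with hJ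
  haveI hfin : Module.Finite k (deg k n) := Module.Finite.iff_fg.2 (homogeneousSubmodule_fg _ _ n)
  set T : Submodule k (S k) := lt k (m + 1) ⊓ deg k n with hT
  haveI : Module.Finite k T := Module.Finite.of_injective
    (Submodule.inclusion (inf_le_right : T ≤ deg k n)) (Submodule.inclusion_injective _)
  have key : ∀ K : Ideal (S k), deg k n ≤ (K.restrictScalars k ⊓ deg k n) ⊔ T →
      (Module.finrank k ((K.restrictScalars k ⊓ deg k n : Submodule k (S k))) : ℤ) =
        (Module.finrank k (deg k n) : ℤ) +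
          (Module.finrank k ((K.restrictScalars k ⊓ T : Submodule k (S k))) : ℤ) -
            (Module.finrank k T : ℤ) := by
    intro K hK
    haveI : Module.Finite k ((K.restrictScalars k ⊓ deg k n : Submodule k (S k))) :=
      Module.Finite.of_injective
        (Submodule.inclusion (inf_le_right : K.restrictScalars k ⊓ deg k n ≤ deg k n))
        (Submodule.inclusion_injective _)
    have h1 := Submodule.finrank_sup_add_finrank_inf_eq
      (K.restrictScalars k ⊓ deg k n : Submodule k (S k)) T
    have h2 : (K.restrictScalars k ⊓ deg k n) ⊔ T = deg k n :=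
      le_antisymm (sup_le inf_le_right inf_le_right) hK
    have h3 : (K.restrictScalars k ⊓ deg k n) ⊓ T = K.restrictScalars k ⊓ T := by
      rw [inf_assoc]
      congr 1
      exact inf_eq_right.mpr inf_le_right
    rw [h2, h3] at h1
    omega
  have hI1 : deg k n ≤ (I.restrictScalars k ⊓ deg k n) ⊔ T := by
    intro f hf
    have hfh : f.IsHomogeneous n := (mem_homogeneousSubmodule n f).mp hf
    obtain ⟨i, hi, t, ht, h⟩ := hn₀ n hn f hfh
    have h4 : f = homogeneousComponent n i + homogeneousComponent n t := by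
      rw [← map_add, ← h, homogeneousComponent_of_mem hf, if_pos rfl]
    rw [h4]
    refine Submodule.add_mem_sup ⟨?_, ?_⟩ ⟨HNI_lt_comp n ht, ?_⟩
    · exact hI i hi n
    · exact (mem_homogeneousSubmodule n _).mpr (homogeneousComponent_isHomogeneous n i)
    · exact (mem_homogeneousSubmodule n _).mpr (homogeneousComponent_isHomogeneous n t)
  have hJ1 : deg k n ≤ (J.restrictScalars k ⊓ deg k n) ⊔ T := by
    intro f hf
    have hfh : f.IsHomogeneous n := (mem_homogeneousSubmodule n f).mp hf
    obtain ⟨t, ht, hp, hh⟩ := HNI_split (m + 1) f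
    have h4 : f = (f - t) + t := (sub_add_cancel f t).symm
    have ht' : t ∈ deg k n := (mem_homogeneousSubmodule n t).mpr (hh n hfh)
    rw [h4]
    refine Submodule.add_mem_sup ⟨?_, Submodule.sub_mem _ hf ht'⟩ ⟨ht, ht'⟩
    exact (le_sup_right : (Ideal.span {X 2, X 3} : Ideal (S k)) ^ (m + 1) ≤ J) hp
  have hmap : (I.restrictScalars k ⊓ T).map (HNI_pi k m) = J.restrictScalars k ⊓ T := by
    apply le_antisymm
    · rintro _ ⟨f, ⟨hfI, hfT, hfn⟩, rfl⟩
      have hfh : f.IsHomogeneous n := (mem_homogeneousSubmodule n f).mp hfn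
      obtain ⟨v, hv⟩ := exists_em (HNI_supp m f)
      have hvN : v ∈ NI m I := by
        refine ⟨f - HNI_pi k m f, HNI_sub hfT, ?_⟩
        rw [← hv, add_sub_cancel]
        exact hfI
      refine ⟨?_, ?_, ?_⟩
      · change HNI_pi k m f ∈ J
        rw [hv, hJ, em_mem_KN]
        exact hvN
      · intro s hs
        have := HNI_supp m f s hs
        omega
      · exact (mem_homogeneousSubmodule n _).mpr (HNI_hom hfh)
    · rintro g ⟨hgJ, hgT, hgn⟩
      have hgh : g.IsHomogeneous n := (mem_homogeneousSubmodule n g).mp hgn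
      obtain ⟨v, hvN, hv⟩ := (mem_KN (NI m I) g).mp hgJ
      have hge : g = em k m v := by
        rw [← sub_eq_zero]
        rw [mem_pow23] at hv
        by_contra hne
        obtain ⟨s, hs⟩ := (support_nonempty (p := g - em k m v)).mpr hne
        have h5 := hv s hs
        have h6 : s ∈ g.support ∪ (em k m v).support := support_sub _ _ _ hs
        rcases Finset.mem_union.mp h6 with h | h
        · have := hgT s h
          omega
        · have := support_em v s h
          omega
      obtain ⟨w, hw, hwI⟩ := hvN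
      refine ⟨homogeneousComponent n (em k m v + w), ⟨hI _ hwI n, ?_, ?_⟩, ?_⟩
      · apply HNI_lt_comp
        refine add_mem ?_ (HNI_lt_mono hw)
        intro s hs
        have := support_em v s hs
        omega
      · exact (mem_homogeneousSubmodule n _).mpr (homogeneousComponent_isHomogeneous n _)
      · rw [HNI_comm, map_add, HNI_of_lt hw, add_zero, HNI_of_supp (support_em v), ← hge,
          homogeneousComponent_of_mem hgn, if_pos rfl]
  have hinj : Function.Injective ((HNI_pi k m).domRestrict (I.restrictScalars k ⊓ T)) := by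
    rw [← LinearMap.ker_eq_bot, LinearMap.ker_eq_bot']
    rintro ⟨f, hfI, hfT, hfn⟩ hf
    have hf' : HNI_pi k m f = 0 := hf
    have h7 := HNI_sub hfT
    rw [hf', sub_zero] at h7
    ext1
    exact h0 f hfI h7
  have hrank : Module.finrank k ((J.restrictScalars k ⊓ T : Submodule k (S k))) =
      Module.finrank k ((I.restrictScalars k ⊓ T : Submodule k (S k))) := by
    rw [← hmap, ← LinearMap.range_domRestrict]
    exact LinearMap.finrank_range_of_inj hinj
  rw [hf, hf, key I hI1, key J hJ1, hrank]

end MP_06793c_ag
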