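import Pool.Agent.Lib.MP_06793c_ag.PG.SNz
import Pool.Agent.Lib.MP_06793c_ag.PG.Mem

/-!
# Polynomials of low degree in `x2, x3` vanishing on a section are divisible by the linear form
Let `l = io (lp p)` and `y = io r`, `r` a linear form with `r(p) ≠ 0`. Modulo `l` the forms of degree
`n` are spanned by the `(n+1)(n+2)/2` products `y^(n-t) x2^b x3^(t-b)`. If `n < m`, the Hilbert function
of the section in degree `n` is `(n+1)(n+2)/2`, so its degree `n` part is the one of `(l)`. If `n ≥ m`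
and `f ∈ lt m`, then `f = y^(n-m+1) f'` modulo `l`, with `f'` homogeneous of degree `m - 1`; as `y` is not
a zero divisor modulo the section, `f'` is in the section, so in `(l)`.
-/

namespace MP_06793c_ag

open MvPolynomial

universe u

variable {k : Type u} [Field k] {m : ℕ}

private theorem InjS_io_lp (p : Fin 2 → k) :
    io k (lp k p) = C (p 1) * X 0 - C (p 0) * X 1 := by
  simp [io, lp]

private theorem InjS_io_X (i : Fin 2) : io k (X i : R k) = X ((![0, 1] : Fin 2 → Fin 4) i) := by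
  simp [io]

private theorem InjS_io_C (c : k) : io k (C c : R k) = C c := by
  simp [io]

/-- The second linear form. -/
private theorem InjS_exists {p : Fin 2 → k} (hp : p ≠ 0) :
    ∃ r : R k, r.IsHomogeneous 1 ∧ (io k r).IsHomogeneous 1 ∧ eval p r ≠ 0 ∧
      (X 0 - C (p 0) * io k r : S k) ∈ Ideal.span {io k (lp k p)} ∧
      (X 1 - C (p 1) * io k r : S k) ∈ Ideal.span {io k (lp k p)} := by
  have hhom : ∀ (c : k) (i : Fin 2), (C c * X i : R k).IsHomogeneous 1 := fun c i => by
    simpa using (isHomogeneous_C (Fin 2) c).mul (isHomogeneous_X k i)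
  have hhom' : ∀ (c : k) (i : Fin 2), (io k (C c * X i : R k)).IsHomogeneous 1 := fun c i => by
    rw [map_mul, InjS_io_C, InjS_io_X]
    simpa using (isHomogeneous_C (Fin 4) c).mul (isHomogeneous_X k ((![0, 1] : Fin 2 → Fin 4) i))
  by_cases h0 : p 0 = 0
  · have h1 : p 1 ≠ 0 := by
      intro h1
      apply hp
      funext i
      fin_cases i
      · exact h0
      · exact h1
    refine ⟨C (p 1)⁻¹ * X 1, hhom _ _, hhom' _ _, ?_, ?_, ?_⟩
    · simp [h1]
    · rw [Ideal.mem_span_singleton']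
      refine ⟨C (p 1)⁻¹, ?_⟩
      rw [InjS_io_lp, map_mul, InjS_io_C, InjS_io_X, h0]
      have h2 : (C (p 1)⁻¹ * C (p 1) : S k) = 1 := by rw [← C_mul, inv_mul_cancel₀ h1, C_1]
      simp only [C_0, zero_mul, sub_zero]
      rw [← mul_assoc, h2, one_mul]
    · have h2 : (C (p 1) * C (p 1)⁻¹ : S k) = 1 := by rw [← C_mul, mul_inv_cancel₀ h1, C_1]
      have h3 : (X 1 - C (p 1) * io k (C (p 1)⁻¹ * X 1 : R k) : S k) = 0 := by
        rw [map_mul, InjS_io_C, InjS_io_X, ← mul_assoc, h2, one_mul]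
        simp
      rw [h3]
      exact zero_mem _
  · refine ⟨C (p 0)⁻¹ * X 0, hhom _ _, hhom' _ _, ?_, ?_, ?_⟩
    · simp [h0]
    · have h2 : (C (p 0) * C (p 0)⁻¹ : S k) = 1 := by rw [← C_mul, mul_inv_cancel₀ h0, C_1]
      have h3 : (X 0 - C (p 0) * io k (C (p 0)⁻¹ * X 0 : R k) : S k) = 0 := by
        rw [map_mul, InjS_io_C, InjS_io_X, ← mul_assoc, h2, one_mul]
        simp
      rw [h3]
      exact zero_mem _
    · rw [Ideal.mem_span_singleton']
      refine ⟨-C (p 0)⁻¹, ?_⟩
      rw [InjS_io_lp, map_mul, InjS_io_C, InjS_io_X]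
      have h2 : (C (p 0)⁻¹ * C (p 0) : S k) = 1 := by rw [← C_mul, inv_mul_cancel₀ h0, C_1]
      have h3 : ((![0, 1] : Fin 2 → Fin 4) 0) = 0 := rfl
      rw [h3]
      linear_combination (X 1 : S k) * h2

/-- Monomials modulo the linear form. -/
private theorem InjS_mon {p : Fin 2 → k} {y : S k} {J : Ideal (S k)}
    (h0 : (X 0 - C (p 0) * y : S k) ∈ J) (h1 : (X 1 - C (p 1) * y : S k) ∈ J)
    (s : Fin 4 →₀ ℕ) (c : k) :
    monomial s c - C (c * p 0 ^ s 0 * p 1 ^ s 1) * (y ^ (s 0 + s 1) * X 2 ^ s 2 * X 3 ^ s 3) ∈ J := by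
  rw [← Ideal.Quotient.eq] at h0 h1 ⊢
  rw [monomial_eq, Finsupp.prod_fintype _ _ (fun i => pow_zero _), Fin.prod_univ_four]
  simp only [map_mul, map_pow] at h0 h1 ⊢
  rw [h0, h1]
  ring

/-- The polynomial `f` with `x0, x1` replaced by multiples of `y`. -/
private noncomputable def InjS_red (p : Fin 2 → k) (y f : S k) : S k :=
  ∑ s ∈ f.support, C (coeff s f * p 0 ^ s 0 * p 1 ^ s 1) *
    (y ^ (s 0 + s 1) * X 2 ^ s 2 * X 3 ^ s 3)

private theorem InjS_red_mem {p : Fin 2 → k} {y : S k} {J : Ideal (S k)}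
    (h0 : (X 0 - C (p 0) * y : S k) ∈ J) (h1 : (X 1 - C (p 1) * y : S k) ∈ J) (f : S k) :
    f - InjS_red p y f ∈ J := by
  have h2 : f - InjS_red p y f = ∑ s ∈ f.support, (monomial s (coeff s f) -
      C (coeff s f * p 0 ^ s 0 * p 1 ^ s 1) * (y ^ (s 0 + s 1) * X 2 ^ s 2 * X 3 ^ s 3)) := by
    rw [Finset.sum_sub_distrib, support_sum_monomial_coeff]
    rfl
  rw [h2]
  exact Ideal.sum_mem _ fun s _ => InjS_mon h0 h1 s _

private theorem InjS_deg {f : S k} {n : ℕ} (hf : f.IsHomogeneous n) {s : Fin 4 →₀ ℕ}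
    (hs : s ∈ f.support) : s 0 + s 1 + s 2 + s 3 = n := by
  have h := hf (mem_support_iff.1 hs)
  rw [Finsupp.weight_apply, Finsupp.sum_fintype _ _ (fun i => by simp), Fin.sum_univ_four] at h
  simpa using h

private theorem InjS_homog {y : S k} (hy : y.IsHomogeneous 1) (c : k) (a b e : ℕ) :
    (C c * (y ^ a * X 2 ^ b * X 3 ^ e) : S k).IsHomogeneous (a + b + e) := by
  have h1 : (y ^ a).IsHomogeneous a := by simpa using hy.pow a
  have h2 : ((X 2 : S k) ^ b).IsHomogeneous b := by simpa using (isHomogeneous_X k (2 : Fin 4)).pow b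
  have h3 : ((X 3 : S k) ^ e).IsHomogeneous e := by simpa using (isHomogeneous_X k (3 : Fin 4)).pow e
  simpa using (isHomogeneous_C (Fin 4) c).mul ((h1.mul h2).mul h3)

private theorem InjS_sum (n : ℕ) : ∑ t ∈ Finset.range (n + 1), (t + 1) = (n + 1) * (n + 2) / 2 := by
  have h : (∑ t ∈ Finset.range (n + 1), (t + 1)) * 2 = (n + 1) * (n + 2) := by
    induction n with
    | zero => simp
    | succ n ih =>
      rw [Finset.sum_range_succ, add_mul, ih]
      ring
  omega

/-- The forms of degree `n` are, modulo the linear form, spanned by `(n+1)(n+2)/2` elements. -/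
private theorem InjS_rank {p : Fin 2 → k} {y : S k} (hy : y.IsHomogeneous 1) {J : Ideal (S k)}
    (h0 : (X 0 - C (p 0) * y : S k) ∈ J) (h1 : (X 1 - C (p 1) * y : S k) ∈ J) (n : ℕ) :
    Module.finrank k (deg k n) ≤
      Module.finrank k ((J.restrictScalars k ⊓ deg k n : Submodule k (S k))) +
        (n + 1) * (n + 2) / 2 := by
  classical
  have : Module.Finite k (deg k n) := Module.Finite.iff_fg.2 (homogeneousSubmodule_fg _ _ n)
  let T : Finset (Σ _ : ℕ, ℕ) := (Finset.range (n + 1)).sigma fun t => Finset.range (t + 1)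
  let F : (Σ _ : ℕ, ℕ) → S k := fun q => y ^ (n - q.1) * X 2 ^ q.2 * X 3 ^ (q.1 - q.2)
  let W : Submodule k (S k) := Submodule.span k (T.image F : Set (S k))
  have hW : Module.finrank k W ≤ (n + 1) * (n + 2) / 2 := by
    refine (finrank_span_finset_le_card _).trans (Finset.card_image_le.trans ?_)
    rw [Finset.card_sigma]
    simp only [Finset.card_range]
    exact (InjS_sum n).le
  have hle : deg k n ≤ (J.restrictScalars k ⊓ deg k n : Submodule k (S k)) ⊔ W := by
    intro f hf
    have hf' : f.IsHomogeneous n := (mem_homogeneousSubmodule n f).1 hf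
    have h2 : InjS_red p y f ∈ W := by
      refine Submodule.sum_mem _ fun s hs => ?_
      have h3 := InjS_deg hf' hs
      rw [← smul_eq_C_mul]
      refine Submodule.smul_mem _ _ (Submodule.subset_span ?_)
      rw [Finset.mem_coe, Finset.mem_image]
      refine ⟨⟨s 2 + s 3, s 2⟩, ?_, ?_⟩
      · simp only [T, Finset.mem_sigma, Finset.mem_range]
        omega
      · show y ^ (n - (s 2 + s 3)) * X 2 ^ s 2 * X 3 ^ (s 2 + s 3 - s 2) = _
        have h4 : n - (s 2 + s 3) = s 0 + s 1 := by omega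
        have h5 : s 2 + s 3 - s 2 = s 3 := by omega
        rw [h4, h5]
    have h3 : (InjS_red p y f).IsHomogeneous n := by
      refine IsHomogeneous.sum _ _ _ fun s hs => ?_
      have h4 := InjS_homog hy (coeff s f * p 0 ^ s 0 * p 1 ^ s 1) (s 0 + s 1) (s 2) (s 3)
      rwa [InjS_deg hf' hs] at h4
    have h4 : f = (f - InjS_red p y f) + InjS_red p y f := by ring
    rw [h4]
    exact Submodule.add_mem_sup ⟨InjS_red_mem h0 h1 f,
      (mem_homogeneousSubmodule n _).2 (hf'.sub h3)⟩ h2
  have : Module.Finite k ((J.restrictScalars k ⊓ deg k n : Submodule k (S k))) :=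
    Submodule.finiteDimensional_inf_right _ _
  have : Module.Finite k W := FiniteDimensional.span_finset k _
  calc Module.finrank k (deg k n) ≤ Module.finrank k
        (((J.restrictScalars k ⊓ deg k n : Submodule k (S k)) ⊔ W : Submodule k (S k))) :=
        Submodule.finrank_mono hle
    _ ≤ _ := (Submodule.finrank_add_le_finrank_add_finrank _ _).trans (by omega)

/-- The statement for forms of degree less than `m`. -/
private theorem InjS_low {d : ℕ} {I : Ideal (S k)} (hS : Std k d I)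
    (hm : m * (m + 1) / 2 ≤ d) {p : Fin 2 → k} (hp : p ≠ 0) {n : ℕ} (hn : n < m) {f : S k}
    (hfn : f.IsHomogeneous n) (h : f ∈ sec k I (io k (lp k p))) :
    f ∈ Ideal.span {io k (lp k p)} := by
  obtain ⟨r, -, hy, -, h0, h1⟩ := InjS_exists hp
  have : Module.Finite k (deg k n) := Module.Finite.iff_fg.2 (homogeneousSubmodule_fg _ _ n)
  have hrank := InjS_rank hy h0 h1 n
  have hgen := hS.gen (p 1) (-p 0) (by
    by_contra hcon
    rw [not_or, not_not, not_not, neg_eq_zero] at hcon
    apply hp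
    funext i
    fin_cases i
    · exact hcon.2
    · exact hcon.1) n
  have hl : (C (p 1) * X 0 + C (-p 0) * X 1 : S k) = io k (lp k p) := by
    rw [InjS_io_lp, C_neg]
    ring
  rw [hl] at hgen
  have h2 : (n + 1) * (n + 2) / 2 ≤ d := by
    refine (Nat.div_le_div_right (Nat.mul_le_mul (show n + 1 ≤ m by omega)
      (show n + 2 ≤ m + 1 by omega))).trans hm
  rw [min_eq_right (by exact_mod_cast h2)] at hgen
  unfold hf at hgen
  have hle : ((Ideal.span {io k (lp k p)} : Ideal (S k)).restrictScalars k ⊓ deg k n :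
      Submodule k (S k)) ≤
      ((sec k I (io k (lp k p))).restrictScalars k ⊓ deg k n : Submodule k (S k)) := by
    refine inf_le_inf_right _ fun z hz => ?_
    exact ⟨0, fun q _ => Ideal.mul_mem_left _ _ (Ideal.mem_sup_right hz)⟩
  have hfin : Module.Finite k
      (((sec k I (io k (lp k p))).restrictScalars k ⊓ deg k n : Submodule k (S k))) :=
    Submodule.finiteDimensional_inf_right _ _
  have heq := Submodule.eq_of_le_of_finrank_le hle (by omega)
  have h3 : f ∈ ((sec k I (io k (lp k p))).restrictScalars k ⊓ deg k n : Submodule k (S k)) :=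
    ⟨h, (mem_homogeneousSubmodule n f).2 hfn⟩
  rw [← heq] at h3
  exact h3.1

theorem inj_sec {d : ℕ} {g : ℤ} {I : Ideal (S k)} (hI : IsCurve k d g I) (hS : Std k d I)
    (hm : m * (m + 1) / 2 ≤ d) {p : Fin 2 → k} (hp : p ≠ 0) {n : ℕ} {f : S k}
    (hf : f.IsHomogeneous n) (hl : f ∈ lt k m) (h : f ∈ I ⊔ Ideal.span {io k (lp k p)}) :
    io k (lp k p) ∣ f := by
  rw [← Ideal.mem_span_singleton]
  have hsec : ∀ z ∈ I ⊔ Ideal.span {io k (lp k p)}, z ∈ sec k I (io k (lp k p)) :=
    fun z hz => ⟨0, fun q _ => Ideal.mul_mem_left _ _ hz⟩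
  rcases lt_or_ge n m with hn | hn
  · exact InjS_low hS hm hp hn hf (hsec f h)
  obtain ⟨r, hr, hy, hr0, h0, h1⟩ := InjS_exists hp
  rcases Nat.eq_zero_or_pos m with rfl | hm0
  · have h2 : f = 0 := by
      rw [← support_eq_empty, Finset.eq_empty_iff_forall_notMem]
      intro s hs
      exact absurd (hl s hs) (Nat.not_lt_zero _)
    rw [h2]
    exact zero_mem _
  have hdeg : ∀ s ∈ f.support, s 0 + s 1 = (n - m + 1) + (s 0 + s 1 - (n - m + 1)) ∧
      s 0 + s 1 - (n - m + 1) + s 2 + s 3 = m - 1 := by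
    intro s hs
    have h2 := InjS_deg hf hs
    have h3 : s 2 + s 3 < m := hl s hs
    omega
  let f' : S k := ∑ s ∈ f.support, C (coeff s f * p 0 ^ s 0 * p 1 ^ s 1) *
    (io k r ^ (s 0 + s 1 - (n - m + 1)) * X 2 ^ s 2 * X 3 ^ s 3)
  have hred : InjS_red p (io k r) f = io k r ^ (n - m + 1) * f' := by
    unfold InjS_red
    rw [Finset.mul_sum]
    refine Finset.sum_congr rfl fun s hs => ?_
    rw [(hdeg s hs).1, pow_add]
    have h2 : n - m + 1 + (s 0 + s 1 - (n - m + 1)) - (n - m + 1) = s 0 + s 1 - (n - m + 1) := by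
      omega
    rw [h2]
    ring
  have hf' : f'.IsHomogeneous (m - 1) := by
    refine IsHomogeneous.sum _ _ _ fun s hs => ?_
    have h4 := InjS_homog hy (coeff s f * p 0 ^ s 0 * p 1 ^ s 1) (s 0 + s 1 - (n - m + 1)) (s 2) (s 3)
    rwa [(hdeg s hs).2] at h4
  have hmem := InjS_red_mem h0 h1 f
  have hpow : ∀ j : ℕ, io k r ^ j * f' ∈ sec k I (io k (lp k p)) → f' ∈ sec k I (io k (lp k p)) := by
    intro j
    induction j with
    | zero => intro h2; rwa [pow_zero, one_mul] at h2
    | succ j ih =>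
      intro h2
      have h3 : (io k r ^ j * f').IsHomogeneous (j + (m - 1)) := by
        have h4 : (io k r ^ j).IsHomogeneous j := by simpa using hy.pow j
        exact h4.mul hf'
      refine ih (sec_nzd hI.hom hS hp hr hr0 h3 ?_)
      rwa [← mul_assoc, ← pow_succ']
  have h2 : io k r ^ (n - m + 1) * f' ∈ sec k I (io k (lp k p)) := by
    rw [← hred]
    have h3 : InjS_red p (io k r) f = f - (f - InjS_red p (io k r) f) := by ring
    rw [h3]
    exact Ideal.sub_mem _ (hsec f h) (hsec _ (Ideal.mem_sup_right hmem))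
  have h3 := InjS_low hS hm hp (show m - 1 < m by omega) hf' (hpow _ h2)
  have h4 : f = (f - InjS_red p (io k r) f) + io k r ^ (n - m + 1) * f' := by
    rw [← hred]
    ring
  rw [h4]
  exact Ideal.add_mem _ hmem (Ideal.mul_mem_left _ _ h3)

end MP_06793c_ag
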