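import Pool.Agent.Lib.MP_06793c_ag.PG.Dv

/-!
# A saturated graded submodule of rank `r` in `R^(r+1)` is the kernel of a row `q`
Plan: (1) take r independent elements of N (homogeneous ones: Gr and Ind; or not homogeneous, see
(3)); their r × (r+1) matrix has a vector q' ≠ 0 of signed maximal minors; v ∈ N iff
∑ q'_j v_j = 0: (=>) v, v_1..v_r are dependent (Rk), so the (r+1)×(r+1) determinant vanishes;
(<=) determinant zero, so a dependence relation with nonzero coefficient at v (the v_i are
independent), so v ∈ N by Sat. (Alternatively: linear algebra over the fraction field: N spans a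
hyperplane, the kernel of a functional; clear denominators.) (2) replace q' by a nonzero
homogeneous component (N graded: every homogeneous component of q' kills N, and a nonzero row
killing N has kernel N, because its kernel has rank r and N is saturated). (3) choose such a
homogeneous q of minimal degree nu; if all q_j vanish at p ≠ 0, divide by lp p (dvd_of_eval):
contradiction. So NoZ q.
-/

namespace MP_06793c_ag

open MvPolynomial

universe u

variable {k : Type u} [Field k] {m : ℕ}

theorem Ker_cons_dep {r : ℕ} {v : Fin r → (Fin (m + 1) → R k)} (hv : LinearIndependent (R k) v)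
    {w : Fin (m + 1) → R k} {c : Fin (r + 1) → R k} (hc : c ≠ 0)
    (h : c 0 • w + ∑ i : Fin r, c i.succ • v i = 0) : c 0 ≠ 0 := by
  intro h0
  apply hc
  rw [h0, zero_smul, zero_add] at h
  have := Fintype.linearIndependent_iff.mp hv (fun i => c i.succ) h
  ext1 i
  refine Fin.cases ?_ ?_ i
  · simpa using h0
  · intro j; simpa using this j

/-- The kernel of a nonzero row which kills `N`. -/
theorem Ker_eq {r : ℕ} (hr : r ≤ m) {N : Submodule (R k) (Fin (m + 1) → R k)}
    (hS : Sat N) (hI : Ind r N)
    (h0 : ∀ v ∈ N, ∀ j : Fin (m + 1), r < (j : ℕ) → v j = 0)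
    {q : Fin (m + 1) → R k} (hq : q ≠ 0) (hq0 : ∀ j : Fin (m + 1), r < (j : ℕ) → q j = 0)
    (hk : ∀ v ∈ N, ∑ j, q j * v j = 0) : N = Nq r q := by
  apply le_antisymm
  · intro v hv
    exact ⟨h0 v hv, hk v hv⟩
  · rintro w ⟨hw0, hwk⟩
    obtain ⟨v, hvN, hv⟩ := hI
    have hle : r + 1 ≤ m + 1 := by omega
    -- the matrix
    let u : Fin (r + 1) → (Fin (m + 1) → R k) := Fin.cons w v
    have hu0 : ∀ i, ∀ j : Fin (m + 1), r < (j : ℕ) → u i j = 0 := by
      intro i
      refine Fin.cases ?_ ?_ i
      · exact hw0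
      · intro l; exact h0 _ (hvN l)
    have huk : ∀ i, ∑ j, q j * u i j = 0 := by
      intro i
      refine Fin.cases ?_ ?_ i
      · exact hwk
      · intro l; exact hk _ (hvN l)
    let A : Matrix (Fin (r + 1)) (Fin (r + 1)) (R k) := fun i j => u i (Fin.castLE hle j)
    have hsum : ∀ f : Fin (m + 1) → R k, (∀ j : Fin (m + 1), r < (j : ℕ) → f j = 0) →
        ∑ j, f j = ∑ j : Fin (r + 1), f (Fin.castLE hle j) := by
      intro f hf
      symm
      apply Finset.sum_of_injOn (Fin.castLE hle)
      · intro a _ b _ hab; exact Fin.castLE_injective hle hab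
      · intro a _; simp
      · intro j _ hj
        apply hf
        by_contra hlt
        apply hj
        refine ⟨⟨(j : ℕ), by omega⟩, by simp, ?_⟩
        ext; simp
      · intro a _; rfl
    have hdet : A.det = 0 := by
      rw [← Matrix.exists_mulVec_eq_zero_iff]
      refine ⟨fun j => q (Fin.castLE hle j), ?_, ?_⟩
      · intro hz
        apply hq
        ext1 j
        by_cases hj : r < (j : ℕ)
        · simpa using hq0 j hj
        · have := congrFun hz ⟨(j : ℕ), by omega⟩
          simpa using this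
      · ext1 i
        rw [Matrix.mulVec, dotProduct]
        have := huk i
        rw [hsum _ (fun j hj => by rw [hq0 j hj, zero_mul])] at this
        rw [Pi.zero_apply, ← this]
        exact Finset.sum_congr rfl fun j _ => mul_comm _ _
    rw [← Matrix.exists_vecMul_eq_zero_iff] at hdet
    obtain ⟨c, hc, hcA⟩ := hdet
    have hrel : ∑ i, c i • u i = 0 := by
      ext1 j
      by_cases hj : r < (j : ℕ)
      · simp only [Finset.sum_apply, Pi.smul_apply, smul_eq_mul, Pi.zero_apply]
        exact Finset.sum_eq_zero fun i _ => by rw [hu0 i j hj, mul_zero]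
      · have := congrFun hcA ⟨(j : ℕ), by omega⟩
        rw [Matrix.vecMul, dotProduct] at this
        simpa [A] using this
    rw [Fin.sum_univ_succ] at hrel
    have hrel' : c 0 • w + ∑ i : Fin r, c i.succ • v i = 0 := by simpa [u] using hrel
    have hc0 := Ker_cons_dep hv hc hrel'
    apply hS (c 0) hc0
    rw [eq_neg_of_add_eq_zero_left hrel']
    exact neg_mem (Submodule.sum_mem _ fun i _ => Submodule.smul_mem _ _ (hvN i))

/-- There is a nonzero row which kills `N`. -/
theorem Ker_row {r : ℕ} (hr : r ≤ m) {N : Submodule (R k) (Fin (m + 1) → R k)}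
    (hR : Rk r N) (hI : Ind r N)
    (h0 : ∀ v ∈ N, ∀ j : Fin (m + 1), r < (j : ℕ) → v j = 0) :
    ∃ q : Fin (m + 1) → R k, q ≠ 0 ∧ (∀ j : Fin (m + 1), r < (j : ℕ) → q j = 0) ∧
      ∀ v ∈ N, ∑ j, q j * v j = 0 := by
  obtain ⟨v, hvN, hv⟩ := hI
  have hle : r + 1 ≤ m + 1 := by omega
  let u : Fin (r + 1) → (Fin (m + 1) → R k) := Fin.cons 0 v
  let A : Matrix (Fin (r + 1)) (Fin (r + 1)) (R k) := fun i j => u i (Fin.castLE hle j)
  have hdet : A.det = 0 := by
    apply Matrix.det_eq_zero_of_row_eq_zero 0
    intro j; simp [A, u]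
  rw [← Matrix.exists_mulVec_eq_zero_iff] at hdet
  obtain ⟨q, hq, hqA⟩ := hdet
  let q' : Fin (m + 1) → R k := fun j => if h : (j : ℕ) < r + 1 then q ⟨(j : ℕ), h⟩ else 0
  have hq'0 : ∀ j : Fin (m + 1), r < (j : ℕ) → q' j = 0 := by
    intro j hj
    have : ¬ (j : ℕ) < r + 1 := by omega
    exact dif_neg this
  have hq'c : ∀ j : Fin (r + 1), q' (Fin.castLE hle j) = q j := by
    intro j
    have : ((Fin.castLE hle j : Fin (m + 1)) : ℕ) < r + 1 := j.2
    exact dif_pos this
  have hsum : ∀ f : Fin (m + 1) → R k, (∀ j : Fin (m + 1), r < (j : ℕ) → f j = 0) →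
      ∑ j, f j = ∑ j : Fin (r + 1), f (Fin.castLE hle j) := by
    intro f hf
    symm
    apply Finset.sum_of_injOn (Fin.castLE hle)
    · intro a _ b _ hab; exact Fin.castLE_injective hle hab
    · intro a _; simp
    · intro j _ hj
      apply hf
      by_contra hlt
      apply hj
      refine ⟨⟨(j : ℕ), by omega⟩, by simp, ?_⟩
      ext; simp
    · intro a _; rfl
  have hkill : ∀ i, ∑ j, q' j * v i j = 0 := by
    intro i
    rw [hsum _ (fun j hj => by rw [hq'0 j hj, zero_mul])]
    have := congrFun hqA i.succ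
    rw [Matrix.mulVec, dotProduct] at this
    rw [Pi.zero_apply] at this
    rw [← this]
    refine Finset.sum_congr rfl fun j _ => ?_
    rw [hq'c, mul_comm]
    simp [A, u]
  refine ⟨q', ?_, hq'0, ?_⟩
  · intro hz
    apply hq
    ext1 j
    rw [← hq'c, hz]; rfl
  · intro w hw
    have hdep := hR (Fin.cons w v) (by
      intro i
      refine Fin.cases ?_ ?_ i
      · exact hw
      · intro l; exact hvN l)
    rw [Fintype.not_linearIndependent_iff] at hdep
    obtain ⟨c, hc, i, hi⟩ := hdep
    have hcne : c ≠ 0 := fun h => hi (by rw [h]; rfl)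
    rw [Fin.sum_univ_succ] at hc
    have hrel' : c 0 • w + ∑ i : Fin r, c i.succ • v i = 0 := by simpa using hc
    have hc0 := Ker_cons_dep hv hcne hrel'
    let φ : (Fin (m + 1) → R k) →ₗ[R k] R k := Fintype.linearCombination (R k) q'
    have hφ : ∀ x, φ x = ∑ j, q' j * x j := by
      intro x
      simp only [φ, Fintype.linearCombination_apply, smul_eq_mul]
      exact Finset.sum_congr rfl fun j _ => mul_comm _ _
    have h1 := congrArg φ hrel'
    rw [map_add, map_smul, map_sum, map_zero] at h1
    have h2 : ∑ i : Fin r, φ (c i.succ • v i) = 0 := by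
      apply Finset.sum_eq_zero
      intro i _
      rw [map_smul, hφ, hkill, smul_zero]
    rw [h2, add_zero, smul_eq_mul] at h1
    rw [← hφ]
    exact (mul_eq_zero.mp h1).resolve_left hc0

theorem Ker_comp_mul {i n : ℕ} {a b : R k} (hb : b.IsHomogeneous n) :
    homogeneousComponent (i + n) (a * b) = homogeneousComponent i a * b := by
  conv_lhs => rw [← sum_homogeneousComponent a]
  rw [Finset.sum_mul, map_sum]
  have h1 : ∀ l, homogeneousComponent (i + n) (homogeneousComponent l a * b) =
      if l = i then homogeneousComponent i a * b else 0 := by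
    intro l
    have hl : (homogeneousComponent l a * b) ∈ homogeneousSubmodule (Fin 2) k (l + n) :=
      (homogeneousComponent_isHomogeneous l a).mul hb
    rw [homogeneousComponent_of_mem hl]
    by_cases h : l = i
    · subst h; simp
    · rw [if_neg h, if_neg]; omega
  rw [Finset.sum_congr rfl fun l _ => h1 l, Finset.sum_ite_eq']
  split_ifs with h
  · rfl
  · have : a.totalDegree < i := by
      simp only [Finset.mem_range, not_lt] at h; omega
    rw [homogeneousComponent_eq_zero _ _ this, zero_mul]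

/-- There is a nonzero homogeneous row which kills `N`. -/
theorem Ker_hrow {r : ℕ} (hr : r ≤ m) {N : Submodule (R k) (Fin (m + 1) → R k)}
    (hG : Gr N) (hR : Rk r N) (hI : Ind r N)
    (h0 : ∀ v ∈ N, ∀ j : Fin (m + 1), r < (j : ℕ) → v j = 0) :
    ∃ (nu : ℕ) (q : Fin (m + 1) → R k), HomV nu q ∧ q ≠ 0 ∧
      (∀ j : Fin (m + 1), r < (j : ℕ) → q j = 0) ∧ ∀ v ∈ N, ∑ j, q j * v j = 0 := by
  obtain ⟨q, hq, hq0, hk⟩ := Ker_row hr hR hI h0
  obtain ⟨j0, hj0⟩ : ∃ j, q j ≠ 0 := by
    by_contra h
    push Not at h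
    exact hq (funext h)
  obtain ⟨nu, hnu⟩ : ∃ nu, homogeneousComponent nu (q j0) ≠ 0 := by
    by_contra h
    push Not at h
    apply hj0
    rw [← sum_homogeneousComponent (q j0)]
    exact Finset.sum_eq_zero fun i _ => h i
  refine ⟨nu, fun j => homogeneousComponent nu (q j), fun j =>
    homogeneousComponent_isHomogeneous _ _, fun h => hnu (congrFun h j0), fun j hj => by
      simp only [hq0 j hj, map_zero], ?_⟩
  intro v hv
  -- the homogeneous elements of `N`
  have hhom : ∀ n, ∀ w ∈ N, HomV n w → ∑ j, homogeneousComponent nu (q j) * w j = 0 := by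
    intro n w hw hwn
    have h1 := congrArg (homogeneousComponent (nu + n)) (hk w hw)
    rw [map_sum, map_zero] at h1
    rw [← h1]
    exact Finset.sum_congr rfl fun j _ => (Ker_comp_mul (hwn j)).symm
  -- write `v` as the sum of its components
  let D := Finset.univ.sup fun j => (v j).totalDegree + 1
  have hvs : ∀ j, v j = ∑ n ∈ Finset.range D, homogeneousComponent n (v j) := by
    intro j
    have hD : (v j).totalDegree + 1 ≤ D :=
      Finset.le_sup (f := fun j => (v j).totalDegree + 1) (Finset.mem_univ j)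
    conv_lhs => rw [← sum_homogeneousComponent (v j)]
    apply Finset.sum_subset
    · intro x hx
      simp only [Finset.mem_range] at hx ⊢
      omega
    · intro x _ hx
      apply homogeneousComponent_eq_zero
      simp only [Finset.mem_range, not_lt] at hx; omega
  have h2 : ∑ j, homogeneousComponent nu (q j) * v j =
      ∑ n ∈ Finset.range D, ∑ j, homogeneousComponent nu (q j) * homogeneousComponent n (v j) := by
    rw [Finset.sum_comm]
    refine Finset.sum_congr rfl fun j _ => ?_
    rw [← Finset.mul_sum, ← hvs j]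
  rw [h2]
  apply Finset.sum_eq_zero
  intro n _
  exact hhom n _ (hG v hv n) fun j => homogeneousComponent_isHomogeneous _ _

theorem exists_q [IsAlgClosed k] {r : ℕ} (hr : r ≤ m) {N : Submodule (R k) (Fin (m + 1) → R k)}
    (hG : Gr N) (hS : Sat N) (hR : Rk r N) (hI : Ind r N)
    (h0 : ∀ v ∈ N, ∀ j : Fin (m + 1), r < (j : ℕ) → v j = 0) :
    ∃ (nu : ℕ) (q : Fin (m + 1) → R k), HomV nu q ∧ NoZ q ∧
      (∀ j : Fin (m + 1), r < (j : ℕ) → q j = 0) ∧ N = Nq r q := by
  classical
  have hex := Ker_hrow hr hG hR hI h0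
  let nu := Nat.find hex
  obtain ⟨q, hqh, hq, hq0, hk⟩ : ∃ q : Fin (m + 1) → R k, HomV nu q ∧ q ≠ 0 ∧
      (∀ j : Fin (m + 1), r < (j : ℕ) → q j = 0) ∧ ∀ v ∈ N, ∑ j, q j * v j = 0 :=
    Nat.find_spec hex
  have hmin : ∀ n, (∃ q : Fin (m + 1) → R k, HomV n q ∧ q ≠ 0 ∧
      (∀ j : Fin (m + 1), r < (j : ℕ) → q j = 0) ∧ ∀ v ∈ N, ∑ j, q j * v j = 0) → nu ≤ n :=
    fun n hn => Nat.find_min' hex hn
  refine ⟨nu, q, hqh, ?_, hq0, Ker_eq hr hS hI h0 hq hq0 hk⟩
  intro p hp
  by_contra hno
  push Not at hno
  have hev : evp p q = 0 := funext hno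
  obtain ⟨q', hq'h, hqq'⟩ := dvd_of_evp hp hqh hev
  have hl : lp k p ≠ 0 := lp_ne_zero hp
  have hle : nu ≤ nu - 1 := by
    apply hmin
    refine ⟨q', hq'h, ?_, ?_, ?_⟩
    · rintro rfl
      exact hq (by rw [hqq', smul_zero])
    · intro j hj
      have := hq0 j hj
      rw [hqq', Pi.smul_apply, smul_eq_mul] at this
      exact (mul_eq_zero.mp this).resolve_left hl
    · intro v hv
      have := hk v hv
      rw [hqq'] at this
      have h3 : ∑ j, (lp k p • q') j * v j = lp k p * ∑ j, q' j * v j := by
        rw [Finset.mul_sum]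
        refine Finset.sum_congr rfl fun j _ => ?_
        rw [Pi.smul_apply, smul_eq_mul, mul_assoc]
      rw [h3] at this
      exact (mul_eq_zero.mp this).resolve_left hl
  have hnu0 : nu = 0 := by omega
  apply hq
  ext1 j
  have h4 : (q j).IsHomogeneous 0 := hnu0 ▸ hqh j
  have h5 : (q j).totalDegree = 0 := Nat.le_zero.mp h4.totalDegree_le
  rw [totalDegree_eq_zero_iff_eq_C] at h5
  have h6 := hno j
  rw [h5, eval_C] at h6
  rw [h5, h6, map_zero]; rfl

end MP_06793c_ag
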