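import Pool.Agent.Lib.MP_06793c_ag.PG.Dv

/-!
# A plane through the line `x0 = x1 = 0` contains no component of the curve
Let `l = io (lp p)` and let `y` be one of `X 0`, `X 1` such that `(l, y) = (X 0, X 1)`. If `l f ∈ I`
and `f ∉ I`, we can take `f` homogeneous; a minimal prime `P` over `(I : f)` is homogeneous, is an
associated prime of `S / I` and contains `l`. The disjointness gives `mm^N ≤ P + (y)`, so (graded
Nakayama) `S / P` is a finite module over `k[y]` and its dimension is at most one.
-/

namespace MP_06793c_ag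

open MvPolynomial

universe u

variable {k : Type u} [Field k] {m : ℕ}

section aux

attribute [local instance] MvPolynomial.gradedAlgebra

private theorem Nzd_homog {I : Ideal (S k)} (h : IsHom I) :
    I.IsHomogeneous (homogeneousSubmodule (Fin 4) k) := by
  intro n p hp
  have e : (DirectSum.decompose (homogeneousSubmodule (Fin 4) k) p n : S k) =
      homogeneousComponent n p :=
    decomposition.decompose'_apply p n
  rw [e]
  exact h p hp n

private theorem Nzd_min_homog {J q : Ideal (S k)} (hJ : IsHom J) (hq : q ∈ J.minimalPrimes) :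
    IsHom q := by
  have hJ' := Nzd_homog hJ
  have h1 : (q.homogeneousCore (homogeneousSubmodule (Fin 4) k)).toIdeal.IsPrime :=
    Ideal.IsPrime.homogeneousCore hq.1.1
  have h2 : J ≤ (q.homogeneousCore (homogeneousSubmodule (Fin 4) k)).toIdeal :=
    hJ'.toIdeal_homogeneousCore_eq_self.symm.trans_le (Ideal.homogeneousCore_mono _ hq.1.2)
  have h3 : (q.homogeneousCore (homogeneousSubmodule (Fin 4) k)).toIdeal ≤ q :=
    Ideal.toIdeal_homogeneousCore_le _ q
  have h4 : q ≤ (q.homogeneousCore (homogeneousSubmodule (Fin 4) k)).toIdeal := hq.2 ⟨h1, h2⟩ h3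
  have h5 : (q.homogeneousCore (homogeneousSubmodule (Fin 4) k)).toIdeal = q := le_antisymm h3 h4
  have h6 : q.IsHomogeneous (homogeneousSubmodule (Fin 4) k) := by
    rw [← h5]
    exact HomogeneousIdeal.isHomogeneous _
  intro p hp n
  exact homogeneousComponent_mem_of_mem h6 hp n

end aux

private theorem Nzd_comp_mul {b y : S k} {e : ℕ} (hy : y.IsHomogeneous e) (n : ℕ) :
    homogeneousComponent (n + e) (b * y) = homogeneousComponent n b * y := by
  conv_lhs => rw [← sum_homogeneousComponent b]
  rw [Finset.sum_mul, map_sum]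
  have h : ∀ i, homogeneousComponent (n + e) (homogeneousComponent i b * y) =
      if i = n then homogeneousComponent i b * y else 0 := by
    intro i
    rw [homogeneousComponent_of_mem (n := i + e)
      (((mem_homogeneousSubmodule _ _).2 ((homogeneousComponent_isHomogeneous i b).mul hy)))]
    by_cases hi : i = n
    · subst hi; simp
    · rw [if_neg (by omega), if_neg hi]
  simp only [h]
  rw [Finset.sum_ite_eq']
  split_ifs with h1
  · rfl
  · rw [homogeneousComponent_eq_zero n b (by simpa using h1), zero_mul]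

private theorem Nzd_comp_zero {b y : S k} (hy : y.IsHomogeneous 1) :
    homogeneousComponent 0 (b * y) = 0 := by
  rw [homogeneousComponent_zero]
  have : constantCoeff y = 0 := by
    by_contra hc
    have := hy (d := 0) hc
    simp at this
  have h2 : coeff 0 (b * y) = constantCoeff (b * y) := rfl
  rw [h2, map_mul, this, mul_zero, C_0]

private theorem Nzd_mem_pow {N n : ℕ} (h : N ≤ n) {b : S k} (hb : b.IsHomogeneous n) :
    b ∈ mm k ^ N := by
  rw [mem_pow_idealOfVars_iff']
  intro x hx
  by_contra hc
  have := hb hc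
  rw [Pi.one_def, ← Finsupp.degree_eq_weight_one] at this
  omega

/-- graded Nakayama -/
private theorem Nzd_dim {P : Ideal (S k)} (hP : IsHom P) {y : S k} (hy : y.IsHomogeneous 1)
    {N : ℕ} (hN : mm k ^ N ≤ P ⊔ Ideal.span {y}) : ringKrullDim (S k ⧸ P) ≤ 1 := by
  classical
  let φ : Polynomial k →ₐ[k] (S k ⧸ P) := Polynomial.aeval (Ideal.Quotient.mk P y)
  let _ : Algebra (Polynomial k) (S k ⧸ P) := φ.toRingHom.toAlgebra
  have hX : ∀ x : S k ⧸ P, (Polynomial.X : Polynomial k) • x = Ideal.Quotient.mk P y * x := by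
    intro x
    rw [Algebra.smul_def]
    congr 1
    exact Polynomial.aeval_X _
  have hC : ∀ (c : k) (x : S k), (Polynomial.C c : Polynomial k) • Ideal.Quotient.mk P x =
      Ideal.Quotient.mk P (C c * x) := by
    intro c x
    rw [Algebra.smul_def, map_mul]
    congr 1
    exact Polynomial.aeval_C _ _
  let T : Finset (S k ⧸ P) :=
    ((Finset.range N).biUnion fun i => (Finset.finsuppAntidiag Finset.univ i)).image
      fun s : Fin 4 →₀ ℕ => Ideal.Quotient.mk P (monomial s 1)
  let M : Submodule (Polynomial k) (S k ⧸ P) := Submodule.span _ (T : Set (S k ⧸ P))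
  have key : ∀ n : ℕ, ∀ g : S k, g.IsHomogeneous n → Ideal.Quotient.mk P g ∈ M := by
    intro n
    induction n using Nat.strong_induction_on with
    | _ n ih =>
      intro g hg
      by_cases hn : n < N
      · rw [g.as_sum, map_sum]
        refine Submodule.sum_mem _ fun s hs => ?_
        have h1 : (monomial s (coeff s g) : S k) = C (coeff s g) * monomial s 1 := by
          rw [C_mul_monomial, mul_one]
        rw [h1, ← hC]
        refine Submodule.smul_mem _ _ (Submodule.subset_span ?_)
        refine Finset.mem_coe.2 (Finset.mem_image.2 ⟨s, ?_, rfl⟩)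
        refine Finset.mem_biUnion.2 ⟨n, Finset.mem_range.2 hn, ?_⟩
        rw [Finset.mem_finsuppAntidiag]
        refine ⟨?_, Finset.subset_univ _⟩
        have := hg (mem_support_iff.1 hs)
        rw [Pi.one_def, ← Finsupp.degree_eq_weight_one, Finsupp.degree_eq_sum] at this
        exact this
      · have h1 := hN (Nzd_mem_pow (Nat.le_of_not_lt hn) hg)
        obtain ⟨a, ha, b, hb, rfl⟩ := Submodule.mem_sup.1 h1
        obtain ⟨c, rfl⟩ := Ideal.mem_span_singleton'.1 hb
        have h2 : a + c * y = homogeneousComponent n (a + c * y) :=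
          (homogeneousComponent_eq_self hg).symm
        rw [h2, map_add, map_add, Ideal.Quotient.eq_zero_iff_mem.2 (hP a ha n), zero_add]
        rcases n with _ | n
        · rw [Nzd_comp_zero hy, map_zero]
          exact M.zero_mem
        · rw [Nzd_comp_mul hy n, mul_comm, map_mul, ← hX]
          exact Submodule.smul_mem _ _ (ih n (Nat.lt_succ_self n) _
            (homogeneousComponent_isHomogeneous n c))
  have htop : M = ⊤ := by
    rw [eq_top_iff]
    rintro x -
    obtain ⟨x, rfl⟩ := Ideal.Quotient.mk_surjective x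
    rw [← sum_homogeneousComponent x, map_sum]
    exact Submodule.sum_mem _ fun i _ => key i _ (homogeneousComponent_isHomogeneous i x)
  have : Module.Finite (Polynomial k) (S k ⧸ P) := ⟨⟨T, htop⟩⟩
  have : Algebra.IsIntegral (Polynomial k) (S k ⧸ P) := inferInstance
  have hmono : StrictMono (PrimeSpectrum.comap (algebraMap (Polynomial k) (S k ⧸ P))) := by
    intro I J hIJ
    exact Ideal.IsIntegral.comap_lt_comap hIJ
  have h1 : ringKrullDim (S k ⧸ P) ≤ ringKrullDim (Polynomial k) :=
    Order.krullDim_le_of_strictMono _ hmono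
  rw [Polynomial.ringKrullDim_of_isNoetherianRing, ringKrullDim_eq_zero_of_field, zero_add] at h1
  exact h1

private theorem Nzd_io (p : Fin 2 → k) : io k (lp k p) = C (p 1) * X 0 - C (p 0) * X 1 := by
  simp [io, lp]

private theorem Nzd_homog_case {d : ℕ} {g : ℤ} {I : Ideal (S k)} (hI : IsCurve k d g I)
    (hD : Dis k I (Ideal.span {X 0, X 1})) {p : Fin 2 → k} (hp : p ≠ 0) {n : ℕ} {f : S k}
    (hf : f.IsHomogeneous n) (h : f * io k (lp k p) ∈ I) : f ∈ I := by
  by_contra hfI
  let M : Submodule (S k) (S k ⧸ I) := Submodule.span (S k) {Ideal.Quotient.mk I f}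
  let J : Ideal (S k) := M.annihilator
  have hJm : ∀ r : S k, r ∈ J ↔ r * f ∈ I := by
    intro r
    rw [Submodule.mem_annihilator_span_singleton, ← Ideal.Quotient.eq_zero_iff_mem]
    rfl
  have hJ : IsHom J := by
    intro r hr i
    rw [hJm] at hr ⊢
    rw [← Nzd_comp_mul hf]
    exact hI.hom _ hr _
  have hJt : J ≠ ⊤ := by
    intro ht
    apply hfI
    have : (1 : S k) ∈ J := ht ▸ Submodule.mem_top
    rw [hJm, one_mul] at this
    exact this
  obtain ⟨P, hP⟩ := Ideal.nonempty_minimalPrimes hJt
  have hPh : IsHom P := Nzd_min_homog hJ hP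
  have hIJ : I ≤ J := fun r hr => (hJm r).2 (I.mul_mem_right _ hr)
  have hlP : io k (lp k p) ∈ P := hP.1.2 ((hJm _).2 (by rw [mul_comm]; exact h))
  have hass : P ∈ associatedPrimes (S k) (S k ⧸ I) := by
    have h1 : P ∈ associatedPrimes (S k) M :=
      Module.associatedPrimes.minimalPrimes_annihilator_subset_associatedPrimes (S k) M hP
    exact associatedPrimes.subset_of_injective (f := M.subtype) M.injective_subtype h1
  have hdim := hI.ass P hass
  obtain ⟨N, hN⟩ := hD
  have hex : ∃ y : S k, y.IsHomogeneous 1 ∧ (X 0 : S k) ∈ P ⊔ Ideal.span {y} ∧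
      (X 1 : S k) ∈ P ⊔ Ideal.span {y} := by
    rw [Nzd_io] at hlP
    by_cases h1 : p 1 = 0
    · have h0 : p 0 ≠ 0 := by
        intro h0
        apply hp
        funext i
        fin_cases i
        · exact h0
        · exact h1
      refine ⟨X 0, isHomogeneous_X k 0, Ideal.mem_sup_right (Ideal.mem_span_singleton_self _), ?_⟩
      refine Ideal.mem_sup_left ?_
      have h2 : (X 1 : S k) = C (-(p 0)⁻¹) * (C (p 1) * X 0 - C (p 0) * X 1) := by
        rw [h1, C_0, zero_mul, zero_sub, C_neg, neg_mul_neg, ← mul_assoc, ← C_mul,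
          inv_mul_cancel₀ h0, C_1, one_mul]
      rw [h2]
      exact P.mul_mem_left _ hlP
    · refine ⟨X 1, isHomogeneous_X k 1, ?_, Ideal.mem_sup_right (Ideal.mem_span_singleton_self _)⟩
      have h2 : (X 0 : S k) = C (p 1)⁻¹ * (C (p 1) * X 0 - C (p 0) * X 1) +
          C (p 1)⁻¹ * C (p 0) * X 1 := by
        rw [mul_sub, ← mul_assoc, ← C_mul, inv_mul_cancel₀ h1, C_1, one_mul]
        ring
      rw [h2]
      exact Ideal.add_mem _ (Ideal.mem_sup_left (P.mul_mem_left _ hlP))
        (Ideal.mem_sup_right (Ideal.mul_mem_left _ _ (Ideal.mem_span_singleton_self _)))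
  obtain ⟨y, hy, hy0, hy1⟩ := hex
  have hle : mm k ^ N ≤ P ⊔ Ideal.span {y} := by
    refine hN.trans (sup_le ((hIJ.trans hP.1.2).trans le_sup_left) (Ideal.span_le.2 ?_))
    rintro _ (rfl | rfl)
    · exact hy0
    · exact hy1
  have h3 := Nzd_dim hPh hy hle
  rw [hdim] at h3
  exact absurd h3 (by norm_num)

theorem nzd {d : ℕ} {g : ℤ} {I : Ideal (S k)} (hI : IsCurve k d g I)
    (hD : Dis k I (Ideal.span {X 0, X 1})) {p : Fin 2 → k} (hp : p ≠ 0) {f : S k}
    (h : io k (lp k p) * f ∈ I) : f ∈ I := by
  have hl : (io k (lp k p)).IsHomogeneous 1 := by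
    rw [Nzd_io]
    exact (isHomogeneous_C_mul_X (p 1) 0).sub (isHomogeneous_C_mul_X (p 0) 1)
  rw [← sum_homogeneousComponent f]
  refine Ideal.sum_mem _ fun n _ => ?_
  refine Nzd_homog_case hI hD hp (homogeneousComponent_isHomogeneous n f) ?_
  rw [← Nzd_comp_mul hl]
  rw [mul_comm] at h
  exact hI.hom _ h _

end MP_06793c_ag
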