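import Pool.Agent.Lib.MP_06793c_ag.PG.Mem
import Pool.Agent.Lib.MP_06793c_ag.PG.Fib

/-!
# `KN` is a curve
-/

namespace MP_06793c_ag

open MvPolynomial

universe u

variable {k : Type u} [Field k] {m : ℕ}

private theorem Cur_whc_mul {w : Fin 4 → ℕ} {a : ℕ} {q : S k} (hq : IsWeightedHomogeneous w q a)
    (n : ℕ) (f : S k) :
    weightedHomogeneousComponent w (a + n) (q * f) = q * weightedHomogeneousComponent w n f := by
  classical
  induction f using MvPolynomial.induction_on' with
  | monomial t b =>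
    have h1 : IsWeightedHomogeneous w (monomial t b : S k) (Finsupp.weight w t) :=
      isWeightedHomogeneous_monomial w t b rfl
    rw [weightedHomogeneousComponent_of_mem
        ((mem_weightedHomogeneousSubmodule k w _ _).2 (hq.mul h1)),
      weightedHomogeneousComponent_of_mem ((mem_weightedHomogeneousSubmodule k w _ _).2 h1)]
    by_cases h2 : n = Finsupp.weight w t
    · rw [if_pos h2, if_pos (by rw [h2])]
    · rw [if_neg h2, if_neg (by omega), mul_zero]
  | add p q' hp hq' => rw [mul_add, map_add, hp, hq', map_add, mul_add]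

private theorem Cur_io_supp (r : R k) : ∀ a ∈ (io k r).support, a 2 = 0 ∧ a 3 = 0 := by
  intro a ha
  rw [io, support_rename_of_injective
    (by intro i j hij; fin_cases i <;> fin_cases j <;> simp_all)] at ha
  obtain ⟨t, -, rfl⟩ := Finset.mem_image.mp ha
  refine ⟨Finsupp.mapDomain_of_notMem_range _ _ ?_, Finsupp.mapDomain_of_notMem_range _ _ ?_⟩ <;>
  · rintro ⟨i, hi⟩; fin_cases i <;> simp at hi

private theorem Cur_io_inj : Function.Injective (io k) := by
  rw [io]
  exact rename_injective _ (by intro i j hij; fin_cases i <;> fin_cases j <;> simp_all)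

private def Cur_w : Fin 4 → ℕ := ![0, 0, 1, 1]

private theorem Cur_weight (s : Fin 4 →₀ ℕ) : Finsupp.weight Cur_w s = s 2 + s 3 := by
  rw [Finsupp.weight_apply, Finsupp.sum_fintype _ _ (by simp), Fin.sum_univ_four]
  simp [Cur_w]

private theorem Cur_io_wh (r : R k) : IsWeightedHomogeneous Cur_w (io k r) 0 := by
  intro d hd
  have := Cur_io_supp r d (mem_support_iff.2 hd)
  rw [Cur_weight, this.1, this.2]

private theorem Cur_comp_io (r : R k) (f : S k) (n : ℕ) :
    weightedHomogeneousComponent Cur_w n (io k r * f) =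
      io k r * weightedHomogeneousComponent Cur_w n f := by
  have := Cur_whc_mul (Cur_io_wh r) n f
  rwa [zero_add] at this

/-- membership in the power by components -/
private theorem Cur_pow (j : ℕ) (f : S k) :
    f ∈ (Ideal.span {X 2, X 3} : Ideal (S k)) ^ j ↔
      ∀ n < j, weightedHomogeneousComponent Cur_w n f = 0 := by
  classical
  rw [mem_pow23]
  constructor
  · intro h n hn
    ext s
    rw [coeff_weightedHomogeneousComponent, coeff_zero]
    split_ifs with hs
    · by_contra hc
      have := h s (mem_support_iff.2 hc)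
      rw [Cur_weight] at hs
      omega
    · rfl
  · intro h s hs
    by_contra hc
    have h1 := congrArg (coeff s) (h (s 2 + s 3) (by omega))
    rw [coeff_weightedHomogeneousComponent, Cur_weight, if_pos rfl, coeff_zero] at h1
    exact mem_support_iff.1 hs h1

private theorem Cur_em_wh (v : Fin (m + 1) → R k) : IsWeightedHomogeneous Cur_w (em k m v) m := by
  intro d hd
  rw [Cur_weight]
  exact support_em v d (mem_support_iff.2 hd)

private theorem Cur_em_smul (r : R k) (v : Fin (m + 1) → R k) :
    em k m (r • v) = io k r * em k m v := by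
  simp only [em, Pi.smul_apply, smul_eq_mul, map_mul, Finset.mul_sum, mul_assoc]

private theorem Cur_tf {N : Submodule (R k) (Fin (m + 1) → R k)} (hS : Sat N) {r : R k}
    (hr : r ≠ 0) {f : S k} (h : io k r * f ∈ KN k m (N : Set (Fin (m + 1) → R k))) :
    f ∈ KN k m (N : Set (Fin (m + 1) → R k)) := by
  classical
  have hio : io k r ≠ 0 := fun h0 => hr (Cur_io_inj (h0.trans (map_zero _).symm))
  obtain ⟨v, hv, hf⟩ := (mem_KN N _).1 h
  rw [Cur_pow] at hf
  have hlow : ∀ n < m, weightedHomogeneousComponent Cur_w n f = 0 := by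
    intro n hn
    have h1 := hf n (by omega)
    rw [map_sub, Cur_comp_io, (Cur_em_wh v).weightedHomogeneousComponent_ne n (by omega),
      sub_zero] at h1
    exact (mul_eq_zero.1 h1).resolve_left hio
  have hm := hf m (by omega)
  rw [map_sub, Cur_comp_io, weightedHomogeneousComponent_eq_self (Cur_em_wh v), sub_eq_zero] at hm
  obtain ⟨w, hw⟩ := exists_em (m := m) (f := weightedHomogeneousComponent Cur_w m f) (by
    intro s hs
    rw [support_weightedHomogeneousComponent, Finset.mem_filter, Cur_weight] at hs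
    exact hs.2)
  rw [hw, ← Cur_em_smul] at hm
  have hwN : w ∈ N := hS r hr w (by rw [em_inj hm]; exact hv)
  refine (mem_KN N f).2 ⟨w, hwN, ?_⟩
  rw [Cur_pow]
  intro n hn
  rw [map_sub]
  rcases Nat.lt_succ_iff_lt_or_eq.1 hn with h1 | h1
  · rw [hlow n h1, (Cur_em_wh w).weightedHomogeneousComponent_ne n (by omega), sub_zero]
  · rw [h1, hw, weightedHomogeneousComponent_eq_self (Cur_em_wh w), sub_self]

/-- restriction to the line -/
private noncomputable def Cur_pi : S k →ₐ[k] R k := aeval ![X 0, X 1, 0, 0]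

private theorem Cur_pi_io (r : R k) : Cur_pi (io k r) = r := by
  have h : (Cur_pi (k := k)).comp (io k) = AlgHom.id k (R k) := by
    ext i
    fin_cases i <;> simp [Cur_pi, io]
  exact DFunLike.congr_fun h r

private theorem Cur_sub (f : S k) : f - io k (Cur_pi f) ∈ (Ideal.span {X 2, X 3} : Ideal (S k)) := by
  have h : (Ideal.Quotient.mkₐ k (Ideal.span {X 2, X 3} : Ideal (S k))).comp
      ((io k).comp (Cur_pi (k := k))) = Ideal.Quotient.mkₐ k (Ideal.span {X 2, X 3}) := by
    have h2 : (X 2 : S k) ∈ (Ideal.span {X 2, X 3} : Ideal (S k)) := Ideal.subset_span (by simp)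
    have h3 : (X 3 : S k) ∈ (Ideal.span {X 2, X 3} : Ideal (S k)) := Ideal.subset_span (by simp)
    ext i
    fin_cases i
    · simp [Cur_pi, io]
    · simp [Cur_pi, io]
    · simpa [Cur_pi] using (Ideal.Quotient.eq_zero_iff_mem.2 h2).symm
    · simpa [Cur_pi] using (Ideal.Quotient.eq_zero_iff_mem.2 h3).symm
  have h1 := DFunLike.congr_fun h f
  exact Ideal.Quotient.eq.1 h1.symm

private theorem Cur_ker : RingHom.ker (Cur_pi (k := k) : S k →+* R k) = Ideal.span {X 2, X 3} := by
  apply le_antisymm
  · intro f hf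
    have h := Cur_sub f
    have h0 : Cur_pi f = 0 := hf
    rwa [h0, map_zero, sub_zero] at h
  · rw [Ideal.span_le]
    rintro x (rfl | rfl)
    · change Cur_pi (X 2 : S k) = 0
      simp [Cur_pi]
    · change Cur_pi (X 3 : S k) = 0
      simp [Cur_pi]

private theorem Cur_dim : ringKrullDim (S k ⧸ (Ideal.span {X 2, X 3} : Ideal (S k))) = 2 := by
  have hs : Function.Surjective (Cur_pi (k := k) : S k →+* R k) := fun r => ⟨io k r, Cur_pi_io r⟩
  rw [← Cur_ker, ringKrullDim_eq_of_ringEquiv (RingHom.quotientKerEquivOfSurjective hs),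
    MvPolynomial.ringKrullDim_of_isNoetherianRing, ringKrullDim_eq_zero_of_field]
  simp

theorem isCurve_KN {N : Submodule (R k) (Fin (m + 1) → R k)} (hG : Gr N) (hS : Sat N) {d : ℕ}
    {g : ℤ} (hd : 1 ≤ d)
    (hh : ∃ n₀ : ℕ, ∀ n ≥ n₀, hf k (KN k m (N : Set (Fin (m + 1) → R k))) n = d * n + 1 - g) :
    IsCurve k d g (KN k m (N : Set (Fin (m + 1) → R k))) := by
  refine ⟨hd, isHom_KN _ fun v hv i => hG v hv i, ?_, hh⟩
  intro P hP
  have hPp : P.IsPrime := (AssociatedPrimes.mem_iff.1 hP).isPrime
  obtain ⟨-, x, hx⟩ := isAssociatedPrime_iff.1 (AssociatedPrimes.mem_iff.1 hP)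
  obtain ⟨f, rfl⟩ := Ideal.Quotient.mk_surjective x
  have hmem : ∀ a : S k, a ∈ P ↔ a * f ∈ KN k m (N : Set (Fin (m + 1) → R k)) := by
    intro a
    rw [hx, Submodule.mem_colon_singleton, Submodule.mem_bot, ← Ideal.Quotient.eq_zero_iff_mem]
    rfl
  have hf : f ∉ KN k m (N : Set (Fin (m + 1) → R k)) := by
    intro h
    apply hPp.ne_top
    rw [Ideal.eq_top_iff_one, hmem, one_mul]
    exact h
  have hX : (Ideal.span {X 2, X 3} : Ideal (S k)) ≤ P := by
    have h1 : (Ideal.span {X 2, X 3} : Ideal (S k)) ^ (m + 1) ≤ P := by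
      intro a ha
      rw [hmem]
      exact Ideal.mul_mem_right _ _ (Ideal.mem_sup_right ha)
    exact hPp.le_of_pow_le h1
  have hPX : P ≤ (Ideal.span {X 2, X 3} : Ideal (S k)) := by
    intro a ha
    have h1 := Cur_sub a
    have h2 : io k (Cur_pi a) ∈ P := by
      have h3 : io k (Cur_pi a) = a - (a - io k (Cur_pi a)) := by ring
      rw [h3]
      exact P.sub_mem ha (hX h1)
    have h4 : Cur_pi a = 0 := by
      by_contra h5
      exact hf (Cur_tf hS h5 ((hmem _).1 h2))
    rwa [h4, map_zero, sub_zero] at h1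
  rw [le_antisymm hPX hX]
  exact Cur_dim

end MP_06793c_ag
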