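import Pool.Agent.Lib.MP_06793c_ag.PG.Pw

/-!
# The condition of having no common zero is open on a line of rows
Plan: x0^M = ∑ a_j q_j and x1^M = ∑ b_j q_j, so all monomials of degree D = 2M + nu are in the image of
Φ_0 : (forms of degree D - nu)^(m+1) → (forms of degree D), v ↦ ∑ q_j v_j. Let
Φ_c be the same map for (1-c) q + c q'. The matrix of Φ_c (monomial bases) has entries of degree ≤ 1
in c; some maximal minor is nonzero at c = 0; take h = this minor (a polynomial in c). If h(c) ≠ 0
then Φ_c is surjective, so no common zero (a common zero p ≠ 0 would be a zero of x0^D and x1^D).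
Alternative: `open_dis` of Open.lean with the ideal generated by the rows (in S) and D = (X 2, X 3).
-/

namespace MP_06793c_ag

open MvPolynomial

universe u

variable {k : Type u} [Field k] {m : ℕ}

private theorem Opq_hc (e nu : ℕ) (a q : R k) (hq : q.IsHomogeneous nu) :
    homogeneousComponent (e + nu) (a * q) = homogeneousComponent e a * q := by
  conv_lhs => rw [← sum_homogeneousComponent a, Finset.sum_mul, map_sum]
  have h1 : ∀ i ∈ Finset.range (a.totalDegree + 1),
      homogeneousComponent (e + nu) (homogeneousComponent i a * q) =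
        if i = e then homogeneousComponent e a * q else 0 := by
    intro i _
    have h2 : homogeneousComponent i a * q ∈ homogeneousSubmodule (Fin 2) k (i + nu) :=
      (homogeneousComponent_isHomogeneous i a).mul hq
    rw [homogeneousComponent_of_mem h2]
    by_cases h : i = e
    · simp [h]
    · rw [if_neg (by omega), if_neg h]
  rw [Finset.sum_congr rfl h1, Finset.sum_ite_eq']
  split_ifs with h
  · rfl
  · rw [homogeneousComponent_eq_zero e a (by
      have := Finset.mem_range.not.1 h
      omega), zero_mul]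

private theorem Opq_eval (D : ℕ) (f : R k) (hf : f.IsHomogeneous D) (p : Fin 2 → k) :
    eval p f = ∑ l : Fin (D + 1),
      coeff (Finsupp.single 0 (l : ℕ) + Finsupp.single 1 (D - (l : ℕ))) f *
        (p 0 ^ (l : ℕ) * p 1 ^ (D - (l : ℕ))) := by
  classical
  rw [eval_eq', Fin.sum_univ_eq_sum_range (fun l => coeff (Finsupp.single 0 l +
    Finsupp.single 1 (D - l)) f * (p 0 ^ l * p 1 ^ (D - l))) (D + 1)]
  have h1 : ∑ l ∈ Finset.range (D + 1), coeff (Finsupp.single (0 : Fin 2) l +
      Finsupp.single 1 (D - l)) f * (p 0 ^ l * p 1 ^ (D - l)) =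
      ∑ d ∈ (Finset.range (D + 1)).image (fun l => Finsupp.single (0 : Fin 2) l +
        Finsupp.single 1 (D - l)), coeff d f * ∏ i, p i ^ d i := by
    rw [Finset.sum_image]
    · refine Finset.sum_congr rfl fun l _ => ?_
      simp [Fin.prod_univ_two]
    · intro l _ l' _ h
      have := DFunLike.congr_fun h 0
      simpa using this
  rw [h1]
  refine Finset.sum_subset ?_ fun d _ hd => by rw [notMem_support_iff.1 hd, zero_mul]
  intro d hd
  have h2 := hf (mem_support_iff.1 hd)
  rw [Finsupp.weight_apply, Finsupp.sum_fintype _ _ (by simp), Fin.sum_univ_two] at h2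
  simp only [Pi.one_apply, smul_eq_mul, mul_one] at h2
  refine Finset.mem_image.2 ⟨d 0, Finset.mem_range.2 (by omega), ?_⟩
  ext i
  fin_cases i
  · simp
  · simp only [Finsupp.add_apply]
    simp
    omega

theorem exists_h [IsAlgClosed k] {nu : ℕ} {q q' : Fin (m + 1) → R k} (hq : HomV nu q)
    (hq' : HomV nu q') (hz : NoZ q) :
    ∃ h : Polynomial k, h.eval 0 ≠ 0 ∧
      ∀ c : k, h.eval c ≠ 0 → NoZ (fun j => C (1 - c) * q j + C c * q' j) := by
  obtain ⟨M, h0, h1⟩ := pow_mem_of_noZ hq hz
  obtain ⟨a, ha⟩ := (Ideal.mem_span_range_iff_exists_fun).1 h0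
  obtain ⟨b, hb⟩ := (Ideal.mem_span_range_iff_exists_fun).1 h1
  obtain ⟨D, hD⟩ : ∃ D, D = 2 * M + nu := ⟨_, rfl⟩
  have hA : ∀ i : Fin (D + 1), ∃ g : Fin (m + 1) → R k, (∀ j, (g j).IsHomogeneous (2 * M)) ∧
      ∑ j, g j * q j = X 0 ^ (i : ℕ) * X 1 ^ (D - (i : ℕ)) := by
    intro i
    have hi : (i : ℕ) ≤ D := Nat.lt_succ_iff.1 i.2
    obtain ⟨g, hg⟩ : ∃ g : Fin (m + 1) → R k, ∑ j, g j * q j = X 0 ^ (i : ℕ) * X 1 ^ (D - (i : ℕ)) := by
      by_cases hiM : M ≤ (i : ℕ)
      · refine ⟨fun j => X 0 ^ ((i : ℕ) - M) * X 1 ^ (D - (i : ℕ)) * a j, ?_⟩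
        simp_rw [mul_assoc]
        rw [← Finset.mul_sum, ← Finset.mul_sum, ha]
        conv_rhs => rw [← Nat.sub_add_cancel hiM, pow_add]
        rw [Nat.sub_add_cancel hiM]
        ring
      · refine ⟨fun j => X 0 ^ (i : ℕ) * X 1 ^ (D - (i : ℕ) - M) * b j, ?_⟩
        simp_rw [mul_assoc]
        rw [← Finset.mul_sum, ← Finset.mul_sum, hb, ← pow_add, Nat.sub_add_cancel (by omega)]
    refine ⟨fun j => homogeneousComponent (2 * M) (g j), fun j =>
      homogeneousComponent_isHomogeneous _ _, ?_⟩
    have h2 : (X 0 ^ (i : ℕ) * X 1 ^ (D - (i : ℕ)) : R k) ∈ homogeneousSubmodule (Fin 2) k D := by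
      have := ((isHomogeneous_X k (0 : Fin 2)).pow (i : ℕ)).mul
        ((isHomogeneous_X k (1 : Fin 2)).pow (D - (i : ℕ)))
      rw [one_mul, one_mul, Nat.add_sub_cancel' hi] at this
      exact this
    have h3 := homogeneousComponent_of_mem (m := D) h2
    rw [if_pos rfl, ← hg, map_sum] at h3
    rw [← hg, ← h3]
    refine Finset.sum_congr rfl fun j _ => ?_
    rw [hD, Opq_hc _ _ _ _ (hq j)]
  choose g hg1 hg2 using hA
  have hF : ∀ i, (∑ j, g i j * (q' j - q j)).IsHomogeneous D := by
    intro i
    refine IsHomogeneous.sum _ _ _ fun j _ => ?_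
    rw [hD]
    exact (hg1 i j).mul ((hq' j).sub (hq j))
  let T : Matrix (Fin (D + 1)) (Fin (D + 1)) k := Matrix.of fun i l =>
    coeff (Finsupp.single 0 (l : ℕ) + Finsupp.single 1 (D - (l : ℕ))) (∑ j, g i j * (q' j - q j))
  have hT : ∀ c : k, Polynomial.eval c (1 + (Polynomial.X : Polynomial k) • T.map Polynomial.C).det =
      (1 + c • T).det := by
    intro c
    rw [← Polynomial.coe_evalRingHom, RingHom.map_det]
    congr 1
    ext i l
    by_cases hil : i = l
    · simp [hil]
      ring
    · simp [Matrix.one_apply, hil]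
      ring
  refine ⟨(1 + (Polynomial.X : Polynomial k) • T.map Polynomial.C).det, ?_, ?_⟩
  · rw [hT]
    simp
  · intro c hc p hp
    by_contra hcon
    push Not at hcon
    rw [hT] at hc
    have hw : (1 + c • T).mulVec (fun l : Fin (D + 1) => p 0 ^ (l : ℕ) * p 1 ^ (D - (l : ℕ))) = 0 := by
      ext i
      have h5 := Opq_eval D _ (hF i) p
      have h6 := congrArg (eval p) (hg2 i)
      simp only [map_sum, map_mul, map_sub, map_pow, eval_X] at h5 h6
      rw [Matrix.add_mulVec, Matrix.one_mulVec, Matrix.smul_mulVec, Pi.add_apply, Pi.smul_apply,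
        Pi.zero_apply]
      simp only [Matrix.mulVec, dotProduct, T, Matrix.of_apply, smul_eq_mul]
      rw [← h5, ← h6, Finset.mul_sum, ← Finset.sum_add_distrib]
      refine Finset.sum_eq_zero fun j _ => ?_
      have h7 := hcon j
      simp only [map_add, map_mul, eval_C] at h7
      linear_combination (eval p (g i j)) * h7
    have h8 := Matrix.eq_zero_of_mulVec_eq_zero hc hw
    have h9 := congrFun h8 0
    have h10 := congrFun h8 (Fin.last D)
    simp only [Fin.val_zero, pow_zero, one_mul, Nat.sub_zero, Pi.zero_apply, Fin.val_last,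
      Nat.sub_self, mul_one] at h9 h10
    refine hp ?_
    ext i
    fin_cases i
    · exact eq_zero_of_pow_eq_zero h10
    · exact eq_zero_of_pow_eq_zero h9

end MP_06793c_ag
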