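import Pool.Agent.Lib.MP_06793c_ag.PG.HNq
import Pool.Agent.Lib.MP_06793c_ag.PG.Kos
import Pool.Agent.Lib.MP_06793c_ag.PG.Opq
import Pool.Agent.Lib.MP_06793c_ag.PG.Cur
import Pool.Agent.Lib.MP_06793c_ag.PG.HK
import Pool.Agent.Lib.MP_06793c_ag.PG.Fib

/-!
# The curves of two rows of the same degree are in the same component
Plan: one_q: A = k[X], F = KN A m (kos A m r qt), qt_j = C(1-X) q_j + C(X) q'_j; at c with h(c) ≠ 0:
fib = KN k m (kos k m r q_c) (fib_KN; image of kos), which agrees with KN (Nq r q_c) (agree_kos), a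
curve by isCurve_KN, gr_Nq, sat_Nq, hf_KN_sub and hN_Nq. IsHom F: isHom_KN (kos elements are
homogeneous of degree nu, 0 ∈ kos). Then q_path: exists_h for (q, q') and for (q', q) give h0, h1; choose
c with h0(c) ≠ 0 and h1(1-c) ≠ 0 (k infinite); two applications of one_q.
-/

namespace MP_06793c_ag

open MvPolynomial

universe u

variable {k : Type u} [Field k] {m : ℕ}

private noncomputable def qc (q q' : Fin (m + 1) → R k) (c : k) (j : Fin (m + 1)) : R k :=
  C (1 - c) * q j + C c * q' j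

private theorem qc_hom {nu : ℕ} {q q' : Fin (m + 1) → R k} (hq : HomV nu q) (hq' : HomV nu q')
    (c : k) : HomV nu (qc q q' c) := by
  intro j
  have h1 := (isHomogeneous_C (Fin 2) (1 - c)).mul (hq j)
  have h2 := (isHomogeneous_C (Fin 2) c).mul (hq' j)
  rw [Nat.zero_add] at h1 h2
  exact h1.add h2

private theorem qc_zero {r : ℕ} {q q' : Fin (m + 1) → R k}
    (h0 : ∀ j : Fin (m + 1), r < (j : ℕ) → q j = 0)
    (h0' : ∀ j : Fin (m + 1), r < (j : ℕ) → q' j = 0) (c : k) :
    ∀ j : Fin (m + 1), r < (j : ℕ) → qc q q' c j = 0 := by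
  intro j hj
  rw [qc, h0 j hj, h0' j hj, mul_zero, mul_zero, add_zero]

private theorem qc_at_zero (q q' : Fin (m + 1) → R k) : qc q q' 0 = q := by
  funext j
  simp [qc]

/-- the family of rows over `k[X]` -/
private noncomputable def qt (q q' : Fin (m + 1) → R k) (j : Fin (m + 1)) : R (Polynomial k) :=
  C (1 - Polynomial.X) * MvPolynomial.map Polynomial.C (q j)
    + C Polynomial.X * MvPolynomial.map Polynomial.C (q' j)

private theorem map_qt (q q' : Fin (m + 1) → R k) (φ : Polynomial k →ₐ[k] k) (j : Fin (m + 1)) :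
    MvPolynomial.map (φ : Polynomial k →+* k) (qt q q' j) = qc q q' (φ Polynomial.X) j := by
  have hid : ((φ : Polynomial k →+* k)).comp Polynomial.C = RingHom.id k := by
    ext a
    exact φ.commutes a
  rw [qt, qc, map_add, map_mul, map_mul, map_C, map_C, map_map, map_map, hid, map_id, map_id]
  simp

private theorem qt_hom {nu : ℕ} {q q' : Fin (m + 1) → R k} (hq : HomV nu q) (hq' : HomV nu q')
    (j : Fin (m + 1)) : (qt q q' j).IsHomogeneous nu := by
  have h1 := (isHomogeneous_C (Fin 2) (1 - Polynomial.X : Polynomial k)).mul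
    ((hq j).map Polynomial.C)
  have h2 := (isHomogeneous_C (Fin 2) (Polynomial.X : Polynomial k)).mul
    ((hq' j).map Polynomial.C)
  rw [Nat.zero_add] at h1 h2
  exact h1.add h2

private theorem kos_zero (A : Type u) [CommRing A] (r : ℕ) (q : Fin (m + 1) → R A) :
    (0 : Fin (m + 1) → R A) ∈ kos A m r q :=
  ⟨0, 0, Nat.zero_le _, Nat.zero_le _, by rw [sub_self]⟩

private theorem single_comp {A : Type u} [CommRing A] (i : Fin (m + 1)) (f : R A) (n : ℕ)
    (j : Fin (m + 1)) :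
    homogeneousComponent n ((Pi.single i f : Fin (m + 1) → R A) j)
      = (Pi.single i (homogeneousComponent n f) : Fin (m + 1) → R A) j := by
  by_cases h : j = i
  · subst h
    rw [Pi.single_eq_same, Pi.single_eq_same]
  · rw [Pi.single_eq_of_ne h, Pi.single_eq_of_ne h, map_zero]

private theorem kos_comp {A : Type u} [CommRing A] {nu r : ℕ} {q : Fin (m + 1) → R A}
    (hq : ∀ j, (q j).IsHomogeneous nu) :
    ∀ v ∈ kos A m r q, ∀ n : ℕ, (fun j => homogeneousComponent n (v j)) ∈ kos A m r q := by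
  rintro v ⟨i, j, hi, hj, rfl⟩ n
  have key : (fun l => homogeneousComponent n ((Pi.single j (q i) - Pi.single i (q j) :
      Fin (m + 1) → R A) l)) = Pi.single j (homogeneousComponent n (q i))
        - Pi.single i (homogeneousComponent n (q j)) := by
    funext l
    rw [Pi.sub_apply, map_sub, single_comp, single_comp, Pi.sub_apply]
  rw [key]
  by_cases hn : n = nu
  · subst hn
    rw [homogeneousComponent_of_mem (hq i), homogeneousComponent_of_mem (hq j), if_pos rfl,
      if_pos rfl]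
    exact ⟨i, j, hi, hj, rfl⟩
  · rw [homogeneousComponent_of_mem (hq i), homogeneousComponent_of_mem (hq j), if_neg hn,
      if_neg hn, Pi.single_zero, Pi.single_zero, sub_self]
    exact kos_zero A r q

private theorem map_single {A : Type u} [CommRing A] [Algebra k A] (φ : A →ₐ[k] k)
    (i j : Fin (m + 1)) (f : R A) :
    MvPolynomial.map (φ : A →+* k) ((Pi.single i f : Fin (m + 1) → R A) j)
      = (Pi.single i (MvPolynomial.map (φ : A →+* k) f) : Fin (m + 1) → R k) j := by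
  by_cases h : j = i
  · subst h
    rw [Pi.single_eq_same, Pi.single_eq_same]
  · rw [Pi.single_eq_of_ne h, Pi.single_eq_of_ne h, map_zero]

private theorem image_kos (q q' : Fin (m + 1) → R k) (r : ℕ) (φ : Polynomial k →ₐ[k] k) :
    ((fun (v : Fin (m + 1) → R (Polynomial k)) j =>
        MvPolynomial.map (φ : Polynomial k →+* k) (v j)) '' kos (Polynomial k) m r (qt q q'))
      = kos k m r (qc q q' (φ Polynomial.X)) := by
  have key : ∀ i j : Fin (m + 1), (fun l => MvPolynomial.map (φ : Polynomial k →+* k)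
      ((Pi.single j (qt q q' i) - Pi.single i (qt q q' j) : Fin (m + 1) → R (Polynomial k)) l))
      = Pi.single j (qc q q' (φ Polynomial.X) i) - Pi.single i (qc q q' (φ Polynomial.X) j) := by
    intro i j
    funext l
    rw [Pi.sub_apply, map_sub, map_single, map_single, Pi.sub_apply, map_qt, map_qt]
  ext w
  constructor
  · rintro ⟨v, ⟨i, j, hi, hj, rfl⟩, rfl⟩
    exact ⟨i, j, hi, hj, key i j⟩
  · rintro ⟨i, j, hi, hj, rfl⟩
    exact ⟨_, ⟨i, j, hi, hj, rfl⟩, key i j⟩

private theorem fib_qt [IsAlgClosed k] {nu r : ℕ} (hr : r ≤ m) {q q' : Fin (m + 1) → R k}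
    (hq : HomV nu q) (hq' : HomV nu q')
    (h0 : ∀ j : Fin (m + 1), r < (j : ℕ) → q j = 0)
    (h0' : ∀ j : Fin (m + 1), r < (j : ℕ) → q' j = 0) (φ : Polynomial k →ₐ[k] k)
    (hz : NoZ (qc q q' (φ Polynomial.X))) :
    Agree k (fib φ (KN (Polynomial k) m (kos (Polynomial k) m r (qt q q'))))
      (KN k m (Nq r (qc q q' (φ Polynomial.X)) : Set (Fin (m + 1) → R k))) := by
  rw [fib_KN, image_kos]
  exact agree_kos hr (qc_hom hq hq' _) hz (qc_zero h0 h0' _)

private theorem curve_qc [IsAlgClosed k] {d : ℕ} {g : ℤ} {nu r : ℕ} (hr : r ≤ m)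
    {q p : Fin (m + 1) → R k} (hq : HomV nu q) (hp : HomV nu p) (hz : NoZ q) (hzp : NoZ p)
    (h0 : ∀ j : Fin (m + 1), r < (j : ℕ) → q j = 0)
    (h0p : ∀ j : Fin (m + 1), r < (j : ℕ) → p j = 0)
    (hC : IsCurve k d g (KN k m (Nq r q : Set (Fin (m + 1) → R k)))) :
    IsCurve k d g (KN k m (Nq r p : Set (Fin (m + 1) → R k))) := by
  refine isCurve_KN (gr_Nq hp) (sat_Nq p) hC.pos ?_
  obtain ⟨N, hN⟩ := hC.hilb
  obtain ⟨i₀, hi₀⟩ := hN_Nq hr hq hz h0
  obtain ⟨i₁, hi₁⟩ := hN_Nq hr hp hzp h0p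
  refine ⟨N + i₀ + i₁ + m, fun n hn => ?_⟩
  obtain ⟨l, rfl⟩ : ∃ l, n = l + m := ⟨n - m, by omega⟩
  have h1 := hf_KN_sub (gr_Nq (r := r) hp) (gr_Nq (r := r) hq) l
  rw [hi₀ l (by omega), hi₁ l (by omega), sub_self, sub_eq_zero] at h1
  rw [h1]
  exact hN (l + m) (by omega)

theorem one_q [IsAlgClosed k] {d : ℕ} {g : ℤ} {nu r : ℕ} (hr : r ≤ m) {q q' : Fin (m + 1) → R k}
    (hq : HomV nu q) (hq' : HomV nu q') (hz : NoZ q)
    (h0 : ∀ j : Fin (m + 1), r < (j : ℕ) → q j = 0)
    (h0' : ∀ j : Fin (m + 1), r < (j : ℕ) → q' j = 0)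
    (hC : IsCurve k d g (KN k m (Nq r q : Set (Fin (m + 1) → R k)))) :
    ∃ h : Polynomial k, h.eval 0 ≠ 0 ∧ ∀ c : k, h.eval c ≠ 0 →
      OneFam k d g (KN k m (Nq r q : Set (Fin (m + 1) → R k)))
        (KN k m (Nq r (fun j => C (1 - c) * q j + C c * q' j) : Set (Fin (m + 1) → R k))) := by
  obtain ⟨h, hh0, hh⟩ := exists_h hq hq' hz
  refine ⟨h, hh0, fun c hc => ?_⟩
  have hzc : ∀ c : k, h.eval c ≠ 0 → NoZ (qc q q' c) := hh
  have hcur : ∀ c : k, h.eval c ≠ 0 →
      IsCurve k d g (KN k m (Nq r (qc q q' c) : Set (Fin (m + 1) → R k))) := fun c hc =>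
    curve_qc hr hq (qc_hom hq hq' c) hz (hzc c hc) h0 (qc_zero h0 h0' c) hC
  have hφ : ∀ φ : Polynomial k →ₐ[k] k, φ h = h.eval (φ Polynomial.X) := by
    intro φ
    have h1 : φ = Polynomial.aeval (φ Polynomial.X) := by
      ext
      simp
    conv_lhs => rw [h1]
    rw [Polynomial.coe_aeval_eq_eval]
  refine ⟨hC, hcur c hc, Polynomial k, inferInstance, inferInstance, inferInstance,
    inferInstance, h, KN (Polynomial k) m (kos (Polynomial k) m r (qt q q')), ⟨?_, ?_⟩,
    Polynomial.aeval 0, Polynomial.aeval c, ?_, ?_, ?_, ?_⟩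
  · exact isHom_KN _ (kos_comp (qt_hom hq hq'))
  · intro φ hne
    rw [hφ] at hne
    exact ⟨_, hcur _ hne, fib_qt hr hq hq' h0 h0' φ (hzc _ hne)⟩
  · rwa [Polynomial.coe_aeval_eq_eval]
  · rwa [Polynomial.coe_aeval_eq_eval]
  · have h1 := fib_qt hr hq hq' h0 h0' (Polynomial.aeval (0 : k)) (by
      rw [Polynomial.aeval_X]
      exact hzc 0 hh0)
    rw [Polynomial.aeval_X, qc_at_zero] at h1
    exact h1
  · have h1 := fib_qt hr hq hq' h0 h0' (Polynomial.aeval c) (by
      rw [Polynomial.aeval_X]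
      exact hzc c hc)
    rw [Polynomial.aeval_X] at h1
    exact h1

theorem q_path [IsAlgClosed k] {d : ℕ} {g : ℤ} {nu r : ℕ} (hr : r ≤ m) {q q' : Fin (m + 1) → R k}
    (hq : HomV nu q) (hq' : HomV nu q') (hz : NoZ q) (hz' : NoZ q')
    (h0 : ∀ j : Fin (m + 1), r < (j : ℕ) → q j = 0)
    (h0' : ∀ j : Fin (m + 1), r < (j : ℕ) → q' j = 0)
    (hC : IsCurve k d g (KN k m (Nq r q : Set (Fin (m + 1) → R k))))
    (hC' : IsCurve k d g (KN k m (Nq r q' : Set (Fin (m + 1) → R k)))) :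
    SameComp k d g (KN k m (Nq r q : Set (Fin (m + 1) → R k)))
      (KN k m (Nq r q' : Set (Fin (m + 1) → R k))) := by
  have hinf : Infinite k := IsAlgClosed.instInfinite
  obtain ⟨h, hh0, hh⟩ := one_q hr hq hq' hz h0 h0' hC
  obtain ⟨h', hh0', hh'⟩ := one_q hr hq' hq hz' h0' h0 hC'
  obtain ⟨c, hc, hc'⟩ : ∃ c : k, h.eval c ≠ 0 ∧ h'.eval (1 - c) ≠ 0 := by
    by_contra hcon
    push Not at hcon
    have h1 : h * h'.comp (1 - Polynomial.X) = 0 := by
      refine Polynomial.funext fun c => ?_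
      rw [Polynomial.eval_mul, Polynomial.eval_comp, Polynomial.eval_zero, Polynomial.eval_sub,
        Polynomial.eval_one, Polynomial.eval_X]
      by_cases h2 : h.eval c = 0
      · rw [h2, zero_mul]
      · rw [hcon c h2, mul_zero]
    rcases mul_eq_zero.1 h1 with h2 | h2
    · exact hh0 (by rw [h2, Polynomial.eval_zero])
    · have h3 : (h'.comp (1 - Polynomial.X)).eval 1 = 0 := by rw [h2, Polynomial.eval_zero]
      rw [Polynomial.eval_comp, Polynomial.eval_sub, Polynomial.eval_one, Polynomial.eval_X,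
        sub_self] at h3
      exact hh0' h3
  have o1 := hh c hc
  have o2 := hh' (1 - c) hc'
  have e : (fun j => C (1 - (1 - c)) * q' j + C (1 - c) * q j)
      = fun j => C (1 - c) * q j + C c * q' j := by
    funext j
    rw [sub_sub_cancel, add_comm]
  rw [e] at o2
  exact sameComp_trans (sameComp_of_oneFam o1) (sameComp_symm (sameComp_of_oneFam o2))

end MP_06793c_ag
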