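import Pool.Agent.Lib.MP_06793c_ag.PG.Defs

/-!
# The rank
-/

namespace MP_06793c_ag

open MvPolynomial

universe u

variable {k : Type u} [Field k] {m : ℕ}

private theorem Rnk_dep (v : Fin (m + 1 + 1) → (Fin (m + 1) → R k)) :
    ¬ LinearIndependent (R k) v := by
  intro h
  have h1 := h.fintype_card_le_finrank
  rw [Module.finrank_fin_fun, Fintype.card_fin] at h1
  omega

theorem exists_rank {N : Submodule (R k) (Fin (m + 1) → R k)} (hS : Sat N) :
    N = ⊤ ∨ ∃ r ≤ m, Rk r N ∧ Ind r N := by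
  classical
  have hex : ∃ n, ¬ Ind n N := ⟨m + 1 + 1, fun ⟨v, _, hv⟩ => Rnk_dep v hv⟩
  have h0 : Nat.find hex ≠ 0 := by
    intro h
    apply Nat.find_spec hex
    rw [h]
    exact ⟨Fin.elim0, fun i => i.elim0, linearIndependent_empty_type⟩
  obtain ⟨r, hr⟩ := Nat.exists_eq_succ_of_ne_zero h0
  have hind : Ind r N := by
    by_contra h
    have := Nat.find_min' hex h
    omega
  have hnot : ¬ Ind (r + 1) N := by
    have h := Nat.find_spec hex
    rwa [hr] at h
  have hrk : Rk r N := fun v hv hl => hnot ⟨v, hv, hl⟩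
  by_cases hrm : r ≤ m
  · exact Or.inr ⟨r, hrm, hrk, hind⟩
  · left
    rw [eq_top_iff]
    rintro v -
    obtain ⟨w, hw, hl⟩ := hind
    have hr1 : r = m + 1 := by
      have h1 := hl.fintype_card_le_finrank
      rw [Module.finrank_fin_fun, Fintype.card_fin] at h1
      omega
    subst hr1
    have hd := Rnk_dep (Fin.cons v w : Fin (m + 1 + 1) → (Fin (m + 1) → R k))
    rw [Fintype.not_linearIndependent_iff] at hd
    obtain ⟨c, hc, i, hi⟩ := hd
    rw [Fin.sum_univ_succ] at hc
    simp only [Fin.cons_zero, Fin.cons_succ] at hc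
    have hc0 : c 0 ≠ 0 := by
      intro h
      rw [h, zero_smul, zero_add] at hc
      have h2 := Fintype.linearIndependent_iff.1 hl (fun i => c i.succ) hc
      rcases Fin.eq_zero_or_eq_succ i with rfl | ⟨j, rfl⟩
      · exact hi h
      · exact hi (h2 j)
    refine hS (c 0) hc0 v ?_
    rw [eq_neg_of_add_eq_zero_left hc]
    exact N.neg_mem (N.sum_mem fun i _ => N.smul_mem _ (hw i))

/-- A graded saturated submodule with the Hilbert function of `⊤` in large degrees is `⊤`. -/
theorem eq_top_of_hN {N : Submodule (R k) (Fin (m + 1) → R k)} (hS : Sat N)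
    (h : ∃ i₀ : ℕ, ∀ i ≥ i₀, hN N i = hN (⊤ : Submodule (R k) (Fin (m + 1) → R k)) i) : N = ⊤ := by
  classical
  obtain ⟨i, hi⟩ := h
  have h1 := hi i le_rfl
  have hfin : Module.Finite k (degN (⊤ : Submodule (R k) (Fin (m + 1) → R k)) i) := by
    have h2 : Module.Finite k (homogeneousSubmodule (Fin 2) k i) :=
      Module.Finite.iff_fg.2 (homogeneousSubmodule_fg _ _ i)
    let f : degN (⊤ : Submodule (R k) (Fin (m + 1) → R k)) i →ₗ[k]
        (Fin (m + 1) → homogeneousSubmodule (Fin 2) k i) :=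
      { toFun := fun v j => ⟨v.1 j, v.2.2 j (Set.mem_univ j)⟩
        map_add' := fun _ _ => rfl
        map_smul' := fun _ _ => rfl }
    exact Module.Finite.of_injective f fun v w hvw =>
      Subtype.ext (funext fun j => congrArg Subtype.val (congrFun hvw j))
  have hle : degN N i ≤ degN (⊤ : Submodule (R k) (Fin (m + 1) → R k)) i :=
    fun v hv => ⟨Submodule.mem_top, hv.2⟩
  have heq : degN N i = degN (⊤ : Submodule (R k) (Fin (m + 1) → R k)) i :=
    Submodule.eq_of_le_of_finrank_eq hle (Int.ofNat_inj.1 h1)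
  have hs : ∀ j : Fin (m + 1), (Pi.single j 1 : Fin (m + 1) → R k) ∈ N := by
    intro j
    refine hS (X 0 ^ i) (pow_ne_zero _ (X_ne_zero 0)) _ ?_
    have h3 : (X 0 ^ i : R k) • (Pi.single j 1 : Fin (m + 1) → R k) ∈
        degN (⊤ : Submodule (R k) (Fin (m + 1) → R k)) i := by
      refine ⟨Submodule.mem_top, ?_⟩
      intro l _
      change ((X 0 ^ i : R k) • (Pi.single j 1 : Fin (m + 1) → R k) l).IsHomogeneous i
      by_cases hl : l = j
      · subst hl
        rw [Pi.single_eq_same, smul_eq_mul, mul_one]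
        exact isHomogeneous_X_pow 0 i
      · rw [Pi.single_eq_of_ne hl, smul_zero]
        exact isHomogeneous_zero _ _ _
    rw [← heq] at h3
    exact h3.1
  rw [eq_top_iff]
  rintro v -
  have hv : v = ∑ j, v j • (Pi.single j 1 : Fin (m + 1) → R k) := by
    funext l
    simp [Finset.sum_apply, Pi.single_apply]
  rw [hv]
  exact N.sum_mem fun j _ => N.smul_mem _ (hs j)

end MP_06793c_ag
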