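import Pool.Agent.Lib.MP_06793c_ag.PG.Red
import Pool.Agent.Lib.MP_06793c_ag.PG.Ali
import Pool.Agent.Lib.MP_06793c_ag.PG.Rnk
import Pool.Agent.Lib.MP_06793c_ag.PG.Ker
import Pool.Agent.Lib.MP_06793c_ag.PG.Qp
import Pool.Agent.Lib.MP_06793c_ag.PG.Nzd
import Pool.Agent.Lib.MP_06793c_ag.PG.InjS
import Pool.Agent.Lib.MP_06793c_ag.PG.GenS
import Pool.Agent.Lib.MP_06793c_ag.PG.GenA
import Pool.Agent.Lib.MP_06793c_ag.PG.HNI
import Pool.Agent.Lib.MP_06793c_ag.PG.FamI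

/-!
# Assembly
-/

namespace MP_06793c_ag

open MvPolynomial

universe u

variable {k : Type u} [Field k] {m : ℕ}

theorem exists_m (d : ℕ) : ∃ m : ℕ, m * (m + 1) / 2 ≤ d ∧ d ≤ (m + 1) * (m + 2) / 2 := by
  induction d with
  | zero => exact ⟨0, by simp, by simp⟩
  | succ d ih =>
    obtain ⟨m, h1, h2⟩ := ih
    by_cases h : d + 1 ≤ (m + 1) * (m + 2) / 2
    · exact ⟨m, by omega, h⟩
    · refine ⟨m + 1, by rw [show m + 1 + 1 = m + 2 from rfl]; omega, ?_⟩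
      have : (m + 1 + 1) * (m + 1 + 2) = (m + 1) * (m + 2) + 2 * (m + 2) := by ring
      rw [this, Nat.add_mul_div_left _ _ (by norm_num)]
      omega

theorem step_gen [IsAlgClosed k] {d : ℕ} {g : ℤ} {I : Ideal (S k)} (hI : IsCurve k d g I)
    (hD : Dis k I (Ideal.span {X 0, X 1}))
    (hi : ∀ p : Fin 2 → k, p ≠ 0 → ∀ n : ℕ, ∀ f : S k, f.IsHomogeneous n → f ∈ lt k m →
      f ∈ I ⊔ Ideal.span {io k (lp k p)} → io k (lp k p) ∣ f)
    (hs : ∀ p : Fin 2 → k, p ≠ 0 → ∃ n₀ : ℕ, ∀ n ≥ n₀, ∀ f : S k, f.IsHomogeneous n →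
      ∃ i ∈ I, ∃ t ∈ lt k (m + 1), ∃ s : S k, f = i + t + io k (lp k p) * s) :
    ∃ N : Submodule (R k) (Fin (m + 1) → R k), Gr N ∧ Sat N ∧
      IsCurve k d g (KN k m (N : Set (Fin (m + 1) → R k))) ∧
      OneFam k d g I (KN k m (N : Set (Fin (m + 1) → R k))) := by
  have hn : ∀ p : Fin 2 → k, p ≠ 0 → ∀ f : S k, io k (lp k p) * f ∈ I → f ∈ I :=
    fun p hp f hf => nzd hI hD hp hf
  have h0 : ∀ f : S k, f ∈ I → f ∈ lt k m → f = 0 := fun f hf hl => lt_zero hI.hom hn hi hf hl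
  have hg := gen_all (m := m) hI.hom hD hs
  have hG : Gr (NI m I) := gr_NI hI.hom
  have hSt : Sat (NI m I) := sat_NI hI.hom hn hi
  obtain ⟨n₁, hn₁⟩ := hf_NI hI.hom h0 hg
  obtain ⟨n₂, hn₂⟩ := hI.hilb
  have hC : IsCurve k d g (KN k m (NI m I : Set (Fin (m + 1) → R k))) :=
    isCurve_KN hG hSt hI.pos ⟨max n₁ n₂, fun n hn' => by
      rw [hn₁ n (le_trans (le_max_left _ _) hn'), hn₂ n (le_trans (le_max_right _ _) hn')]⟩
  exact ⟨NI m I, hG, hSt, hC, oneFam_inI hI hC (agree_inI hI.hom h0 hg)⟩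

theorem step_one [IsAlgClosed k] {d : ℕ} {g : ℤ} {I : Ideal (S k)} (hI : IsCurve k d g I)
    (hS : Std k d I) (h1 : m * (m + 1) / 2 ≤ d) (h2 : d ≤ (m + 1) * (m + 2) / 2) :
    ∃ N : Submodule (R k) (Fin (m + 1) → R k), Gr N ∧ Sat N ∧
      IsCurve k d g (KN k m (N : Set (Fin (m + 1) → R k))) ∧
      OneFam k d g I (KN k m (N : Set (Fin (m + 1) → R k))) :=
  step_gen hI hS.dis (fun _ hp _ _ hf hl h => inj_sec hI hS h1 hp hf hl h)
    (fun _ hp => gen_sec hI hS h2 hp)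

theorem hN_eq {d : ℕ} {g : ℤ} {N N' : Submodule (R k) (Fin (m + 1) → R k)} (hG : Gr N)
    (hG' : Gr N') (hC : IsCurve k d g (KN k m (N : Set (Fin (m + 1) → R k))))
    (hC' : IsCurve k d g (KN k m (N' : Set (Fin (m + 1) → R k)))) :
    ∃ i₀ : ℕ, ∀ i ≥ i₀, hN N i = hN N' i := by
  obtain ⟨n₁, hn₁⟩ := hC.hilb
  obtain ⟨n₂, hn₂⟩ := hC'.hilb
  refine ⟨max n₁ n₂, fun i hi => ?_⟩
  have h := hf_KN_sub hG hG' i
  rw [hn₁ (i + m) (by have := le_max_left n₁ n₂; omega),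
    hn₂ (i + m) (by have := le_max_right n₁ n₂; omega)] at h
  omega

theorem red_all [IsAlgClosed k] {d : ℕ} {g : ℤ} {r : ℕ} (hr : r ≤ m)
    {N : Submodule (R k) (Fin (m + 1) → R k)}
    (hG : Gr N) (hS : Sat N) (hR : Rk r N) (hI : Ind r N)
    (hC : IsCurve k d g (KN k m (N : Set (Fin (m + 1) → R k)))) :
    ∃ (nu : ℕ) (q : Fin (m + 1) → R k), HomV nu q ∧ NoZ q ∧
      (∀ j : Fin (m + 1), r < (j : ℕ) → q j = 0) ∧
      SameComp k d g (KN k m (N : Set (Fin (m + 1) → R k)))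
        (KN k m (Nq r q : Set (Fin (m + 1) → R k))) ∧
      IsCurve k d g (KN k m (Nq r q : Set (Fin (m + 1) → R k))) := by
  obtain ⟨N₁, g1, s1, r1, i1, c1, C1, V, hV, hNV⟩ := reduce_V hr hG hS hR hI hC
  obtain ⟨N₂, g2, s2, r2, i2, c2, C2, hz⟩ := align_V hr g1 s1 r1 i1 C1 V hV hNV
  obtain ⟨nu, q, hq, hq0, hqz, rfl⟩ := exists_q hr g2 s2 r2 i2 hz
  exact ⟨nu, q, hq, hq0, hqz, sameComp_trans c1 c2, C2⟩

theorem step_two [IsAlgClosed k] {d : ℕ} {g : ℤ} {N N' : Submodule (R k) (Fin (m + 1) → R k)}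
    (hG : Gr N) (hS : Sat N) (hG' : Gr N') (hS' : Sat N')
    (hC : IsCurve k d g (KN k m (N : Set (Fin (m + 1) → R k))))
    (hC' : IsCurve k d g (KN k m (N' : Set (Fin (m + 1) → R k)))) :
    SameComp k d g (KN k m (N : Set (Fin (m + 1) → R k)))
      (KN k m (N' : Set (Fin (m + 1) → R k))) := by
  obtain ⟨i₀, hi₀⟩ := hN_eq hG hG' hC hC'
  rcases exists_rank hS with hT | ⟨r, hr, hR, hI⟩
  · have hT' : N' = ⊤ := eq_top_of_hN hS' ⟨i₀, fun i hi => by rw [← hi₀ i hi, hT]⟩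
    subst hT
    subst hT'
    exact sameComp_refl hC
  rcases exists_rank hS' with hT | ⟨r', hr', hR', hI'⟩
  · have hT' : N = ⊤ := eq_top_of_hN hS ⟨i₀, fun i hi => by rw [hi₀ i hi, hT]⟩
    subst hT
    subst hT'
    exact sameComp_refl hC
  obtain ⟨nu, q, hq, hq0, hqz, c1, C1⟩ := red_all hr hG hS hR hI hC
  obtain ⟨nu', q', hq', hq0', hqz', c2, C2⟩ := red_all hr' hG' hS' hR' hI' hC'
  obtain ⟨i₁, hi₁⟩ := hN_eq (gr_Nq hq) (gr_Nq hq') C1 C2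
  obtain ⟨i₂, hi₂⟩ := hN_Nq hr hq hq0 hqz
  obtain ⟨i₃, hi₃⟩ := hN_Nq hr' hq' hq0' hqz'
  have key : ∀ i : ℕ, max i₁ (max i₂ i₃) ≤ i →
      ((r : ℤ) + 1) * (i + 1) - (i + nu + 1) = ((r' : ℤ) + 1) * (i + 1) - (i + nu' + 1) := by
    intro i hi
    rw [← hi₂ i (by simp only [max_le_iff] at hi; omega), ← hi₃ i (by simp only [max_le_iff] at hi; omega)]
    exact hi₁ i (by simp only [max_le_iff] at hi; omega)
  have e1 := key (max i₁ (max i₂ i₃)) le_rfl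
  have e2 := key (max i₁ (max i₂ i₃) + 1) (Nat.le_succ _)
  have hrr : r = r' := by
    have : (r : ℤ) = r' := by push_cast at e1 e2; linarith
    exact_mod_cast this
  subst hrr
  have hnn : nu = nu' := by
    have : (nu : ℤ) = nu' := by linarith
    exact_mod_cast this
  subst hnn
  exact sameComp_trans c1 (sameComp_trans (q_path hr hq hq' hq0 hq0' hqz hqz' C1 C2)
    (sameComp_symm c2))

theorem pencil_general [IsAlgClosed k] {d : ℕ} {g : ℤ} {I J : Ideal (S k)}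
    (hI : IsCurve k d g I) (hJ : IsCurve k d g J) (gI : PencilGeneral k d I)
    (gJ : PencilGeneral k d J) : SameComp k d g I J := by
  obtain ⟨M, hM, sI⟩ := gI
  obtain ⟨M', hM', sJ⟩ := gJ
  obtain ⟨m, h1, h2⟩ := exists_m d
  have cI := isCurve_tr hI M hM
  have cJ := isCurve_tr hJ M' hM'
  have a1 : SameComp k d g I (tr M I) := sameComp_of_oneFam (oneFam_tr hI M hM)
  have a2 : SameComp k d g J (tr M' J) := sameComp_of_oneFam (oneFam_tr hJ M' hM')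
  obtain ⟨N, hG, hS, hC, hf⟩ := step_one cI sI h1 h2
  obtain ⟨N', hG', hS', hC', hf'⟩ := step_one cJ sJ h1 h2
  exact sameComp_trans a1 (sameComp_trans (sameComp_of_oneFam hf) (sameComp_trans
    (step_two hG hS hG' hS' hC hC') (sameComp_symm (sameComp_trans a2 (sameComp_of_oneFam hf')))))

end MP_06793c_ag
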