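import Pool.Agent.Lib.MP_06793c_ag.PG.SDefs

/-!
# Large polynomials generate every section
-/

namespace MP_06793c_ag

open MvPolynomial

universe u

variable {k : Type u} [Field k] {m : ℕ}

section abs

variable {A : Type u} [CommRing A] [Algebra k A]

variable (k) in
/-- the span of `y^(n-t) a^c b^(t-c)`, `t < j`, in degree `n` -/
private def SGs_W (y a b : A) (j n : ℕ) : Submodule k A :=
  Submodule.span k {z | ∃ t c : ℕ, t < j ∧ c ≤ t ∧ t ≤ n ∧ z = y ^ (n - t) * a ^ c * b ^ (t - c)}

private theorem SGs_gen (y a b : A) {j n t c : ℕ} (h1 : t < j) (h2 : c ≤ t) (h3 : t ≤ n) :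
    y ^ (n - t) * a ^ c * b ^ (t - c) ∈ SGs_W k y a b j n :=
  Submodule.subset_span ⟨t, c, h1, h2, h3, rfl⟩

private theorem SGs_mono {y a b : A} {j j' n : ℕ} (h : j ≤ j') :
    SGs_W k y a b j n ≤ SGs_W k y a b j' n :=
  Submodule.span_mono (by rintro z ⟨t, c, h1, h2, h3, rfl⟩; exact ⟨t, c, by omega, h2, h3, rfl⟩)

private theorem SGs_y {y a b : A} {j n : ℕ} {z : A} (hz : z ∈ SGs_W k y a b j n) :
    y * z ∈ SGs_W k y a b j (n + 1) := by
  have h : (SGs_W k y a b j n).map (LinearMap.mulLeft k y) ≤ SGs_W k y a b j (n + 1) := by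
    rw [SGs_W, Submodule.map_span_le]
    rintro z ⟨t, c, h1, h2, h3, rfl⟩
    have : LinearMap.mulLeft k y (y ^ (n - t) * a ^ c * b ^ (t - c)) =
        y ^ (n + 1 - t) * a ^ c * b ^ (t - c) := by
      rw [LinearMap.mulLeft_apply, show n + 1 - t = (n - t) + 1 by omega]; ring
    rw [this]
    exact SGs_gen y a b h1 h2 (by omega)
  exact h ⟨z, hz, rfl⟩

private theorem SGs_a {y a b : A} {j n : ℕ} {z : A} (hz : z ∈ SGs_W k y a b j n) :
    a * z ∈ SGs_W k y a b (j + 1) (n + 1) := by
  have h : (SGs_W k y a b j n).map (LinearMap.mulLeft k a) ≤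
      SGs_W k y a b (j + 1) (n + 1) := by
    rw [SGs_W, Submodule.map_span_le]
    rintro z ⟨t, c, h1, h2, h3, rfl⟩
    have : LinearMap.mulLeft k a (y ^ (n - t) * a ^ c * b ^ (t - c)) =
        y ^ (n + 1 - (t + 1)) * a ^ (c + 1) * b ^ ((t + 1) - (c + 1)) := by
      rw [LinearMap.mulLeft_apply, show n + 1 - (t + 1) = n - t by omega,
        show t + 1 - (c + 1) = t - c by omega]; ring
    rw [this]
    exact SGs_gen y a b (by omega) (by omega) (by omega)
  exact h ⟨z, hz, rfl⟩

private theorem SGs_b {y a b : A} {j n : ℕ} {z : A} (hz : z ∈ SGs_W k y a b j n) :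
    b * z ∈ SGs_W k y a b (j + 1) (n + 1) := by
  have h : (SGs_W k y a b j n).map (LinearMap.mulLeft k b) ≤
      SGs_W k y a b (j + 1) (n + 1) := by
    rw [SGs_W, Submodule.map_span_le]
    rintro z ⟨t, c, h1, h2, h3, rfl⟩
    have : LinearMap.mulLeft k b (y ^ (n - t) * a ^ c * b ^ (t - c)) =
        y ^ (n + 1 - (t + 1)) * a ^ c * b ^ ((t + 1) - c) := by
      rw [LinearMap.mulLeft_apply, show n + 1 - (t + 1) = n - t by omega,
        show t + 1 - c = (t - c) + 1 by omega]; ring
    rw [this]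
    exact SGs_gen y a b (by omega) (by omega) (by omega)
  exact h ⟨z, hz, rfl⟩

private theorem SGs_C1 {y a b : A} {m n : ℕ} (hmn : m ≤ n)
    (h : SGs_W k y a b (m + 1) n ≤ SGs_W k y a b m n) :
    ∀ n' ≥ n, SGs_W k y a b (m + 1) n' ≤ SGs_W k y a b m n' := by
  intro n' hn'
  induction n', hn' using Nat.le_induction with
  | base => exact h
  | succ n' hn' ih =>
    rw [SGs_W, Submodule.span_le]
    rintro z ⟨t, c, h1, h2, h3, rfl⟩
    have : y ^ (n' + 1 - t) * a ^ c * b ^ (t - c) = y * (y ^ (n' - t) * a ^ c * b ^ (t - c)) := by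
      rw [show n' + 1 - t = (n' - t) + 1 by omega]; ring
    rw [this]
    exact SGs_y (ih (SGs_gen y a b h1 h2 (by omega)))

private theorem SGs_C2 {y a b : A} {m n : ℕ} (hmn : m ≤ n)
    (h : SGs_W k y a b (m + 1) n ≤ SGs_W k y a b m n) :
    ∀ j : ℕ, ∀ n' ≥ n + j, SGs_W k y a b (m + 1 + j) n' ≤ SGs_W k y a b m n' := by
  have hC1 := SGs_C1 hmn h
  intro j
  induction j with
  | zero => intro n' hn'; exact hC1 n' (by omega)
  | succ j ih =>
    intro n' hn'
    obtain ⟨n', rfl⟩ : ∃ x, n' = x + 1 := ⟨n' - 1, by omega⟩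
    have ih' := ih n' (by omega)
    have hC := hC1 (n' + 1) (by omega)
    rw [SGs_W, Submodule.span_le]
    rintro z ⟨t, c, h1, h2, h3, rfl⟩
    rcases t with _ | t
    · exact hC (SGs_gen y a b (by omega) h2 (by omega))
    · rcases c with _ | c
      · have : y ^ (n' + 1 - (t + 1)) * a ^ 0 * b ^ (t + 1 - 0) =
            b * (y ^ (n' - t) * a ^ 0 * b ^ (t - 0)) := by
          rw [show n' + 1 - (t + 1) = n' - t by omega, show t + 1 - 0 = (t - 0) + 1 by omega]
          ring
        rw [this]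
        exact hC (SGs_b (ih' (SGs_gen y a b (by omega) (by omega) (by omega))))
      · have : y ^ (n' + 1 - (t + 1)) * a ^ (c + 1) * b ^ (t + 1 - (c + 1)) =
            a * (y ^ (n' - t) * a ^ c * b ^ (t - c)) := by
          rw [show n' + 1 - (t + 1) = n' - t by omega, show t + 1 - (c + 1) = t - c by omega]
          ring
        rw [this]
        exact hC (SGs_a (ih' (SGs_gen y a b (by omega) (by omega) (by omega))))

end abs

private theorem SGs_lp_homog (p : Fin 2 → k) : (lp k p).IsHomogeneous 1 := by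
  unfold lp
  refine IsHomogeneous.sub ?_ ?_
  · simpa using (isHomogeneous_C (Fin 2) (p 1)).mul (isHomogeneous_X k (0 : Fin 2))
  · simpa using (isHomogeneous_C (Fin 2) (p 0)).mul (isHomogeneous_X k (1 : Fin 2))

/-- the image of the forms of degree `n` in `S / J` -/
private noncomputable def SGs_T (J : Ideal (S k)) (n : ℕ) : Submodule k (S k ⧸ J) :=
  (homogeneousSubmodule (Fin 4) k n).map (Ideal.Quotient.mkₐ k J).toLinearMap

private theorem SGs_mem_T {J : Ideal (S k)} {n : ℕ} {w : S k ⧸ J} :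
    w ∈ SGs_T J n ↔ ∃ f : S k, f.IsHomogeneous n ∧ Ideal.Quotient.mk J f = w := by
  rw [SGs_T, Submodule.mem_map]
  rfl

private instance SGs_fin (n : ℕ) : FiniteDimensional k (homogeneousSubmodule (Fin 4) k n) :=
  Module.Finite.iff_fg.2 (homogeneousSubmodule_fg _ _ n)

private instance SGs_finT (J : Ideal (S k)) (n : ℕ) : FiniteDimensional k (SGs_T J n) := by
  unfold SGs_T; infer_instance

/-- the dimension of `T n` is at most `hf n - hf (n-1)`. -/
private theorem SGs_dim {I : Ideal (S k)} {l : S k} (hl : l.IsHomogeneous 1)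
    (hn : ∀ f : S k, l * f ∈ I → f ∈ I) (n : ℕ) :
    (Module.finrank k (SGs_T (I ⊔ Ideal.span {l}) (n + 1)) : ℤ) ≤
      hf k I (n + 1) - hf k I n := by
  set J := I ⊔ Ideal.span {l} with hJ
  let K : Submodule k (S k) := J.restrictScalars k ⊓ homogeneousSubmodule (Fin 4) k (n + 1)
  have hfK : FiniteDimensional k K := Submodule.finiteDimensional_of_le (inf_le_right)
  -- the map `S_(n+1) → S / J`
  let ψ : homogeneousSubmodule (Fin 4) k (n + 1) →ₗ[k] (S k ⧸ J) :=
    (Ideal.Quotient.mkₐ k J).toLinearMap.domRestrict _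
  have hr : LinearMap.range ψ = SGs_T J (n + 1) := by
    rw [LinearMap.range_domRestrict]; rfl
  have h1 := LinearMap.finrank_range_add_finrank_ker ψ
  rw [hr] at h1
  have hker : Module.finrank k K ≤ Module.finrank k (LinearMap.ker ψ) := by
    let e : K →ₗ[k] LinearMap.ker ψ :=
      { toFun := fun x => ⟨⟨x.1, x.2.2⟩, by
          rw [LinearMap.mem_ker]
          change Ideal.Quotient.mk J x.1 = 0
          rw [Ideal.Quotient.eq_zero_iff_mem]
          exact x.2.1⟩
        map_add' := fun x y => rfl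
        map_smul' := fun c x => rfl }
    have he : Function.Injective e := by
      rw [injective_iff_map_eq_zero]
      intro x h
      have h5 : x.1 = 0 := congr_arg Subtype.val (congr_arg Subtype.val h)
      exact Subtype.ext h5
    exact LinearMap.finrank_le_finrank_of_injective he
  -- the map `I_(n+1) × S_n → K`
  let I1 : Submodule k (S k) := I.restrictScalars k ⊓ homogeneousSubmodule (Fin 4) k (n + 1)
  let I0 : Submodule k (S k) := I.restrictScalars k ⊓ homogeneousSubmodule (Fin 4) k n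
  have hfI1 : FiniteDimensional k I1 := Submodule.finiteDimensional_of_le (inf_le_right)
  have hfI0 : FiniteDimensional k I0 := Submodule.finiteDimensional_of_le (inf_le_right)
  let Θ : (I1 × homogeneousSubmodule (Fin 4) k n) →ₗ[k] K :=
    { toFun := fun x => ⟨x.1.1 + l * x.2.1, by
        refine ⟨Ideal.add_mem _ (Ideal.mem_sup_left x.1.2.1) (Ideal.mem_sup_right ?_), ?_⟩
        · exact Ideal.mul_mem_right _ _ (Ideal.subset_span rfl)
        · refine Submodule.add_mem _ x.1.2.2 ?_
          have := hl.mul x.2.2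
          rwa [add_comm] at this⟩
      map_add' := fun x y => by
        apply Subtype.ext
        simp only [Prod.fst_add, Prod.snd_add, Submodule.coe_add]
        ring
      map_smul' := fun c x => by
        apply Subtype.ext
        simp only [Prod.smul_fst, Prod.smul_snd, Submodule.coe_smul, RingHom.id_apply, smul_add,
          mul_smul_comm] }
  have h2 := LinearMap.finrank_range_add_finrank_ker Θ
  rw [Module.finrank_prod] at h2
  have h3 : Module.finrank k (LinearMap.range Θ) ≤ Module.finrank k K :=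
    Submodule.finrank_le _
  have h4 : Module.finrank k (LinearMap.ker Θ) ≤ Module.finrank k I0 := by
    let e : LinearMap.ker Θ →ₗ[k] I0 :=
      { toFun := fun x => ⟨x.1.2.1, by
          have hx : x.1.1.1 + l * x.1.2.1 = 0 := congr_arg Subtype.val (LinearMap.mem_ker.1 x.2)
          refine ⟨hn _ ?_, x.1.2.2⟩
          have : l * x.1.2.1 = - x.1.1.1 := by rw [eq_neg_iff_add_eq_zero, add_comm]; exact hx
          rw [this]
          exact neg_mem x.1.1.2.1⟩
        map_add' := fun x y => rfl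
        map_smul' := fun c x => rfl }
    have he : Function.Injective e := by
      rw [injective_iff_map_eq_zero]
      intro x h
      have h5 : x.1.2.1 = 0 := congr_arg Subtype.val h
      have hx : x.1.1.1 + l * x.1.2.1 = 0 := congr_arg Subtype.val (LinearMap.mem_ker.1 x.2)
      rw [h5, mul_zero, add_zero] at hx
      exact Subtype.ext (Prod.ext (Subtype.ext hx) (Subtype.ext h5))
    exact LinearMap.finrank_le_finrank_of_injective he
  unfold hf
  change (Module.finrank k (SGs_T J (n + 1)) : ℤ) ≤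
    (Module.finrank k (homogeneousSubmodule (Fin 4) k (n + 1)) - Module.finrank k I1) -
      (Module.finrank k (homogeneousSubmodule (Fin 4) k n) - Module.finrank k I0)
  omega

private theorem SGs_hc_mul {L : S k} (hL : L.IsHomogeneous 1) (n : ℕ) (s : S k) :
    homogeneousComponent (n + 1) (L * s) = L * homogeneousComponent n s := by
  conv_lhs => rw [← sum_homogeneousComponent s]
  rw [Finset.mul_sum, map_sum]
  have : ∀ i, homogeneousComponent (n + 1) (L * homogeneousComponent i s) =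
      if i = n then L * homogeneousComponent n s else 0 := by
    intro i
    have h1 : L * homogeneousComponent i s ∈ homogeneousSubmodule (Fin 4) k (1 + i) :=
      hL.mul (homogeneousComponent_isHomogeneous i s)
    rw [homogeneousComponent_of_mem h1]
    by_cases hi : i = n
    · subst hi; rw [if_pos (add_comm _ _), if_pos rfl]
    · rw [if_neg (by omega), if_neg hi]
  simp only [this, Finset.sum_ite_eq']
  split_ifs with h
  · rfl
  · rw [homogeneousComponent_eq_zero _ _ (by simpa using h), mul_zero]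

/-- `x_j` is a multiple of `x_i` modulo `l`. -/
private theorem SGs_X (p : Fin 2 → k) (i j : Fin 2) (hi : p i ≠ 0) :
    (X ((![0, 1] : Fin 2 → Fin 4) j) : S k) - C (p j / p i) * X ((![0, 1] : Fin 2 → Fin 4) i) ∈
      Ideal.span {io k (lp k p)} := by
  have hl : io k (lp k p) = C (p 1) * X 0 - C (p 0) * X 1 := by
    simp [io, lp]
  have h : C (p i) * ((X ((![0, 1] : Fin 2 → Fin 4) j) : S k) -
      C (p j / p i) * X ((![0, 1] : Fin 2 → Fin 4) i)) ∈ Ideal.span {io k (lp k p)} := by
    have h1 : C (p i) * ((X ((![0, 1] : Fin 2 → Fin 4) j) : S k) -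
        C (p j / p i) * X ((![0, 1] : Fin 2 → Fin 4) i)) =
        C (p i) * X ((![0, 1] : Fin 2 → Fin 4) j) - C (p j) * X ((![0, 1] : Fin 2 → Fin 4) i) := by
      have h2 : p j = p i * (p j / p i) := by field_simp
      conv_rhs => rw [h2, C_mul]
      ring
    rw [h1, Ideal.mem_span_singleton']
    fin_cases i <;> fin_cases j
    · exact ⟨0, by simp⟩
    · exact ⟨-1, by rw [hl]; simp⟩
    · exact ⟨1, by rw [hl]; simp⟩
    · exact ⟨0, by simp⟩
  have h3 := Ideal.mul_mem_left _ (C (p i)⁻¹ : S k) h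
  rw [← mul_assoc, ← C_mul, inv_mul_cancel₀ hi, C_1, one_mul] at h3
  exact h3

private theorem SGs_w4 (d : Fin 4 →₀ ℕ) : Finsupp.weight 1 d = d 0 + d 1 + d 2 + d 3 := by
  simp [Finsupp.weight_apply, Finsupp.sum_fintype, Fin.sum_univ_four]

/-- the monomial `x_i^u x2^c x3^e` -/
private theorem SGs_mon (i : Fin 2) (u c e : ℕ) :
    ((X ((![0, 1] : Fin 2 → Fin 4) i) : S k) ^ u * X 2 ^ c * X 3 ^ e).IsHomogeneous (u + c + e) ∧
      ∀ j, c + e < j → (X ((![0, 1] : Fin 2 → Fin 4) i) : S k) ^ u * X 2 ^ c * X 3 ^ e ∈ lt k j := by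
  constructor
  · exact (((isHomogeneous_X k _).pow u).mul ((isHomogeneous_X k _).pow c)).mul
      ((isHomogeneous_X k _).pow e) |> (by simpa using ·)
  · intro j hj s hs
    rw [X_pow_eq_monomial, X_pow_eq_monomial, X_pow_eq_monomial, monomial_mul, monomial_mul] at hs
    have h1 := Finset.mem_singleton.1 (support_monomial_subset hs)
    rw [h1]
    have h2 : (![0, 1] : Fin 2 → Fin 4) i ≠ 2 := by fin_cases i <;> simp
    have h3 : (![0, 1] : Fin 2 → Fin 4) i ≠ 3 := by fin_cases i <;> simp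
    simp only [Finsupp.add_apply]
    rw [Finsupp.single_eq_of_ne (Ne.symm h2), Finsupp.single_eq_of_ne (Ne.symm h3),
      Finsupp.single_eq_same, Finsupp.single_eq_same,
      Finsupp.single_eq_of_ne (show (3 : Fin 4) ≠ 2 by decide),
      Finsupp.single_eq_of_ne (show (2 : Fin 4) ≠ 3 by decide)]
    omega

private theorem SGs_deg_le_pow (n N : ℕ) (h : N ≤ n) (p : S k) (hp : p.IsHomogeneous n) :
    p ∈ mm k ^ N := by
  rw [mem_pow_idealOfVars_iff']
  intro x hx
  exact hp.coeff_eq_zero (by omega)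

theorem gen_large {d : ℕ} {g : ℤ} {I : Ideal (S k)} (hI : IsCurve k d g I)
    (hD : Dis k I (Ideal.span {X 0, X 1})) (hmd : d ≤ m + 1)
    (hn : ∀ p : Fin 2 → k, p ≠ 0 → ∀ f : S k, io k (lp k p) * f ∈ I → f ∈ I)
    {p : Fin 2 → k} (hp : p ≠ 0) :
    ∃ n₀ : ℕ, ∀ n ≥ n₀, ∀ f : S k, f.IsHomogeneous n →
      ∃ i ∈ I, ∃ t ∈ lt k (m + 1), ∃ s : S k, f = i + t + io k (lp k p) * s := by
  classical
  obtain ⟨i, hpi⟩ := Function.ne_iff.1 hp
  rw [Pi.zero_apply] at hpi
  set l : S k := io k (lp k p) with hl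
  set J := I ⊔ Ideal.span {l} with hJ
  have hlh : l.IsHomogeneous 1 := (SGs_lp_homog p).rename_isHomogeneous
  set y : S k ⧸ J := Ideal.Quotient.mk J (X ((![0, 1] : Fin 2 → Fin 4) i)) with hy
  set a : S k ⧸ J := Ideal.Quotient.mk J (X 2) with ha
  set b : S k ⧸ J := Ideal.Quotient.mk J (X 3) with hb
  have hX : ∀ j : Fin 2, Ideal.Quotient.mk J (X ((![0, 1] : Fin 2 → Fin 4) j)) =
      (p j / p i) • y := by
    intro j
    have h1 : (p j / p i) • y = Ideal.Quotient.mk J (C (p j / p i) *
        X ((![0, 1] : Fin 2 → Fin 4) i)) := by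
      rw [map_mul, Algebra.smul_def]; rfl
    rw [h1, Ideal.Quotient.eq]
    exact Ideal.mem_sup_right (SGs_X p i j hpi)
  have hX0 : Ideal.Quotient.mk J (X 0) = (p 0 / p i) • y := hX 0
  have hX1 : Ideal.Quotient.mk J (X 1) = (p 1 / p i) • y := hX 1
  -- `T n ≤ W (n+1) n`
  have hTW : ∀ n, SGs_T J n ≤ SGs_W k y a b (n + 1) n := by
    intro n w hw
    obtain ⟨f, hf, rfl⟩ := SGs_mem_T.1 hw
    rw [← support_sum_monomial_coeff f, map_sum]
    refine Submodule.sum_mem _ fun s hs => ?_
    have hs4 : s 0 + s 1 + s 2 + s 3 = n := by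
      rw [← SGs_w4]; exact hf (mem_support_iff.1 hs)
    have h1 : Ideal.Quotient.mk J (monomial s (coeff s f)) =
        (coeff s f * (p 0 / p i) ^ s 0 * (p 1 / p i) ^ s 1) •
          (y ^ (n - (s 2 + s 3)) * a ^ (s 2) * b ^ ((s 2 + s 3) - s 2)) := by
      rw [monomial_eq, Finsupp.prod_fintype _ _ (fun i => pow_zero _), Fin.prod_univ_four,
        map_mul, map_mul, map_mul, map_mul, map_pow, map_pow, map_pow, map_pow, hX0, hX1,
        ← ha, ← hb, show n - (s 2 + s 3) = s 0 + s 1 by omega,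
        show s 2 + s 3 - s 2 = s 3 by omega]
      have h2 : Ideal.Quotient.mk J (C (coeff s f)) = algebraMap k _ (coeff s f) := rfl
      rw [h2, Algebra.smul_def, Algebra.smul_def, Algebra.smul_def, map_mul, map_mul, map_pow,
        map_pow, mul_pow, mul_pow, pow_add]
      ring
    rw [h1]
    exact Submodule.smul_mem _ _ (SGs_gen y a b (by omega) (by omega) (by omega))
  -- representatives
  have hWT : ∀ j n, ∀ w ∈ SGs_W k y a b j n, ∃ f : S k, f.IsHomogeneous n ∧ f ∈ lt k j ∧
      Ideal.Quotient.mk J f = w := by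
    intro j n w hw
    have h1 : SGs_W k y a b j n ≤ ((homogeneousSubmodule (Fin 4) k n) ⊓ lt k j).map
        (Ideal.Quotient.mkₐ k J).toLinearMap := by
      rw [SGs_W, Submodule.span_le]
      rintro z ⟨t, c, h1, h2, h3, rfl⟩
      refine ⟨X ((![0, 1] : Fin 2 → Fin 4) i) ^ (n - t) * X 2 ^ c * X 3 ^ (t - c), ⟨?_, ?_⟩, ?_⟩
      · have h4 := (SGs_mon (k := k) i (n - t) c (t - c)).1
        rwa [show n - t + c + (t - c) = n by omega] at h4
      · exact (SGs_mon (k := k) i (n - t) c (t - c)).2 j (by omega)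
      · change Ideal.Quotient.mk J _ = _
        rw [map_mul, map_mul, map_pow, map_pow, map_pow]
    obtain ⟨f, ⟨hf1, hf2⟩, hf3⟩ := h1 hw
    exact ⟨f, hf1, hf2, hf3⟩
  have hWT' : ∀ j n, SGs_W k y a b j n ≤ SGs_T J n := by
    intro j n w hw
    obtain ⟨f, hf1, -, hf3⟩ := hWT j n w hw
    exact SGs_mem_T.2 ⟨f, hf1, hf3⟩
  -- surjectivity of `y`
  obtain ⟨N, hN⟩ := hD
  have hTy : ∀ n, N ≤ n + 1 → ∀ w ∈ SGs_T J (n + 1), ∃ w' ∈ SGs_T J n, w = y * w' := by
    intro n hnN w hw
    obtain ⟨f, hf, rfl⟩ := SGs_mem_T.1 hw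
    obtain ⟨u, hu, v, hv, huv⟩ := Submodule.mem_sup.1 (hN (SGs_deg_le_pow _ _ hnN f hf))
    obtain ⟨g0, g1, hg⟩ := Ideal.mem_span_pair.1 hv
    have h1 : f = homogeneousComponent (n + 1) u + X 0 * homogeneousComponent n g0 +
        X 1 * homogeneousComponent n g1 := by
      rw [← SGs_hc_mul (isHomogeneous_X k _), ← SGs_hc_mul (isHomogeneous_X k _), ← map_add,
        ← map_add]
      have : u + X 0 * g0 + X 1 * g1 = f := by rw [← huv, ← hg]; ring
      rw [this]
      exact (homogeneousComponent_eq_self hf).symm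
    refine ⟨(p 0 / p i) • Ideal.Quotient.mk J (homogeneousComponent n g0) +
      (p 1 / p i) • Ideal.Quotient.mk J (homogeneousComponent n g1), ?_, ?_⟩
    · exact Submodule.add_mem _
        (Submodule.smul_mem _ _ (SGs_mem_T.2 ⟨_, homogeneousComponent_isHomogeneous _ _, rfl⟩))
        (Submodule.smul_mem _ _ (SGs_mem_T.2 ⟨_, homogeneousComponent_isHomogeneous _ _, rfl⟩))
    · have h2 : Ideal.Quotient.mk J (homogeneousComponent (n + 1) u) = 0 :=
        Ideal.Quotient.eq_zero_iff_mem.2 (Ideal.mem_sup_left (hI.hom u hu (n + 1)))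
      conv_lhs => rw [h1]
      rw [map_add, map_add, map_mul, map_mul, h2, hX0, hX1, zero_add, mul_add, smul_mul_assoc,
        smul_mul_assoc, mul_smul_comm, mul_smul_comm]
  -- `T n ≤ W (N+1) n`
  have hTN : ∀ n ≥ N, SGs_T J n ≤ SGs_W k y a b (N + 1) n := by
    intro n hn'
    induction n, hn' using Nat.le_induction with
    | base => exact hTW N
    | succ n hn' ih =>
      intro w hw
      obtain ⟨w', hw', rfl⟩ := hTy n (by omega) w hw
      exact SGs_y (ih hw')
  -- main claim
  have main : ∃ n₀ : ℕ, ∀ n ≥ n₀, SGs_T J n ≤ SGs_W k y a b (m + 1) n := by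
    by_cases hcase : ∃ j ≤ m, ∃ n ≥ j, SGs_W k y a b (j + 1) n ≤ SGs_W k y a b j n
    · obtain ⟨j, hjm, n, hjn, h⟩ := hcase
      refine ⟨n + N, fun n' hn' => ?_⟩
      exact ((hTN n' (by omega)).trans (SGs_mono (by omega))).trans
        ((SGs_C2 hjn h N n' (by omega)).trans (SGs_mono (by omega)))
    · push Not at hcase
      obtain ⟨N₂, hN₂⟩ := hI.hilb
      refine ⟨max m (N₂ + 1), fun n' hn' => ?_⟩
      obtain ⟨n, rfl⟩ : ∃ x, n' = x + 1 := ⟨n' - 1, by omega⟩
      have hfd : ∀ j, FiniteDimensional k (SGs_W k y a b j (n + 1)) := fun j =>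
        Submodule.finiteDimensional_of_le (hWT' j (n + 1))
      have h1 : (Module.finrank k (SGs_T J (n + 1)) : ℤ) ≤ d := by
        have h2 := SGs_dim hlh (hn p hp) n
        have h3 := hN₂ n (by omega)
        have h4 := hN₂ (n + 1) (by omega)
        rw [h3, h4] at h2
        push_cast at h2
        have h5 : (d : ℤ) * (n + 1) + 1 - g - (d * n + 1 - g) = d := by ring
        rw [h5] at h2
        exact h2
      have h2 : ∀ j ≤ m + 1, j ≤ Module.finrank k (SGs_W k y a b j (n + 1)) := by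
        intro j
        induction j with
        | zero => intro _; exact Nat.zero_le _
        | succ j ih =>
          intro hj
          have h3 : SGs_W k y a b j (n + 1) < SGs_W k y a b (j + 1) (n + 1) :=
            lt_of_le_not_ge (SGs_mono (by omega)) (hcase j (by omega) (n + 1) (by omega))
          have h4 := Submodule.finrank_lt_finrank_of_lt h3
          have h5 := ih (by omega)
          omega
      have h3 := h2 (m + 1) le_rfl
      exact (Submodule.eq_of_le_of_finrank_le (hWT' (m + 1) (n + 1)) (by omega)).ge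
  obtain ⟨n₀, hn₀⟩ := main
  refine ⟨n₀, fun n hn' f hf => ?_⟩
  obtain ⟨t, -, ht2, ht3⟩ := hWT (m + 1) n _ (hn₀ n hn' (SGs_mem_T.2 ⟨f, hf, rfl⟩))
  have h1 : f - t ∈ J := by rw [← Ideal.Quotient.eq]; exact ht3.symm
  obtain ⟨u, hu, v, hv, huv⟩ := Submodule.mem_sup.1 h1
  obtain ⟨s, hs⟩ := Ideal.mem_span_singleton'.1 hv
  refine ⟨u, hu, t, ht2, s, ?_⟩
  have : f = (f - t) + t := by ring
  rw [this, ← huv, ← hs]
  ring

end MP_06793c_ag
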