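import Pool.Agent.Lib.MP_06793c_ag.PG.SDefs

/-!
# From `Kp = 0` to divisibility
Plan: hi_of_Kp: f ∈ U ⊔ (l), l = io (lp p): sg p l = 0, sg p is surjective, so sg p f ∈ U.map (sg p); f ∈ lt m gives
sg p f ∈ pm k m. So sg p f ∈ Kp m U p = ⊥, sg p f = 0. Write f = ∑ io (α_ce) X2^c X3^e: α_ce(p) = 0, α_ce homogeneous of degree
n - c - e, so lp p ∣ α_ce (dvd_of_eval), l ∣ f. Kp_un: un I Q ≤ I and ≤ ln q for q ∈ Q; sg p maps the generators of ln q to
polynomials vanishing at pq q p.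
-/

namespace MP_06793c_ag

open MvPolynomial

universe u

variable {k : Type u} [Field k] {m : ℕ}

private theorem SHi_mon (s : Fin 4 →₀ ℕ) (c : k) :
    monomial s c = C c * X 0 ^ s 0 * X 1 ^ s 1 * X 2 ^ s 2 * X 3 ^ s 3 := by
  rw [monomial_eq, Finsupp.prod_fintype _ _ (fun i => pow_zero _), Fin.prod_univ_four]
  ring

private theorem SHi_mon2 (s : Fin 2 →₀ ℕ) (c : k) :
    monomial s c = C c * X 0 ^ s 0 * X 1 ^ s 1 := by
  rw [monomial_eq, Finsupp.prod_fintype _ _ (fun i => pow_zero _), Fin.prod_univ_two]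
  ring

private noncomputable def SHi_e (a b : ℕ) : Fin 2 →₀ ℕ := Finsupp.single 0 a + Finsupp.single 1 b

private theorem SHi_e0 (a b : ℕ) : SHi_e a b 0 = a := by simp [SHi_e]

private theorem SHi_e1 (a b : ℕ) : SHi_e a b 1 = b := by simp [SHi_e]

private theorem SHi_sg_mon (p : Fin 2 → k) (s : Fin 4 →₀ ℕ) (c : k) :
    sg p (monomial s c) = monomial (SHi_e (s 2) (s 3)) (c * p 0 ^ s 0 * p 1 ^ s 1) := by
  rw [SHi_mon, SHi_mon2, SHi_e0, SHi_e1]
  simp only [sg, map_mul, map_pow, aeval_X, algHom_C, algebraMap_eq]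
  simp

private theorem SHi_pm (p : Fin 2 → k) {f : S k} (hl : f ∈ lt k m) : sg p f ∈ pm k m := by
  rw [f.as_sum, map_sum]
  refine Submodule.sum_mem _ fun s hs => ?_
  rw [SHi_sg_mon]
  intro t ht
  have ht' := Finset.mem_singleton.1 (support_monomial_subset ht)
  rw [ht', SHi_e0, SHi_e1]
  exact hl s hs

private theorem SHi_lp (p : Fin 2 → k) : io k (lp k p) = C (p 1) * X 0 - C (p 0) * X 1 := by
  simp [io, lp]

private theorem SHi_sg_lp (p : Fin 2 → k) : sg p (io k (lp k p)) = 0 := by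
  rw [SHi_lp]
  simp [sg, mul_comm]

private theorem SHi_dvd {p : Fin 2 → k} (hp : p ≠ 0) {n : ℕ} {f : S k} (hf : f.IsHomogeneous n)
    (h : sg p f = 0) : io k (lp k p) ∣ f := by
  classical
  obtain ⟨a, b, hab⟩ : ∃ a b : k, a * p 0 + b * p 1 = 1 := by
    by_cases h0 : p 0 = 0
    · have h1 : p 1 ≠ 0 := by
        intro h1
        apply hp
        funext i
        fin_cases i
        · exact h0
        · exact h1
      exact ⟨0, (p 1)⁻¹, by rw [inv_mul_cancel₀ h1, zero_mul, zero_add]⟩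
    · exact ⟨(p 0)⁻¹, 0, by rw [inv_mul_cancel₀ h0, zero_mul, add_zero]⟩
  set y : S k := C a * X 0 + C b * X 1 with hy
  have hC : (C a * C (p 0) + C b * C (p 1) : S k) = 1 := by
    rw [← C_mul, ← C_mul, ← C_add, hab, C_1]
  set H : R k →ₗ[k] S k := (basisMonomials (Fin 2) k).constr k
    (fun s => y ^ (n - s 0 - s 1) * X 2 ^ s 0 * X 3 ^ s 1) with hH
  have hHm : ∀ (s : Fin 2 →₀ ℕ) (c : k), H (monomial s c) =
      C c * (y ^ (n - s 0 - s 1) * X 2 ^ s 0 * X 3 ^ s 1) := by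
    intro s c
    have e : (monomial s c : R k) = c • basisMonomials (Fin 2) k s := by
      rw [coe_basisMonomials, smul_monomial, smul_eq_mul, mul_one]
    rw [e, map_smul, hH, Module.Basis.constr_basis, smul_eq_C_mul]
  set J : Ideal (S k) := Ideal.span {io k (lp k p)} with hJ
  have h0 : (X 0 : S k) - C (p 0) * y ∈ J := by
    rw [hJ, Ideal.mem_span_singleton]
    refine ⟨C b, ?_⟩
    rw [SHi_lp, hy]
    linear_combination (X 0 : S k) * (-hC)
  have h1 : (X 1 : S k) - C (p 1) * y ∈ J := by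
    rw [hJ, Ideal.mem_span_singleton]
    refine ⟨- C a, ?_⟩
    rw [SHi_lp, hy]
    linear_combination (X 1 : S k) * (-hC)
  have key : f - H (sg p f) ∈ J := by
    have e : f - H (sg p f) = ∑ s ∈ f.support, (monomial s (coeff s f) - H (sg p (monomial s (coeff s f)))) := by
      rw [Finset.sum_sub_distrib, ← f.as_sum]
      congr 1
      conv_lhs => rw [f.as_sum, map_sum, map_sum]
    rw [e]
    refine Ideal.sum_mem _ fun s hs => ?_
    have hs' : s 0 + s 1 + s 2 + s 3 = n := by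
      have := hf (mem_support_iff.1 hs)
      rw [Finsupp.weight_apply, Finsupp.sum_fintype _ _ (by simp), Fin.sum_univ_four] at this
      simpa using this
    rw [SHi_sg_mon, hHm, SHi_e0, SHi_e1, SHi_mon s]
    have e2 : n - s 2 - s 3 = s 0 + s 1 := by omega
    rw [e2, ← Ideal.Quotient.eq_zero_iff_mem]
    have q0 : Ideal.Quotient.mk J (X 0) = Ideal.Quotient.mk J (C (p 0) * y) :=
      Ideal.Quotient.eq.2 h0
    have q1 : Ideal.Quotient.mk J (X 1) = Ideal.Quotient.mk J (C (p 1) * y) :=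
      Ideal.Quotient.eq.2 h1
    simp only [map_sub, map_mul, map_pow, q0, q1]
    ring
  rw [h, map_zero, sub_zero, hJ, Ideal.mem_span_singleton] at key
  exact key

theorem hi_of_Kp {U : Ideal (S k)} (h : ∀ p : Fin 2 → k, p ≠ 0 → Kp m U p = ⊥)
    {p : Fin 2 → k} (hp : p ≠ 0) {n : ℕ} {f : S k} (hf : f.IsHomogeneous n) (hl : f ∈ lt k m)
    (hU : f ∈ U ⊔ Ideal.span {io k (lp k p)}) : io k (lp k p) ∣ f := by
  obtain ⟨u, hu, w, hw, rfl⟩ := Submodule.mem_sup.1 hU
  obtain ⟨t, rfl⟩ := Ideal.mem_span_singleton.1 hw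
  refine SHi_dvd hp hf ?_
  have h1 : sg p (u + io k (lp k p) * t) ∈ Kp m U p := by
    refine ⟨?_, SHi_pm p hl⟩
    have h2 : sg p (u + io k (lp k p) * t) = sg p u := by
      rw [map_add, map_mul, SHi_sg_lp, zero_mul, add_zero]
    rw [h2]
    exact Ideal.mem_map_of_mem (sg p) hu
  rw [h p hp] at h1
  exact (Submodule.mem_bot k).1 h1

private theorem SHi_un_le (I : Ideal (S k)) (Q : List (Fin 4 → k)) : un I Q ≤ I := by
  induction Q with
  | nil => exact le_rfl
  | cons q Q ih => exact inf_le_left.trans ih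

private theorem SHi_un_ln (I : Ideal (S k)) (Q : List (Fin 4 → k)) : ∀ q ∈ Q, un I Q ≤ ln q := by
  induction Q with
  | nil => intro q hq; simp at hq
  | cons q Q ih =>
    intro r hr
    rcases List.mem_cons.1 hr with rfl | hr
    · exact inf_le_right
    · exact inf_le_left.trans (ih r hr)

private theorem SHi_ln (q : Fin 4 → k) (p : Fin 2 → k) {F : R k} (hF : F ∈ (ln q).map (sg p)) :
    eval (pq q p) F = 0 := by
  have h : (ln q).map (sg p) ≤ RingHom.ker (eval (pq q p)) := by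
    rw [Ideal.map_le_iff_le_comap, ln, Ideal.span_le]
    rintro x (rfl | rfl)
    · simp [sg, pq, RingHom.mem_ker]
    · simp [sg, pq, RingHom.mem_ker]
  exact (RingHom.mem_ker).1 (h hF)

theorem Kp_un (I : Ideal (S k)) (Q : List (Fin 4 → k)) (p : Fin 2 → k) :
    Kp m (un I Q) p ≤ KK m I Q p := by
  rintro F ⟨h1, h2⟩
  refine ⟨⟨Ideal.map_mono (SHi_un_le I Q) h1, h2⟩, fun q hq => ?_⟩
  exact SHi_ln q p (Ideal.map_mono (SHi_un_ln I Q q hq) h1)

end MP_06793c_ag
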