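import Pool.Agent.Lib.MP_06793c_ag.PG.HNq
import Pool.Agent.Lib.MP_06793c_ag.PG.HK
import Pool.Agent.Lib.MP_06793c_ag.PG.Cur

/-!
# Double lines
-/

namespace MP_06793c_ag

open MvPolynomial

universe u

variable {k : Type u} [Field k] {m : ℕ}

private theorem DCv_degree (d : Fin 2 →₀ ℕ) : d.degree = d 0 + d 1 := by
  rw [Finsupp.degree_eq_sum, Fin.sum_univ_two]

private noncomputable def DCv_eq (n : ℕ) : {d : Fin 2 →₀ ℕ | d.degree = n} ≃ Fin (n + 1) where
  toFun d := ⟨d.1 0, by
    have h : d.1.degree = n := d.2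
    rw [DCv_degree] at h
    omega⟩
  invFun i := ⟨Finsupp.single 0 (i : ℕ) + Finsupp.single 1 (n - (i : ℕ)), by
    have h := i.2
    show Finsupp.degree _ = n
    rw [DCv_degree]
    simp
    omega⟩
  left_inv d := by
    have h : d.1.degree = n := d.2
    rw [DCv_degree] at h
    ext i
    fin_cases i
    · simp
    · simp
      omega
  right_inv i := by
    ext
    simp

private theorem DCv_finrank (n : ℕ) : Module.finrank k (homogeneousSubmodule (Fin 2) k n) = n + 1 := by
  have e : homogeneousSubmodule (Fin 2) k n = restrictSupport k {d : Fin 2 →₀ ℕ | d.degree = n} :=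
    homogeneousSubmodule_eq_finsupp_supported _ _ n
  rw [e]
  have b := (basisRestrictSupport (R := k) {d : Fin 2 →₀ ℕ | d.degree = n}).reindex (DCv_eq n)
  rw [Module.finrank_eq_card_basis b, Fintype.card_fin]

/-- The projection `x2, x3 ↦ 0`. -/
private noncomputable def DCv_ρ (k : Type u) [Field k] : S k →ₐ[k] R k := aeval ![X 0, X 1, 0, 0]

private theorem DCv_ρ_io (f : R k) : DCv_ρ k (io k f) = f := by
  have h : (DCv_ρ k).comp (io k) = AlgHom.id k (R k) := by
    apply MvPolynomial.algHom_ext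
    intro i
    fin_cases i
    · simp [DCv_ρ, io]
    · simp [DCv_ρ, io]
  exact congrArg (fun F : R k →ₐ[k] R k => F f) h

private theorem DCv_sub (f : S k) : f - io k (DCv_ρ k f) ∈ (Ideal.span {X 2, X 3} : Ideal (S k)) := by
  have h : (Ideal.Quotient.mkₐ k (Ideal.span {X 2, X 3} : Ideal (S k))) =
      (Ideal.Quotient.mkₐ k (Ideal.span {X 2, X 3} : Ideal (S k))).comp ((io k).comp (DCv_ρ k)) := by
    apply MvPolynomial.algHom_ext
    intro i
    have h2 : Ideal.Quotient.mk (Ideal.span {X 2, X 3} : Ideal (S k)) (X 2) = 0 :=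
      Ideal.Quotient.eq_zero_iff_mem.2 (Ideal.subset_span (Set.mem_insert _ _))
    have h3 : Ideal.Quotient.mk (Ideal.span {X 2, X 3} : Ideal (S k)) (X 3) = 0 :=
      Ideal.Quotient.eq_zero_iff_mem.2 (Ideal.subset_span (Set.mem_insert_of_mem _ rfl))
    fin_cases i
    · simp [DCv_ρ, io]
    · simp [DCv_ρ, io]
    · simp [DCv_ρ, io, h2]
    · simp [DCv_ρ, io, h3]
  have h1 : Ideal.Quotient.mk (Ideal.span {X 2, X 3} : Ideal (S k)) f =
      Ideal.Quotient.mk (Ideal.span {X 2, X 3} : Ideal (S k)) (io k (DCv_ρ k f)) :=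
    congrArg (fun F : S k →ₐ[k] _ => F f) h
  exact Ideal.Quotient.eq.1 h1

private theorem DCv_ker {f : S k} (hf : f ∈ (Ideal.span {X 2, X 3} : Ideal (S k))) : DCv_ρ k f = 0 := by
  have h : (Ideal.span {X 2, X 3} : Ideal (S k)) ≤ RingHom.ker (DCv_ρ k) := by
    refine Ideal.span_le.2 ?_
    rintro _ (rfl | rfl)
    · show DCv_ρ k (X 2) = 0
      simp [DCv_ρ]
    · show DCv_ρ k (X 3) = 0
      simp [DCv_ρ]
  exact h hf

private theorem DCv_top : KN k 1 ((⊤ : Submodule (R k) (Fin (1 + 1) → R k)) : Set (Fin (1 + 1) → R k)) =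
    (Ideal.span {X 2, X 3} : Ideal (S k)) := by
  apply le_antisymm
  · refine sup_le (Ideal.span_le.2 ?_) (Ideal.pow_le_self (by norm_num))
    rintro _ ⟨v, -, rfl⟩
    have h : em k 1 v ∈ (Ideal.span {X 2, X 3} : Ideal (S k)) ^ 1 :=
      (mem_pow23 1 _).2 fun s hs => (support_em v s hs).ge
    rwa [pow_one] at h
  · refine Ideal.span_le.2 ?_
    have h : ∀ v : Fin (1 + 1) → R k, em k 1 v ∈
        KN k 1 ((⊤ : Submodule (R k) (Fin (1 + 1) → R k)) : Set (Fin (1 + 1) → R k)) := fun v =>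
      (em_mem_KN _ v).2 Submodule.mem_top
    rintro _ (rfl | rfl)
    · have h1 := h (Pi.single 1 1)
      have e : em k 1 (Pi.single 1 1) = X 2 := by
        rw [em, Fin.sum_univ_two]
        simp [mon]
      rwa [e] at h1
    · have h1 := h (Pi.single 0 1)
      have e : em k 1 (Pi.single 0 1) = X 3 := by
        rw [em, Fin.sum_univ_two]
        simp [mon]
      rwa [e] at h1

private theorem DCv_hf (n : ℕ) : hf k (Ideal.span {X 2, X 3} : Ideal (S k)) n = n + 1 := by
  have hfin : Module.Finite k (deg k n) := Module.Finite.iff_fg.2 (homogeneousSubmodule_fg _ _ n)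
  have hioinj : Function.Injective (io k) := fun a b h => by
    rw [← DCv_ρ_io a, h, DCv_ρ_io]
  have h1 : ((Ideal.span {X 2, X 3} : Ideal (S k)).restrictScalars k ⊓ deg k n : Submodule k (S k)) ⊔
      (homogeneousSubmodule (Fin 2) k n).map (io k).toLinearMap = deg k n := by
    apply le_antisymm
    · refine sup_le inf_le_right ?_
      rintro _ ⟨f, hf, rfl⟩
      have hf' : f.IsHomogeneous n := hf
      exact (mem_homogeneousSubmodule _ _).2 hf'.rename_isHomogeneous
    · intro f hf
      have hf' : f.IsHomogeneous n := hf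
      have hρ : (DCv_ρ k f).IsHomogeneous n := by
        have h := hf'.aeval (S := k) (![X 0, X 1, 0, 0] : Fin 4 → R k) (n := 1) (by
          intro i
          fin_cases i
          · exact isHomogeneous_X _ _
          · exact isHomogeneous_X _ _
          · exact isHomogeneous_zero _ _ _
          · exact isHomogeneous_zero _ _ _)
        rwa [one_mul] at h
      refine Submodule.mem_sup.2 ⟨f - io k (DCv_ρ k f), ⟨DCv_sub f, ?_⟩, io k (DCv_ρ k f),
        ⟨DCv_ρ k f, hρ, rfl⟩, sub_add_cancel _ _⟩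
      exact Submodule.sub_mem _ hf ((mem_homogeneousSubmodule _ _).2 hρ.rename_isHomogeneous)
  have h2 : ((Ideal.span {X 2, X 3} : Ideal (S k)).restrictScalars k ⊓ deg k n : Submodule k (S k)) ⊓
      (homogeneousSubmodule (Fin 2) k n).map (io k).toLinearMap = ⊥ := by
    rw [eq_bot_iff]
    rintro _ ⟨⟨hf, -⟩, ⟨g, -, rfl⟩⟩
    have h3 : DCv_ρ k (io k g) = 0 := DCv_ker hf
    rw [DCv_ρ_io] at h3
    rw [h3, Submodule.mem_bot, map_zero]
  have hf1 : FiniteDimensional k
      (((Ideal.span {X 2, X 3} : Ideal (S k)).restrictScalars k ⊓ deg k n : Submodule k (S k))) :=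
    Submodule.finiteDimensional_of_le inf_le_right
  have hf2 : FiniteDimensional k ((homogeneousSubmodule (Fin 2) k n).map (io k).toLinearMap) :=
    Submodule.finiteDimensional_of_le (le_sup_right.trans h1.le)
  have h5 := Submodule.finrank_sup_add_finrank_inf_eq
    ((Ideal.span {X 2, X 3} : Ideal (S k)).restrictScalars k ⊓ deg k n : Submodule k (S k))
    ((homogeneousSubmodule (Fin 2) k n).map (io k).toLinearMap)
  have h6 : Module.finrank k ((homogeneousSubmodule (Fin 2) k n).map (io k).toLinearMap) = n + 1 := by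
    rw [← DCv_finrank (k := k) n]
    exact (Submodule.equivMapOfInjective (io k).toLinearMap hioinj _).finrank_eq.symm
  rw [h2, finrank_bot, add_zero, h1, h6] at h5
  rw [hf, h5]
  push_cast
  ring

private noncomputable def DCv_equiv (n : ℕ) : degN (⊤ : Submodule (R k) (Fin (m + 1) → R k)) n ≃ₗ[k]
    (Fin (m + 1) → homogeneousSubmodule (Fin 2) k n) where
  toFun v j := ⟨v.1 j, v.2.2 j (Set.mem_univ j)⟩
  invFun w := ⟨fun j => (w j).1, ⟨Submodule.mem_top, fun j _ => (w j).2⟩⟩
  map_add' _ _ := rfl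
  map_smul' _ _ := rfl
  left_inv _ := rfl
  right_inv _ := rfl

private theorem DCv_hN (n : ℕ) : hN (⊤ : Submodule (R k) (Fin (m + 1) → R k)) n = ((m : ℤ) + 1) * (n + 1) := by
  have hfin : Module.Finite k (homogeneousSubmodule (Fin 2) k n) :=
    Module.Finite.iff_fg.2 (homogeneousSubmodule_fg _ _ n)
  rw [hN, (DCv_equiv n).finrank_eq, Module.finrank_pi_fintype]
  simp only [DCv_finrank, Finset.sum_const, Finset.card_univ, Fintype.card_fin, smul_eq_mul]
  push_cast
  ring

theorem isCurve_Dq [IsAlgClosed k] {a : ℕ} {q : Fin (1 + 1) → R k} (hq : HomV a q) (hz : NoZ q) :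
    IsCurve k 2 (-(a : ℤ)) (KN k 1 (Nq 1 q : Set (Fin (1 + 1) → R k))) := by
  refine isCurve_KN (gr_Nq hq) (sat_Nq q) (by norm_num) ?_
  obtain ⟨i₀, hi⟩ := hN_Nq (r := 1) le_rfl hq hz (fun j hj => by have := j.2; omega)
  refine ⟨i₀ + 1, fun n hn => ?_⟩
  obtain ⟨n, rfl⟩ : ∃ n' : ℕ, n = n' + 1 := ⟨n - 1, by omega⟩
  have h1 := hf_KN_sub (gr_Nq (r := 1) hq) (N' := ⊤) (fun _ _ _ => Submodule.mem_top) n
  rw [DCv_top, DCv_hf, hi n (by omega), DCv_hN] at h1
  push_cast at h1 ⊢
  linarith

/-- It does not meet the line `x0 = x1 = 0`. -/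
theorem dis_KN (s : Set (Fin (m + 1) → R k)) : Dis k (KN k m s) (Ideal.span {X 0, X 1}) := by
  have key : ∀ (a b : Ideal (S k)) (n : ℕ), (a ⊔ b) ^ n ≤ b ^ n ⊔ a := by
    intro a b n
    induction n with
    | zero =>
      rw [pow_zero, pow_zero]
      exact le_sup_left
    | succ n ih =>
      rw [pow_succ]
      refine (Ideal.mul_mono_left ih).trans ?_
      rw [Ideal.sup_mul, Ideal.mul_sup]
      refine sup_le (sup_le ?_ ?_) ?_
      · exact Ideal.mul_le_right.trans le_sup_right
      · rw [pow_succ]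
        exact le_sup_left
      · exact Ideal.mul_le_left.trans le_sup_right
  refine ⟨m + 1, ?_⟩
  have hmm : mm k ≤ Ideal.span {X 0, X 1} ⊔ Ideal.span {X 2, X 3} := by
    refine Ideal.span_le.2 ?_
    rintro _ ⟨i, rfl⟩
    fin_cases i
    · exact Ideal.mem_sup_left (Ideal.subset_span (Set.mem_insert _ _))
    · exact Ideal.mem_sup_left (Ideal.subset_span (Set.mem_insert_of_mem _ rfl))
    · exact Ideal.mem_sup_right (Ideal.subset_span (Set.mem_insert _ _))
    · exact Ideal.mem_sup_right (Ideal.subset_span (Set.mem_insert_of_mem _ rfl))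
  refine (Ideal.pow_right_mono hmm _).trans ((key _ _ _).trans ?_)
  exact sup_le_sup_right le_sup_right _

end MP_06793c_ag
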