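import Pool.Agent.Lib.MP_06793c_ag.PG.Cur
import Pool.Agent.Lib.MP_06793c_ag.PG.HK

/-!
# The line `x2 = x3 = 0`
-/

namespace MP_06793c_ag

open MvPolynomial

universe u

variable {k : Type u} [Field k] {m : ℕ}

private theorem Ln_degree (d : Fin 2 →₀ ℕ) : d.degree = d 0 + d 1 := by
  rw [Finsupp.degree_eq_sum, Fin.sum_univ_two]

private noncomputable def Ln_eq (n : ℕ) : {d : Fin 2 →₀ ℕ | d.degree = n} ≃ Fin (n + 1) where
  toFun d := ⟨d.1 0, by
    have h : d.1.degree = n := d.2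
    rw [Ln_degree] at h
    omega⟩
  invFun i := ⟨Finsupp.single 0 (i : ℕ) + Finsupp.single 1 (n - (i : ℕ)), by
    have h := i.2
    show Finsupp.degree _ = n
    rw [Ln_degree]
    simp
    omega⟩
  left_inv d := by
    have h : d.1.degree = n := d.2
    rw [Ln_degree] at h
    ext i
    fin_cases i
    · simp
    · simp
      omega
  right_inv i := by
    ext
    simp

private theorem Ln_finrank (n : ℕ) : Module.finrank k (homogeneousSubmodule (Fin 2) k n) = n + 1 := by
  have e : homogeneousSubmodule (Fin 2) k n = restrictSupport k {d : Fin 2 →₀ ℕ | d.degree = n} :=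
    homogeneousSubmodule_eq_finsupp_supported _ _ n
  rw [e]
  have b := (basisRestrictSupport (R := k) {d : Fin 2 →₀ ℕ | d.degree = n}).reindex (Ln_eq n)
  rw [Module.finrank_eq_card_basis b, Fintype.card_fin]

private noncomputable def Ln_equiv (n : ℕ) : degN (⊤ : Submodule (R k) (Fin (m + 1) → R k)) n ≃ₗ[k]
    (Fin (m + 1) → homogeneousSubmodule (Fin 2) k n) where
  toFun v j := ⟨v.1 j, v.2.2 j (Set.mem_univ j)⟩
  invFun w := ⟨fun j => (w j).1, ⟨Submodule.mem_top, fun j _ => (w j).2⟩⟩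
  map_add' _ _ := rfl
  map_smul' _ _ := rfl
  left_inv _ := rfl
  right_inv _ := rfl

private theorem Ln_hN (n : ℕ) : hN (⊤ : Submodule (R k) (Fin (m + 1) → R k)) n = ((m : ℤ) + 1) * (n + 1) := by
  have hfin : Module.Finite k (homogeneousSubmodule (Fin 2) k n) :=
    Module.Finite.iff_fg.2 (homogeneousSubmodule_fg _ _ n)
  rw [hN, (Ln_equiv n).finrank_eq, Module.finrank_pi_fintype]
  simp only [Ln_finrank, Finset.sum_const, Finset.card_univ, Fintype.card_fin, smul_eq_mul]
  push_cast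
  ring

private theorem Ln_hNbot (n : ℕ) : hN (⊥ : Submodule (R k) (Fin (m + 1) → R k)) n = 0 := by
  have h : degN (⊥ : Submodule (R k) (Fin (m + 1) → R k)) n = ⊥ := by
    rw [eq_bot_iff]
    rintro v ⟨hv, -⟩
    have hv' : v ∈ (⊥ : Submodule (R k) (Fin (m + 1) → R k)) := hv
    rw [Submodule.mem_bot] at hv' ⊢
    exact hv'
  rw [hN, h, finrank_bot, Nat.cast_zero]

private theorem Ln_top : KN k 0 ((⊤ : Submodule (R k) (Fin (0 + 1) → R k)) : Set (Fin (0 + 1) → R k)) =
    (⊤ : Ideal (S k)) := by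
  rw [Ideal.eq_top_iff_one]
  have e : em k 0 (fun _ => 1) = 1 := by
    simp [em, mon]
  rw [← e]
  exact (le_sup_left : _ ≤ KN k 0 ((⊤ : Submodule (R k) (Fin (0 + 1) → R k)) : Set (Fin (0 + 1) → R k)))
    (Ideal.subset_span ⟨_, Submodule.mem_top, rfl⟩)

private theorem Ln_hf (n : ℕ) : hf k (⊤ : Ideal (S k)) n = 0 := by
  have h : ((⊤ : Ideal (S k)).restrictScalars k ⊓ deg k n : Submodule k (S k)) = deg k n := by
    apply le_antisymm inf_le_right
    exact le_inf (fun _ _ => Submodule.mem_top) le_rfl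
  rw [hf, h, sub_self]

theorem isCurve_line : IsCurve k 1 0
    (KN k 0 ((⊥ : Submodule (R k) (Fin (0 + 1) → R k)) : Set (Fin (0 + 1) → R k))) := by
  have hG : Gr (⊥ : Submodule (R k) (Fin (0 + 1) → R k)) := by
    intro v hv i
    rw [Submodule.mem_bot] at hv ⊢
    subst hv
    funext j
    simp
  have hS : Sat (⊥ : Submodule (R k) (Fin (0 + 1) → R k)) := by
    intro r hr v hv
    rw [Submodule.mem_bot] at hv ⊢
    exact (smul_eq_zero.1 hv).resolve_left hr
  refine isCurve_KN hG hS le_rfl ⟨0, fun n _ => ?_⟩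
  have h1 := hf_KN_sub hG (N' := ⊤) (fun _ _ _ => Submodule.mem_top) n
  rw [Ln_top, add_zero, Ln_hf, Ln_hN, Ln_hNbot] at h1
  push_cast at h1 ⊢
  linarith

end MP_06793c_ag
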