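import Pool.Agent.Lib.MP_06793c_ag.PG.SDefs
import Pool.Agent.Lib.MP_06793c_ag.PG.Ln
import Pool.Agent.Lib.MP_06793c_ag.PG.DCv

/-!
# The lines are curves; unions
Plan: ln q = tr M (KN k 0 ⊥), KN k 0 ⊥ = (X 2, X 3) (isCurve_line), M with M(X 2) = X 2 - q0 X 0 - q1 X 1, M(X 3) = X 3 - q2 X 0 - q3 X 1
(determinant 1), isCurve_tr. dis: X 2, X 3 ∈ ln q + (X 0, X 1). un: isCurve_inf, dis_inf, induction on Q.
-/

namespace MP_06793c_ag

open MvPolynomial

universe u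

variable {k : Type u} [Field k] {m : ℕ}

/-- The substitution `x2 ↦ x2 - (q0 x0 + q1 x1)`, `x3 ↦ x3 - (q2 x0 + q3 x1)`. -/
def SLc_M (q : Fin 4 → k) : Matrix (Fin 4) (Fin 4) k :=
  !![1, 0, 0, 0; 0, 1, 0, 0; -q 0, -q 1, 1, 0; -q 2, -q 3, 0, 1]

private theorem SLc_det (q : Fin 4 → k) : IsUnit (SLc_M q).det := by
  have h : (SLc_M q).det = 1 := by
    simp [SLc_M, Matrix.det_succ_row_zero, Fin.sum_univ_succ]
  rw [h]
  exact isUnit_one

private theorem SLc_sub2 (q : Fin 4 → k) :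
    sub (SLc_M q) (X 2 : S k) = (X 2 - (C (q 0) * X 0 + C (q 1) * X 1) : S k) := by
  simp [sub, SLc_M, Fin.sum_univ_four]
  ring

private theorem SLc_sub3 (q : Fin 4 → k) :
    sub (SLc_M q) (X 3 : S k) = (X 3 - (C (q 2) * X 0 + C (q 3) * X 1) : S k) := by
  simp [sub, SLc_M, Fin.sum_univ_four]
  ring

private theorem SLc_bot :
    KN k 0 ((⊥ : Submodule (R k) (Fin (0 + 1) → R k)) : Set (Fin (0 + 1) → R k)) =
      (Ideal.span {X 2, X 3} : Ideal (S k)) := by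
  have hp : (Ideal.span {X 2, X 3} : Ideal (S k)) ^ (0 + 1) = Ideal.span {X 2, X 3} := pow_one _
  unfold KN
  rw [hp]
  apply sup_eq_right.2
  refine Ideal.span_le.2 ?_
  rintro _ ⟨v, hv, rfl⟩
  have hv' : v = 0 := by simpa using hv
  subst hv'
  have e : em k 0 (0 : Fin (0 + 1) → R k) = 0 := by
    simp [em]
  rw [e]
  exact Submodule.zero_mem _

private theorem SLc_ln (q : Fin 4 → k) : ln q = tr (SLc_M q)
    (KN k 0 ((⊥ : Submodule (R k) (Fin (0 + 1) → R k)) : Set (Fin (0 + 1) → R k))) := by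
  rw [SLc_bot]
  unfold tr ln
  rw [Ideal.map_span, Set.image_pair, SLc_sub2, SLc_sub3]

theorem isCurve_ln (q : Fin 4 → k) : IsCurve k 1 0 (ln q) := by
  rw [SLc_ln]
  exact isCurve_tr isCurve_line (SLc_M q) (SLc_det q)

theorem dis_ln (q : Fin 4 → k) : Dis k (ln q) (Ideal.span {X 0, X 1}) := by
  refine ⟨1, ?_⟩
  rw [pow_one]
  have h0 : (X 0 : S k) ∈ (ln q ⊔ Ideal.span {X 0, X 1} : Ideal (S k)) :=
    Ideal.mem_sup_right (Ideal.subset_span (Set.mem_insert _ _))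
  have h1 : (X 1 : S k) ∈ (ln q ⊔ Ideal.span {X 0, X 1} : Ideal (S k)) :=
    Ideal.mem_sup_right (Ideal.subset_span (Set.mem_insert_of_mem _ rfl))
  have h2 : (X 2 - (C (q 0) * X 0 + C (q 1) * X 1) : S k) ∈
      (ln q ⊔ Ideal.span {X 0, X 1} : Ideal (S k)) :=
    Ideal.mem_sup_left (Ideal.subset_span (Set.mem_insert _ _))
  have h3 : (X 3 - (C (q 2) * X 0 + C (q 3) * X 1) : S k) ∈
      (ln q ⊔ Ideal.span {X 0, X 1} : Ideal (S k)) :=
    Ideal.mem_sup_left (Ideal.subset_span (Set.mem_insert_of_mem _ rfl))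
  refine Ideal.span_le.2 ?_
  rintro _ ⟨i, rfl⟩
  fin_cases i
  · exact h0
  · exact h1
  · have h := Ideal.add_mem _ h2 (Ideal.add_mem _ (Ideal.mul_mem_left _ (C (q 0)) h0)
      (Ideal.mul_mem_left _ (C (q 1)) h1))
    rw [sub_add_cancel] at h
    exact h
  · have h := Ideal.add_mem _ h3 (Ideal.add_mem _ (Ideal.mul_mem_left _ (C (q 2)) h0)
      (Ideal.mul_mem_left _ (C (q 3)) h1))
    rw [sub_add_cancel] at h
    exact h

theorem isCurve_un {d : ℕ} {g : ℤ} {I : Ideal (S k)} (hI : IsCurve k d g I)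
    (Q : List (Fin 4 → k)) (hQ : Good I Q) :
    IsCurve k (d + Q.length) (g - Q.length) (un I Q) := by
  induction Q with
  | nil =>
    simpa [un] using hI
  | cons q Q ih =>
    have h := isCurve_inf (ih hQ.1) (isCurve_ln q) hQ.2
    have e : g - (Q.length : ℤ) + 0 - 1 = g - ((q :: Q).length : ℤ) := by
      rw [List.length_cons]
      push_cast
      ring
    rw [e] at h
    exact h

theorem dis_un {I : Ideal (S k)} (hD : Dis k I (Ideal.span {X 0, X 1}))
    (Q : List (Fin 4 → k)) : Dis k (un I Q) (Ideal.span {X 0, X 1}) := by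
  induction Q with
  | nil => exact hD
  | cons q Q ih => exact dis_inf ih (dis_ln q)

end MP_06793c_ag
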