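import Pool.Agent.Lib.MP_06793c_ag.PG.SDefs

/-!
# A line in general position

For `ε = 0` the line `ε x2 = x0, ε x3 = x1` is disjoint from the curve, so it is for some `ε ≠ 0`, where it is a line `ln q`.
The `q` for which `ln q` is disjoint from the curve contain a nonempty open subset of the affine space, and each condition
`F (pq q p) ≠ 0` defines another one.
-/

namespace MP_06793c_ag

open MvPolynomial

universe u

variable {k : Type u} [Field k] {m : ℕ}

private theorem SLn_fib {A : Type u} [CommRing A] [Algebra k A] (I : Ideal (S k)) (a b : S A) (ψ : A →ₐ[k] k) :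
    fib ψ (I.map (MvPolynomial.map (algebraMap k A)) ⊔ Ideal.span {a, b}) =
      I ⊔ Ideal.span {MvPolynomial.map (ψ : A →+* k) a, MvPolynomial.map (ψ : A →+* k) b} := by
  rw [fib_sup, fib_const]
  congr 1
  unfold fib
  rw [Ideal.map_span, Set.image_pair]

private theorem SLn_hom {A : Type u} [CommRing A] [Algebra k A] {I : Ideal (S k)} (hI : IsHom I) {a b : S A}
    (ha : a.IsHomogeneous 1) (hb : b.IsHomogeneous 1) :
    IsHom (I.map (MvPolynomial.map (algebraMap k A)) ⊔ Ideal.span {a, b}) := by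
  refine isHom_sup (isHom_map _ hI) (isHom_of_span ?_)
  rintro p (rfl | rfl)
  · exact ⟨1, ha⟩
  · exact ⟨1, hb⟩

private theorem SLn_one [Infinite k] {I : Ideal (S k)} (hI : IsHom I)
    (hD : Dis k I (Ideal.span {X 0, X 1})) : ∃ q : Fin 4 → k, Dis k I (ln q) := by
  obtain ⟨N, hN⟩ := hD
  obtain ⟨f, hf, hall⟩ := open_dis (k := k) (A := Polynomial k)
    (I.map (MvPolynomial.map (algebraMap k (Polynomial k))) ⊔
      Ideal.span {X 0 - C Polynomial.X * X 2, X 1 - C Polynomial.X * X 3})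
    (SLn_hom hI (by
        have h1 := isHomogeneous_X (R := Polynomial k) (0 : Fin 4)
        have h2 := isHomogeneous_C_mul_X (Polynomial.X : Polynomial k) (2 : Fin 4)
        exact h1.sub h2) (by
        have h1 := isHomogeneous_X (R := Polynomial k) (1 : Fin 4)
        have h2 := isHomogeneous_C_mul_X (Polynomial.X : Polynomial k) (3 : Fin 4)
        exact h1.sub h2))
    (Polynomial.aeval (0 : k)) N (by
      rw [SLn_fib]
      simpa using hN)
  have h1 : ∃ e : k, Polynomial.eval e (f * Polynomial.X) ≠ 0 := by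
    by_contra h
    push Not at h
    have h2 : f * Polynomial.X = 0 := Polynomial.funext fun e => by rw [h e, Polynomial.eval_zero]
    have h3 : f ≠ 0 := fun h3 => hf (by rw [h3, map_zero])
    exact mul_ne_zero h3 Polynomial.X_ne_zero h2
  obtain ⟨e, he⟩ := h1
  rw [Polynomial.eval_mul, Polynomial.eval_X] at he
  have he0 : e ≠ 0 := right_ne_zero_of_mul he
  have h2 := hall (Polynomial.aeval e) (by
    rw [Polynomial.coe_aeval_eq_eval]
    exact left_ne_zero_of_mul he)
  rw [SLn_fib] at h2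
  refine ⟨![e⁻¹, 0, 0, e⁻¹], N, h2.trans (sup_le_sup le_rfl ?_)⟩
  rw [Ideal.span_le]
  have hC : (C e * C e⁻¹ : S k) = 1 := by rw [← C_mul, mul_inv_cancel₀ he0, C_1]
  unfold ln
  rintro p (rfl | rfl)
  · have h3 : (MvPolynomial.map ((Polynomial.aeval e : Polynomial k →ₐ[k] k) : Polynomial k →+* k))
        (X 0 - C Polynomial.X * X 2 : S (Polynomial k)) =
          - C e * (X 2 - (C e⁻¹ * X 0 + C 0 * X 1)) := by
      simp only [map_sub, map_mul, map_X, map_C, RingHom.coe_coe, Polynomial.aeval_X, C_0]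
      linear_combination (-(X 0 : S k)) * hC
    rw [SetLike.mem_coe, h3]
    exact Ideal.mul_mem_left _ _ (Ideal.subset_span (by simp))
  · have h3 : (MvPolynomial.map ((Polynomial.aeval e : Polynomial k →ₐ[k] k) : Polynomial k →+* k))
        (X 1 - C Polynomial.X * X 3 : S (Polynomial k)) =
          - C e * (X 3 - (C 0 * X 0 + C e⁻¹ * X 1)) := by
      simp only [map_sub, map_mul, map_X, map_C, RingHom.coe_coe, Polynomial.aeval_X, C_0]
      linear_combination (-(X 1 : S k)) * hC
    rw [SetLike.mem_coe, h3]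
    exact Ideal.mul_mem_left _ _ (Ideal.subset_span (by simp))

/-- The polynomial in `q` with the value `F (pq q p)`. -/
private theorem SLn_poly [Infinite k] (p : Fin 2 → k) (F : R k) (hp : p ≠ 0) (hF : F ≠ 0) :
    ∃ P : S k, P ≠ 0 ∧ ∀ q : Fin 4 → k, eval q P = eval (pq q p) F := by
  have h1 : ∀ q : Fin 4 → k,
      eval q (aeval (![C (p 0) * X 0 + C (p 1) * X 1, C (p 0) * X 2 + C (p 1) * X 3] : Fin 2 → S k) F) =
        eval (pq q p) F := by
    intro q
    rw [← aeval_eq_eval, ← aeval_eq_eval, ← AlgHom.comp_apply]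
    congr 1
    refine MvPolynomial.algHom_ext fun i => ?_
    fin_cases i
    · simp [pq, mul_comm]
    · simp [pq, mul_comm]
  refine ⟨_, ?_, h1⟩
  intro h0
  apply hF
  refine MvPolynomial.funext fun z => ?_
  rw [map_zero]
  obtain ⟨q, hq⟩ : ∃ q : Fin 4 → k, pq q p = z := by
    by_cases h2 : p 0 = 0
    · have h3 : p 1 ≠ 0 := by
        intro h3
        apply hp
        ext i
        fin_cases i
        · exact h2
        · exact h3
      refine ⟨![0, z 0 / p 1, 0, z 1 / p 1], ?_⟩
      ext i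
      fin_cases i
      · simp [pq, h3]
      · simp [pq, h3]
    · refine ⟨![z 0 / p 0, 0, z 1 / p 0, 0], ?_⟩
      ext i
      fin_cases i
      · simp [pq, h2]
      · simp [pq, h2]
  rw [← hq, ← h1 q, h0, map_zero]

theorem exists_ln [IsAlgClosed k] {d : ℕ} {g : ℤ} {I : Ideal (S k)} (hI : IsCurve k d g I)
    (hD : Dis k I (Ideal.span {X 0, X 1})) (T : List ((Fin 2 → k) × R k))
    (hT : ∀ t ∈ T, t.1 ≠ 0 ∧ t.2 ≠ 0) :
    ∃ q : Fin 4 → k, Dis k I (ln q) ∧ ∀ t ∈ T, eval (pq q t.1) t.2 ≠ 0 := by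
  have : Infinite k := IsAlgClosed.instInfinite
  obtain ⟨q0, N, hN⟩ := SLn_one hI.hom hD
  obtain ⟨f, hf, hall⟩ := open_dis (k := k) (A := S k)
    (I.map (MvPolynomial.map (algebraMap k (S k))) ⊔
      Ideal.span {X 2 - (C (X 0) * X 0 + C (X 1) * X 1), X 3 - (C (X 2) * X 0 + C (X 3) * X 1)})
    (SLn_hom hI.hom (by
        have h1 := isHomogeneous_X (R := S k) (2 : Fin 4)
        have h2 := isHomogeneous_C_mul_X (X 0 : S k) (0 : Fin 4)
        have h3 := isHomogeneous_C_mul_X (X 1 : S k) (1 : Fin 4)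
        exact h1.sub (h2.add h3)) (by
        have h1 := isHomogeneous_X (R := S k) (3 : Fin 4)
        have h2 := isHomogeneous_C_mul_X (X 2 : S k) (0 : Fin 4)
        have h3 := isHomogeneous_C_mul_X (X 3 : S k) (1 : Fin 4)
        exact h1.sub (h2.add h3)))
    (aeval q0) N (by
      rw [SLn_fib]
      simpa [ln] using hN)
  -- all the conditions together
  have key : ∀ T : List ((Fin 2 → k) × R k), (∀ t ∈ T, t.1 ≠ 0 ∧ t.2 ≠ 0) →
      ∃ P : S k, P ≠ 0 ∧ ∀ q : Fin 4 → k, eval q P ≠ 0 → ∀ t ∈ T, eval (pq q t.1) t.2 ≠ 0 := by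
    intro T
    induction T with
    | nil =>
      intro _
      exact ⟨1, one_ne_zero, fun q _ t ht => absurd ht List.not_mem_nil⟩
    | cons t T ih =>
      intro h
      obtain ⟨P, h1, h2⟩ := ih fun t ht => h t (List.mem_cons_of_mem _ ht)
      obtain ⟨h3, h4⟩ := h t List.mem_cons_self
      obtain ⟨Q, h5, h6⟩ := SLn_poly t.1 t.2 h3 h4
      refine ⟨P * Q, mul_ne_zero h1 h5, fun q hq t' ht' => ?_⟩
      rw [map_mul] at hq
      rcases List.mem_cons.1 ht' with rfl | ht'
      · rw [← h6]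
        exact right_ne_zero_of_mul hq
      · exact h2 q (left_ne_zero_of_mul hq) t' ht'
  obtain ⟨P, h1, h2⟩ := key T hT
  have hf0 : f ≠ 0 := fun h => hf (by rw [h, map_zero])
  obtain ⟨q, hq⟩ : ∃ q : Fin 4 → k, eval q (f * P) ≠ 0 := by
    by_contra h
    push Not at h
    exact mul_ne_zero hf0 h1 (MvPolynomial.funext fun q => by rw [h q, map_zero])
  rw [map_mul] at hq
  refine ⟨q, ⟨N, ?_⟩, h2 q (right_ne_zero_of_mul hq)⟩
  have h3 := hall (aeval q) (by
    rw [aeval_eq_eval]
    exact left_ne_zero_of_mul hq)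
  rw [SLn_fib] at h3
  simpa [ln] using h3

end MP_06793c_ag
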