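import Pool.Agent.Lib.MP_06793c_ag.PG.SDefs

/-!
# The dimension of `Kp`

Let `l = io (lp p)` and `Y` a linear form in `x0`, `x1` with value `1` at `p`. The images `T n` of the
forms of degree `n` in `S / (I + (l))` have dimension `d` for large `n`, and `Y` is bijective from
`T n` to `T (n + 1)`. Hence `sg p` induces an isomorphism of `T n` with `R / I.map (sg p)`, which has
therefore the dimension `d`; the polynomials of degree `< m + 1` map onto this quotient, with the
kernel `Kp (m + 1) I p`.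
-/

namespace MP_06793c_ag

open MvPolynomial

universe u

variable {k : Type u} [Field k] {m : ℕ}

private def SFin_set (n : ℕ) : Set (Fin 2 →₀ ℕ) := {s | s 0 + s 1 < n}

private theorem SFin_pm (n : ℕ) : pm k n = restrictSupport k (SFin_set n) := by
  ext F
  rw [mem_restrictSupport_iff]
  rfl

private noncomputable def SFin_e (n : ℕ) (x : Σ t : Fin n, Fin ((t : ℕ) + 1)) : SFin_set n :=
  ⟨Finsupp.single 0 (x.2 : ℕ) + Finsupp.single 1 ((x.1 : ℕ) - (x.2 : ℕ)), by
    have h1 := x.1.2
    have h2 := x.2.2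
    have e0 : (Finsupp.single (0 : Fin 2) (x.2 : ℕ) +
        Finsupp.single 1 ((x.1 : ℕ) - (x.2 : ℕ)) : Fin 2 →₀ ℕ) 0 = (x.2 : ℕ) := by simp
    have e1 : (Finsupp.single (0 : Fin 2) (x.2 : ℕ) +
        Finsupp.single 1 ((x.1 : ℕ) - (x.2 : ℕ)) : Fin 2 →₀ ℕ) 1 = (x.1 : ℕ) - (x.2 : ℕ) := by simp
    change (_ : ℕ) + _ < n
    rw [e0, e1]
    omega⟩

private theorem SFin_bij (n : ℕ) : Function.Bijective (SFin_e n) := by
  constructor
  · rintro ⟨t, c⟩ ⟨t', c'⟩ h
    have h0 : (SFin_e n ⟨t, c⟩).1 = (SFin_e n ⟨t', c'⟩).1 := congr_arg Subtype.val h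
    have h1 := DFunLike.congr_fun h0 0
    have h2 := DFunLike.congr_fun h0 1
    simp [SFin_e] at h1 h2
    have h3 : (t : ℕ) = (t' : ℕ) := by
      have := c.2; have := c'.2; omega
    have h4 : t = t' := Fin.ext h3
    subst h4
    have h5 : c = c' := Fin.ext h1
    subst h5
    rfl
  · rintro ⟨s, hs⟩
    refine ⟨⟨⟨s 0 + s 1, hs⟩, ⟨s 0, by simp⟩⟩, ?_⟩
    apply Subtype.ext
    ext i
    fin_cases i <;> simp [SFin_e]

private theorem SFin_fin (n : ℕ) : Finite (SFin_set n) := Finite.of_surjective _ (SFin_bij n).2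

theorem finite_pm (n : ℕ) : Module.Finite k (pm k n) := by
  rw [SFin_pm]
  have := SFin_fin n
  exact Module.Finite.of_basis (basisRestrictSupport k (SFin_set n))

private theorem SFin_rank (n : ℕ) : Module.finrank k (pm k n) = n * (n + 1) / 2 := by
  rw [SFin_pm, Module.finrank_eq_nat_card_basis (basisRestrictSupport k (SFin_set n)),
    ← Nat.card_eq_of_bijective _ (SFin_bij n), Nat.card_eq_fintype_card, Fintype.card_sigma]
  simp only [Fintype.card_fin]
  rw [Fin.sum_univ_eq_sum_range (fun t => t + 1) n]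
  have : ∀ m : ℕ, 2 * ∑ t ∈ Finset.range m, (t + 1) = m * (m + 1) := by
    intro m
    induction m with
    | zero => simp
    | succ m ih => rw [Finset.sum_range_succ, mul_add, ih]; ring
  have := this n
  omega

/-- the image of the forms of degree `n` in `S / J` -/
private noncomputable def SFin_T (J : Ideal (S k)) (n : ℕ) : Submodule k (S k ⧸ J) :=
  (homogeneousSubmodule (Fin 4) k n).map (Ideal.Quotient.mkₐ k J).toLinearMap

private theorem SFin_mem_T {J : Ideal (S k)} {n : ℕ} {w : S k ⧸ J} :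
    w ∈ SFin_T J n ↔ ∃ f : S k, f.IsHomogeneous n ∧ Ideal.Quotient.mk J f = w := by
  rw [SFin_T, Submodule.mem_map]
  rfl

private instance SFin_finS (n : ℕ) : FiniteDimensional k (homogeneousSubmodule (Fin 4) k n) :=
  Module.Finite.iff_fg.2 (homogeneousSubmodule_fg _ _ n)

private instance SFin_finT (J : Ideal (S k)) (n : ℕ) : FiniteDimensional k (SFin_T J n) := by
  unfold SFin_T; infer_instance

private theorem SFin_hc_mul {L : S k} (hL : L.IsHomogeneous 1) (n : ℕ) (s : S k) :
    homogeneousComponent (n + 1) (L * s) = L * homogeneousComponent n s := by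
  conv_lhs => rw [← sum_homogeneousComponent s]
  rw [Finset.mul_sum, map_sum]
  have : ∀ i, homogeneousComponent (n + 1) (L * homogeneousComponent i s) =
      if i = n then L * homogeneousComponent n s else 0 := by
    intro i
    have h1 : L * homogeneousComponent i s ∈ homogeneousSubmodule (Fin 4) k (1 + i) :=
      hL.mul (homogeneousComponent_isHomogeneous i s)
    rw [homogeneousComponent_of_mem h1]
    by_cases hi : i = n
    · subst hi; rw [if_pos (add_comm _ _), if_pos rfl]
    · rw [if_neg (by omega), if_neg hi]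
  simp only [this, Finset.sum_ite_eq']
  split_ifs with h
  · rfl
  · rw [homogeneousComponent_eq_zero _ _ (by simpa using h), mul_zero]

/-- The dimension of `T (n + 1)`. -/
private theorem SFin_dim {I : Ideal (S k)} (hI : IsHom I) {l : S k} (hl : l.IsHomogeneous 1)
    (hn : ∀ f : S k, l * f ∈ I → f ∈ I) (n : ℕ) :
    (Module.finrank k (SFin_T (I ⊔ Ideal.span {l}) (n + 1)) : ℤ) =
      hf k I (n + 1) - hf k I n := by
  set J := I ⊔ Ideal.span {l} with hJ
  let K : Submodule k (S k) := J.restrictScalars k ⊓ homogeneousSubmodule (Fin 4) k (n + 1)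
  have hfK : FiniteDimensional k K := Submodule.finiteDimensional_of_le (inf_le_right)
  -- the map `S_(n+1) → S / J`
  let ψ : homogeneousSubmodule (Fin 4) k (n + 1) →ₗ[k] (S k ⧸ J) :=
    (Ideal.Quotient.mkₐ k J).toLinearMap.domRestrict _
  have hr : LinearMap.range ψ = SFin_T J (n + 1) := by
    rw [LinearMap.range_domRestrict]; rfl
  have h1 := LinearMap.finrank_range_add_finrank_ker ψ
  rw [hr] at h1
  have hker : Module.finrank k (LinearMap.ker ψ) = Module.finrank k K := by
    let e : K ≃ₗ[k] LinearMap.ker ψ :=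
      { toFun := fun x => ⟨⟨x.1, x.2.2⟩, by
          rw [LinearMap.mem_ker]
          change Ideal.Quotient.mk J x.1 = 0
          rw [Ideal.Quotient.eq_zero_iff_mem]
          exact x.2.1⟩
        map_add' := fun x y => rfl
        map_smul' := fun c x => rfl
        invFun := fun x => ⟨x.1.1, by
          have h := x.2
          rw [LinearMap.mem_ker] at h
          change Ideal.Quotient.mk J x.1.1 = 0 at h
          rw [Ideal.Quotient.eq_zero_iff_mem] at h
          exact ⟨h, x.1.2⟩⟩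
        left_inv := fun x => rfl
        right_inv := fun x => rfl }
    exact e.finrank_eq.symm
  -- the map `I_(n+1) × S_n → K`
  let I1 : Submodule k (S k) := I.restrictScalars k ⊓ homogeneousSubmodule (Fin 4) k (n + 1)
  let I0 : Submodule k (S k) := I.restrictScalars k ⊓ homogeneousSubmodule (Fin 4) k n
  have hfI1 : FiniteDimensional k I1 := Submodule.finiteDimensional_of_le (inf_le_right)
  have hfI0 : FiniteDimensional k I0 := Submodule.finiteDimensional_of_le (inf_le_right)
  let Θ : (I1 × homogeneousSubmodule (Fin 4) k n) →ₗ[k] K :=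
    { toFun := fun x => ⟨x.1.1 + l * x.2.1, by
        refine ⟨Ideal.add_mem _ (Ideal.mem_sup_left x.1.2.1) (Ideal.mem_sup_right ?_), ?_⟩
        · exact Ideal.mul_mem_right _ _ (Ideal.subset_span rfl)
        · refine Submodule.add_mem _ x.1.2.2 ?_
          have := hl.mul x.2.2
          rwa [add_comm] at this⟩
      map_add' := fun x y => by
        apply Subtype.ext
        simp only [Prod.fst_add, Prod.snd_add, Submodule.coe_add]
        ring
      map_smul' := fun c x => by
        apply Subtype.ext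
        simp only [Prod.smul_fst, Prod.smul_snd, Submodule.coe_smul, RingHom.id_apply, smul_add,
          mul_smul_comm] }
  have h2 := LinearMap.finrank_range_add_finrank_ker Θ
  rw [Module.finrank_prod] at h2
  have hΘ : LinearMap.range Θ = ⊤ := by
    rw [LinearMap.range_eq_top]
    rintro ⟨f, hfJ, hfh⟩
    obtain ⟨i, hi, v, hv, rfl⟩ := Submodule.mem_sup.1 hfJ
    obtain ⟨s, rfl⟩ := Ideal.mem_span_singleton.1 hv
    refine ⟨(⟨homogeneousComponent (n + 1) i, hI i hi _, homogeneousComponent_isHomogeneous _ _⟩,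
      ⟨homogeneousComponent n s, homogeneousComponent_isHomogeneous _ _⟩), ?_⟩
    apply Subtype.ext
    change homogeneousComponent (n + 1) i + l * homogeneousComponent n s = i + l * s
    rw [← SFin_hc_mul hl, ← map_add]
    exact homogeneousComponent_eq_self hfh
  rw [hΘ, finrank_top] at h2
  have h4 : Module.finrank k (LinearMap.ker Θ) = Module.finrank k I0 := by
    let e : LinearMap.ker Θ →ₗ[k] I0 :=
      { toFun := fun x => ⟨x.1.2.1, by
          have hx : x.1.1.1 + l * x.1.2.1 = 0 := congr_arg Subtype.val (LinearMap.mem_ker.1 x.2)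
          refine ⟨hn _ ?_, x.1.2.2⟩
          have : l * x.1.2.1 = - x.1.1.1 := by rw [eq_neg_iff_add_eq_zero, add_comm]; exact hx
          rw [this]
          exact neg_mem x.1.1.2.1⟩
        map_add' := fun x y => rfl
        map_smul' := fun c x => rfl }
    have he : Function.Injective e := by
      rw [injective_iff_map_eq_zero]
      intro x h
      have h5 : x.1.2.1 = 0 := congr_arg Subtype.val h
      have hx : x.1.1.1 + l * x.1.2.1 = 0 := congr_arg Subtype.val (LinearMap.mem_ker.1 x.2)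
      rw [h5, mul_zero, add_zero] at hx
      exact Subtype.ext (Prod.ext (Subtype.ext hx) (Subtype.ext h5))
    have he' : Function.Surjective e := by
      rintro ⟨f, hfI, hfh⟩
      refine ⟨⟨(⟨-(l * f), ⟨neg_mem (Ideal.mul_mem_left _ _ hfI), ?_⟩⟩, ⟨f, hfh⟩), ?_⟩, rfl⟩
      · refine Submodule.neg_mem _ ?_
        have := hl.mul hfh
        rwa [add_comm] at this
      · rw [LinearMap.mem_ker]
        apply Subtype.ext
        change -(l * f) + l * f = 0
        ring
    exact (LinearEquiv.ofBijective e ⟨he, he'⟩).finrank_eq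
  unfold hf
  change (Module.finrank k (SFin_T J (n + 1)) : ℤ) =
    (Module.finrank k (homogeneousSubmodule (Fin 4) k (n + 1)) - Module.finrank k I1) -
      (Module.finrank k (homogeneousSubmodule (Fin 4) k n) - Module.finrank k I0)
  omega

/-- `x_j` is a multiple of `Y = x_i / p_i` modulo `l`. -/
private theorem SFin_X (p : Fin 2 → k) (i j : Fin 2) (hi : p i ≠ 0) :
    (X ((![0, 1] : Fin 2 → Fin 4) j) : S k) - C (p j) *
      (C (p i)⁻¹ * X ((![0, 1] : Fin 2 → Fin 4) i)) ∈ Ideal.span {io k (lp k p)} := by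
  have hl : io k (lp k p) = C (p 1) * X 0 - C (p 0) * X 1 := by
    simp [io, lp]
  have h : C (p i) * ((X ((![0, 1] : Fin 2 → Fin 4) j) : S k) -
      C (p j) * (C (p i)⁻¹ * X ((![0, 1] : Fin 2 → Fin 4) i))) ∈ Ideal.span {io k (lp k p)} := by
    have h0 : (C (p i) * C (p i)⁻¹ : S k) = 1 := by
      rw [← C_mul, mul_inv_cancel₀ hi, C_1]
    have h1 : C (p i) * ((X ((![0, 1] : Fin 2 → Fin 4) j) : S k) -
        C (p j) * (C (p i)⁻¹ * X ((![0, 1] : Fin 2 → Fin 4) i))) =
        C (p i) * X ((![0, 1] : Fin 2 → Fin 4) j) - C (p j) * X ((![0, 1] : Fin 2 → Fin 4) i) := by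
      linear_combination (- C (p j) * X ((![0, 1] : Fin 2 → Fin 4) i)) * h0
    rw [h1, Ideal.mem_span_singleton']
    fin_cases i <;> fin_cases j
    · exact ⟨0, by simp⟩
    · exact ⟨-1, by rw [hl]; simp⟩
    · exact ⟨1, by rw [hl]; simp⟩
    · exact ⟨0, by simp⟩
  have h3 := Ideal.mul_mem_left _ (C (p i)⁻¹ : S k) h
  rw [← mul_assoc, ← C_mul, inv_mul_cancel₀ hi, C_1, one_mul] at h3
  exact h3

private theorem SFin_deg_le_pow (n N : ℕ) (h : N ≤ n) (p : S k) (hp : p.IsHomogeneous n) :
    p ∈ mm k ^ N := by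
  rw [mem_pow_idealOfVars_iff']
  intro x hx
  exact hp.coeff_eq_zero (by omega)

private theorem SFin_w4 (d : Fin 4 →₀ ℕ) : Finsupp.weight 1 d = d 0 + d 1 + d 2 + d 3 := by
  simp [Finsupp.weight_apply, Finsupp.sum_fintype, Fin.sum_univ_four]

/-- homogenisation in degree `n` with the linear form `Y` -/
private noncomputable def SFin_eta (Y : S k) (n : ℕ) : R k →ₗ[k] S k :=
  (basisMonomials (Fin 2) k).constr k fun t => Y ^ (n - (t 0 + t 1)) * X 2 ^ t 0 * X 3 ^ t 1

private theorem SFin_eta_mon (Y : S k) (n : ℕ) (t : Fin 2 →₀ ℕ) (c : k) :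
    SFin_eta Y n (monomial t c) = c • (Y ^ (n - (t 0 + t 1)) * X 2 ^ t 0 * X 3 ^ t 1) := by
  have h : (monomial t c : R k) = c • basisMonomials (Fin 2) k t := by
    rw [coe_basisMonomials, smul_monomial, smul_eq_mul, mul_one]
  rw [h, map_smul]
  congr 1
  exact Module.Basis.constr_basis _ _ _ _

private theorem SFin_eta_hom {Y : S k} (hY : Y.IsHomogeneous 1) {n : ℕ} {F : R k}
    (hF : F ∈ pm k (n + 1)) : (SFin_eta Y n F).IsHomogeneous n := by
  rw [← support_sum_monomial_coeff F, map_sum]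
  refine IsHomogeneous.sum _ _ _ fun s hs => ?_
  rw [SFin_eta_mon]
  have h1 : s 0 + s 1 < n + 1 := hF s hs
  have h2 : (Y ^ (n - (s 0 + s 1)) * X 2 ^ s 0 * X 3 ^ s 1 : S k).IsHomogeneous
      (n - (s 0 + s 1) + s 0 + s 1) := by
    have h3 := ((hY.pow (n - (s 0 + s 1))).mul ((isHomogeneous_X k (2 : Fin 4)).pow (s 0))).mul
      ((isHomogeneous_X k (3 : Fin 4)).pow (s 1))
    simpa only [one_mul] using h3
  rw [show n - (s 0 + s 1) + s 0 + s 1 = n by omega] at h2
  exact (homogeneousSubmodule (Fin 4) k n).smul_mem _ h2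

private theorem SFin_sg_eta {p : Fin 2 → k} {Y : S k} (hY : sg p Y = 1) (n : ℕ) (F : R k) :
    sg p (SFin_eta Y n F) = F := by
  induction F using MvPolynomial.induction_on' with
  | monomial s c =>
    rw [SFin_eta_mon, map_smul, map_mul, map_mul, map_pow, map_pow, map_pow, hY, one_pow, one_mul]
    have h2 : sg p (X 2) = X 0 := by simp [sg]
    have h3 : sg p (X 3) = X 1 := by simp [sg]
    rw [h2, h3, monomial_eq, Finsupp.prod_fintype _ _ (fun i => pow_zero _), Fin.prod_univ_two,
      smul_eq_C_mul]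
  | add F G hF hG => rw [map_add, map_add, hF, hG]

private theorem SFin_sg_mon (p : Fin 2 → k) (s : Fin 4 →₀ ℕ) (c : k) :
    sg p (monomial s c) = monomial (Finsupp.single 0 (s 2) + Finsupp.single 1 (s 3))
      (c * p 0 ^ s 0 * p 1 ^ s 1) := by
  rw [monomial_eq, Finsupp.prod_fintype _ _ (fun i => pow_zero _), Fin.prod_univ_four,
    map_mul, map_mul, map_mul, map_mul, map_pow, map_pow, map_pow, map_pow]
  have g0 : sg p (X 0) = C (p 0) := by simp [sg]
  have g1 : sg p (X 1) = C (p 1) := by simp [sg]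
  have g2 : sg p (X 2) = X 0 := by simp [sg]
  have g3 : sg p (X 3) = X 1 := by simp [sg]
  have gc : sg p (C c) = C c := by
    rw [← algebraMap_eq, AlgHom.commutes, algebraMap_eq]
  rw [g0, g1, g2, g3, gc, X_pow_eq_monomial, X_pow_eq_monomial, ← C_pow, ← C_pow]
  rw [show (C c * (C (p 0 ^ s 0) * C (p 1 ^ s 1) * monomial (Finsupp.single 0 (s 2)) 1 *
    monomial (Finsupp.single 1 (s 3)) 1) : R k) = C (c * p 0 ^ s 0 * p 1 ^ s 1) *
    (monomial (Finsupp.single 0 (s 2)) 1 * monomial (Finsupp.single 1 (s 3)) 1) by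
      rw [C_mul, C_mul]; ring, monomial_mul, C_mul_monomial, mul_one, mul_one]

private theorem SFin_eta_sg {p : Fin 2 → k} {i : Fin 2} (hi : p i ≠ 0) {n : ℕ} {f : S k}
    (hf : f.IsHomogeneous n) :
    f - SFin_eta (C (p i)⁻¹ * X ((![0, 1] : Fin 2 → Fin 4) i)) n (sg p f) ∈
      Ideal.span {io k (lp k p)} := by
  set Y : S k := C (p i)⁻¹ * X ((![0, 1] : Fin 2 → Fin 4) i) with hY
  have hX : ∀ j : Fin 2, Ideal.Quotient.mk (Ideal.span {io k (lp k p)})
      (X ((![0, 1] : Fin 2 → Fin 4) j)) = Ideal.Quotient.mk _ (C (p j) * Y) := by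
    intro j
    rw [Ideal.Quotient.eq]
    exact SFin_X p i j hi
  have hX0 : Ideal.Quotient.mk (Ideal.span {io k (lp k p)}) (X 0) =
      Ideal.Quotient.mk _ (C (p 0) * Y) := hX 0
  have hX1 : Ideal.Quotient.mk (Ideal.span {io k (lp k p)}) (X 1) =
      Ideal.Quotient.mk _ (C (p 1) * Y) := hX 1
  rw [← Ideal.Quotient.eq]
  have key : ∀ T : Finset (Fin 4 →₀ ℕ), (∀ s ∈ T, s 0 + s 1 + s 2 + s 3 = n) →
      Ideal.Quotient.mk (Ideal.span {io k (lp k p)}) (∑ s ∈ T, monomial s (coeff s f)) =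
        Ideal.Quotient.mk _ (SFin_eta Y n (sg p (∑ s ∈ T, monomial s (coeff s f)))) := by
    intro T hT
    rw [map_sum, map_sum, map_sum, map_sum]
    refine Finset.sum_congr rfl fun s hs => ?_
    have h4 := hT s hs
    have h5 : sg p (monomial s (coeff s f)) =
        monomial (Finsupp.single 0 (s 2) + Finsupp.single 1 (s 3))
          (coeff s f * p 0 ^ s 0 * p 1 ^ s 1) := SFin_sg_mon p s _
    rw [h5, SFin_eta_mon]
    have e0 : (Finsupp.single 0 (s 2) + Finsupp.single 1 (s 3) : Fin 2 →₀ ℕ) 0 = s 2 := by simp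
    have e1 : (Finsupp.single 0 (s 2) + Finsupp.single 1 (s 3) : Fin 2 →₀ ℕ) 1 = s 3 := by simp
    rw [e0, e1, show n - (s 2 + s 3) = s 0 + s 1 by omega, monomial_eq,
      Finsupp.prod_fintype _ _ (fun i => pow_zero _), Fin.prod_univ_four]
    rw [map_mul, map_mul, map_mul, map_mul, map_pow, map_pow, hX0, hX1, smul_eq_C_mul]
    simp only [map_mul, map_pow, mul_pow, pow_add]
    ring
  have h1 := key f.support fun s hs => by
    rw [← SFin_w4]; exact hf (mem_support_iff.1 hs)
  rwa [support_sum_monomial_coeff] at h1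

private theorem SFin_surj (p : Fin 2 → k) : Function.Surjective (sg p) := by
  intro F
  have hY : ∀ F : R k, sg p (rename (![2, 3] : Fin 2 → Fin 4) F) = F := by
    intro F
    have h : (sg p).comp (rename (![2, 3] : Fin 2 → Fin 4)) = AlgHom.id k (R k) := by
      refine MvPolynomial.algHom_ext fun j => ?_
      fin_cases j <;> simp [sg]
    exact DFunLike.congr_fun h F
  exact ⟨_, hY F⟩

theorem finrank_Kp {d : ℕ} {g : ℤ} {I : Ideal (S k)} (hI : IsCurve k d g I)
    (hD : Dis k I (Ideal.span {X 0, X 1}))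
    (hn : ∀ p : Fin 2 → k, p ≠ 0 → ∀ f : S k, io k (lp k p) * f ∈ I → f ∈ I)
    {p : Fin 2 → k} (hp : p ≠ 0)
    (hg : ∃ n₀ : ℕ, ∀ n ≥ n₀, ∀ f : S k, f.IsHomogeneous n →
      ∃ i ∈ I, ∃ t ∈ lt k (m + 1), ∃ s : S k, f = i + t + io k (lp k p) * s) :
    Module.finrank k (Kp (m + 1) I p) + d = (m + 1) * (m + 2) / 2 := by
  classical
  obtain ⟨i, hpi⟩ := Function.ne_iff.1 hp
  rw [Pi.zero_apply] at hpi
  set l : S k := io k (lp k p) with hl
  set J := I ⊔ Ideal.span {l} with hJ
  have hlh : l.IsHomogeneous 1 := (lp_homog p).rename_isHomogeneous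
  set Y : S k := C (p i)⁻¹ * X ((![0, 1] : Fin 2 → Fin 4) i) with hYdef
  have hYh : Y.IsHomogeneous 1 := by
    have h := (isHomogeneous_C (Fin 4) (p i)⁻¹).mul
      (isHomogeneous_X k ((![0, 1] : Fin 2 → Fin 4) i))
    simpa using h
  have hsl : sg p l = 0 := by
    have h : l = C (p 1) * X 0 - C (p 0) * X 1 := by simp [hl, io, lp]
    rw [h]
    simp [sg]
    ring
  have hsY : sg p Y = 1 := by
    have hX : sg p (X ((![0, 1] : Fin 2 → Fin 4) i)) = C (p i) := by
      fin_cases i <;> simp [sg]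
    have hC : sg p (C (p i)⁻¹) = C (p i)⁻¹ := by
      rw [← algebraMap_eq, AlgHom.commutes, algebraMap_eq]
    rw [hYdef, map_mul, hX, hC, ← C_mul, inv_mul_cancel₀ hpi, C_1]
  set y : S k ⧸ J := Ideal.Quotient.mk J Y with hy
  have hX : ∀ j : Fin 2, Ideal.Quotient.mk J (X ((![0, 1] : Fin 2 → Fin 4) j)) = p j • y := by
    intro j
    have h1 : p j • y = Ideal.Quotient.mk J (C (p j) * Y) := by
      rw [map_mul, Algebra.smul_def]; rfl
    rw [h1, Ideal.Quotient.eq]
    exact Ideal.mem_sup_right (SFin_X p i j hpi)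
  have hX0 : Ideal.Quotient.mk J (X 0) = p 0 • y := hX 0
  have hX1 : Ideal.Quotient.mk J (X 1) = p 1 • y := hX 1
  -- surjectivity of `y`
  obtain ⟨N, hN⟩ := hD
  have hTy : ∀ n, N ≤ n + 1 → ∀ w ∈ SFin_T J (n + 1), ∃ w' ∈ SFin_T J n, w = y * w' := by
    intro n hnN w hw
    obtain ⟨f, hf, rfl⟩ := SFin_mem_T.1 hw
    obtain ⟨u, hu, v, hv, huv⟩ := Submodule.mem_sup.1 (hN (SFin_deg_le_pow _ _ hnN f hf))
    obtain ⟨g0, g1, hg⟩ := Ideal.mem_span_pair.1 hv
    have h1 : f = homogeneousComponent (n + 1) u + X 0 * homogeneousComponent n g0 +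
        X 1 * homogeneousComponent n g1 := by
      rw [← SFin_hc_mul (isHomogeneous_X k _), ← SFin_hc_mul (isHomogeneous_X k _), ← map_add,
        ← map_add]
      have : u + X 0 * g0 + X 1 * g1 = f := by rw [← huv, ← hg]; ring
      rw [this]
      exact (homogeneousComponent_eq_self hf).symm
    refine ⟨p 0 • Ideal.Quotient.mk J (homogeneousComponent n g0) +
      p 1 • Ideal.Quotient.mk J (homogeneousComponent n g1), ?_, ?_⟩
    · exact Submodule.add_mem _
        (Submodule.smul_mem _ _ (SFin_mem_T.2 ⟨_, homogeneousComponent_isHomogeneous _ _, rfl⟩))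
        (Submodule.smul_mem _ _ (SFin_mem_T.2 ⟨_, homogeneousComponent_isHomogeneous _ _, rfl⟩))
    · have h2 : Ideal.Quotient.mk J (homogeneousComponent (n + 1) u) = 0 :=
        Ideal.Quotient.eq_zero_iff_mem.2 (Ideal.mem_sup_left (hI.hom u hu (n + 1)))
      conv_lhs => rw [h1]
      rw [map_add, map_add, map_mul, map_mul, h2, hX0, hX1, zero_add, mul_add, smul_mul_assoc,
        smul_mul_assoc, mul_smul_comm, mul_smul_comm]
  have hyT : ∀ n, ∀ w ∈ SFin_T J n, y * w ∈ SFin_T J (n + 1) := by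
    intro n w hw
    obtain ⟨f, hf, rfl⟩ := SFin_mem_T.1 hw
    refine SFin_mem_T.2 ⟨Y * f, ?_, by rw [map_mul]⟩
    have := hYh.mul hf
    rwa [add_comm] at this
  -- the dimension of `T n`
  obtain ⟨N₂, hN₂⟩ := hI.hilb
  have hdim : ∀ n ≥ N₂ + 1, Module.finrank k (SFin_T J n) = d := by
    intro n hn'
    obtain ⟨n, rfl⟩ : ∃ x, n = x + 1 := ⟨n - 1, by omega⟩
    have h1 := SFin_dim hI.hom hlh (hn p hp) n
    rw [hN₂ (n + 1) (by omega), hN₂ n (by omega)] at h1
    push_cast at h1
    have h2 : (Module.finrank k (SFin_T J (n + 1)) : ℤ) = d := by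
      rw [hJ, h1]; ring
    exact_mod_cast h2
  set n₁ : ℕ := max N (N₂ + 1) with hn₁
  -- injectivity of `y`
  have hyi : ∀ n ≥ n₁, ∀ w ∈ SFin_T J n, y * w = 0 → w = 0 := by
    intro n hn' w hw h0
    let μ : SFin_T J n →ₗ[k] SFin_T J (n + 1) :=
      { toFun := fun w => ⟨y * w.1, hyT n w.1 w.2⟩
        map_add' := fun a b => Subtype.ext (mul_add _ _ _)
        map_smul' := fun c a => Subtype.ext (mul_smul_comm _ _ _) }
    have hs : Function.Surjective μ := by
      rintro ⟨w, hw⟩
      obtain ⟨w', hw', h⟩ := hTy n (by omega) w hw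
      exact ⟨⟨w', hw'⟩, Subtype.ext h.symm⟩
    have hf : Module.finrank k (SFin_T J n) = Module.finrank k (SFin_T J (n + 1)) := by
      rw [hdim n (by omega), hdim (n + 1) (by omega)]
    have hi : Function.Injective μ := (LinearMap.injective_iff_surjective_of_finrank_eq_finrank hf).2 hs
    have h1 : μ ⟨w, hw⟩ = 0 := Subtype.ext h0
    have h2 : (⟨w, hw⟩ : SFin_T J n) = 0 := hi (by rw [h1, map_zero])
    exact congr_arg Subtype.val h2
  have hyis : ∀ s n, n₁ ≤ n → ∀ w ∈ SFin_T J n, y ^ s * w = 0 → w = 0 := by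
    intro s
    induction s with
    | zero => intro n _ w _ h; rwa [pow_zero, one_mul] at h
    | succ s ih =>
      intro n hn' w hw h
      refine hyi n hn' w hw (ih (n + 1) (by omega) _ (hyT n w hw) ?_)
      rw [← h]; ring
  -- the ideal of the section
  set JJ : Ideal (R k) := I.map (sg p) with hJJ
  have hsurj := SFin_surj p
  have hJJ1 : ∀ f ∈ J, sg p f ∈ JJ := by
    intro f hf
    obtain ⟨a, ha, b, hb, rfl⟩ := Submodule.mem_sup.1 hf
    obtain ⟨s, rfl⟩ := Ideal.mem_span_singleton.1 hb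
    rw [map_add, map_mul, hsl, zero_mul, add_zero]
    exact Ideal.mem_map_of_mem _ ha
  have hJJ2 : ∀ n ≥ n₁, ∀ f : S k, f.IsHomogeneous n → sg p f ∈ JJ → f ∈ J := by
    intro n hn' f hf hfJ
    obtain ⟨a, ha, hfa⟩ := (Ideal.mem_map_iff_of_surjective (sg p) hsurj).1 hfJ
    set D := a.totalDegree + 1 with hDdef
    -- the homogenisation of `a` in degree `n + D`
    set a' : S k := ∑ j ∈ Finset.range D, Y ^ (n + D - j) * homogeneousComponent j a with ha'
    have ha'I : a' ∈ I := Ideal.sum_mem _ fun j _ => Ideal.mul_mem_left _ _ (hI.hom a ha j)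
    have ha'h : a'.IsHomogeneous (n + D) := by
      refine IsHomogeneous.sum _ _ _ fun j hj => ?_
      have h1 := (hYh.pow (n + D - j)).mul (homogeneousComponent_isHomogeneous j a)
      rw [one_mul, show n + D - j + j = n + D by have := Finset.mem_range.1 hj; omega] at h1
      exact h1
    have ha's : sg p a' = sg p f := by
      rw [ha', map_sum, ← hfa]
      conv_rhs => rw [← sum_homogeneousComponent a]
      rw [map_sum]
      refine Finset.sum_congr rfl fun j _ => ?_
      rw [map_mul, map_pow, hsY, one_pow, one_mul]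
    have h2 : (Y ^ D * f - a').IsHomogeneous (n + D) := by
      refine (homogeneousSubmodule (Fin 4) k (n + D)).sub_mem ?_ ha'h
      have h1 := (hYh.pow D).mul hf
      rwa [one_mul, add_comm] at h1
    have h3 := SFin_eta_sg hpi h2
    rw [map_sub, map_mul, map_pow, hsY, one_pow, one_mul, ha's, sub_self, map_zero, sub_zero] at h3
    have h4 : Y ^ D * f ∈ J := by
      have h5 : Y ^ D * f = a' + (Y ^ D * f - a') := by ring
      rw [h5]
      exact Ideal.add_mem _ (Ideal.mem_sup_left ha'I) (Ideal.mem_sup_right h3)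
    rw [← Ideal.Quotient.eq_zero_iff_mem] at h4 ⊢
    rw [map_mul, map_pow] at h4
    exact hyis D n hn' _ (SFin_mem_T.2 ⟨f, hf, rfl⟩) h4
  -- surjectivity
  have hJJ3 : ∀ n ≥ n₁, ∀ n' ≥ n, ∀ f : S k, f.IsHomogeneous n' → ∃ f' : S k, f'.IsHomogeneous n ∧
      sg p f - sg p f' ∈ JJ := by
    intro n hn' n' hnn
    induction n', hnn using Nat.le_induction with
    | base => exact fun f hf => ⟨f, hf, by rw [sub_self]; exact zero_mem _⟩
    | succ n' hnn ih =>
      intro f hf
      obtain ⟨w', hw', h⟩ := hTy n' (by omega) _ (SFin_mem_T.2 ⟨f, hf, rfl⟩)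
      obtain ⟨f1, hf1, rfl⟩ := SFin_mem_T.1 hw'
      obtain ⟨f', hf', h'⟩ := ih f1 hf1
      refine ⟨f', hf', ?_⟩
      rw [hy, ← map_mul, Ideal.Quotient.eq] at h
      have h1 := hJJ1 _ h
      rw [map_sub, map_mul, hsY, one_mul] at h1
      have h2 := Ideal.add_mem _ h1 h'
      rwa [sub_add_sub_cancel] at h2
  have hJJ4 : ∀ n ≥ n₁, ∀ F : R k, ∃ f : S k, f.IsHomogeneous n ∧ F - sg p f ∈ JJ := by
    intro n hn' F
    have hF : F ∈ pm k (n + F.totalDegree + 1) := by
      intro s hs
      have h1 := le_totalDegree hs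
      rw [Finsupp.sum_fintype _ _ (fun _ => rfl), Fin.sum_univ_two] at h1
      omega
    obtain ⟨f', hf', h⟩ := hJJ3 n hn' (n + F.totalDegree) (by omega) _ (SFin_eta_hom hYh hF)
    rw [SFin_sg_eta hsY] at h
    exact ⟨f', hf', h⟩
  -- the dimension of `R / JJ`
  let Φ : homogeneousSubmodule (Fin 4) k n₁ →ₗ[k] (R k ⧸ JJ) :=
    ((Ideal.Quotient.mkₐ k JJ).comp (sg p)).toLinearMap.domRestrict _
  let ψ : homogeneousSubmodule (Fin 4) k n₁ →ₗ[k] (S k ⧸ J) :=
    (Ideal.Quotient.mkₐ k J).toLinearMap.domRestrict _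
  have hr : LinearMap.range ψ = SFin_T J n₁ := by
    rw [LinearMap.range_domRestrict]; rfl
  have hΦ : LinearMap.range Φ = ⊤ := by
    rw [LinearMap.range_eq_top]
    intro w
    obtain ⟨F, rfl⟩ := Ideal.Quotient.mk_surjective w
    obtain ⟨f, hf, h⟩ := hJJ4 n₁ le_rfl F
    refine ⟨⟨f, hf⟩, ?_⟩
    change Ideal.Quotient.mk JJ (sg p f) = Ideal.Quotient.mk JJ F
    rw [eq_comm, Ideal.Quotient.eq]
    exact h
  have hkk : LinearMap.ker Φ = LinearMap.ker ψ := by
    ext ⟨f, hf⟩
    rw [LinearMap.mem_ker, LinearMap.mem_ker]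
    change Ideal.Quotient.mk JJ (sg p f) = 0 ↔ Ideal.Quotient.mk J f = 0
    rw [Ideal.Quotient.eq_zero_iff_mem, Ideal.Quotient.eq_zero_iff_mem]
    exact ⟨hJJ2 n₁ le_rfl f hf, hJJ1 f⟩
  have hfQ : Module.finrank k (R k ⧸ JJ) = d := by
    have h1 := LinearMap.finrank_range_add_finrank_ker Φ
    have h2 := LinearMap.finrank_range_add_finrank_ker ψ
    rw [hr, hdim n₁ (by omega)] at h2
    rw [hΦ, finrank_top, hkk] at h1
    omega
  -- the polynomials of degree `< m + 1`
  have hfin := finite_pm (k := k) (m + 1)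
  let Ψ : pm k (m + 1) →ₗ[k] (R k ⧸ JJ) := (Ideal.Quotient.mkₐ k JJ).toLinearMap.domRestrict _
  have hΨ : LinearMap.range Ψ = ⊤ := by
    rw [LinearMap.range_eq_top]
    intro w
    obtain ⟨F, rfl⟩ := Ideal.Quotient.mk_surjective w
    obtain ⟨n₀, hg⟩ := hg
    obtain ⟨f, hf, h⟩ := hJJ4 (max n₀ n₁) (le_max_right _ _) F
    obtain ⟨a, ha, t, ht, s, rfl⟩ := hg _ (le_max_left _ _) f hf
    rw [map_add, map_add, map_mul, hsl, zero_mul, add_zero] at h
    refine ⟨⟨sg p t, ?_⟩, ?_⟩
    · rw [← support_sum_monomial_coeff t, map_sum]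
      refine Submodule.sum_mem _ fun s hs => ?_
      intro v hv
      have h1 := ht s hs
      have h2 : sg p (monomial s (coeff s t)) =
          monomial (Finsupp.single 0 (s 2) + Finsupp.single 1 (s 3))
            (coeff s t * p 0 ^ s 0 * p 1 ^ s 1) := SFin_sg_mon p s _
      rw [h2] at hv
      rw [Finset.mem_singleton.1 (support_monomial_subset hv)]
      simpa using h1
    · change Ideal.Quotient.mk JJ (sg p t) = Ideal.Quotient.mk JJ F
      rw [eq_comm, Ideal.Quotient.eq]
      have h3 : F - sg p t = (F - (sg p a + sg p t)) + sg p a := by ring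
      rw [h3]
      exact Ideal.add_mem _ h (Ideal.mem_map_of_mem _ ha)
  have hK : Module.finrank k (Kp (m + 1) I p) = Module.finrank k (LinearMap.ker Ψ) := by
    let e : Kp (m + 1) I p ≃ₗ[k] LinearMap.ker Ψ :=
      { toFun := fun x => ⟨⟨x.1, x.2.2⟩, by
          rw [LinearMap.mem_ker]
          change Ideal.Quotient.mk JJ x.1 = 0
          rw [Ideal.Quotient.eq_zero_iff_mem]
          exact x.2.1⟩
        map_add' := fun x y => rfl
        map_smul' := fun c x => rfl
        invFun := fun x => ⟨x.1.1, by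
          have h := x.2
          rw [LinearMap.mem_ker] at h
          change Ideal.Quotient.mk JJ x.1.1 = 0 at h
          rw [Ideal.Quotient.eq_zero_iff_mem] at h
          exact ⟨h, x.1.2⟩⟩
        left_inv := fun x => rfl
        right_inv := fun x => rfl }
    exact e.finrank_eq
  have h1 := LinearMap.finrank_range_add_finrank_ker Ψ
  rw [hΨ, finrank_top, hfQ, SFin_rank, show m + 1 + 1 = m + 2 from rfl] at h1
  rw [hK, ← h1, add_comm]

end MP_06793c_ag
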