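import Pool.Agent.Lib.MP_06793c_ag.PG.SDefs

/-!
# Elements of `Kp` come from global elements
Plan: F ∈ I.map (sg p), deg F < m + 1. y = io r, r a linear form with r(p) = 1. F = sg p i with i ∈ I_n, n as large as we
want (I.map under the surjection sg p is the image; homogeneous components of i times powers of y). Also F = sg p f0 with
f0 ∈ lt (m+1) homogeneous of degree n (homogenize with y). f0 - i ∈ ker (sg p) ∩ S_n = (l)_n, l = io (lp p): f0 - i = l s, s
homogeneous of degree n - 1; by hg s = i' + t' with i' ∈ I, t' ∈ lt (m+1) homogeneous of degree n-1 (components). Then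
f = f0 - l t' = i + l i' ∈ I ∩ lt (m+1), homogeneous of degree n, and sg p f = F.
-/

namespace MP_06793c_ag

open MvPolynomial

universe u

variable {k : Type u} [Field k] {m : ℕ}

private theorem SGl_mon (s : Fin 4 →₀ ℕ) (c : k) :
    monomial s c = C c * X 0 ^ s 0 * X 1 ^ s 1 * X 2 ^ s 2 * X 3 ^ s 3 := by
  rw [monomial_eq, Finsupp.prod_fintype _ _ (fun i => pow_zero _), Fin.prod_univ_four]
  ring

private theorem SGl_mon2 (s : Fin 2 →₀ ℕ) (c : k) :
    monomial s c = C c * X 0 ^ s 0 * X 1 ^ s 1 := by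
  rw [monomial_eq, Finsupp.prod_fintype _ _ (fun i => pow_zero _), Fin.prod_univ_two]
  ring

private noncomputable def SGl_e (a b : ℕ) : Fin 2 →₀ ℕ := Finsupp.single 0 a + Finsupp.single 1 b

private theorem SGl_e0 (a b : ℕ) : SGl_e a b 0 = a := by simp [SGl_e]

private theorem SGl_e1 (a b : ℕ) : SGl_e a b 1 = b := by simp [SGl_e]

private theorem SGl_sg_mon (p : Fin 2 → k) (s : Fin 4 →₀ ℕ) (c : k) :
    sg p (monomial s c) = monomial (SGl_e (s 2) (s 3)) (c * p 0 ^ s 0 * p 1 ^ s 1) := by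
  rw [SGl_mon, SGl_mon2, SGl_e0, SGl_e1]
  simp only [sg, map_mul, map_pow, aeval_X, algHom_C, algebraMap_eq]
  simp

private theorem SGl_lp (p : Fin 2 → k) : io k (lp k p) = C (p 1) * X 0 - C (p 0) * X 1 := by
  simp [io, lp]

private theorem SGl_sg_lp (p : Fin 2 → k) : sg p (io k (lp k p)) = 0 := by
  rw [SGl_lp]
  simp [sg, mul_comm]

private theorem SGl_sg_io (p : Fin 2 → k) (r : R k) : sg p (io k r) = C (eval p r) := by
  have h : (sg p).comp (io k) = (Algebra.ofId k (R k)).comp (aeval p : R k →ₐ[k] k) := by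
    refine algHom_ext fun i => ?_
    fin_cases i <;> simp [sg, io, Algebra.ofId_apply, algebraMap_eq]
  have h1 := DFunLike.congr_fun h r
  rw [AlgHom.comp_apply, AlgHom.comp_apply, aeval_eq_eval, Algebra.ofId_apply, algebraMap_eq] at h1
  exact h1

private noncomputable def SGl_H (y : S k) (n : ℕ) : R k →ₗ[k] S k :=
  (basisMonomials (Fin 2) k).constr k (fun s => y ^ (n - s 0 - s 1) * X 2 ^ s 0 * X 3 ^ s 1)

private theorem SGl_Hm (y : S k) (n : ℕ) (s : Fin 2 →₀ ℕ) (c : k) :
    SGl_H y n (monomial s c) = C c * (y ^ (n - s 0 - s 1) * X 2 ^ s 0 * X 3 ^ s 1) := by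
  have e : (monomial s c : R k) = c • basisMonomials (Fin 2) k s := by
    rw [coe_basisMonomials, smul_monomial, smul_eq_mul, mul_one]
  rw [e, map_smul, SGl_H, Module.Basis.constr_basis, smul_eq_C_mul]

private theorem SGl_r {p : Fin 2 → k} (hp : p ≠ 0) : ∃ r : R k, r.IsHomogeneous 1 ∧ eval p r = 1 ∧
    (X 0 : S k) - C (p 0) * io k r ∈ Ideal.span {io k (lp k p)} ∧
    (X 1 : S k) - C (p 1) * io k r ∈ Ideal.span {io k (lp k p)} := by
  obtain ⟨a, b, hab⟩ : ∃ a b : k, a * p 0 + b * p 1 = 1 := by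
    by_cases h0 : p 0 = 0
    · have h1 : p 1 ≠ 0 := by
        intro h1
        apply hp
        funext i
        fin_cases i
        · exact h0
        · exact h1
      exact ⟨0, (p 1)⁻¹, by rw [inv_mul_cancel₀ h1, zero_mul, zero_add]⟩
    · exact ⟨(p 0)⁻¹, 0, by rw [inv_mul_cancel₀ h0, zero_mul, add_zero]⟩
  have hy : io k (C a * X 0 + C b * X 1) = C a * X 0 + C b * X 1 := by simp [io]
  have hC : (C a * C (p 0) + C b * C (p 1) : S k) = 1 := by
    rw [← C_mul, ← C_mul, ← C_add, hab, C_1]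
  refine ⟨C a * X 0 + C b * X 1, (isHomogeneous_C_mul_X _ _).add (isHomogeneous_C_mul_X _ _),
    by simpa using hab, ?_, ?_⟩
  · rw [Ideal.mem_span_singleton]
    refine ⟨C b, ?_⟩
    rw [SGl_lp, hy]
    linear_combination (X 0 : S k) * (-hC)
  · rw [Ideal.mem_span_singleton]
    refine ⟨- C a, ?_⟩
    rw [SGl_lp, hy]
    linear_combination (X 1 : S k) * (-hC)

private theorem SGl_dvd {p : Fin 2 → k} (hp : p ≠ 0) {n : ℕ} {f : S k} (hf : f.IsHomogeneous n)
    (h : sg p f = 0) : io k (lp k p) ∣ f := by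
  classical
  obtain ⟨r, -, -, h0, h1⟩ := SGl_r hp
  set y : S k := io k r with hy
  set J : Ideal (S k) := Ideal.span {io k (lp k p)} with hJ
  have key : f - SGl_H y n (sg p f) ∈ J := by
    have e : f - SGl_H y n (sg p f) =
        ∑ s ∈ f.support, (monomial s (coeff s f) - SGl_H y n (sg p (monomial s (coeff s f)))) := by
      rw [Finset.sum_sub_distrib, ← f.as_sum]
      congr 1
      conv_lhs => rw [f.as_sum, map_sum, map_sum]
    rw [e]
    refine Ideal.sum_mem _ fun s hs => ?_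
    have hs' : s 0 + s 1 + s 2 + s 3 = n := by
      have := hf (mem_support_iff.1 hs)
      rw [Finsupp.weight_apply, Finsupp.sum_fintype _ _ (by simp), Fin.sum_univ_four] at this
      simpa using this
    rw [SGl_sg_mon, SGl_Hm, SGl_e0, SGl_e1, SGl_mon s]
    have e2 : n - s 2 - s 3 = s 0 + s 1 := by omega
    rw [e2, ← Ideal.Quotient.eq_zero_iff_mem]
    have q0 : Ideal.Quotient.mk J (X 0) = Ideal.Quotient.mk J (C (p 0) * y) :=
      Ideal.Quotient.eq.2 h0
    have q1 : Ideal.Quotient.mk J (X 1) = Ideal.Quotient.mk J (C (p 1) * y) :=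
      Ideal.Quotient.eq.2 h1
    simp only [map_sub, map_mul, map_pow, q0, q1]
    ring
  rw [h, map_zero, sub_zero, hJ, Ideal.mem_span_singleton] at key
  exact key

private theorem SGl_hc_mul {L : S k} (hL : L.IsHomogeneous 1) (n : ℕ) (s : S k) :
    homogeneousComponent (n + 1) (L * s) = L * homogeneousComponent n s := by
  conv_lhs => rw [← sum_homogeneousComponent s]
  rw [Finset.mul_sum, map_sum]
  have : ∀ i, homogeneousComponent (n + 1) (L * homogeneousComponent i s) =
      if i = n then L * homogeneousComponent n s else 0 := by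
    intro i
    have h1 : L * homogeneousComponent i s ∈ homogeneousSubmodule (Fin 4) k (1 + i) :=
      hL.mul (homogeneousComponent_isHomogeneous i s)
    rw [homogeneousComponent_of_mem h1]
    by_cases hi : i = n
    · subst hi; rw [if_pos (add_comm _ _), if_pos rfl]
    · rw [if_neg (by omega), if_neg hi]
  simp only [this, Finset.sum_ite_eq']
  split_ifs with h
  · rfl
  · rw [homogeneousComponent_eq_zero _ _ (by simpa using h), mul_zero]

private theorem SGl_hc_self {n : ℕ} {f : S k} (hf : f.IsHomogeneous n) :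
    homogeneousComponent n f = f := by
  rw [homogeneousComponent_of_mem (show f ∈ homogeneousSubmodule (Fin 4) k n from hf), if_pos rfl]

private theorem SGl_lt_hc {j : ℕ} {f : S k} (h : f ∈ lt k j) (n : ℕ) :
    homogeneousComponent n f ∈ lt k j := by
  intro s hs
  refine h s ?_
  rw [mem_support_iff] at hs ⊢
  intro h0
  rw [coeff_homogeneousComponent] at hs
  split_ifs at hs
  · exact hs h0
  · exact hs rfl

private theorem SGl_io_mul {u : S k} (hu : u ∈ lt k m) (c : R k) : io k c * u ∈ lt k m := by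
  intro s hs
  obtain ⟨a, ha, b, hb, rfl⟩ := Finset.mem_add.mp (MvPolynomial.support_mul _ _ hs)
  have h1 : a 2 = 0 ∧ a 3 = 0 := by
    rw [io, support_rename_of_injective
      (by intro i j hij; fin_cases i <;> fin_cases j <;> simp_all)] at ha
    obtain ⟨t, -, rfl⟩ := Finset.mem_image.mp ha
    refine ⟨Finsupp.mapDomain_of_notMem_range _ _ ?_, Finsupp.mapDomain_of_notMem_range _ _ ?_⟩ <;>
    · rintro ⟨i, hi⟩; fin_cases i <;> simp at hi
  have := hu b hb
  simp only [Finsupp.add_apply, h1.1, h1.2]; omega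

private theorem SGl_lhom (p : Fin 2 → k) : (io k (lp k p)).IsHomogeneous 1 :=
  (lp_homog p).rename_isHomogeneous

theorem ker_sg {p : Fin 2 → k} (hp : p ≠ 0) {n : ℕ} {f : S k} (hf : f.IsHomogeneous n)
    (h : sg p f = 0) : ∃ s : S k, s.IsHomogeneous (n - 1) ∧ f = io k (lp k p) * s := by
  obtain ⟨s, hs⟩ := SGl_dvd hp hf h
  rcases n with _ | n
  · refine ⟨0, isHomogeneous_zero _ _ _, ?_⟩
    have h1 : f = C (coeff 0 f) := by
      refine (totalDegree_eq_zero_iff_eq_C).1 ?_
      exact Nat.le_zero.1 (hf.totalDegree_le)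
    have h2 : coeff 0 f = 0 := by
      rw [h1, sg, algHom_C, algebraMap_eq] at h
      exact (map_eq_zero (C : k →+* R k)).1 h
    rw [h1, h2, C_0, mul_zero]
  · refine ⟨homogeneousComponent n s, homogeneousComponent_isHomogeneous n s, ?_⟩
    rw [← SGl_hc_mul (SGl_lhom p), ← hs, SGl_hc_self hf]

/-- homogenization -/
private theorem SGl_lift (p : Fin 2 → k) {r : R k} (hr : r.IsHomogeneous 1) (hr1 : eval p r = 1)
    {F : R k} (hF : F ∈ pm k (m + 1)) {n : ℕ} (hn : m ≤ n) :
    ∃ f : S k, f.IsHomogeneous n ∧ f ∈ lt k (m + 1) ∧ sg p f = F := by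
  classical
  refine ⟨∑ s ∈ F.support, io k (C (coeff s F) * r ^ (n - s 0 - s 1)) * (X 2 ^ s 0 * X 3 ^ s 1),
    ?_, ?_, ?_⟩
  · refine IsHomogeneous.sum _ _ _ fun s hs => ?_
    have hs' := hF s hs
    have h1 : (C (coeff s F) * r ^ (n - s 0 - s 1)).IsHomogeneous (0 + 1 * (n - s 0 - s 1)) :=
      (isHomogeneous_C _ _).mul (hr.pow _)
    have h2 : (X 2 ^ s 0 * X 3 ^ s 1 : S k).IsHomogeneous (1 * s 0 + 1 * s 1) :=
      ((isHomogeneous_X _ _).pow _).mul ((isHomogeneous_X _ _).pow _)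
    have h3 := (h1.rename_isHomogeneous (f := (![0, 1] : Fin 2 → Fin 4))).mul h2
    have e : 0 + 1 * (n - s 0 - s 1) + (1 * s 0 + 1 * s 1) = n := by omega
    rw [e] at h3
    exact h3
  · refine Submodule.sum_mem _ fun s hs => ?_
    refine SGl_io_mul ?_ _
    have hs' := hF s hs
    intro t ht
    have e : (X 2 ^ s 0 * X 3 ^ s 1 : S k) =
        monomial (Finsupp.single 2 (s 0) + Finsupp.single 3 (s 1)) 1 := by
      rw [SGl_mon]
      simp
    rw [e] at ht
    have ht' := Finset.mem_singleton.1 (support_monomial_subset ht)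
    rw [ht']
    simpa using hs'
  · rw [map_sum]
    conv_rhs => rw [F.as_sum]
    refine Finset.sum_congr rfl fun s _ => ?_
    rw [map_mul, SGl_sg_io, map_mul, map_pow, hr1, one_pow, mul_one, eval_C, SGl_mon2]
    simp [sg, mul_assoc]

/-- elements of the image ideal lift to homogeneous elements of every large degree -/
private theorem SGl_liftI {I : Ideal (S k)} (hI : IsHom I) {p : Fin 2 → k} {r : R k}
    (hr : r.IsHomogeneous 1) (hr1 : eval p r = 1) {F : R k} (hF : F ∈ I.map (sg p)) :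
    ∃ N : ℕ, ∀ n ≥ N, ∃ i ∈ I, i.IsHomogeneous n ∧ sg p i = F := by
  have hs : Function.Surjective (sg p) := by
    intro G
    refine ⟨rename (![2, 3] : Fin 2 → Fin 4) G, ?_⟩
    have h : (sg p).comp (rename (![2, 3] : Fin 2 → Fin 4)) = AlgHom.id k (R k) := by
      refine algHom_ext fun i => ?_
      fin_cases i <;> simp [sg]
    exact DFunLike.congr_fun h G
  obtain ⟨i, hi, rfl⟩ := (Ideal.mem_map_iff_of_surjective (sg p) hs).1 hF
  refine ⟨i.totalDegree, fun n hn => ?_⟩
  refine ⟨∑ j ∈ Finset.range (i.totalDegree + 1), io k r ^ (n - j) * homogeneousComponent j i,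
    ?_, ?_, ?_⟩
  · exact Ideal.sum_mem _ fun j _ => Ideal.mul_mem_left _ _ (hI i hi j)
  · refine IsHomogeneous.sum _ _ _ fun j hj => ?_
    have hj' := Finset.mem_range.1 hj
    have h1 : (io k r).IsHomogeneous 1 := hr.rename_isHomogeneous
    have h2 := (h1.pow (n - j)).mul (homogeneousComponent_isHomogeneous j i)
    have e : 1 * (n - j) + j = n := by omega
    rw [e] at h2
    exact h2
  · conv_rhs => rw [← sum_homogeneousComponent i]
    rw [map_sum, map_sum]
    refine Finset.sum_congr rfl fun j _ => ?_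
    rw [map_mul, map_pow, SGl_sg_io, hr1, C_1, one_pow, one_mul]

theorem glob {I : Ideal (S k)} (hI : IsHom I)
    (hg : ∃ n₀ : ℕ, ∀ n ≥ n₀, ∀ f : S k, f.IsHomogeneous n → ∃ i ∈ I, ∃ t ∈ lt k (m + 1), f = i + t)
    {p : Fin 2 → k} (hp : p ≠ 0) {F : R k} (hF : F ∈ Kp (m + 1) I p) :
    ∃ n : ℕ, ∃ f ∈ I, f ∈ lt k (m + 1) ∧ f.IsHomogeneous n ∧ sg p f = F := by
  obtain ⟨r, hr, hr1, -, -⟩ := SGl_r hp
  obtain ⟨hF1, hF2⟩ := hF
  obtain ⟨N, hN⟩ := SGl_liftI hI hr hr1 (show F ∈ I.map (sg p) from hF1)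
  obtain ⟨n₀, hn₀⟩ := hg
  obtain ⟨n, hn1, hn2, hn3, hn4⟩ : ∃ n : ℕ, N ≤ n + 1 ∧ n₀ ≤ n ∧ m ≤ n + 1 ∧ 0 ≤ n :=
    ⟨N + n₀ + m, by omega, by omega, by omega, by omega⟩
  obtain ⟨i, hiI, hih, hiF⟩ := hN (n + 1) hn1
  obtain ⟨f₀, hf0h, hf0l, hf0F⟩ := SGl_lift p hr hr1 hF2 hn3
  obtain ⟨s, hs, hsf⟩ := ker_sg hp (hf0h.sub hih) (by rw [map_sub, hf0F, hiF, sub_self])
  rw [Nat.add_sub_cancel] at hs
  obtain ⟨i', hi', t', ht', hst⟩ := hn₀ n hn2 s hs
  have hst2 : s = homogeneousComponent n i' + homogeneousComponent n t' := by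
    rw [← map_add, ← hst, SGl_hc_self hs]
  have e : f₀ - io k (lp k p) * homogeneousComponent n t' =
      i + io k (lp k p) * homogeneousComponent n i' := by
    rw [hst2] at hsf
    linear_combination hsf
  refine ⟨n + 1, f₀ - io k (lp k p) * homogeneousComponent n t', ?_, ?_, ?_, ?_⟩
  · rw [e]
    exact Ideal.add_mem _ hiI (Ideal.mul_mem_left _ _ (hI i' hi' n))
  · exact Submodule.sub_mem _ hf0l (SGl_io_mul (SGl_lt_hc ht' n) _)
  · refine hf0h.sub ?_
    have h2 := (SGl_lhom p).mul (homogeneousComponent_isHomogeneous n t')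
    rw [add_comm 1 n] at h2
    exact h2
  · rw [map_sub, map_mul, SGl_sg_lp, zero_mul, sub_zero, hf0F]

end MP_06793c_ag
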