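import Pool.Agent.Lib.MP_06793c_ag.PG.SDefs
import Pool.Agent.Lib.MP_06793c_ag.PG.SFin
import Pool.Agent.Lib.MP_06793c_ag.PG.SGl

/-!
# Semicontinuity
Plan: c' := K - c (truncated). The evaluation map ev : Kp (m+1) I p0 → (Fin Q.length → k), F ↦ F(pq q p0), has kernel
KK (m+1) I Q p0 of dimension ≤ c, so rank ≥ K - c (K = finrank Kp): there are F_1..F_(K-c) in Kp and K - c lines in Q with
invertible matrix (F_l (pq q_i p0)). By hl F_l = sg p0 w_l, w_l ∈ I ∩ lt (m+1) homogeneous of degree n_l. Let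
h = det (w_l (x0, x1, q_i0 x0 + q_i1 x1, q_i2 x0 + q_i3 x1)) ∈ k[x0,x1], homogeneous of degree ∑ n_l, h(p0) ≠ 0. If h(p) ≠ 0, the
elements sg p w_l ∈ Kp (m+1) I p have independent values on these lines, so rank ev ≥ K - c at p and
finrank KK ≤ K - (K - c) ≤ c.
-/

namespace MP_06793c_ag

open MvPolynomial

universe u

variable {k : Type u} [Field k] {m : ℕ}

/-- The values at the points of the lines of `Q` over `p`. -/
private noncomputable def SSc_ev (Q : List (Fin 4 → k)) (p : Fin 2 → k) :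
    R k →ₗ[k] (Fin Q.length → k) where
  toFun F := fun l => eval (pq (Q.get l) p) F
  map_add' a b := by ext l; simp
  map_smul' c a := by ext l; simp [smul_eval]

private theorem SSc_KK (I : Ideal (S k)) (Q : List (Fin 4 → k)) (p : Fin 2 → k) :
    KK (m + 1) I Q p = Kp (m + 1) I p ⊓ LinearMap.ker (SSc_ev Q p) := by
  ext F
  constructor
  · rintro ⟨h1, h2⟩
    refine ⟨h1, ?_⟩
    show SSc_ev Q p F = 0
    ext l
    exact h2 _ (List.get_mem Q l)
  · rintro ⟨h1, h2⟩
    refine ⟨h1, fun q hq => ?_⟩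
    have h2' : SSc_ev Q p F = 0 := h2
    obtain ⟨l, rfl⟩ := List.get_of_mem hq
    exact congrFun h2' l

private theorem SSc_fin (I : Ideal (S k)) (p : Fin 2 → k) :
    Module.Finite k (Kp (m + 1) I p) := by
  have := finite_pm (k := k) (m + 1)
  exact Module.Finite.of_injective
    (Submodule.inclusion (inf_le_right : Kp (m + 1) I p ≤ pm k (m + 1)))
    (Submodule.inclusion_injective _)

private theorem SSc_rank (I : Ideal (S k)) (Q : List (Fin 4 → k)) (p : Fin 2 → k) :
    Module.finrank k (LinearMap.range ((SSc_ev Q p).domRestrict (Kp (m + 1) I p))) +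
      Module.finrank k (KK (m + 1) I Q p) = Module.finrank k (Kp (m + 1) I p) := by
  have := SSc_fin (m := m) I p
  rw [← LinearMap.finrank_range_add_finrank_ker ((SSc_ev Q p).domRestrict (Kp (m + 1) I p))]
  congr 1
  rw [SSc_KK, ← Submodule.map_comap_subtype, Submodule.finrank_map_subtype_eq]
  rfl

/-- Substitution of the points of a line. -/
private noncomputable def SSc_t (q : Fin 4 → k) : S k →ₐ[k] R k :=
  aeval ![X 0, X 1, C (q 0) * X 0 + C (q 1) * X 1, C (q 2) * X 0 + C (q 3) * X 1]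

private theorem SSc_eval (q : Fin 4 → k) (p : Fin 2 → k) (f : S k) :
    eval p (SSc_t q f) = eval (pq q p) (sg p f) := by
  have : ((aeval p : R k →ₐ[k] k).comp (SSc_t q)) =
      ((aeval (pq q p) : R k →ₐ[k] k).comp (sg p)) := by
    apply MvPolynomial.algHom_ext
    intro i
    fin_cases i <;> simp [SSc_t, sg, pq]
  have h := congrArg (fun φ => φ f) this
  simpa [MvPolynomial.coe_aeval_eq_eval] using h

private theorem SSc_hom (q : Fin 4 → k) {n : ℕ} {f : S k} (hf : f.IsHomogeneous n) :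
    (SSc_t q f).IsHomogeneous n := by
  have hX : ∀ i : Fin 2, (X i : R k).IsHomogeneous 1 := fun i => isHomogeneous_X k i
  have hCX : ∀ (c : k) (i : Fin 2), (C c * X i : R k).IsHomogeneous 1 := fun c i => by
    have := (isHomogeneous_C (Fin 2) c).mul (hX i)
    rwa [zero_add] at this
  have := hf.aeval (![X 0, X 1, C (q 0) * X 0 + C (q 1) * X 1, C (q 2) * X 0 + C (q 3) * X 1] :
    Fin 4 → R k) (n := 1) (by
      intro i
      fin_cases i
      · exact hX 0
      · exact hX 1
      · exact (hCX _ 0).add (hCX _ 1)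
      · exact (hCX _ 0).add (hCX _ 1))
  rw [one_mul] at this
  exact this

private theorem SSc_lt (p : Fin 2 → k) {j : ℕ} {f : S k} (hf : f ∈ lt k j) : sg p f ∈ pm k j := by
  classical
  rw [f.as_sum, map_sum]
  refine Submodule.sum_mem _ fun s hs => ?_
  have h1 : sg p (monomial s (coeff s f)) =
      (coeff s f * p 0 ^ s 0 * p 1 ^ s 1) •
        (monomial (Finsupp.single 0 (s 2) + Finsupp.single 1 (s 3)) (1 : k) : R k) := by
    rw [sg, aeval_monomial, Finsupp.prod_fintype _ _ (by simp)]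
    simp only [Fin.prod_univ_four, Matrix.cons_val_zero, Matrix.cons_val_one, Matrix.cons_val]
    rw [show (monomial (Finsupp.single 0 (s 2) + Finsupp.single 1 (s 3)) (1 : k) : R k) =
      X 0 ^ s 2 * X 1 ^ s 3 by
        rw [X_pow_eq_monomial, X_pow_eq_monomial, monomial_mul, one_mul]]
    rw [smul_eq_C_mul, algebraMap_eq, C_mul, C_mul, C_pow, C_pow]
    ring
  rw [h1]
  refine Submodule.smul_mem _ _ ?_
  intro t ht
  have h2 := support_monomial_subset ht
  rw [Finset.mem_singleton] at h2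
  have h3 := hf s hs
  rw [h2]
  simpa using h3

theorem semi {I : Ideal (S k)} {K : ℕ}
    (hK : ∀ p : Fin 2 → k, p ≠ 0 → Module.finrank k (Kp (m + 1) I p) = K)
    (hl : ∀ p : Fin 2 → k, p ≠ 0 → ∀ F ∈ Kp (m + 1) I p,
      ∃ n : ℕ, ∃ f ∈ I, f ∈ lt k (m + 1) ∧ f.IsHomogeneous n ∧ sg p f = F)
    (Q : List (Fin 4 → k)) {p₀ : Fin 2 → k} (hp₀ : p₀ ≠ 0) {c : ℕ}
    (hc : Module.finrank k (KK (m + 1) I Q p₀) ≤ c) :
    ∃ (n : ℕ) (h : R k), h.IsHomogeneous n ∧ eval p₀ h ≠ 0 ∧
      ∀ p : Fin 2 → k, p ≠ 0 → eval p h ≠ 0 → Module.finrank k (KK (m + 1) I Q p) ≤ c := by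
  classical
  set ev₀ := (SSc_ev Q p₀).domRestrict (Kp (m + 1) I p₀) with hev₀
  have hr₀ := SSc_rank (m := m) I Q p₀
  rw [hK p₀ hp₀, ← hev₀] at hr₀
  set r := Module.finrank k (LinearMap.range ev₀) with hr
  let b : Module.Basis (Fin r) k (LinearMap.range ev₀) := Module.finBasis k _
  have hb : ∀ j : Fin r, ∃ (n : ℕ) (f : S k), f ∈ I ∧ f ∈ lt k (m + 1) ∧ f.IsHomogeneous n ∧
      SSc_ev Q p₀ (sg p₀ f) = (b j : Fin Q.length → k) := by
    intro j
    obtain ⟨⟨F, hF⟩, hFj⟩ := (b j).2
    obtain ⟨n, f, h1, h2, h3, h4⟩ := hl p₀ hp₀ F hF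
    exact ⟨n, f, h1, h2, h3, by rw [h4]; exact hFj⟩
  choose nn f hfI hflt hfh hfb using hb
  -- the left inverse
  let g : (Fin r → k) →ₗ[k] (Fin Q.length → k) :=
    (LinearMap.range ev₀).subtype ∘ₗ b.equivFun.symm.toLinearMap
  have hg : LinearMap.ker g = ⊥ := by
    rw [LinearMap.ker_eq_bot]
    exact (Submodule.injective_subtype _).comp b.equivFun.symm.injective
  obtain ⟨P, hP⟩ := LinearMap.exists_leftInverse_of_injective g hg
  have hPb : ∀ j, P (b j : Fin Q.length → k) = Pi.single j 1 := by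
    intro j
    have h1 : g (Pi.single j 1) = (b j : Fin Q.length → k) := by
      simp [g]
    rw [← h1]
    exact congrArg (fun φ => φ (Pi.single j 1)) hP
  have hPM : ∀ x, P x = (LinearMap.toMatrix' P).mulVec x := fun x => by
    rw [← Matrix.toLin'_apply, Matrix.toLin'_toMatrix']
  let M : Matrix (Fin r) (Fin r) (R k) := fun i j =>
    ∑ l, C (LinearMap.toMatrix' P i l) * SSc_t (Q.get l) (f j)
  have hM : ∀ p i j, eval p (M i j) = P (SSc_ev Q p (sg p (f j))) i := by
    intro p i j
    simp only [M, map_sum, map_mul, eval_C, SSc_eval]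
    rw [hPM]
    rfl
  refine ⟨∑ j, nn j, M.det, ?_, ?_, ?_⟩
  · rw [Matrix.det_apply]
    refine IsHomogeneous.sum _ _ _ fun σ _ => ?_
    have h1 : (∏ i, M (σ i) i).IsHomogeneous (∑ j, nn j) := by
      refine IsHomogeneous.prod _ _ _ fun i _ => ?_
      refine IsHomogeneous.sum _ _ _ fun l _ => ?_
      have := (isHomogeneous_C (Fin 2) (LinearMap.toMatrix' P (σ i) l)).mul
        (SSc_hom (Q.get l) (hfh i))
      rwa [zero_add] at this
    rcases Int.units_eq_one_or (Equiv.Perm.sign σ) with h | h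
    · rw [h, one_smul]; exact h1
    · rw [h, Units.neg_smul, one_smul]; exact h1.neg
  · rw [RingHom.map_det]
    have : (eval p₀).mapMatrix M = 1 := by
      ext i j
      rw [RingHom.mapMatrix_apply, Matrix.map_apply, hM, hfb, hPb, Matrix.one_apply,
        Pi.single_apply]
    rw [this, Matrix.det_one]
    exact one_ne_zero
  · intro p hp hdet
    rw [RingHom.map_det] at hdet
    have hrank := SSc_rank (m := m) I Q p
    rw [hK p hp] at hrank
    set ev := (SSc_ev Q p).domRestrict (Kp (m + 1) I p) with hev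
    have hG : ∀ j, sg p (f j) ∈ Kp (m + 1) I p := fun j =>
      ⟨Ideal.mem_map_of_mem _ (hfI j), SSc_lt p (hflt j)⟩
    let Φ : (Fin r → k) →ₗ[k] LinearMap.range ev :=
      ev.rangeRestrict ∘ₗ (Fintype.linearCombination k fun j => (⟨sg p (f j), hG j⟩ : Kp (m + 1) I p))
    have hΦ : Function.Injective Φ := by
      rw [← LinearMap.ker_eq_bot, LinearMap.ker_eq_bot']
      intro x hx
      have h1 : ((eval p).mapMatrix M).mulVec x = 0 := by
        have h2 : P (Φ x : Fin Q.length → k) = 0 := by rw [hx]; simp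
        rw [← h2]
        ext i
        simp only [Φ, LinearMap.coe_comp, Function.comp_apply, Fintype.linearCombination_apply,
          map_sum, map_smul, Submodule.coe_sum, Submodule.coe_smul, Finset.sum_apply, Pi.smul_apply,
          smul_eq_mul]
        simp only [Matrix.mulVec, dotProduct, RingHom.mapMatrix_apply, Matrix.map_apply, hM]
        refine Finset.sum_congr rfl fun j _ => ?_
        rw [mul_comm]
        rfl
      by_contra hne
      exact hdet (Matrix.exists_mulVec_eq_zero_iff.mp ⟨x, hne, h1⟩)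
    have hle := LinearMap.finrank_le_finrank_of_injective hΦ
    rw [Module.finrank_fin_fun] at hle
    omega

end MP_06793c_ag
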