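import Pool.Agent.Lib.MP_06793c_ag.PG.SDefs

/-!
# Scaling
Plan: the substitution (u, v) ↦ (s u, s v) (an algebra automorphism of k[u,v] preserving pm) maps Kp m I (s z) onto
Kp m I z: for f ∈ I homogeneous of degree n, sg (s z) f (s u, s v) = s^n sg z f (u, v); I.map is spanned by these because
I is homogeneous. pq q (s z) = s pq q z, so vanishing at pq q (s z) corresponds to vanishing at pq q z.
-/

namespace MP_06793c_ag

open MvPolynomial

universe u

variable {k : Type u} [Field k] {m : ℕ}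

/-- the substitution `(u, v) ↦ (s u, s v)` -/
private noncomputable def SSl_sc (s : k) : R k →ₐ[k] R k := aeval fun i => C s * X i

private theorem SSl_inv {s : k} (hs : s ≠ 0) (F : R k) : SSl_sc s (SSl_sc s⁻¹ F) = F := by
  have h : (SSl_sc s).comp (SSl_sc s⁻¹) = AlgHom.id k (R k) := by
    refine MvPolynomial.algHom_ext fun i => ?_
    simp only [SSl_sc, AlgHom.comp_apply, aeval_X, map_mul, aeval_C, AlgHom.id_apply]
    rw [← mul_assoc]
    change (C s⁻¹ * C s) * X i = X i
    rw [← C_mul, inv_mul_cancel₀ hs, C_1, one_mul]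
  exact congrArg (fun φ : R k →ₐ[k] R k => φ F) h

private theorem SSl_inv' {s : k} (hs : s ≠ 0) (F : R k) : SSl_sc s⁻¹ (SSl_sc s F) = F := by
  have h := SSl_inv (inv_ne_zero hs) F
  rwa [inv_inv] at h

private theorem SSl_hom {A : Type u} [CommRing A] [Algebra k A] {g : S k} {n : ℕ}
    (hg : g.IsHomogeneous n) (r : A) (f : Fin 4 → A) :
    aeval (fun i => r * f i) g = r ^ n * aeval f g := by
  rw [aeval_def, aeval_def, eval₂_eq', eval₂_eq', Finset.mul_sum]
  refine Finset.sum_congr rfl fun d hd => ?_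
  have h1 : ∑ i, d i = n := by
    have h2 := hg (mem_support_iff.1 hd)
    rw [← h2]
    simp [Finsupp.weight_apply, Finsupp.sum_fintype]
  simp only [mul_pow]
  rw [Finset.prod_mul_distrib, Finset.prod_pow_eq_pow_sum, h1]
  ring

private theorem SSl_comp (s : k) (z : Fin 2 → k) {g : S k} {n : ℕ} (hg : g.IsHomogeneous n) :
    SSl_sc s (sg (s • z) g) = C (s ^ n) * sg z g := by
  have h1 : (SSl_sc s).comp (sg (s • z)) = aeval fun i => (C s : R k) * sg z (X i) := by
    refine MvPolynomial.algHom_ext fun i => ?_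
    fin_cases i <;> simp [SSl_sc, sg]
  have h2 : SSl_sc s (sg (s • z) g) = aeval (fun i => (C s : R k) * sg z (X i)) g :=
    congrArg (fun φ : S k →ₐ[k] R k => φ g) h1
  have h3 : aeval (fun i => sg z (X i)) g = sg z g := by
    have h4 : (aeval (fun i => sg z (X i)) : S k →ₐ[k] R k) = sg z :=
      MvPolynomial.algHom_ext fun i => by simp
    rw [h4]
  rw [h2, SSl_hom hg, h3, C_pow]

private theorem SSl_map {I : Ideal (S k)} (hI : IsHom I) (s : k) (z : Fin 2 → k) {F : R k}
    (hF : F ∈ I.map (sg (s • z))) : SSl_sc s F ∈ I.map (sg z) := by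
  have h1 : (I.map (sg (s • z))) ≤ (I.map (sg z)).comap (SSl_sc s) := by
    rw [Ideal.map_le_iff_le_comap]
    intro f hf
    rw [Ideal.mem_comap, Ideal.mem_comap, ← sum_homogeneousComponent f, map_sum, map_sum]
    refine Ideal.sum_mem _ fun n _ => ?_
    rw [SSl_comp s z (homogeneousComponent_isHomogeneous n f)]
    exact Ideal.mul_mem_left _ _ (Ideal.mem_map_of_mem _ (hI f hf n))
  exact h1 hF

private theorem SSl_pm (s : k) {F : R k} (hF : F ∈ pm k m) : SSl_sc s F ∈ pm k m := by
  have h1 : SSl_sc s F = ∑ t ∈ F.support, monomial t (coeff t F * (s ^ t 0 * s ^ t 1)) := by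
    conv_lhs => rw [F.as_sum]
    rw [map_sum]
    refine Finset.sum_congr rfl fun t _ => ?_
    rw [SSl_sc, aeval_monomial, Finsupp.prod_fintype _ _ (fun i => pow_zero _)]
    simp only [Fin.prod_univ_two, mul_pow, ← C_pow]
    rw [monomial_eq, Finsupp.prod_fintype _ _ (fun i => pow_zero _)]
    simp only [Fin.prod_univ_two, C_mul, algebraMap_eq]
    ring
  rw [h1]
  refine Submodule.sum_mem _ fun t ht => ?_
  intro t' ht'
  have h2 := support_monomial_subset ht'
  rw [Finset.mem_singleton] at h2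
  rw [h2]
  exact hF t ht

private theorem SSl_eval (s : k) (p : Fin 2 → k) (F : R k) :
    eval p (SSl_sc s F) = eval (fun i => s * p i) F := by
  have h1 : (eval p).comp (SSl_sc s : R k →+* R k) = eval (fun i => s * p i) := by
    refine MvPolynomial.ringHom_ext (fun c => ?_) (fun i => ?_)
    · simp [SSl_sc]
    · simp [SSl_sc]
  exact congrArg (fun φ : R k →+* k => φ F) h1

private theorem SSl_pq (s : k) (q : Fin 4 → k) (z : Fin 2 → k) :
    (fun i => s * pq q z i) = pq q (s • z) := by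
  funext i
  fin_cases i <;> simp [pq] <;> ring

private theorem SSl_KK {I : Ideal (S k)} (hI : IsHom I) (Q : List (Fin 4 → k)) (s : k)
    (z : Fin 2 → k) {F : R k} (hF : F ∈ KK m I Q (s • z)) : SSl_sc s F ∈ KK m I Q z := by
  refine ⟨⟨SSl_map hI s z hF.1.1, SSl_pm s hF.1.2⟩, fun q hq => ?_⟩
  rw [SSl_eval, SSl_pq]
  exact hF.2 q hq

theorem KK_smul {I : Ideal (S k)} (hI : IsHom I) (Q : List (Fin 4 → k)) {s : k} (hs : s ≠ 0)
    (z : Fin 2 → k) :
    Module.finrank k (KK m I Q (s • z)) = Module.finrank k (KK m I Q z) := by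
  let e : R k ≃ₗ[k] R k := LinearEquiv.ofLinearMap (SSl_sc s).toLinearMap (SSl_sc s⁻¹).toLinearMap
    (LinearMap.ext fun F => SSl_inv hs F) (LinearMap.ext fun F => SSl_inv' hs F)
  have h1 : (KK m I Q (s • z)).map (e : R k →ₗ[k] R k) = KK m I Q z := by
    refine le_antisymm ?_ fun G hG => ?_
    · rintro _ ⟨F, hF, rfl⟩
      exact SSl_KK hI Q s z hF
    · refine ⟨SSl_sc s⁻¹ G, ?_, SSl_inv hs G⟩
      refine SSl_KK hI Q s⁻¹ (s • z) ?_
      rwa [smul_smul, inv_mul_cancel₀ hs, one_smul]
  rw [← h1]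
  exact (LinearEquiv.finrank_map_eq e _).symm

end MP_06793c_ag
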