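import Pool.Agent.Lib.MP_06793c_ag.PG.Defs

/-!
# Zeros of a binary form
-/

namespace MP_06793c_ag

open MvPolynomial

universe u

variable {k : Type u} [Field k] {m : ℕ}

private theorem deg2 {n : ℕ} {h : R k} (hh : h.IsHomogeneous n) {d : Fin 2 →₀ ℕ} (hd : d ∈ h.support) :
    d 0 + d 1 = n := by
  have := hh (mem_support_iff.1 hd)
  rw [← this, Finsupp.weight_apply, Finsupp.sum_fintype _ _ (by simp)]
  simp [Fin.sum_univ_two]

private theorem ev_scale {n : ℕ} {h : R k} (hh : h.IsHomogeneous n) (c : k) (x : Fin 2 → k) :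
    eval (c • x) h = c ^ n * eval x h := by
  rw [eval_eq', eval_eq', Finset.mul_sum]
  refine Finset.sum_congr rfl fun d hd => ?_
  have h1 := deg2 hh hd
  simp only [Pi.smul_apply, smul_eq_mul, mul_pow, Finset.prod_mul_distrib,
    Finset.prod_pow_eq_pow_sum, Fin.sum_univ_two, h1]
  ring

private noncomputable def deh (h : R k) : Polynomial k :=
  ∑ d ∈ h.support, Polynomial.monomial (d 1) (coeff d h)

private theorem deh_eval (h : R k) (b : k) : (deh h).eval b = eval ![1, b] h := by
  rw [deh, Polynomial.eval_finsetSum, eval_eq']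
  refine Finset.sum_congr rfl fun d _ => ?_
  rw [Polynomial.eval_monomial, Fin.prod_univ_two]
  simp

private theorem deh_ne {n : ℕ} {h : R k} (hh : h.IsHomogeneous n) (h0 : h ≠ 0) : deh h ≠ 0 := by
  obtain ⟨d, hd⟩ := ne_zero_iff.1 h0
  intro hc
  have h1 : (deh h).coeff (d 1) = coeff d h := by
    rw [deh, Polynomial.finsetSum_coeff, Finset.sum_eq_single d]
    · rw [Polynomial.coeff_monomial, if_pos rfl]
    · intro e he hne
      rw [Polynomial.coeff_monomial, if_neg]
      intro h2
      apply hne
      have h3 := deg2 hh he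
      have h4 := deg2 hh (mem_support_iff.2 hd)
      ext i
      fin_cases i
      · simp only [Fin.zero_eta]
        omega
      · exact h2
    · intro h2
      rw [notMem_support_iff.1 h2]
      simp
  rw [hc, Polynomial.coeff_zero] at h1
  exact hd h1.symm

theorem zeros_fin {n : ℕ} {h : R k} (hh : h.IsHomogeneous n) (h0 : h ≠ 0) :
    ∃ Z : List (Fin 2 → k), (∀ z ∈ Z, z ≠ 0) ∧ ∀ p : Fin 2 → k, p ≠ 0 → eval p h = 0 →
      ∃ z ∈ Z, ∃ s : k, s ≠ 0 ∧ p = s • z := by
  refine ⟨![0, 1] :: (deh h).roots.toList.map (fun b => ![1, b]), ?_, ?_⟩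
  · intro z hz
    rcases List.mem_cons.1 hz with rfl | hz
    · intro hc
      have := congrFun hc 1
      simp at this
    · obtain ⟨b, _, rfl⟩ := List.mem_map.1 hz
      intro hc
      have := congrFun hc 0
      simp at this
  · intro p hp he
    by_cases hp0 : p 0 = 0
    · refine ⟨![0, 1], List.mem_cons_self, p 1, ?_, ?_⟩
      · intro hp1
        apply hp
        ext i
        fin_cases i
        · exact hp0
        · exact hp1
      · ext i
        fin_cases i
        · simp [hp0]
        · simp
    · have hpe : p = p 0 • ![1, p 1 / p 0] := by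
        ext i
        fin_cases i
        · simp
        · simp [mul_div_cancel₀ _ hp0]
      refine ⟨![1, p 1 / p 0], List.mem_cons_of_mem _ (List.mem_map.2 ⟨p 1 / p 0, ?_, rfl⟩), p 0, hp0, hpe⟩
      rw [Multiset.mem_toList, Polynomial.mem_roots (deh_ne hh h0), Polynomial.IsRoot.def, deh_eval]
      rw [hpe, ev_scale hh] at he
      exact (mul_eq_zero.1 he).resolve_left (pow_ne_zero _ hp0)

end MP_06793c_ag
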