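import Pool.Agent.Lib.MP_06793c_ag.PG.SFin
import Pool.Agent.Lib.MP_06793c_ag.PG.SSc
import Pool.Agent.Lib.MP_06793c_ag.PG.SZr
import Pool.Agent.Lib.MP_06793c_ag.PG.SSl
import Pool.Agent.Lib.MP_06793c_ag.PG.SLn
import Pool.Agent.Lib.MP_06793c_ag.PG.SLc

/-!
# The choice of the lines
Plan: K = finrank Kp = constant. By induction on j ≤ K: there is Q of length j with Good I Q, finrank (KK I Q p) ≤ K + 1 - j for all
p ≠ 0, and a form h ≠ 0 with finrank (KK I Q p) ≤ K - j whenever h(p) ≠ 0, p ≠ 0. j = 0: Q = [], h = 1 (KK I [] = Kp). Step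
j < K: choose p* with h(p*) ≠ 0, Z = list of zeros of h (zeros_fin). For each z ∈ Z ∪ {p*} with KK I Q z ≠ ⊥ choose
0 ≠ F_z ∈ KK I Q z; exists_ln for the curve un I Q (isCurve_un, dis_un) and the list of the (z, F_z) gives q. KK I (q :: Q) p ≤ KK I Q p, and at
z strictly smaller (F_z not in it), so finrank drops by ≥ 1 at z, and at s • z by KK_smul (I homogeneous). So for zeros p of h:
≤ K + 1 - j - 1; for other p: ≤ K - j = K + 1 - (j+1). At p*: ≤ K - j - 1 (or it was 0 already): semi gives the new h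
with c = K - (j+1). Final step j = K → K + 1: finrank ≤ 1 everywhere and = 0 outside the zeros of h; one more line with
F_z for z ∈ Z gives KK = ⊥ everywhere (finrank = 0 and finite dimensional: finite_pm). K + 1 lines in all.
-/

namespace MP_06793c_ag

open MvPolynomial

universe u

variable {k : Type u} [Field k] {m : ℕ}

private theorem SInd_le (I : Ideal (S k)) (Q : List (Fin 4 → k)) (q : Fin 4 → k)
    (p : Fin 2 → k) : KK (m + 1) I (q :: Q) p ≤ KK (m + 1) I Q p := by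
  rintro F ⟨h1, h2⟩
  exact ⟨h1, fun q' hq' => h2 q' (List.mem_cons_of_mem _ hq')⟩

private theorem SInd_fin (I : Ideal (S k)) (Q : List (Fin 4 → k)) (p : Fin 2 → k) :
    Module.Finite k (KK (m + 1) I Q p) := by
  have := finite_pm (k := k) (m + 1)
  have h : KK (m + 1) I Q p ≤ pm k (m + 1) := by
    rintro F ⟨h1, _⟩
    exact h1.2
  exact Submodule.finiteDimensional_of_le h

private theorem SInd_nil (I : Ideal (S k)) (p : Fin 2 → k) :
    KK (m + 1) I [] p = Kp (m + 1) I p := by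
  refine le_antisymm ?_ ?_
  · rintro F ⟨h1, _⟩
    exact h1
  · intro F hF
    exact ⟨hF, fun q hq => absurd hq (by simp)⟩

private theorem SInd_step (I : Ideal (S k)) (Q : List (Fin 4 → k)) (q : Fin 4 → k)
    (z : Fin 2 → k) (h : KK (m + 1) I Q z ≠ ⊥ →
      ∃ F ∈ KK (m + 1) I Q z, eval (pq q z) F ≠ 0) :
    Module.finrank k (KK (m + 1) I (q :: Q) z) ≤ Module.finrank k (KK (m + 1) I Q z) - 1 := by
  have := SInd_fin (m := m) I Q z
  by_cases hb : KK (m + 1) I Q z = ⊥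
  · have h2 : KK (m + 1) I (q :: Q) z = ⊥ := le_bot_iff.mp (hb ▸ SInd_le I Q q z)
    rw [h2, finrank_bot]
    exact Nat.zero_le _
  · obtain ⟨F, hF, hF0⟩ := h hb
    have hlt : KK (m + 1) I (q :: Q) z < KK (m + 1) I Q z := by
      refine lt_of_le_of_ne (SInd_le I Q q z) fun he => ?_
      rw [← he] at hF
      exact hF0 (hF.2 q List.mem_cons_self)
    have := Submodule.finrank_lt_finrank_of_lt hlt
    omega

private theorem SInd_main [IsAlgClosed k] {d : ℕ} {g : ℤ} {I : Ideal (S k)}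
    (hI : IsCurve k d g I)
    (hD : Dis k I (Ideal.span {X 0, X 1})) {K : ℕ}
    (hK : ∀ p : Fin 2 → k, p ≠ 0 → Module.finrank k (Kp (m + 1) I p) = K)
    (hl : ∀ p : Fin 2 → k, p ≠ 0 → ∀ F ∈ Kp (m + 1) I p,
      ∃ n : ℕ, ∃ f ∈ I, f ∈ lt k (m + 1) ∧ f.IsHomogeneous n ∧ sg p f = F) (j : ℕ) :
    ∃ Q : List (Fin 4 → k), Q.length = j ∧ Good I Q ∧
      (∀ p : Fin 2 → k, p ≠ 0 → Module.finrank k (KK (m + 1) I Q p) ≤ K + 1 - j) ∧
      ∃ (n : ℕ) (h : R k) (p₀ : Fin 2 → k), h.IsHomogeneous n ∧ p₀ ≠ 0 ∧ eval p₀ h ≠ 0 ∧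
        ∀ p : Fin 2 → k, p ≠ 0 → eval p h ≠ 0 →
          Module.finrank k (KK (m + 1) I Q p) ≤ K - j := by
  classical
  induction j with
  | zero =>
    refine ⟨[], rfl, trivial, fun p hp => ?_, 0, 1, ![1, 0], isHomogeneous_one _ _, ?_, ?_,
      fun p hp _ => ?_⟩
    · rw [SInd_nil, hK p hp]; omega
    · intro h
      have := congrFun h 0
      simp at this
    · simp
    · rw [SInd_nil, hK p hp]; omega
  | succ j ih =>
    obtain ⟨Q, hQl, hQ, hall, n, h, p₀, hh, hp₀, hev, hgen⟩ := ih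
    have h0 : h ≠ 0 := by
      rintro rfl
      simp at hev
    obtain ⟨Z, hZ0, hZ⟩ := zeros_fin hh h0
    have hch : ∀ z : Fin 2 → k, ∃ F : R k, KK (m + 1) I Q z ≠ ⊥ →
        F ∈ KK (m + 1) I Q z ∧ F ≠ 0 := by
      intro z
      by_cases hb : KK (m + 1) I Q z = ⊥
      · exact ⟨0, fun h => absurd hb h⟩
      · obtain ⟨F, hF, hF0⟩ := Submodule.exists_mem_ne_zero_of_ne_bot hb
        exact ⟨F, fun _ => ⟨hF, hF0⟩⟩
    choose F hF using hch
    have hT : ∀ t ∈ ((p₀ :: Z).filter (fun z => KK (m + 1) I Q z ≠ ⊥)).map (fun z => (z, F z)),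
        t.1 ≠ 0 ∧ t.2 ≠ 0 := by
      intro t ht
      obtain ⟨z, hz, rfl⟩ := List.mem_map.mp ht
      obtain ⟨hz1, hz2⟩ := List.mem_filter.mp hz
      refine ⟨?_, (hF z (by simpa using hz2)).2⟩
      rcases List.mem_cons.mp hz1 with rfl | hz1
      · exact hp₀
      · exact hZ0 z hz1
    obtain ⟨q, hq1, hq2⟩ := exists_ln (isCurve_un hI Q hQ) (dis_un hD Q) _ hT
    have hstep : ∀ z ∈ p₀ :: Z, Module.finrank k (KK (m + 1) I (q :: Q) z) ≤
        Module.finrank k (KK (m + 1) I Q z) - 1 := by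
      intro z hz
      refine SInd_step I Q q z fun hb => ⟨F z, (hF z hb).1, ?_⟩
      refine hq2 (z, F z) (List.mem_map.mpr ⟨z, List.mem_filter.mpr ⟨hz, ?_⟩, rfl⟩)
      simpa using hb
    have hp0' : Module.finrank k (KK (m + 1) I (q :: Q) p₀) ≤ K - (j + 1) := by
      have h1 := hstep p₀ List.mem_cons_self
      have h2 := hgen p₀ hp₀ hev
      omega
    obtain ⟨n', h', hh', hev', hgen'⟩ := semi hK hl (q :: Q) hp₀ hp0'
    refine ⟨q :: Q, by simp [hQl], ⟨hQ, hq1⟩, fun p hp => ?_, n', h', p₀, hh', hp₀, hev', hgen'⟩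
    by_cases he : eval p h = 0
    · obtain ⟨z, hz, s, hs, rfl⟩ := hZ p hp he
      rw [KK_smul hI.hom (q :: Q) hs z]
      have h1 := hstep z (List.mem_cons_of_mem _ hz)
      have h2 := hall z (hZ0 z hz)
      omega
    · have := SInd_fin (m := m) I Q p
      have h1 := Submodule.finrank_mono (SInd_le (m := m) I Q q p)
      have h2 := hgen p hp he
      omega

theorem exists_Q [IsAlgClosed k] {d : ℕ} {g : ℤ} {I : Ideal (S k)} (hI : IsCurve k d g I)
    (hD : Dis k I (Ideal.span {X 0, X 1})) {K : ℕ}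
    (hK : ∀ p : Fin 2 → k, p ≠ 0 → Module.finrank k (Kp (m + 1) I p) = K)
    (hl : ∀ p : Fin 2 → k, p ≠ 0 → ∀ F ∈ Kp (m + 1) I p,
      ∃ n : ℕ, ∃ f ∈ I, f ∈ lt k (m + 1) ∧ f.IsHomogeneous n ∧ sg p f = F) :
    ∃ Q : List (Fin 4 → k), Q.length = K + 1 ∧ Good I Q ∧
      ∀ p : Fin 2 → k, p ≠ 0 → KK (m + 1) I Q p = ⊥ := by
  obtain ⟨Q, hQl, hQ, hall, -⟩ := SInd_main hI hD hK hl (K + 1)
  refine ⟨Q, hQl, hQ, fun p hp => ?_⟩
  have := SInd_fin (m := m) I Q p
  have h1 := hall p hp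
  rw [Nat.sub_self] at h1
  exact Submodule.finrank_eq_zero.mp (Nat.le_zero.mp h1)

end MP_06793c_ag
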