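import Pool.Agent.Lib.MP_06793c_ag.PG.AsmU
import Pool.Agent.Lib.MP_06793c_ag.PG.SGs
import Pool.Agent.Lib.MP_06793c_ag.PG.SHi
import Pool.Agent.Lib.MP_06793c_ag.PG.SInd

/-!
# Adding lines to a curve: assembly
-/

namespace MP_06793c_ag

open MvPolynomial

universe u

variable {k : Type u} [Field k] {m : ℕ} [IsAlgClosed k]

/-- Adding sufficiently many lines in general position. -/
theorem exists_lines {d : ℕ} {g : ℤ} {I : Ideal (S k)} (hI : IsCurve k d g I)
    (hD : Dis k I (Ideal.span {X 0, X 1})) (hmd : d ≤ m + 1) :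
    ∃ Q : List (Fin 4 → k), Q.length + d = (m + 1) * (m + 2) / 2 + 1 ∧ Good I Q ∧
      IsCurve k (d + Q.length) (g - Q.length) (un I Q) ∧
      ∃ N : Submodule (R k) (Fin (m + 1 + 1) → R k), Gr N ∧ Sat N ∧
        IsCurve k (d + Q.length) (g - Q.length)
          (KN k (m + 1) (N : Set (Fin (m + 1 + 1) → R k))) ∧
        OneFam k (d + Q.length) (g - Q.length) (un I Q)
          (KN k (m + 1) (N : Set (Fin (m + 1 + 1) → R k))) := by
  have hn : ∀ p : Fin 2 → k, p ≠ 0 → ∀ f : S k, io k (lp k p) * f ∈ I → f ∈ I :=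
    fun p hp f hf => nzd hI hD hp hf
  have hs : ∀ p : Fin 2 → k, p ≠ 0 → ∃ n₀ : ℕ, ∀ n ≥ n₀, ∀ f : S k, f.IsHomogeneous n →
      ∃ i ∈ I, ∃ t ∈ lt k (m + 1), ∃ s : S k, f = i + t + io k (lp k p) * s :=
    fun p hp => gen_large hI hD hmd hn hp
  have hg := gen_all (m := m) hI.hom hD hs
  have hK : ∀ p : Fin 2 → k, p ≠ 0 → Module.finrank k (Kp (m + 1) I p)
      = (m + 1) * (m + 2) / 2 - d := fun p hp => by
    have := finrank_Kp hI hD hn hp (hs p hp)
    omega
  have hKd : (m + 1) * (m + 2) / 2 - d + d = (m + 1) * (m + 2) / 2 := by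
    have h1 : (![1, 0] : Fin 2 → k) ≠ 0 := fun h => one_ne_zero (congrFun h 0)
    have := finrank_Kp hI hD hn h1 (hs _ h1)
    omega
  have hl : ∀ p : Fin 2 → k, p ≠ 0 → ∀ F ∈ Kp (m + 1) I p,
      ∃ n : ℕ, ∃ f ∈ I, f ∈ lt k (m + 1) ∧ f.IsHomogeneous n ∧ sg p f = F :=
    fun p hp F hF => glob hI.hom hg hp hF
  obtain ⟨Q, hQ, hG, h0⟩ := exists_Q hI hD hK hl
  have hC := isCurve_un hI Q hG
  have hlen : Q.length + d = (m + 1) * (m + 2) / 2 + 1 := by omega
  refine ⟨Q, hlen, hG, hC, step_inj (m := m + 1) hC (dis_un hD Q) ?_ ?_⟩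
  · have : (m + 1) * (m + 1 + 1) = (m + 1) * (m + 2) := rfl
    omega
  · intro p hp n f hf hl' hU
    refine hi_of_Kp (m := m + 1) (fun p' hp' => ?_) hp hf hl' hU
    exact le_bot_iff.mp ((Kp_un I Q p').trans (h0 p' hp').le)

/-- Adding `n` lines. -/
noncomputable def pwL (x : Comps k) : ℕ → Comps k
  | 0 => x
  | n + 1 => mulc (pwL x n) (LL k)

theorem pwL_add (x : Comps k) (a b : ℕ) : pwL x (a + b) = pwL (pwL x a) b := by
  induction b with
  | zero => rfl
  | succ b ih => rw [← Nat.add_assoc, pwL, ih, pwL]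

theorem cl_un (C : Curves k) (Q : List (Fin 4 → k)) (hQ : Good C.1 Q) (D : Curves k)
    (hD : D.1 = un C.1 Q) : cl D = pwL (cl C) Q.length := by
  induction Q generalizing D with
  | nil => exact congrArg cl (Subtype.ext hD)
  | cons q Q ih =>
    let E : Curves k := ⟨un C.1 Q, _, _, isCurve_un C.isCurve Q hQ.1⟩
    let F : Curves k := ⟨ln q, 1, 0, isCurve_ln q⟩
    have h1 := ih hQ.1 E rfl
    rw [List.length_cons, pwL, ← h1, ← cl_one F (isCurve_ln q), mulc_cl E F hQ.2]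
    exact congrArg cl (Subtype.ext hD)

/-- Curves of the same type become equivalent after adding lines. -/
theorem stable_aux {d : ℕ} {g : ℤ} (C D : Curves k) (hC : IsCurve k d g C.1)
    (hD : IsCurve k d g D.1) : pwL (cl C) (d * (d + 1) / 2 + 1 - d)
      = pwL (cl D) (d * (d + 1) / 2 + 1 - d) := by
  have hinf : Infinite k := IsAlgClosed.instInfinite
  have hpos := hC.pos
  obtain ⟨m, rfl⟩ : ∃ m, d = m + 1 := ⟨d - 1, by omega⟩
  obtain ⟨M, hM, hd⟩ := exists_line hC 0 1 (by decide)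
  obtain ⟨M', hM', hd'⟩ := exists_line hD 0 1 (by decide)
  have cC := isCurve_tr hC M hM
  have cD := isCurve_tr hD M' hM'
  obtain ⟨Q, hQ, gQ, uQ, N, n1, n2, n3, n4⟩ := exists_lines (m := m) cC hd le_rfl
  obtain ⟨Q', hQ', gQ', uQ', N', n1', n2', n3', n4'⟩ := exists_lines (m := m) cD hd' le_rfl
  have hlen : Q'.length = Q.length := by omega
  have hlen2 : (m + 1) * (m + 1 + 1) / 2 + 1 - (m + 1) = Q.length := by
    have : (m + 1) * (m + 1 + 1) = (m + 1) * (m + 2) := rfl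
    omega
  rw [hlen] at uQ' n3' n4'
  have key : SameComp k (m + 1 + Q.length) (g - Q.length) (un (tr M C.1) Q)
      (un (tr M' D.1) Q') :=
    sameComp_trans (sameComp_of_oneFam n4) (sameComp_trans (step_two n1 n2 n1' n2' n3 n3')
      (sameComp_symm (sameComp_of_oneFam n4')))
  let C' : Curves k := ⟨tr M C.1, _, _, cC⟩
  let D' : Curves k := ⟨tr M' D.1, _, _, cD⟩
  let U : Curves k := ⟨un (tr M C.1) Q, _, _, uQ⟩
  let U' : Curves k := ⟨un (tr M' D.1) Q', _, _, uQ'⟩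
  have e1 : cl U = pwL (cl C') Q.length := cl_un C' Q gQ U rfl
  have e2 : cl U' = pwL (cl D') Q.length := by
    have := cl_un D' Q' gQ' U' rfl
    rwa [hlen] at this
  have e3 : cl C' = cl C := cl_eq.mpr ⟨_, _, sameComp_symm
    (sameComp_of_oneFam (oneFam_tr hC M hM))⟩
  have e4 : cl D' = cl D := cl_eq.mpr ⟨_, _, sameComp_symm
    (sameComp_of_oneFam (oneFam_tr hD M' hM'))⟩
  rw [hlen2, ← e3, ← e4, ← e1, ← e2]
  exact cl_eq.mpr ⟨_, _, key⟩

theorem stable_cl {d : ℕ} {g : ℤ} (C D : Curves k) (hC : IsCurve k d g C.1)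
    (hD : IsCurve k d g D.1) {N : ℕ} (hN : d * (d + 1) / 2 + 1 - d ≤ N) :
    pwL (cl C) N = pwL (cl D) N := by
  obtain ⟨b, rfl⟩ := Nat.exists_eq_add_of_le hN
  rw [pwL_add, pwL_add, stable_aux C D hC hD]

omit [IsAlgClosed k] in
theorem dis_inf_finset {ι : Type} (s : Finset ι) (A : ι → Ideal (S k)) {I K : Ideal (S k)}
    (hI : Dis k I K) (hA : ∀ i ∈ s, Dis k (A i) K) : Dis k (I ⊓ s.inf A) K := by
  classical
  induction s using Finset.induction_on with
  | empty => simpa using hI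
  | insert a s ha ih =>
    rw [Finset.inf_insert, ← inf_assoc, inf_comm I, inf_assoc]
    exact dis_inf (hA a (by simp)) (ih fun i hi => hA i (by simp [hi]))

/-- The union of a curve and pairwise disjoint lines. -/
theorem add_lines {ι : Type} (s : Finset ι) (A : ι → Ideal (S k)) {d : ℕ} {g : ℤ}
    (C : Curves k) (hC : IsCurve k d g C.1) (hA : ∀ i ∈ s, IsCurve k 1 0 (A i))
    (hCA : ∀ i ∈ s, Dis k C.1 (A i)) (hAA : ∀ i ∈ s, ∀ j ∈ s, i ≠ j → Dis k (A i) (A j)) :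
    IsCurve k (d + s.card) (g - s.card) (C.1 ⊓ s.inf A) ∧
      ∀ D : Curves k, D.1 = C.1 ⊓ s.inf A → cl D = pwL (cl C) s.card := by
  classical
  induction s using Finset.induction_on with
  | empty =>
    refine ⟨by simpa using hC, fun D hD => ?_⟩
    exact congrArg cl (Subtype.ext (by rw [hD]; simp))
  | insert a s ha ih =>
    obtain ⟨i1, i2⟩ := ih (fun i hi => hA i (by simp [hi])) (fun i hi => hCA i (by simp [hi]))
      (fun i hi j hj => hAA i (by simp [hi]) j (by simp [hj]))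
    have h1 := hA a (by simp)
    have h3 : Dis k (C.1 ⊓ s.inf A) (A a) := dis_inf_finset s A (hCA a (by simp)) fun i hi =>
      hAA i (by simp [hi]) a (by simp) (by rintro rfl; exact ha hi)
    have h4 := isCurve_inf i1 h1 h3
    have e : C.1 ⊓ (insert a s).inf A = (C.1 ⊓ s.inf A) ⊓ A a := by
      rw [Finset.inf_insert, inf_comm (A a), inf_assoc]
    have h5 : g - (s.card : ℤ) + 0 - 1 = g - ((insert a s).card : ℤ) := by
      rw [Finset.card_insert_of_notMem ha]; push_cast; ring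
    refine ⟨?_, fun D hD => ?_⟩
    · rw [e, ← h5, Finset.card_insert_of_notMem ha]
      exact h4
    · let E : Curves k := ⟨C.1 ⊓ s.inf A, _, _, i1⟩
      let F : Curves k := ⟨A a, _, _, h1⟩
      rw [Finset.card_insert_of_notMem ha, pwL, ← i2 E rfl, ← cl_one F h1, mulc_cl E F h3]
      exact congrArg cl (Subtype.ext (by rw [hD, e]; rfl))

/-- Any two curves of the same degree and genus lie in the same component after adding the same
number, at least `d (d - 1) / 2 + 1`, of disjoint lines. -/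
theorem stable {ι ι' : Type} {d : ℕ} {g : ℤ} {I J : Ideal (S k)} (hI : IsCurve k d g I)
    (hJ : IsCurve k d g J) (s : Finset ι) (s' : Finset ι') (A : ι → Ideal (S k))
    (B : ι' → Ideal (S k)) {N : ℕ} (hN : d * (d + 1) / 2 + 1 - d ≤ N) (hs : s.card = N)
    (hs' : s'.card = N) (hA : ∀ i ∈ s, IsCurve k 1 0 (A i)) (hB : ∀ i ∈ s', IsCurve k 1 0 (B i))
    (hIA : ∀ i ∈ s, Dis k I (A i)) (hJB : ∀ i ∈ s', Dis k J (B i))
    (hAA : ∀ i ∈ s, ∀ j ∈ s, i ≠ j → Dis k (A i) (A j))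
    (hBB : ∀ i ∈ s', ∀ j ∈ s', i ≠ j → Dis k (B i) (B j)) :
    SameComp k (d + N) (g - N) (I ⊓ s.inf A) (J ⊓ s'.inf B) := by
  let C : Curves k := ⟨I, _, _, hI⟩
  let D : Curves k := ⟨J, _, _, hJ⟩
  obtain ⟨a1, a2⟩ := add_lines s A C hI hA hIA hAA
  obtain ⟨b1, b2⟩ := add_lines s' B D hJ hB hJB hBB
  rw [hs] at a1
  have h1 := a2 ⟨_, _, _, a1⟩ rfl
  rw [hs'] at b1
  have h2 := b2 ⟨_, _, _, b1⟩ rfl
  rw [hs] at h1
  rw [hs'] at h2
  have h3 := stable_cl C D hI hJ hN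
  rw [← h1, ← h2] at h3
  obtain ⟨d₀, g₀, h₀⟩ := cl_eq.mp h3
  obtain ⟨rfl, rfl⟩ := type_unique a1 h₀.1
  exact h₀

end MP_06793c_ag
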