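import Pool.Agent.Lib.MP_06793c_ag.PG.Defs

/-!
# Rows in general position
-/

namespace MP_06793c_ag

open MvPolynomial

universe u

variable {k : Type u} [Field k] {m : ℕ}

theorem exists_qq [Infinite k] (a b : ℕ) : ∃ q q' : Fin (1 + 1) → R k, HomV a q ∧ HomV b q' ∧
    NoZ q ∧ NoZ q' ∧ ∀ p : Fin 2 → k, p ≠ 0 → ¬ (p 0 * eval p (q 0) = p 1 * eval p (q 1) ∧
      p 0 * eval p (q' 0) = p 1 * eval p (q' 1)) := by
  classical
  obtain ⟨c, hc⟩ := Infinite.exists_notMem_finset
    (insert (0 : k) ((Polynomial.nthRoots (a + 1) (1 : k)).toFinset.image fun z => -z ^ (b + 1)))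
  rw [Finset.mem_insert, not_or, Finset.mem_image] at hc
  obtain ⟨hc0, hc1⟩ := hc
  have hp01 : ∀ p : Fin 2 → k, p ≠ 0 → p 0 ≠ 0 ∨ p 1 ≠ 0 := by
    intro p hp
    by_contra h
    push Not at h
    apply hp
    funext i
    fin_cases i
    · exact h.1
    · exact h.2
  refine ⟨![X 0 ^ a, X 1 ^ a], ![X 0 ^ b, C (-c) * X 1 ^ b], ?_, ?_, ?_, ?_, ?_⟩
  · intro j
    fin_cases j
    · exact isHomogeneous_X_pow 0 a
    · exact isHomogeneous_X_pow 1 a
  · intro j
    fin_cases j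
    · exact isHomogeneous_X_pow 0 b
    · exact (isHomogeneous_X_pow 1 b).C_mul (-c)
  · intro p hp
    rcases hp01 p hp with h | h
    · exact ⟨0, by simpa using fun h1 => absurd h1 h⟩
    · exact ⟨1, by simpa using fun h1 => absurd h1 h⟩
  · intro p hp
    rcases hp01 p hp with h | h
    · exact ⟨0, by simpa using fun h1 => absurd h1 h⟩
    · refine ⟨1, ?_⟩
      have : eval p ((![X 0 ^ b, C (-c) * X 1 ^ b] : Fin 2 → R k) 1) = -c * p 1 ^ b := by simp
      exact this.trans_ne (mul_ne_zero (neg_ne_zero.2 hc0) (pow_ne_zero _ h))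
  · rintro p hp ⟨h1, h2⟩
    have e1 : p 0 ^ (a + 1) = p 1 ^ (a + 1) := by
      rw [pow_succ', pow_succ']
      simpa using h1
    have e2 : p 0 ^ (b + 1) = -c * p 1 ^ (b + 1) := by
      have h3 : p 0 * p 0 ^ b = p 1 * (-c * p 1 ^ b) := by simpa using h2
      rw [pow_succ', h3]
      ring
    have hp1 : p 1 ≠ 0 := by
      intro h0
      rw [h0, zero_pow (Nat.succ_ne_zero a)] at e1
      have h4 := pow_eq_zero_iff (Nat.succ_ne_zero a) |>.1 e1
      rcases hp01 p hp with h | h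
      · exact h h4
      · exact h h0
    apply hc1
    refine ⟨p 0 / p 1, ?_, ?_⟩
    · rw [Multiset.mem_toFinset, Polynomial.mem_nthRoots (Nat.succ_pos a), div_pow, e1,
        div_self (pow_ne_zero _ hp1)]
    · rw [div_pow, e2, mul_div_assoc, div_self (pow_ne_zero _ hp1), mul_one, neg_neg]

end MP_06793c_ag
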