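import Pool.Agent.Lib.MP_06793c_ag.PG.Dv

/-!
# Forms in `x0, x1` do not vanish on a plane section unless divisible by the linear form
-/

namespace MP_06793c_ag

open MvPolynomial

universe u

variable {k : Type u} [Field k] {m : ℕ}

private theorem InjL_inj : Function.Injective (![0, 1] : Fin 2 → Fin 4) := by
  intro i j hij
  fin_cases i <;> fin_cases j <;> simp_all

private theorem InjL_comp {l s : S k} (hl : l.IsHomogeneous 1) (n : ℕ) :
    homogeneousComponent (n + 1) (l * s) = l * homogeneousComponent n s := by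
  have h : ∀ i, homogeneousComponent (n + 1) (l * homogeneousComponent i s) =
      if i = n then l * homogeneousComponent i s else 0 := by
    intro i
    have h1 : l * homogeneousComponent i s ∈ homogeneousSubmodule (Fin 4) k (1 + i) :=
      (mem_homogeneousSubmodule _ _).2 (hl.mul (homogeneousComponent_isHomogeneous i s))
    rw [homogeneousComponent_of_mem h1]
    by_cases hi : i = n
    · rw [if_pos (by omega), if_pos hi]
    · rw [if_neg (by omega), if_neg hi]
  conv_lhs => rw [← sum_homogeneousComponent s]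
  rw [Finset.mul_sum, map_sum, Finset.sum_congr rfl fun i _ => h i, Finset.sum_ite_eq']
  split_ifs with hn
  · rfl
  · rw [homogeneousComponent_eq_zero n s (by
      rw [Finset.mem_range] at hn
      omega), mul_zero]

private theorem InjL_deg_le_pow (n N : ℕ) (h : N ≤ n) (p : S k) (hp : p ∈ deg k n) :
    p ∈ mm k ^ N := by
  rw [mem_pow_idealOfVars_iff']
  intro x hx
  exact ((mem_homogeneousSubmodule n p).1 hp).coeff_eq_zero (by omega)

private theorem InjL_step {I : Ideal (S k)} (hI : IsHom I) {l : S k} (hl : l.IsHomogeneous 1)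
    (hl0 : l ≠ 0) {M n : ℕ} (hM : M ≤ n + 1) (h : mm k ^ M ≤ I ⊔ Ideal.span {l}) :
    hf k I (n + 1) ≤ hf k I n := by
  have i1 : Module.Finite k (deg k n) := Module.Finite.iff_fg.2 (homogeneousSubmodule_fg _ _ n)
  have i2 : Module.Finite k (deg k (n + 1)) :=
    Module.Finite.iff_fg.2 (homogeneousSubmodule_fg _ _ (n + 1))
  have i3 : Module.Finite k ((I.restrictScalars k ⊓ deg k n : Submodule k (S k))) :=
    Submodule.finiteDimensional_inf_right _ _
  have i4 : Module.Finite k ((I.restrictScalars k ⊓ deg k (n + 1) : Submodule k (S k))) :=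
    Submodule.finiteDimensional_inf_right _ _
  obtain ⟨L, hL⟩ : ∃ L : S k →ₗ[k] S k, L = LinearMap.mulLeft k l := ⟨_, rfl⟩
  have hLa : ∀ x, L x = l * x := fun x => by rw [hL, LinearMap.mulLeft_apply]
  have hLi : Function.Injective L := by
    intro x y hxy
    rw [hLa, hLa] at hxy
    exact mul_left_cancel₀ hl0 hxy
  obtain ⟨V, hV⟩ : ∃ V : Submodule k (S k), V = (deg k n).map L := ⟨_, rfl⟩
  obtain ⟨W, hW⟩ : ∃ W : Submodule k (S k),
    W = (I.restrictScalars k ⊓ deg k n : Submodule k (S k)).map L := ⟨_, rfl⟩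
  have i5 : Module.Finite k V := by
    rw [hV]
    infer_instance
  have e1 : Module.finrank k V = Module.finrank k (deg k n) := by
    rw [hV]
    exact (LinearEquiv.finrank_eq (Submodule.equivMapOfInjective L hLi (deg k n))).symm
  have e2 : Module.finrank k W =
      Module.finrank k ((I.restrictScalars k ⊓ deg k n : Submodule k (S k))) := by
    rw [hW]
    exact (LinearEquiv.finrank_eq (Submodule.equivMapOfInjective L hLi
      (I.restrictScalars k ⊓ deg k n : Submodule k (S k)))).symm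
  have h1 : deg k (n + 1) ≤ (I.restrictScalars k ⊓ deg k (n + 1) : Submodule k (S k)) ⊔ V := by
    intro f hf
    obtain ⟨a, ha, b, hb, hab⟩ := Submodule.mem_sup.1 (h (InjL_deg_le_pow (n + 1) M hM f hf))
    obtain ⟨c, rfl⟩ := Ideal.mem_span_singleton'.1 hb
    have hcomp : homogeneousComponent (n + 1) a + l * homogeneousComponent n c = f := by
      rw [← InjL_comp hl, mul_comm l c, ← map_add, hab]
      exact (homogeneousComponent_of_mem hf).trans (if_pos rfl)
    refine Submodule.mem_sup.2 ⟨homogeneousComponent (n + 1) a, ⟨hI a ha _,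
      homogeneousComponent_mem (n + 1) a⟩, l * homogeneousComponent n c, ?_, hcomp⟩
    rw [hV]
    exact ⟨homogeneousComponent n c, homogeneousComponent_mem n c, hLa _⟩
  have h2 : W ≤ (I.restrictScalars k ⊓ deg k (n + 1) : Submodule k (S k)) ⊓ V := by
    rw [hW, hV]
    rintro _ ⟨x, ⟨hx1, hx2⟩, rfl⟩
    refine ⟨⟨?_, ?_⟩, ⟨x, hx2, rfl⟩⟩
    · rw [hLa]
      exact Ideal.mul_mem_left _ _ hx1
    · rw [hLa, SetLike.mem_coe, mem_homogeneousSubmodule, add_comm]
      exact hl.mul ((mem_homogeneousSubmodule _ _).1 hx2)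
  have h3 := Submodule.finrank_sup_add_finrank_inf_eq
    (I.restrictScalars k ⊓ deg k (n + 1) : Submodule k (S k)) V
  have h4 := Submodule.finrank_mono h1
  have i6 : Module.Finite k (((I.restrictScalars k ⊓ deg k (n + 1) : Submodule k (S k)) ⊓ V :
    Submodule k (S k))) := Submodule.finiteDimensional_inf_right _ _
  have h5 := Submodule.finrank_mono h2
  unfold hf
  omega

private theorem InjL_no {d : ℕ} {g : ℤ} {I : Ideal (S k)} (hI : IsCurve k d g I) {l : S k}
    (hl : l.IsHomogeneous 1) (hl0 : l ≠ 0) {M : ℕ} (h : mm k ^ M ≤ I ⊔ Ideal.span {l}) : False := by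
  obtain ⟨N, hN⟩ := hI.hilb
  have h1 := InjL_step hI.hom hl hl0 (M := M) (n := N + M) (by omega) h
  rw [hN (N + M) (by omega), hN (N + M + 1) (by omega)] at h1
  have h2 := hI.pos
  have h3 : (1 : ℤ) ≤ d := by exact_mod_cast h2
  push_cast at h1
  nlinarith

/-- If a form in `x0, x1` which does not vanish at `p` is in `I + (l)` then `x0, x1` are in the
radical. -/
private theorem InjL_rad {K : Ideal (S k)} {p : Fin 2 → k} (hp : p ≠ 0) {n : ℕ} {r : R k}
    (hr : r.IsHomogeneous n) (hrp : eval p r ≠ 0) (h : io k r ∈ K) (hl : io k (lp k p) ∈ K)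
    (i : Fin 2) : io k (X i) ^ n ∈ K := by
  have h1 : (C (p i ^ n) * r - C (eval p r) * X i ^ n).IsHomogeneous n := by
    refine IsHomogeneous.sub (hr.C_mul _) ?_
    have h2 : ((X i : R k) ^ n).IsHomogeneous n := by
      have := (isHomogeneous_X k i).pow n
      rwa [one_mul] at this
    exact h2.C_mul _
  have h3 : eval p (C (p i ^ n) * r - C (eval p r) * X i ^ n) = 0 := by
    simp only [map_sub, map_mul, map_pow, eval_C, eval_X]
    ring
  obtain ⟨r', -, hr'⟩ := dvd_of_eval hp h1 h3
  have h4 : (X i : R k) ^ n = C ((eval p r)⁻¹) * (C (p i ^ n) * r - lp k p * r') := by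
    rw [← hr']
    have h5 : (C ((eval p r)⁻¹) * C (eval p r) : R k) = 1 := by
      rw [← C_mul, inv_mul_cancel₀ hrp, C_1]
    linear_combination (-(X i : R k) ^ n) * h5
  rw [← map_pow, h4, map_mul, map_sub, map_mul, map_mul]
  exact Ideal.mul_mem_left _ _ (Ideal.sub_mem _ (Ideal.mul_mem_left _ _ h)
    (Ideal.mul_mem_right _ _ hl))

private theorem InjL_exists {n : ℕ} {f : S k} (hf : f.IsHomogeneous n) (hl : f ∈ lt k 1) :
    ∃ r : R k, r.IsHomogeneous n ∧ f = io k r := by
  have h1 : (f.vars : Set (Fin 4)) ⊆ Set.range (![0, 1] : Fin 2 → Fin 4) := by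
    intro i hi
    obtain ⟨s, hs, his⟩ := (mem_vars i).1 (Finset.mem_coe.1 hi)
    have h2 : s 2 + s 3 < 1 := hl s hs
    rw [Finsupp.mem_support_iff] at his
    fin_cases i
    · exact ⟨0, rfl⟩
    · exact ⟨1, rfl⟩
    · exact absurd (show s 2 = 0 by omega) his
    · exact absurd (show s 3 = 0 by omega) his
  obtain ⟨r, hr⟩ := exists_rename_eq_of_vars_subset_range f _ InjL_inj h1
  refine ⟨r, ?_, hr.symm⟩
  rw [← hr] at hf
  exact (IsHomogeneous.rename_isHomogeneous_iff InjL_inj).1 hf

theorem inj_low {d : ℕ} {g : ℤ} {I : Ideal (S k)} (hI : IsCurve k d g I)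
    (hD : Dis k I (Ideal.span {X 0, X 1})) (hm : m ≤ 1) {p : Fin 2 → k} (hp : p ≠ 0) {n : ℕ}
    {f : S k} (hf : f.IsHomogeneous n) (hl : f ∈ lt k m)
    (h : f ∈ I ⊔ Ideal.span {io k (lp k p)}) : io k (lp k p) ∣ f := by
  rcases Nat.eq_zero_or_pos m with rfl | hm0
  · have h0 : f = 0 := by
      rw [← support_eq_empty]
      refine Finset.eq_empty_of_forall_notMem fun s hs => ?_
      exact absurd (hl s hs) (Nat.not_lt_zero _)
    rw [h0]
    exact dvd_zero _
  obtain rfl : m = 1 := by omega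
  obtain ⟨r, hr, rfl⟩ := InjL_exists hf hl
  by_cases hrp : eval p r = 0
  · obtain ⟨r', -, hr'⟩ := dvd_of_eval hp hr hrp
    exact ⟨io k r', by rw [hr', map_mul]⟩
  exfalso
  have hlm : io k (lp k p) ∈ I ⊔ Ideal.span {io k (lp k p)} :=
    Ideal.mem_sup_right (Ideal.mem_span_singleton_self _)
  have hx : ∀ i : Fin 2, io k (X i) ∈ (I ⊔ Ideal.span {io k (lp k p)}).radical := fun i =>
    ⟨n, InjL_rad hp hr hrp h hlm i⟩
  have hlh : (io k (lp k p)).IsHomogeneous 1 := (lp_homog p).rename_isHomogeneous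
  have hl0 : io k (lp k p) ≠ 0 := by
    intro h0
    exact lp_ne_zero hp (rename_injective _ InjL_inj (h0.trans (map_zero _).symm))
  obtain ⟨N, hN⟩ := hD
  have h1 : I ⊔ Ideal.span {X 0, X 1} ≤ (I ⊔ Ideal.span {io k (lp k p)}).radical := by
    refine sup_le (le_sup_left.trans Ideal.le_radical) (Ideal.span_le.2 ?_)
    intro y hy
    rcases hy with rfl | rfl
    · have := hx 0
      rwa [io, rename_X] at this
    · have := hx 1
      rwa [io, rename_X] at this
  have h2 : mm k ≤ (I ⊔ Ideal.span {io k (lp k p)}).radical := by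
    intro y hy
    have h3 : y ^ N ∈ (I ⊔ Ideal.span {io k (lp k p)}).radical := h1 (hN (Ideal.pow_mem_pow hy N))
    have h4 : y ∈ ((I ⊔ Ideal.span {io k (lp k p)}).radical).radical := ⟨N, h3⟩
    rwa [Ideal.radical_idem] at h4
  obtain ⟨M, hM⟩ := Ideal.exists_pow_le_of_le_radical_of_fg h2 (idealOfVars_fg (Fin 4) k)
  exact InjL_no hI hlh hl0 hM

end MP_06793c_ag
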