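import Pool.Agent.Lib.MP_06793c_ag.PG.Defs

/-!
# Divisibility by the linear form of a point
Plan: a polynomial r in k[x0,x1], homogeneous of degree i, with r(p) = 0, p ≠ 0, is divisible by
lp p: if p 1 ≠ 0, substitute (r(x0, x1) = r(x0, x1) - terms; modulo lp p one has
x0 ≡ (p 0 / p 1) x1, so r ≡ c x1^i with c p1^i = r(p) = 0). The quotient is homogeneous of degree
i - 1 (take the homogeneous component of degree i - 1 of any quotient).
-/

namespace MP_06793c_ag

open MvPolynomial

universe u

variable {k : Type u} [Field k] {m : ℕ}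

theorem lp_homog (p : Fin 2 → k) : (lp k p).IsHomogeneous 1 := by
  unfold lp
  exact (isHomogeneous_C_mul_X _ _).sub (isHomogeneous_C_mul_X _ _)

theorem lp_ne_zero {p : Fin 2 → k} (hp : p ≠ 0) : lp k p ≠ 0 := by
  intro h
  apply hp
  have h1 := congrArg (eval (![1, 0] : Fin 2 → k)) h
  have h2 := congrArg (eval (![0, 1] : Fin 2 → k)) h
  simp [lp] at h1 h2
  funext j
  fin_cases j
  · simpa using h2
  · simpa using h1

theorem eval_lp_self (p : Fin 2 → k) : eval p (lp k p) = 0 := by
  simp [lp]; ring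

private theorem Dv_mul (p : Fin 2 → k) (j0 : Fin 2) (h0 : p j0 ≠ 0) {i : ℕ} {r : R k}
    (hr : r.IsHomogeneous i) :
    C (p j0 ^ i) * aeval (fun j => C (p j / p j0) * X j0 : Fin 2 → R k) r =
      C (eval p r) * X j0 ^ i := by
  rw [aeval_def, eval₂_eq', eval_eq', map_sum, Finset.sum_mul, Finset.mul_sum]
  refine Finset.sum_congr rfl fun d hd => ?_
  have hdeg : ∑ j, d j = i := by
    have h := hr (mem_support_iff.1 hd)
    rw [← h, Finsupp.weight_apply, Finsupp.sum_fintype _ _ (by simp)]
    simp
  have h1 : (∏ j, (C (p j / p j0) * X j0 : R k) ^ d j) =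
      C (∏ j, (p j / p j0) ^ d j) * X j0 ^ i := by
    simp_rw [mul_pow]
    rw [Finset.prod_mul_distrib, Finset.prod_pow_eq_pow_sum, hdeg, map_prod]
    simp
  rw [h1, algebraMap_eq]
  have h2 : p j0 ^ i * ∏ j, (p j / p j0) ^ d j = ∏ j, p j ^ d j := by
    rw [← hdeg, ← Finset.prod_pow_eq_pow_sum, ← Finset.prod_mul_distrib]
    refine Finset.prod_congr rfl fun j _ => ?_
    rw [← mul_pow, mul_div_cancel₀ _ h0]
  rw [← h2]
  simp only [map_mul]
  ring

private theorem Dv_mod (p : Fin 2 → k) (j0 : Fin 2) (h0 : p j0 ≠ 0) (r : R k) :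
    Ideal.Quotient.mk (Ideal.span {lp k p}) r =
      Ideal.Quotient.mk (Ideal.span {lp k p})
        (aeval (fun j => C (p j / p j0) * X j0 : Fin 2 → R k) r) := by
  have key : (Ideal.Quotient.mkₐ k (Ideal.span {lp k p})) =
      (Ideal.Quotient.mkₐ k (Ideal.span {lp k p})).comp
        (aeval (fun j => C (p j / p j0) * X j0 : Fin 2 → R k)) := by
    refine MvPolynomial.algHom_ext fun j => ?_
    rw [AlgHom.comp_apply, aeval_X]
    simp only [Ideal.Quotient.mkₐ_eq_mk]
    rw [Ideal.Quotient.eq, Ideal.mem_span_singleton]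
    have h1 : ∀ a b : k, b ≠ 0 → (X 0 : R k) - C (a / b) * X 1 = (C b * X 0 - C a * X 1) * C (1 / b) := by
      intro a b hb
      have h2 : (C b : R k) * C (1 / b) = 1 := by rw [← map_mul, mul_one_div_cancel hb, map_one]
      have h3 : (C a : R k) * C (1 / b) = C (a / b) := by rw [← map_mul, mul_one_div]
      rw [← h3]
      linear_combination -(X 0 : R k) * h2
    have h1' : ∀ a b : k, b ≠ 0 → (X 1 : R k) - C (a / b) * X 0 = (C a * X 0 - C b * X 1) * C (-1 / b) := by
      intro a b hb
      have h2 : (C b : R k) * C (-1 / b) = -1 := by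
        rw [← map_mul, mul_div_cancel₀ _ hb, map_neg, map_one]
      have h3 : (C a : R k) * C (-1 / b) = -C (a / b) := by
        rw [← map_mul, ← map_neg]; congr 1; ring
      linear_combination (X 1 : R k) * h2 - (X 0 : R k) * h3
    have hself : (X j0 : R k) - C (p j0 / p j0) * X j0 = 0 := by
      rw [div_self h0, map_one, one_mul, sub_self]
    fin_cases j <;> fin_cases j0
    · change lp k p ∣ (X 0 : R k) - C (p 0 / p 0) * X 0
      have : (X 0 : R k) - C (p 0 / p 0) * X 0 = 0 := hself
      rw [this]; exact dvd_zero _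
    · change lp k p ∣ (X 0 : R k) - C (p 0 / p 1) * X 1
      rw [h1 (p 0) (p 1) h0]; exact Dvd.intro _ rfl
    · change lp k p ∣ (X 1 : R k) - C (p 1 / p 0) * X 0
      rw [h1' (p 1) (p 0) h0]; exact Dvd.intro _ rfl
    · change lp k p ∣ (X 1 : R k) - C (p 1 / p 1) * X 1
      have : (X 1 : R k) - C (p 1 / p 1) * X 1 = 0 := hself
      rw [this]; exact dvd_zero _
  exact congrArg (fun f : R k →ₐ[k] _ => f r) key

theorem dvd_of_eval {p : Fin 2 → k} (hp : p ≠ 0) {i : ℕ} {r : R k} (hr : r.IsHomogeneous i)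
    (h : eval p r = 0) : ∃ r' : R k, r'.IsHomogeneous (i - 1) ∧ r = lp k p * r' := by
  obtain ⟨j0, h0⟩ : ∃ j, p j ≠ 0 := Function.ne_iff.1 hp
  have h1 := Dv_mul p j0 h0 hr
  rw [h, map_zero, zero_mul] at h1
  have h2 : aeval (fun j => C (p j / p j0) * X j0 : Fin 2 → R k) r = 0 := by
    rcases mul_eq_zero.1 h1 with h3 | h3
    · exact absurd ((map_eq_zero (C : k →+* R k)).1 h3) (pow_ne_zero _ h0)
    · exact h3
  have h3 := Dv_mod p j0 h0 r
  rw [h2, map_zero, Ideal.Quotient.eq_zero_iff_mem, Ideal.mem_span_singleton] at h3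
  obtain ⟨s, hs⟩ := h3
  rcases Nat.eq_zero_or_pos i with hi | hi
  · subst hi
    have h4 : r = C (coeff 0 r) := by
      rw [← homogeneousComponent_zero, homogeneousComponent_eq_self hr]
    have h5 : r = 0 := by
      rw [h4] at h ⊢
      rw [eval_C] at h
      rw [h, map_zero]
    exact ⟨0, isHomogeneous_zero _ _ _, by rw [h5, mul_zero]⟩
  refine ⟨homogeneousComponent (i - 1) s, homogeneousComponent_isHomogeneous _ _, ?_⟩
  have h4 : homogeneousComponent i (lp k p * s) = lp k p * homogeneousComponent (i - 1) s := by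
    conv_lhs => rw [← sum_homogeneousComponent s, Finset.mul_sum, map_sum]
    have h5 : ∀ j ∈ Finset.range (s.totalDegree + 1),
        homogeneousComponent i (lp k p * homogeneousComponent j s) =
          if j = i - 1 then lp k p * homogeneousComponent (i - 1) s else 0 := by
      intro j _
      have h6 : (lp k p * homogeneousComponent j s) ∈ homogeneousSubmodule (Fin 2) k (1 + j) :=
        (lp_homog p).mul (homogeneousComponent_isHomogeneous _ _)
      rw [homogeneousComponent_of_mem h6]
      by_cases hj : j = i - 1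
      · rw [if_pos (by omega), if_pos hj, hj]
      · rw [if_neg (by omega), if_neg hj]
    rw [Finset.sum_congr rfl h5, Finset.sum_ite_eq' (Finset.range (s.totalDegree + 1)) (i - 1)
      (fun _ => lp k p * homogeneousComponent (i - 1) s)]
    split_ifs with h7
    · rfl
    · rw [homogeneousComponent_eq_zero _ _ (by
        rw [Finset.mem_range] at h7; omega), mul_zero]
  rw [← h4, ← hs, homogeneousComponent_eq_self hr]

theorem dvd_of_evp {p : Fin 2 → k} (hp : p ≠ 0) {i : ℕ} {v : Fin (m + 1) → R k} (hv : HomV i v)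
    (h : evp p v = 0) : ∃ v' : Fin (m + 1) → R k, HomV (i - 1) v' ∧ v = lp k p • v' := by
  have h1 : ∀ j, ∃ r' : R k, r'.IsHomogeneous (i - 1) ∧ v j = lp k p * r' := fun j =>
    dvd_of_eval hp (hv j) (congrFun h j)
  choose v' h2 h3 using h1
  exact ⟨v', h2, funext fun j => by rw [Pi.smul_apply, smul_eq_mul, h3 j]⟩

/-- A nonzero homogeneous polynomial vanishes at finitely many lines only; in particular: -/
theorem eq_zero_of_evp [Infinite k] {v : Fin (m + 1) → R k} (h : ∀ p : Fin 2 → k, p ≠ 0 → evp p v = 0) :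
    v = 0 := by
  funext j
  have h1 : v j * X 0 = 0 := by
    refine MvPolynomial.funext fun p => ?_
    rw [map_mul, map_zero, eval_X]
    by_cases hp : p = 0
    · rw [hp, Pi.zero_apply, mul_zero]
    · have h2 : eval p (v j) = 0 := congrFun (h p hp) j
      rw [h2, zero_mul]
  rcases mul_eq_zero.1 h1 with h2 | h2
  · exact h2
  · exact absurd h2 (X_ne_zero _)

/-- The values at `p` of a graded submodule are spanned by values of homogeneous elements. -/
theorem Np_span {N : Submodule (R k) (Fin (m + 1) → R k)} (hG : Gr N) (p : Fin 2 → k) :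
    Np p N = Submodule.span k {w | ∃ i : ℕ, ∃ v ∈ N, HomV i v ∧ w = evp p v} := by
  apply le_antisymm
  · rintro w ⟨v, hv, rfl⟩
    have hv' : v ∈ N := hv
    obtain ⟨B, hB⟩ : ∃ B : ℕ, ∀ j, (v j).totalDegree < B :=
      ⟨(Finset.univ.sup fun j => (v j).totalDegree) + 1, fun j =>
        Nat.lt_succ_of_le (Finset.le_sup (f := fun j => (v j).totalDegree) (Finset.mem_univ j))⟩
    have h1 : v = ∑ i ∈ Finset.range B, fun j => homogeneousComponent i (v j) := by
      funext j
      rw [Finset.sum_apply]
      conv_lhs => rw [← sum_homogeneousComponent (v j)]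
      refine Finset.sum_subset (fun i hi => ?_) (fun i _ hi => ?_)
      · rw [Finset.mem_range] at hi ⊢
        have := hB j
        omega
      · rw [Finset.mem_range] at hi
        exact homogeneousComponent_eq_zero _ _ (by omega)
    rw [h1, map_sum]
    refine Submodule.sum_mem _ fun i _ => Submodule.subset_span ?_
    exact ⟨i, _, hG v hv' i, fun j => homogeneousComponent_isHomogeneous _ _, rfl⟩
  · rw [Submodule.span_le]
    rintro w ⟨i, v, hv, -, rfl⟩
    exact ⟨v, hv, rfl⟩

end MP_06793c_ag
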