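import Pool.Agent.Lib.MP_06793c_ag.PG.Pw
import Pool.Agent.Lib.MP_06793c_ag.PG.Dv

/-!
# The kernel of a row: graded, saturated, Hilbert function
-/

namespace MP_06793c_ag

open MvPolynomial

universe u

variable {k : Type u} [Field k] {m : ℕ}

/-- homogeneous components of a product with a form -/
private theorem HNq_hc_mul {nu : ℕ} {q : R k} (hq : q.IsHomogeneous nu) (v : R k) (i : ℕ) :
    homogeneousComponent (i + nu) (q * v) = q * homogeneousComponent i v := by
  conv_lhs => rw [← sum_homogeneousComponent v, Finset.mul_sum, map_sum]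
  have h : ∀ n ∈ Finset.range (v.totalDegree + 1),
      homogeneousComponent (i + nu) (q * homogeneousComponent n v) =
        if n = i then q * homogeneousComponent i v else 0 := by
    intro n _
    have h1 : (q * homogeneousComponent n v) ∈ homogeneousSubmodule (Fin 2) k (nu + n) := by
      rw [mem_homogeneousSubmodule]
      exact hq.mul (homogeneousComponent_isHomogeneous n v)
    rw [homogeneousComponent_of_mem h1]
    by_cases hn : n = i
    · subst hn
      rw [if_pos (by omega), if_pos rfl]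
    · rw [if_neg (by omega), if_neg hn]
  rw [Finset.sum_congr rfl h, Finset.sum_ite_eq' (Finset.range (v.totalDegree + 1)) i]
  split_ifs with h2
  · rfl
  · rw [homogeneousComponent_eq_zero i v (by rw [Finset.mem_range] at h2; omega), mul_zero]

theorem gr_Nq {nu : ℕ} {r : ℕ} {q : Fin (m + 1) → R k} (hq : HomV nu q) : Gr (Nq r q) := by
  intro v hv i
  obtain ⟨h1, h2⟩ := hv
  refine ⟨fun j hj => by simp [h1 j hj], ?_⟩
  have h3 : ∑ j, q j * homogeneousComponent i (v j) =
      homogeneousComponent (i + nu) (∑ j, q j * v j) := by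
    rw [map_sum]
    exact Finset.sum_congr rfl fun j _ => (HNq_hc_mul (hq j) (v j) i).symm
  rw [h3, h2, map_zero]

theorem sat_Nq {r : ℕ} (q : Fin (m + 1) → R k) : Sat (Nq r q) := by
  intro c hc v hv
  obtain ⟨h1, h2⟩ := hv
  refine ⟨fun j hj => ?_, ?_⟩
  · have h3 := h1 j hj
    rw [Pi.smul_apply, smul_eq_mul] at h3
    exact (mul_eq_zero.mp h3).resolve_left hc
  · have h3 : c * ∑ j, q j * v j = 0 := by
      rw [← h2, Finset.mul_sum]
      refine Finset.sum_congr rfl fun j _ => ?_
      rw [Pi.smul_apply, smul_eq_mul]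
      ring
    exact (mul_eq_zero.mp h3).resolve_left hc

/-- exponents of the monomials of degree `i` -/
private noncomputable def HNq_ex (i a : ℕ) : Fin 2 →₀ ℕ :=
  Finsupp.single 0 a + Finsupp.single 1 (i - a)

private theorem HNq_ex_zero (i a : ℕ) : HNq_ex i a 0 = a := by simp [HNq_ex]

private theorem HNq_ex_one (i a : ℕ) : HNq_ex i a 1 = i - a := by simp [HNq_ex]

private theorem HNq_degree (d : Fin 2 →₀ ℕ) : d.degree = d 0 + d 1 := by
  rw [Finsupp.degree_eq_sum, Fin.sum_univ_two]

/-- the coefficients of a form of degree `i` -/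
private noncomputable def HNq_co (k : Type u) [Field k] (i : ℕ) :
    homogeneousSubmodule (Fin 2) k i →ₗ[k] (Fin (i + 1) → k) where
  toFun p := fun a => coeff (HNq_ex i a) (p : R k)
  map_add' p p' := by ext a; simp
  map_smul' c p := by ext a; simp

private theorem HNq_co_inj (i : ℕ) : Function.Injective (HNq_co k i) := by
  rw [injective_iff_map_eq_zero]
  rintro ⟨p, hp⟩ h
  rw [mem_homogeneousSubmodule] at hp
  ext d
  show coeff d p = 0
  by_cases hd : d.degree = i
  · have h1 : d = HNq_ex i (d 0) := by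
      rw [HNq_degree] at hd
      ext x
      fin_cases x
      · exact (HNq_ex_zero i (d 0)).symm
      · show d 1 = HNq_ex i (d 0) 1
        rw [HNq_ex_one]
        omega
    have h2 : d 0 < i + 1 := by
      rw [HNq_degree] at hd
      omega
    have h3 := congrFun h ⟨d 0, h2⟩
    rw [h1]
    exact h3
  · exact hp.coeff_eq_zero hd

private theorem HNq_co_surj (i : ℕ) : Function.Surjective (HNq_co k i) := by
  intro c
  refine ⟨⟨∑ a : Fin (i + 1), monomial (HNq_ex i a) (c a), ?_⟩, ?_⟩
  · rw [mem_homogeneousSubmodule]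
    refine IsHomogeneous.sum _ _ _ fun a _ => ?_
    apply isHomogeneous_monomial
    rw [HNq_degree, HNq_ex_zero, HNq_ex_one]
    have := a.2
    omega
  · funext b
    show coeff (HNq_ex i b) (∑ a : Fin (i + 1), monomial (HNq_ex i a) (c a)) = c b
    rw [coeff_sum, Finset.sum_eq_single b]
    · rw [coeff_monomial, if_pos rfl]
    · intro a _ hab
      rw [coeff_monomial, if_neg]
      intro h
      apply hab
      have h1 := DFunLike.congr_fun h 0
      rw [HNq_ex_zero, HNq_ex_zero] at h1
      exact Fin.ext h1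
    · intro h
      exact absurd (Finset.mem_univ b) h

/-- forms of degree `i` in two variables -/
private noncomputable def HNq_eq (k : Type u) [Field k] (i : ℕ) :
    homogeneousSubmodule (Fin 2) k i ≃ₗ[k] (Fin (i + 1) → k) :=
  LinearEquiv.ofBijective (HNq_co k i) ⟨HNq_co_inj i, HNq_co_surj i⟩

private theorem HNq_fin (i : ℕ) : Module.Finite k (homogeneousSubmodule (Fin 2) k i) :=
  Module.Finite.equiv (HNq_eq k i).symm

private theorem HNq_finrank (i : ℕ) :
    Module.finrank k (homogeneousSubmodule (Fin 2) k i) = i + 1 := by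
  rw [(HNq_eq k i).finrank_eq, Module.finrank_fin_fun]

/-- extension by zero -/
private noncomputable def HNq_E (k : Type u) [Field k] (m r i : ℕ) :
    (Fin (r + 1) → homogeneousSubmodule (Fin 2) k i) →ₗ[k] (Fin (m + 1) → R k) where
  toFun w := fun j => if h : (j : ℕ) < r + 1 then (w ⟨j, h⟩ : R k) else 0
  map_add' w w' := by
    funext j
    show (if h : (j : ℕ) < r + 1 then ((w + w') ⟨j, h⟩ : R k) else 0) =
      (if h : (j : ℕ) < r + 1 then (w ⟨j, h⟩ : R k) else 0) +
        (if h : (j : ℕ) < r + 1 then (w' ⟨j, h⟩ : R k) else 0)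
    by_cases h : (j : ℕ) < r + 1
    · rw [dif_pos h, dif_pos h, dif_pos h]
      rfl
    · rw [dif_neg h, dif_neg h, dif_neg h, add_zero]
  map_smul' c w := by
    funext j
    show (if h : (j : ℕ) < r + 1 then ((c • w) ⟨j, h⟩ : R k) else 0) =
      c • (if h : (j : ℕ) < r + 1 then (w ⟨j, h⟩ : R k) else 0)
    by_cases h : (j : ℕ) < r + 1
    · rw [dif_pos h, dif_pos h]
      rfl
    · rw [dif_neg h, dif_neg h, smul_zero]

private theorem HNq_E_of {r i : ℕ} (w : Fin (r + 1) → homogeneousSubmodule (Fin 2) k i)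
    (j : Fin (m + 1)) (h : (j : ℕ) < r + 1) : HNq_E k m r i w j = (w ⟨j, h⟩ : R k) :=
  dif_pos h

private theorem HNq_E_not {r i : ℕ} (w : Fin (r + 1) → homogeneousSubmodule (Fin 2) k i)
    (j : Fin (m + 1)) (h : ¬ (j : ℕ) < r + 1) : HNq_E k m r i w j = 0 :=
  dif_neg h

private theorem HNq_E_hom {r i : ℕ} (w : Fin (r + 1) → homogeneousSubmodule (Fin 2) k i)
    (j : Fin (m + 1)) : (HNq_E k m r i w j).IsHomogeneous i := by
  by_cases h : (j : ℕ) < r + 1
  · rw [HNq_E_of w j h, ← mem_homogeneousSubmodule]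
    exact (w ⟨j, h⟩).2
  · rw [HNq_E_not w j h]
    exact isHomogeneous_zero _ _ _

/-- the product with `q` -/
private noncomputable def HNq_P {nu : ℕ} (r i : ℕ) {q : Fin (m + 1) → R k} (hq : HomV nu q) :
    (Fin (r + 1) → homogeneousSubmodule (Fin 2) k i) →ₗ[k]
      homogeneousSubmodule (Fin 2) k (i + nu) where
  toFun w := ⟨∑ j, q j * HNq_E k m r i w j, by
    rw [mem_homogeneousSubmodule]
    refine IsHomogeneous.sum _ _ _ fun j _ => ?_
    have h := (hq j).mul (HNq_E_hom w j)
    rw [Nat.add_comm i nu]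
    exact h⟩
  map_add' w w' := by
    ext1
    show ∑ j, q j * HNq_E k m r i (w + w') j =
      ∑ j, q j * HNq_E k m r i w j + ∑ j, q j * HNq_E k m r i w' j
    rw [map_add, ← Finset.sum_add_distrib]
    exact Finset.sum_congr rfl fun j _ => by rw [Pi.add_apply, mul_add]
  map_smul' c w := by
    ext1
    show ∑ j, q j * HNq_E k m r i (c • w) j = c • ∑ j, q j * HNq_E k m r i w j
    rw [map_smul, Finset.smul_sum]
    exact Finset.sum_congr rfl fun j _ => by rw [Pi.smul_apply, mul_smul_comm]

private theorem HNq_E_inj {r i : ℕ} (hr : r ≤ m) : Function.Injective (HNq_E k m r i) := by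
  rw [injective_iff_map_eq_zero]
  intro w h
  funext a
  have ha := a.2
  have h1 : HNq_E k m r i w (⟨a, by omega⟩ : Fin (m + 1)) = 0 := congrFun h _
  rw [HNq_E_of w (⟨a, by omega⟩ : Fin (m + 1)) ha] at h1
  exact Subtype.ext h1

private theorem HNq_ker {nu r i : ℕ} (hr : r ≤ m) {q : Fin (m + 1) → R k} (hq : HomV nu q) :
    degN (Nq r q) i = (LinearMap.ker (HNq_P r i hq)).map (HNq_E k m r i) := by
  ext v
  constructor
  · rintro ⟨⟨h1, h2⟩, h3⟩
    have h4 : ∀ j, v j ∈ homogeneousSubmodule (Fin 2) k i := fun j => h3 j (Set.mem_univ _)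
    obtain ⟨w, hw⟩ : ∃ w : Fin (r + 1) → homogeneousSubmodule (Fin 2) k i,
        w = fun a => ⟨v ⟨a, by have := a.2; omega⟩, h4 _⟩ := ⟨_, rfl⟩
    have h5 : HNq_E k m r i w = v := by
      funext j
      by_cases h : (j : ℕ) < r + 1
      · rw [HNq_E_of w j h, hw]
      · rw [HNq_E_not w j h, h1 j (by omega)]
    refine ⟨w, ?_, h5⟩
    rw [SetLike.mem_coe, LinearMap.mem_ker]
    ext1
    show ∑ j, q j * HNq_E k m r i w j = 0
    rw [h5]
    exact h2
  · rintro ⟨w, hw, rfl⟩
    rw [SetLike.mem_coe, LinearMap.mem_ker] at hw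
    have h2 : ∑ j, q j * HNq_E k m r i w j = 0 := congrArg Subtype.val hw
    refine ⟨⟨fun j hj => HNq_E_not w j (by omega), h2⟩, fun j _ => ?_⟩
    show HNq_E k m r i w j ∈ homogeneousSubmodule (Fin 2) k i
    rw [mem_homogeneousSubmodule]
    exact HNq_E_hom w j

/-- forms of large degree lie in the ideal -/
private theorem HNq_mem {M : ℕ} {I : Ideal (R k)} (h0 : (X 0 : R k) ^ M ∈ I)
    (h1 : (X 1 : R k) ^ M ∈ I) {n : ℕ} (hn : 2 * M ≤ n) {F : R k} (hF : F.IsHomogeneous n) :
    F ∈ I := by
  rw [F.as_sum]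
  refine Ideal.sum_mem _ fun d hd => ?_
  have h2 : d.degree = n := by
    by_contra h
    exact (mem_support_iff.mp hd) (hF.coeff_eq_zero h)
  rw [HNq_degree] at h2
  have key : ∀ x : Fin 2, M ≤ d x → (X x : R k) ^ M ∈ I → monomial d (coeff d F) ∈ I := by
    intro x hx hxI
    have hd' : d - Finsupp.single x M + Finsupp.single x M = d := by
      ext y
      rw [Finsupp.add_apply, Finsupp.tsub_apply]
      by_cases hy : x = y
      · subst hy
        rw [Finsupp.single_eq_same]
        omega
      · rw [Finsupp.single_apply, if_neg hy]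
        omega
    have h3 : monomial d (coeff d F) =
        monomial (d - Finsupp.single x M) (coeff d F) * (X x : R k) ^ M := by
      rw [X_pow_eq_monomial, monomial_mul, mul_one, hd']
    rw [h3]
    exact Ideal.mul_mem_left _ _ hxI
  rcases Nat.lt_or_ge (d 0) M with h3 | h3
  · exact key 1 (by omega) h1
  · exact key 0 h3 h0

theorem hN_Nq [IsAlgClosed k] {nu : ℕ} {r : ℕ} (hr : r ≤ m) {q : Fin (m + 1) → R k}
    (hq : HomV nu q) (hz : NoZ q) (h0 : ∀ j : Fin (m + 1), r < (j : ℕ) → q j = 0) :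
    ∃ i₀ : ℕ, ∀ i ≥ i₀, hN (Nq r q) i = ((r : ℤ) + 1) * (i + 1) - (i + nu + 1) := by
  obtain ⟨M, hM0, hM1⟩ := pow_mem_of_noZ hq hz
  refine ⟨2 * M, fun i hi => ?_⟩
  have := HNq_fin (k := k) i
  have := HNq_fin (k := k) (i + nu)
  have hsurj : Function.Surjective (HNq_P r i hq) := by
    rintro ⟨F, hF⟩
    have hF' : F.IsHomogeneous (i + nu) := (mem_homogeneousSubmodule _ _).mp hF
    have h1 : F ∈ Ideal.span (Set.range q) := HNq_mem hM0 hM1 (by omega) hF'
    obtain ⟨c, hc⟩ := Ideal.mem_span_range_iff_exists_fun.mp h1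
    refine ⟨fun a => ⟨homogeneousComponent i (c ⟨a, by have := a.2; omega⟩), ?_⟩, ?_⟩
    · rw [mem_homogeneousSubmodule]
      exact homogeneousComponent_isHomogeneous _ _
    · ext1
      show ∑ j, q j * HNq_E k m r i _ j = F
      have h2 : homogeneousComponent (i + nu) F = F := by
        rw [homogeneousComponent_of_mem hF, if_pos rfl]
      rw [← h2, ← hc, map_sum]
      refine Finset.sum_congr rfl fun j _ => ?_
      rw [mul_comm (c j) (q j), HNq_hc_mul (hq j)]
      by_cases h : (j : ℕ) < r + 1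
      · rw [HNq_E_of _ j h]
      · rw [h0 j (by omega), zero_mul, zero_mul]
  have h1 := (HNq_P r i hq).finrank_range_add_finrank_ker
  rw [LinearMap.range_eq_top.mpr hsurj, finrank_top, HNq_finrank, Module.finrank_pi_fintype] at h1
  simp only [HNq_finrank, Finset.sum_const, Finset.card_univ, Fintype.card_fin, smul_eq_mul] at h1
  have h2 : Module.finrank k (degN (Nq r q) i) =
      Module.finrank k (LinearMap.ker (HNq_P r i hq)) := by
    rw [HNq_ker hr hq]
    exact (Submodule.equivMapOfInjective _ (HNq_E_inj hr) _).finrank_eq.symm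
  rw [hN, h2]
  have h3 : ((i + nu + 1 : ℕ) : ℤ) + (Module.finrank k (LinearMap.ker (HNq_P r i hq)) : ℤ) =
      ((r + 1) * (i + 1) : ℕ) := by exact_mod_cast h1
  push_cast at h3
  linarith

end MP_06793c_ag
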