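import Pool.Agent.Lib.MP_06793c_ag.PG.Red
import Pool.Agent.Lib.MP_06793c_ag.PG.Ali
import Pool.Agent.Lib.MP_06793c_ag.PG.Rnk
import Pool.Agent.Lib.MP_06793c_ag.PG.Ker
import Pool.Agent.Lib.MP_06793c_ag.PG.HNq
import Pool.Agent.Lib.MP_06793c_ag.PG.HK

/-!
# The genus of `KN` in degrees one and two
Plan: KN k m ⊤ = (X 2, X 3)^m; hN ⊤ n = (m+1)(n+1). (For m = 0 it is ⊤ with hf = 0, for m = 1 it is
(X 2, X 3) with hf n = n + 1.) hf_KN_sub with N' = ⊤: hf (KN N) (n+m) = hf (KN ⊤) (n+m) + hN ⊤ n - hN N n.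
m = 0: exists_rank: N = ⊤ impossible (hf = 0); else r = 0, N = 0 (Rk 0), hN = 0, hf (KN N) n = n + 1, so
d = 1, g = 0. m = 1: N = ⊤ impossible for d = 2; otherwise reduce_V, align_V, exists_q give a curve
KN (Nq r q) with the same (d, g), r ≤ 1, and hN_Nq: hf (n+1) = (n + 2) + 2(n+1) - (r+1)(n+1) + (n + nu + 1); d = 2
forces r = 1 and 1 - g = nu + 1.
-/

namespace MP_06793c_ag

open MvPolynomial

universe u

variable {k : Type u} [Field k] {m : ℕ}

private theorem LowG_finite (n : ℕ) : Module.Finite k (homogeneousSubmodule (Fin 2) k n) :=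
  Module.Finite.iff_fg.2 (homogeneousSubmodule_fg (Fin 2) k n)

private noncomputable def LowG_ex (n i : ℕ) : Fin 2 →₀ ℕ := Finsupp.single 0 i + Finsupp.single 1 (n - i)

private theorem LowG_ex0 (n i : ℕ) : LowG_ex n i 0 = i := by simp [LowG_ex]

private theorem LowG_ex1 (n i : ℕ) : LowG_ex n i 1 = n - i := by simp [LowG_ex]

private theorem LowG_deg2 (d : Fin 2 →₀ ℕ) : d.degree = d 0 + d 1 := by
  rw [Finsupp.degree_eq_sum, Fin.sum_univ_two]

private theorem LowG_fin (n : ℕ) :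
    Module.finrank k (homogeneousSubmodule (Fin 2) k n) = n + 1 := by
  let Φ : homogeneousSubmodule (Fin 2) k n →ₗ[k] (Fin (n + 1) → k) :=
    { toFun := fun p i => coeff (LowG_ex n i) p.1
      map_add' := fun p q => by ext i; simp
      map_smul' := fun c p => by ext i; simp }
  have hinj : Function.Injective Φ := by
    rw [injective_iff_map_eq_zero]
    intro p hp
    apply Subtype.ext
    ext d
    rw [ZeroMemClass.coe_zero, coeff_zero]
    by_cases hd : d.degree = n
    · rw [LowG_deg2] at hd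
      have h1 : d = LowG_ex n (d 0) := by
        ext i
        fin_cases i
        · exact (LowG_ex0 n (d 0)).symm
        · change d 1 = _
          rw [show LowG_ex n (d 0) ⟨1, _⟩ = LowG_ex n (d 0) 1 from rfl, LowG_ex1]
          omega
      have h2 := congrFun hp ⟨d 0, by omega⟩
      rw [h1]
      exact h2
    · exact IsHomogeneous.coeff_eq_zero p.2 hd
  have hsurj : Function.Surjective Φ := by
    intro c
    refine ⟨⟨∑ i : Fin (n + 1), monomial (LowG_ex n i) (c i), ?_⟩, ?_⟩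
    · refine Submodule.sum_mem _ fun i _ => ?_
      refine isHomogeneous_monomial _ ?_
      have := i.2
      rw [LowG_deg2, LowG_ex0, LowG_ex1]
      omega
    · ext j
      change coeff (LowG_ex n j) (∑ i : Fin (n + 1), monomial (LowG_ex n i) (c i)) = c j
      rw [coeff_sum, Finset.sum_eq_single j]
      · simp
      · intro i _ hij
        rw [coeff_monomial, if_neg]
        intro h
        have h0 := DFunLike.congr_fun h 0
        rw [LowG_ex0, LowG_ex0] at h0
        exact hij (Fin.ext h0)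
      · simp
  rw [(LinearEquiv.ofBijective Φ ⟨hinj, hsurj⟩).finrank_eq, Module.finrank_fin_fun]

private theorem LowG_hN_top (n : ℕ) :
    hN (⊤ : Submodule (R k) (Fin (m + 1) → R k)) n = (m + 1) * (n + 1) := by
  let e : degN (⊤ : Submodule (R k) (Fin (m + 1) → R k)) n ≃ₗ[k]
      (Fin (m + 1) → homogeneousSubmodule (Fin 2) k n) :=
    { toFun := fun v j => ⟨v.1 j, v.2.2 j (Set.mem_univ j)⟩
      map_add' := fun v w => by ext j; rfl
      map_smul' := fun c v => by ext j; rfl
      invFun := fun w => ⟨fun j => (w j).1, Submodule.mem_top, fun j _ => (w j).2⟩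
      left_inv := fun v => by ext j; rfl
      right_inv := fun w => by ext j; rfl }
  have := LowG_finite (k := k) n
  rw [hN, e.finrank_eq, Module.finrank_pi_fintype]
  simp [LowG_fin]

private theorem LowG_hN_bot (n : ℕ) : hN (⊥ : Submodule (R k) (Fin (m + 1) → R k)) n = 0 := by
  have : degN (⊥ : Submodule (R k) (Fin (m + 1) → R k)) n = ⊥ := by
    rw [eq_bot_iff]
    intro v hv
    have h1 : v ∈ (⊥ : Submodule (R k) (Fin (m + 1) → R k)) := hv.1
    simpa using h1
  rw [hN, this, finrank_bot]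
  rfl

private theorem LowG_gr_top : Gr (⊤ : Submodule (R k) (Fin (m + 1) → R k)) :=
  fun _ _ _ => Submodule.mem_top

private theorem LowG_gr_bot : Gr (⊥ : Submodule (R k) (Fin (m + 1) → R k)) := by
  intro v hv i
  rw [Submodule.mem_bot] at hv ⊢
  subst hv
  ext1 j
  simp

private theorem LowG_hf_top (n : ℕ) : hf k (⊤ : Ideal (S k)) n = 0 := by
  have : ((⊤ : Ideal (S k)).restrictScalars k ⊓ deg k n : Submodule k (S k)) = deg k n := by
    rw [Submodule.restrictScalars_top, top_inf_eq]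
  rw [hf, this, sub_self]

private theorem LowG_KN0_top :
    KN k 0 ((⊤ : Submodule (R k) (Fin (0 + 1) → R k)) : Set (Fin (0 + 1) → R k)) = ⊤ := by
  rw [Ideal.eq_top_iff_one]
  refine Ideal.mem_sup_left (Ideal.subset_span ⟨fun _ => 1, Submodule.mem_top, ?_⟩)
  simp [em, mon]

private theorem LowG_KN0_bot :
    KN k 0 ((⊥ : Submodule (R k) (Fin (0 + 1) → R k)) : Set (Fin (0 + 1) → R k)) =
      Ideal.span {X 2, X 3} := by
  change Ideal.span (em k 0 '' ((⊥ : Submodule (R k) (Fin (0 + 1) → R k)) : Set _)) ⊔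
    (Ideal.span {X 2, X 3}) ^ 1 = _
  rw [pow_one, sup_eq_right, Ideal.span_le]
  rintro _ ⟨v, hv, rfl⟩
  have hv : v = 0 := hv
  subst hv
  simp [em]

private theorem LowG_KN1_top :
    KN k 1 ((⊤ : Submodule (R k) (Fin (1 + 1) → R k)) : Set (Fin (1 + 1) → R k)) =
      Ideal.span {X 2, X 3} := by
  have h2 : (X 2 : S k) ∈ (Ideal.span {X 2, X 3} : Ideal (S k)) := Ideal.subset_span (by simp)
  have h3 : (X 3 : S k) ∈ (Ideal.span {X 2, X 3} : Ideal (S k)) := Ideal.subset_span (by simp)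
  apply le_antisymm
  · refine sup_le ?_ (Ideal.pow_le_self (by norm_num))
    rw [Ideal.span_le]
    rintro _ ⟨v, -, rfl⟩
    refine Ideal.sum_mem _ fun j _ => Ideal.mul_mem_left _ _ ?_
    have hj := j.2
    have : (j : ℕ) = 0 ∨ (j : ℕ) = 1 := by omega
    rcases this with h | h
    · simpa [mon, h] using h3
    · simpa [mon, h] using h2
  · rw [Ideal.span_le]
    rintro x hx
    refine Ideal.mem_sup_left (Ideal.subset_span ?_)
    rcases hx with rfl | hx
    · exact ⟨Pi.single 1 1, Submodule.mem_top, by simp [em, mon, Fin.sum_univ_two]⟩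
    · rw [Set.mem_singleton_iff] at hx
      subst hx
      exact ⟨Pi.single 0 1, Submodule.mem_top, by simp [em, mon, Fin.sum_univ_two]⟩

private theorem LowG_hf0 {N : Submodule (R k) (Fin (0 + 1) → R k)} (hG : Gr N) (n : ℕ) :
    hf k (KN k 0 (N : Set (Fin (0 + 1) → R k))) n = n + 1 - hN N n := by
  have h := hf_KN_sub hG (LowG_gr_top (k := k) (m := 0)) n
  rw [add_zero, LowG_KN0_top, LowG_hf_top, LowG_hN_top] at h
  push_cast at h
  linarith

private theorem LowG_hf1 {N : Submodule (R k) (Fin (1 + 1) → R k)} (hG : Gr N) (n : ℕ) :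
    hf k (KN k 1 (N : Set (Fin (1 + 1) → R k))) (n + 1) = 3 * n + 4 - hN N n := by
  have h := hf_KN_sub hG (LowG_gr_top (k := k) (m := 1)) n
  have h0 := LowG_hf0 (LowG_gr_bot (k := k) (m := 0)) (n + 1)
  rw [LowG_KN0_bot, LowG_hN_bot] at h0
  rw [LowG_KN1_top, h0, LowG_hN_top] at h
  push_cast at h
  linarith

theorem genus_zero [IsAlgClosed k] {d : ℕ} {g : ℤ} {N : Submodule (R k) (Fin (0 + 1) → R k)}
    (hG : Gr N) (hS : Sat N) (hC : IsCurve k d g (KN k 0 (N : Set (Fin (0 + 1) → R k)))) :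
    g = 0 := by
  obtain ⟨n₀, hn⟩ := hC.hilb
  have hpos := hC.pos
  have e1 := hn n₀ le_rfl
  have e2 := hn (n₀ + 1) (Nat.le_succ _)
  rw [LowG_hf0 hG] at e1 e2
  rcases exists_rank hS with rfl | ⟨r, hr, hR, -⟩
  · rw [LowG_hN_top] at e1 e2
    push_cast at e1 e2
    have : (d : ℤ) = 0 := by linarith
    omega
  · obtain rfl : r = 0 := by omega
    have hN0 : N = ⊥ := by
      rw [eq_bot_iff]
      intro v hv
      rw [Submodule.mem_bot]
      by_contra hne
      have : Subsingleton (Fin (0 + 1)) := inferInstanceAs (Subsingleton (Fin 1))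
      exact hR (fun _ => v) (fun _ => hv) (LinearIndependent.of_subsingleton (v := fun _ => v) 0 hne)
    subst hN0
    rw [LowG_hN_bot] at e1 e2
    push_cast at e1 e2
    have : (d : ℤ) = 1 := by linarith
    rw [this] at e1
    linarith

theorem genus_nonpos [IsAlgClosed k] {g : ℤ} {N : Submodule (R k) (Fin (1 + 1) → R k)}
    (hG : Gr N) (hS : Sat N) (hC : IsCurve k 2 g (KN k 1 (N : Set (Fin (1 + 1) → R k)))) :
    g ≤ 0 := by
  rcases exists_rank hS with rfl | ⟨r, hr, hR, hI⟩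
  · exfalso
    obtain ⟨n₀, hn⟩ := hC.hilb
    have e1 := hn (n₀ + 1) (Nat.le_succ _)
    have e2 := hn (n₀ + 1 + 1) (by omega)
    rw [LowG_hf1 hG, LowG_hN_top] at e1 e2
    push_cast at e1 e2
    linarith
  · obtain ⟨N₁, hG₁, hS₁, hR₁, hI₁, -, hC₁, V, hV, hNV⟩ := reduce_V hr hG hS hR hI hC
    obtain ⟨N₂, hG₂, hS₂, hR₂, hI₂, -, hC₂, h0⟩ := align_V hr hG₁ hS₁ hR₁ hI₁ hC₁ V hV hNV
    obtain ⟨nu, q, hq, hz, hq0, rfl⟩ := exists_q hr hG₂ hS₂ hR₂ hI₂ h0
    obtain ⟨i₀, hi⟩ := hN_Nq hr hq hz hq0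
    obtain ⟨n₀, hn⟩ := hC₂.hilb
    have e1 := hn (n₀ + i₀ + 1) (by omega)
    have e2 := hn (n₀ + i₀ + 1 + 1) (by omega)
    rw [LowG_hf1 hG₂, hi _ (by omega)] at e1 e2
    push_cast at e1 e2
    have hr' : r = 0 ∨ r = 1 := by omega
    rcases hr' with rfl | rfl
    · push_cast at e1 e2
      linarith
    · push_cast at e1
      linarith [Int.natCast_nonneg nu]

end MP_06793c_ag
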