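import Pool.Agent.Lib.MP_06793c_ag.PG.Defs

/-!
# A commutative semigroup with the relations of lines and double lines

Normal forms: `L`, `D a * D 0 ^ j`, `L * (D a * D 0 ^ j)`. By induction every `Gn` element is of one
of these forms. The types are `(1, 1)`, `(2 + 2 j, a + 1 + j)`, `(3 + 2 j, a + 2 + j)`: they
determine the form.
-/

namespace MP_06793c_ag

open MvPolynomial

universe u

variable {k : Type u} [Field k] {m : ℕ}

/-- Products of the generators `L` and `D a`. -/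
inductive Gn {M : Type u} [CommSemigroup M] (L : M) (D : ℕ → M) : M → Prop
  | one : Gn L D L
  | two (a : ℕ) : Gn L D (D a)
  | mulL (x : M) : Gn L D x → Gn L D (L * x)
  | mulD (a : ℕ) (x : M) : Gn L D x → Gn L D (D a * x)

/-- The product `D a * D 0 ^ j`. -/
def Sg_pw {M : Type u} [CommSemigroup M] (D : ℕ → M) (a : ℕ) : ℕ → M
  | 0 => D a
  | j + 1 => Sg_pw D a j * D 0

private theorem Sg_mulD {M : Type u} [CommSemigroup M] {D : ℕ → M}
    (h2 : ∀ a b, D a * D b = D (a + b) * D 0) (a b : ℕ) :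
    ∀ j, D b * Sg_pw D a j = Sg_pw D (b + a) (j + 1) := by
  intro j
  induction j with
  | zero => exact h2 b a
  | succ j ih =>
    change D b * (Sg_pw D a j * D 0) = Sg_pw D (b + a) (j + 1) * D 0
    rw [← mul_assoc, ih]

private theorem Sg_form {M : Type u} [CommSemigroup M] {L : M} {D : ℕ → M} (h1 : L * L = D 1)
    (h2 : ∀ a b, D a * D b = D (a + b) * D 0) {x : M} (hx : Gn L D x) :
    x = L ∨ (∃ a j, x = Sg_pw D a j) ∨ ∃ a j, x = L * Sg_pw D a j := by
  induction hx with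
  | one => exact Or.inl rfl
  | two a => exact Or.inr (Or.inl ⟨a, 0, rfl⟩)
  | mulL x _ ih =>
    rcases ih with rfl | ⟨a, j, rfl⟩ | ⟨a, j, rfl⟩
    · exact Or.inr (Or.inl ⟨1, 0, h1⟩)
    · exact Or.inr (Or.inr ⟨a, j, rfl⟩)
    · refine Or.inr (Or.inl ⟨1 + a, j + 1, ?_⟩)
      rw [← mul_assoc, h1, Sg_mulD h2]
  | mulD b x _ ih =>
    rcases ih with rfl | ⟨a, j, rfl⟩ | ⟨a, j, rfl⟩
    · exact Or.inr (Or.inr ⟨b, 0, mul_comm _ _⟩)
    · exact Or.inr (Or.inl ⟨b + a, j + 1, Sg_mulD h2 a b j⟩)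
    · refine Or.inr (Or.inr ⟨b + a, j + 1, ?_⟩)
      rw [mul_left_comm, Sg_mulD h2]

private theorem Sg_typ {M : Type u} [CommSemigroup M] {D : ℕ → M} (typ : M → ℕ × ℤ)
    (ht : ∀ x y, typ (x * y) = typ x + typ y) (tD : ∀ a : ℕ, typ (D a) = (2, (a : ℤ) + 1)) (a : ℕ) :
    ∀ j : ℕ, typ (Sg_pw D a j) = (2 + 2 * j, (a : ℤ) + 1 + j) := by
  intro j
  induction j with
  | zero => simpa [Sg_pw] using tD a
  | succ j ih =>
    change typ (Sg_pw D a j * D 0) = _
    rw [ht, ih, tD]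
    refine Prod.ext ?_ ?_
    · simp only [Prod.fst_add]; ring
    · simp only [Prod.snd_add]; push_cast; ring

theorem sg_inj {M : Type u} [CommSemigroup M] {L : M} {D : ℕ → M} (h1 : L * L = D 1)
    (h2 : ∀ a b, D a * D b = D (a + b) * D 0) (typ : M → ℕ × ℤ)
    (ht : ∀ x y, typ (x * y) = typ x + typ y) (tL : typ L = (1, 1))
    (tD : ∀ a : ℕ, typ (D a) = (2, (a : ℤ) + 1)) {x y : M} (hx : Gn L D x) (hy : Gn L D y)
    (h : typ x = typ y) : x = y := by
  have hP := Sg_typ typ ht tD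
  have hL : ∀ a j : ℕ, typ (L * Sg_pw D a j) = (3 + 2 * j, (a : ℤ) + 2 + j) := by
    intro a j
    rw [ht, tL, hP]
    refine Prod.ext ?_ ?_
    · simp only [Prod.fst_add]; ring
    · simp only [Prod.snd_add]; ring
  rcases Sg_form h1 h2 hx with rfl | ⟨a, j, rfl⟩ | ⟨a, j, rfl⟩ <;>
  rcases Sg_form h1 h2 hy with rfl | ⟨a', j', rfl⟩ | ⟨a', j', rfl⟩ <;>
  simp only [hP, hL, tL, Prod.mk.injEq] at h
  · rfl
  · omega
  · omega
  · omega
  · obtain ⟨h3, h4⟩ := h
    obtain rfl : j = j' := by omega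
    obtain rfl : a = a' := by omega
    rfl
  · omega
  · omega
  · omega
  · obtain ⟨h3, h4⟩ := h
    obtain rfl : j = j' := by omega
    obtain rfl : a = a' := by omega
    rfl

end MP_06793c_ag
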