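import Pool.Agent.Lib.MP_06793c_ag.PG.Dv
import Pool.Agent.Lib.MP_06793c_ag.PG.Mem

/-!
# The union of two double lines
`TT` moves the line x2 = x3 = 0 to the line x2 = x0, x3 = x1.
Plan: TT is invertible (determinant 1: lower triangular or compute). dis1: both ideals contain powers:
(X 2, X 3)^2 ≤ first, (X 2 - X 0, X 3 - X 1)^2 ≤ second: X 2^2, X 3^2, (X 2 - X 0)^2, (X 3 - X 1)^2 in the sum, so
X 0, X 1, X 2, X 3 are in the radical; mm^N ≤ sum. dis2: sub TT fixes X 0, X 1: the second ideal + (X 0, X 1) contains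
(X 2 - X 0)^2, .... inj_union: f = io α + io β X 2 + io γ X 3 (f ∈ lt 2), homogeneous. Evaluate in the dual
numbers k[ε] (DualNumber k or TrivSqZeroExt): φ1 : x0 ↦ p0, x1 ↦ p1, x2 ↦ q1(p) ε, x3 ↦ q0(p) ε kills
KN k 1 (Nq 1 q) and l = io (lp p), φ2 : x2 ↦ p0 + q1'(p) ε, x3 ↦ p1 + q0'(p) ε kills the second ideal
(φ2 ∘ sub TT = φ1 for q') and l. So α(p) = 0, β q1 + γ q0 = 0, α + β p0 + γ p1 = 0, β q1' + γ q0' = 0 at p; if
(β, γ)(p) ≠ 0 then p0 q0 = p1 q1 and p0 q0' = p1 q1' at p, excluded by hc. So lp p divides α, β, γ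
(dvd_of_eval; α, β, γ homogeneous of degrees n, n-1, n-1).
-/

namespace MP_06793c_ag

open MvPolynomial

universe u

variable {k : Type u} [Field k] {m : ℕ}

/-- The substitution `x2 ↦ x2 - x0`, `x3 ↦ x3 - x1`. -/
def TT : Matrix (Fin 4) (Fin 4) k := !![1, 0, 0, 0; 0, 1, 0, 0; -1, 0, 1, 0; 0, -1, 0, 1]

theorem det_TT : IsUnit (TT (k := k)).det := by
  have h : (TT (k := k)).det = 1 := by
    simp [TT, Matrix.det_succ_row_zero, Fin.sum_univ_succ]
  rw [h]
  exact isUnit_one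

private theorem UTr_sub0 : sub (TT (k := k)) (X 0 : S k) = (X 0 : S k) := by
  simp [sub, TT, Fin.sum_univ_four]

private theorem UTr_sub1 : sub (TT (k := k)) (X 1 : S k) = (X 1 : S k) := by
  simp [sub, TT, Fin.sum_univ_four]

private theorem UTr_sub2 : sub (TT (k := k)) (X 2 : S k) = (X 2 - X 0 : S k) := by
  simp [sub, TT, Fin.sum_univ_four]
  ring

private theorem UTr_sub3 : sub (TT (k := k)) (X 3 : S k) = (X 3 - X 1 : S k) := by
  simp [sub, TT, Fin.sum_univ_four]
  ring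

private theorem UTr_sq2 (s : Set (Fin (1 + 1) → R k)) : (X 2 : S k) ^ 2 ∈ KN k 1 s :=
  Ideal.mem_sup_right (Ideal.pow_mem_pow (Ideal.subset_span (by simp)) _)

private theorem UTr_sq3 (s : Set (Fin (1 + 1) → R k)) : (X 3 : S k) ^ 2 ∈ KN k 1 s :=
  Ideal.mem_sup_right (Ideal.pow_mem_pow (Ideal.subset_span (by simp)) _)

private theorem UTr_tsq2 (s : Set (Fin (1 + 1) → R k)) :
    (X 2 - X 0 : S k) ^ 2 ∈ tr (TT (k := k)) (KN k 1 s) := by
  have h := Ideal.mem_map_of_mem (sub (TT (k := k))) (UTr_sq2 s)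
  rwa [map_pow, UTr_sub2] at h

private theorem UTr_tsq3 (s : Set (Fin (1 + 1) → R k)) :
    (X 3 - X 1 : S k) ^ 2 ∈ tr (TT (k := k)) (KN k 1 s) := by
  have h := Ideal.mem_map_of_mem (sub (TT (k := k))) (UTr_sq3 s)
  rwa [map_pow, UTr_sub3] at h

private theorem UTr_rad {J : Ideal (S k)} (h : ∀ i : Fin 4, (X i : S k) ∈ J.radical) :
    ∃ N : ℕ, mm k ^ N ≤ J := by
  apply Ideal.exists_pow_le_of_le_radical_of_fg
  · rw [mm, idealOfVars, Ideal.span_le]
    rintro _ ⟨i, rfl⟩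
    exact h i
  · exact IsNoetherian.noetherian _

theorem dis_union (s s' : Set (Fin (1 + 1) → R k)) :
    Dis k (KN k 1 s) (tr (TT (k := k)) (KN k 1 s')) := by
  apply UTr_rad
  have h2 : (X 2 : S k) ∈ (KN k 1 s ⊔ tr (TT (k := k)) (KN k 1 s')).radical :=
    ⟨2, Ideal.mem_sup_left (UTr_sq2 s)⟩
  have h3 : (X 3 : S k) ∈ (KN k 1 s ⊔ tr (TT (k := k)) (KN k 1 s')).radical :=
    ⟨2, Ideal.mem_sup_left (UTr_sq3 s)⟩
  have h4 : (X 2 - X 0 : S k) ∈ (KN k 1 s ⊔ tr (TT (k := k)) (KN k 1 s')).radical :=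
    ⟨2, Ideal.mem_sup_right (UTr_tsq2 s')⟩
  have h5 : (X 3 - X 1 : S k) ∈ (KN k 1 s ⊔ tr (TT (k := k)) (KN k 1 s')).radical :=
    ⟨2, Ideal.mem_sup_right (UTr_tsq3 s')⟩
  have h0 : (X 0 : S k) ∈ (KN k 1 s ⊔ tr (TT (k := k)) (KN k 1 s')).radical := by
    have := Ideal.sub_mem _ h2 h4
    rwa [sub_sub_cancel] at this
  have h1 : (X 1 : S k) ∈ (KN k 1 s ⊔ tr (TT (k := k)) (KN k 1 s')).radical := by
    have := Ideal.sub_mem _ h3 h5
    rwa [sub_sub_cancel] at this
  intro i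
  fin_cases i
  · exact h0
  · exact h1
  · exact h2
  · exact h3

theorem dis_TT (s' : Set (Fin (1 + 1) → R k)) :
    Dis k (tr (TT (k := k)) (KN k 1 s')) (Ideal.span {X 0, X 1}) := by
  apply UTr_rad
  have h0 : (X 0 : S k) ∈ (tr (TT (k := k)) (KN k 1 s') ⊔ Ideal.span {X 0, X 1}).radical :=
    Ideal.le_radical (Ideal.mem_sup_right (Ideal.subset_span (by simp)))
  have h1 : (X 1 : S k) ∈ (tr (TT (k := k)) (KN k 1 s') ⊔ Ideal.span {X 0, X 1}).radical :=
    Ideal.le_radical (Ideal.mem_sup_right (Ideal.subset_span (by simp)))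
  have h4 : (X 2 - X 0 : S k) ∈ (tr (TT (k := k)) (KN k 1 s') ⊔ Ideal.span {X 0, X 1}).radical :=
    ⟨2, Ideal.mem_sup_left (UTr_tsq2 s')⟩
  have h5 : (X 3 - X 1 : S k) ∈ (tr (TT (k := k)) (KN k 1 s') ⊔ Ideal.span {X 0, X 1}).radical :=
    ⟨2, Ideal.mem_sup_left (UTr_tsq3 s')⟩
  have h2 : (X 2 : S k) ∈ (tr (TT (k := k)) (KN k 1 s') ⊔ Ideal.span {X 0, X 1}).radical := by
    have := Ideal.add_mem _ h4 h0
    rwa [sub_add_cancel] at this
  have h3 : (X 3 : S k) ∈ (tr (TT (k := k)) (KN k 1 s') ⊔ Ideal.span {X 0, X 1}).radical := by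
    have := Ideal.add_mem _ h5 h1
    rwa [sub_add_cancel] at this
  intro i
  fin_cases i
  · exact h0
  · exact h1
  · exact h2
  · exact h3

/-- the part of `f` of degree `j` in `x2, x3` -/
private noncomputable def UTr_part (j : ℕ) (f : S k) : S k :=
  ∑ s ∈ f.support.filter (fun s => s 2 + s 3 = j), monomial s (coeff s f)

private theorem UTr_coeff (j : ℕ) (f : S k) (s : Fin 4 →₀ ℕ) :
    coeff s (UTr_part j f) = if s 2 + s 3 = j then coeff s f else 0 := by
  classical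
  unfold UTr_part
  rw [coeff_sum]
  simp only [coeff_monomial]
  rw [Finset.sum_ite_eq' (f.support.filter (fun s => s 2 + s 3 = j)) s]
  by_cases h : s 2 + s 3 = j
  · by_cases h' : coeff s f = 0
    · simp [h, h']
    · rw [if_pos, if_pos h]
      simp [h, h']
  · rw [if_neg h, if_neg]
    simp [h]

private theorem UTr_part_supp (j : ℕ) (f : S k) : ∀ s ∈ (UTr_part j f).support, s 2 + s 3 = j := by
  intro s hs
  by_contra h
  rw [mem_support_iff, UTr_coeff, if_neg h] at hs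
  exact hs rfl

private theorem UTr_part_homog (j : ℕ) {f : S k} {n : ℕ} (hf : f.IsHomogeneous n) :
    (UTr_part j f).IsHomogeneous n := by
  intro s hs
  rw [UTr_coeff] at hs
  apply hf
  intro h
  apply hs
  rw [h, ite_self]

private theorem UTr_split {n : ℕ} {f : S k} (hf : f.IsHomogeneous n) (hl : f ∈ lt k 2) :
    ∃ α β γ : R k, f = io k α + io k β * X 2 + io k γ * X 3 ∧ α.IsHomogeneous n ∧
      β.IsHomogeneous (n - 1) ∧ γ.IsHomogeneous (n - 1) := by
  have hsum : f = UTr_part 0 f + UTr_part 1 f := by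
    ext s
    rw [coeff_add, UTr_coeff, UTr_coeff]
    by_cases hs : coeff s f = 0
    · simp [hs]
    · have h1 : s 2 + s 3 < 2 := hl s (mem_support_iff.2 hs)
      have h2 : s 2 + s 3 = 0 ∨ s 2 + s 3 = 1 := by omega
      rcases h2 with h2 | h2
      · rw [if_pos h2, if_neg (by omega), add_zero]
      · rw [if_neg (by omega), if_pos h2, zero_add]
  obtain ⟨v0, hv0⟩ := exists_em (m := 0) (UTr_part_supp 0 f)
  obtain ⟨v1, hv1⟩ := exists_em (m := 1) (UTr_part_supp 1 f)
  have h0 : HomV n v0 := by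
    rw [em_homog, ← hv0, add_zero]
    exact UTr_part_homog 0 hf
  have h1 : HomV (n - 1) v1 := by
    rcases Nat.eq_zero_or_pos n with hn | hn
    · have hz : UTr_part 1 f = 0 := by
        ext s
        rw [coeff_zero]
        by_contra hs
        have h2 := UTr_part_homog 1 hf hs
        have h3 := UTr_part_supp 1 f s (mem_support_iff.2 hs)
        rw [hn] at h2
        have h4 : s.degree = 0 := by
          rw [← h2, Finsupp.degree_eq_weight_one]
          rfl
        rw [Finsupp.degree_eq_zero_iff] at h4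
        rw [h4] at h3
        simp at h3
      have h2 : v1 = 0 := by
        apply em_inj (m := 1)
        rw [← hv1, hz]
        simp [em]
      rw [h2]
      intro j
      exact isHomogeneous_zero _ _ _
    · rw [em_homog, ← hv1, Nat.sub_add_cancel hn]
      exact UTr_part_homog 1 hf
  refine ⟨v0 0, v1 1, v1 0, ?_, h0 0, h1 1, h1 0⟩
  conv_lhs => rw [hsum, hv0, hv1]
  simp [em, mon, Fin.sum_univ_two]
  ring

/-- evaluation in the dual numbers -/
private noncomputable def UTr_phi (p : Fin 2 → k) (a b c d : k) : S k →ₐ[k] DualNumber k :=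
  aeval ![TrivSqZeroExt.inl (p 0), TrivSqZeroExt.inl (p 1),
    TrivSqZeroExt.inl a + TrivSqZeroExt.inr b, TrivSqZeroExt.inl c + TrivSqZeroExt.inr d]

private theorem UTr_phi_io (p : Fin 2 → k) (a b c d : k) (r : R k) :
    UTr_phi p a b c d (io k r) = TrivSqZeroExt.inl (eval p r) := by
  unfold UTr_phi io
  rw [aeval_rename]
  have h : (![TrivSqZeroExt.inl (p 0), TrivSqZeroExt.inl (p 1),
      TrivSqZeroExt.inl a + TrivSqZeroExt.inr b, TrivSqZeroExt.inl c + TrivSqZeroExt.inr d] :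
      Fin 4 → DualNumber k) ∘ (![0, 1] : Fin 2 → Fin 4) = algebraMap k (DualNumber k) ∘ p := by
    funext i
    fin_cases i <;> rfl
  rw [h, aeval_algebraMap_apply]
  rfl

private theorem UTr_phi2 (p : Fin 2 → k) (a b c d : k) :
    UTr_phi p a b c d (X 2) = TrivSqZeroExt.inl a + TrivSqZeroExt.inr b := by
  unfold UTr_phi
  rw [aeval_X]
  rfl

private theorem UTr_phi3 (p : Fin 2 → k) (a b c d : k) :
    UTr_phi p a b c d (X 3) = TrivSqZeroExt.inl c + TrivSqZeroExt.inr d := by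
  unfold UTr_phi
  rw [aeval_X]
  rfl

private theorem UTr_fst (p : Fin 2 → k) (a b c d : k) (α β γ : R k) :
    (UTr_phi p a b c d (io k α + io k β * X 2 + io k γ * X 3)).fst =
      eval p α + eval p β * a + eval p γ * c := by
  rw [map_add, map_add, map_mul, map_mul, UTr_phi_io, UTr_phi_io, UTr_phi_io, UTr_phi2, UTr_phi3]
  simp

private theorem UTr_snd (p : Fin 2 → k) (a b c d : k) (α β γ : R k) :
    (UTr_phi p a b c d (io k α + io k β * X 2 + io k γ * X 3)).snd =
      eval p β * b + eval p γ * d := by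
  rw [map_add, map_add, map_mul, map_mul, UTr_phi_io, UTr_phi_io, UTr_phi_io, UTr_phi2, UTr_phi3]
  simp

private theorem UTr_kill (q : Fin (1 + 1) → R k) (p : Fin 2 → k) :
    KN k 1 (Nq 1 q : Set (Fin (1 + 1) → R k)) ≤
      RingHom.ker (UTr_phi p 0 (eval p (q 1)) 0 (eval p (q 0))) := by
  rw [KN, sup_le_iff]
  constructor
  · rw [Ideal.span_le]
    rintro _ ⟨v, hv, rfl⟩
    have hv' : ∑ j, q j * v j = 0 := hv.2
    rw [SetLike.mem_coe, RingHom.mem_ker]
    have h1 : em k 1 v = io k 0 + io k (v 1) * X 2 + io k (v 0) * X 3 := by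
      simp [em, mon, Fin.sum_univ_two]
      ring
    have h2 : eval p (q 0) * eval p (v 0) + eval p (q 1) * eval p (v 1) = 0 := by
      have h3 := congrArg (eval p) hv'
      rw [Fin.sum_univ_two, map_add, map_mul, map_mul, map_zero] at h3
      exact h3
    rw [h1]
    refine TrivSqZeroExt.ext ?_ ?_
    · rw [UTr_fst]
      simp
    · rw [UTr_snd, TrivSqZeroExt.snd_zero]
      linear_combination h2
  · have h1 : (Ideal.span {X 2, X 3} : Ideal (S k)).map
        (UTr_phi p 0 (eval p (q 1)) 0 (eval p (q 0))) ≤ Ideal.span {DualNumber.eps} := by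
      rw [Ideal.map_span, Ideal.span_le]
      rintro _ ⟨x, hx, rfl⟩
      rw [SetLike.mem_coe, Ideal.mem_span_singleton]
      rcases hx with rfl | hx
      · rw [UTr_phi2]
        refine ⟨TrivSqZeroExt.inl (eval p (q 1)), ?_⟩
        refine TrivSqZeroExt.ext ?_ ?_ <;> simp
      · rw [Set.mem_singleton_iff.1 hx, UTr_phi3]
        refine ⟨TrivSqZeroExt.inl (eval p (q 0)), ?_⟩
        refine TrivSqZeroExt.ext ?_ ?_ <;> simp
    intro x hx
    rw [RingHom.mem_ker]
    have h2 := Ideal.mem_map_of_mem (UTr_phi p 0 (eval p (q 1)) 0 (eval p (q 0))) hx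
    rw [Ideal.map_pow] at h2
    have h3 := Ideal.pow_right_mono h1 (1 + 1) h2
    rw [Ideal.span_singleton_pow] at h3
    have h4 : (DualNumber.eps : DualNumber k) ^ (1 + 1) = 0 := by
      rw [pow_two]
      exact DualNumber.eps_mul_eps
    rw [h4, Ideal.mem_span_singleton, zero_dvd_iff] at h3
    exact h3

private theorem UTr_comp (p : Fin 2 → k) (b d : k) :
    (UTr_phi p (p 0) b (p 1) d : S k →+* DualNumber k).comp (sub (TT (k := k))) =
      (UTr_phi p 0 b 0 d : S k →+* DualNumber k) := by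
  apply MvPolynomial.ringHom_ext
  · intro r
    simp [sub]
  · intro i
    rw [RingHom.comp_apply]
    fin_cases i
    · change (UTr_phi p (p 0) b (p 1) d : S k →+* DualNumber k) (sub (TT (k := k)) (X 0)) = _
      rw [UTr_sub0]
      simp [UTr_phi]
    · change (UTr_phi p (p 0) b (p 1) d : S k →+* DualNumber k) (sub (TT (k := k)) (X 1)) = _
      rw [UTr_sub1]
      simp [UTr_phi]
    · change (UTr_phi p (p 0) b (p 1) d : S k →+* DualNumber k) (sub (TT (k := k)) (X 2)) = _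
      rw [UTr_sub2]
      simp [UTr_phi]
    · change (UTr_phi p (p 0) b (p 1) d : S k →+* DualNumber k) (sub (TT (k := k)) (X 3)) = _
      rw [UTr_sub3]
      simp [UTr_phi]

theorem inj_union {a b : ℕ} {q q' : Fin (1 + 1) → R k} (hq : HomV a q) (hq' : HomV b q')
    (hc : ∀ p : Fin 2 → k, p ≠ 0 → ¬ (p 0 * eval p (q 0) = p 1 * eval p (q 1) ∧
      p 0 * eval p (q' 0) = p 1 * eval p (q' 1))) {p : Fin 2 → k} (hp : p ≠ 0) {n : ℕ}
    {f : S k} (hf : f.IsHomogeneous n) (hl : f ∈ lt k 2)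
    (h : f ∈ (KN k 1 (Nq 1 q : Set (Fin (1 + 1) → R k)) ⊓
      tr (TT (k := k)) (KN k 1 (Nq 1 q' : Set (Fin (1 + 1) → R k)))) ⊔
        Ideal.span {io k (lp k p)}) : io k (lp k p) ∣ f := by
  obtain ⟨α, β, γ, hfe, hα, hβ, hγ⟩ := UTr_split hf hl
  have hkl : ∀ a b c d : k, UTr_phi p a b c d (io k (lp k p)) = 0 := by
    intro a b c d
    rw [UTr_phi_io, eval_lp_self, TrivSqZeroExt.inl_zero]
  obtain ⟨g, hg, g', hg', hgf⟩ := Submodule.mem_sup.1 h
  obtain ⟨c', rfl⟩ := Ideal.mem_span_singleton.1 hg'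
  have hz1 : UTr_phi p 0 (eval p (q 1)) 0 (eval p (q 0)) f = 0 := by
    rw [← hgf, map_add, map_mul, hkl, zero_mul, add_zero]
    exact UTr_kill q p hg.1
  have hz2 : UTr_phi p (p 0) (eval p (q' 1)) (p 1) (eval p (q' 0)) f = 0 := by
    rw [← hgf, map_add, map_mul, hkl, zero_mul, add_zero]
    have h1 : tr (TT (k := k)) (KN k 1 (Nq 1 q' : Set (Fin (1 + 1) → R k))) ≤
        RingHom.ker (UTr_phi p (p 0) (eval p (q' 1)) (p 1) (eval p (q' 0))) := by
      rw [tr, Ideal.map_le_iff_le_comap]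
      intro x hx
      rw [Ideal.mem_comap, RingHom.mem_ker]
      have h2 := RingHom.congr_fun (UTr_comp p (eval p (q' 1)) (eval p (q' 0))) x
      rw [RingHom.comp_apply] at h2
      refine Eq.trans h2 ?_
      exact UTr_kill q' p hx
    exact h1 hg.2
  rw [hfe] at hz1 hz2
  have e1 := congrArg TrivSqZeroExt.fst hz1
  have e2 := congrArg TrivSqZeroExt.snd hz1
  have e3 := congrArg TrivSqZeroExt.fst hz2
  have e4 := congrArg TrivSqZeroExt.snd hz2
  rw [UTr_fst, TrivSqZeroExt.fst_zero, mul_zero, mul_zero, add_zero, add_zero] at e1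
  rw [UTr_snd, TrivSqZeroExt.snd_zero] at e2 e4
  rw [UTr_fst, TrivSqZeroExt.fst_zero, e1, zero_add] at e3
  have hbg : eval p β = 0 ∧ eval p γ = 0 := by
    by_contra hne
    have hdet : ∀ x y : k, eval p β * x + eval p γ * y = 0 → p 0 * y = p 1 * x := by
      intro x y hxy
      have h1 : eval p β * (p 0 * y - p 1 * x) = 0 := by
        linear_combination y * e3 - p 1 * hxy
      have h2 : eval p γ * (p 0 * y - p 1 * x) = 0 := by
        linear_combination p 0 * hxy - x * e3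
      rcases mul_eq_zero.1 h1 with h3 | h3
      · rcases mul_eq_zero.1 h2 with h4 | h4
        · exact absurd ⟨h3, h4⟩ hne
        · exact sub_eq_zero.1 h4
      · exact sub_eq_zero.1 h3
    exact hc p hp ⟨hdet _ _ e2, hdet _ _ e4⟩
  obtain ⟨α', -, hα'⟩ := dvd_of_eval hp hα e1
  obtain ⟨β', -, hβ'⟩ := dvd_of_eval hp hβ hbg.1
  obtain ⟨γ', -, hγ'⟩ := dvd_of_eval hp hγ hbg.2
  refine ⟨io k α' + io k β' * X 2 + io k γ' * X 3, ?_⟩
  rw [hfe, hα', hβ', hγ', map_mul, map_mul, map_mul]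
  ring

end MP_06793c_ag
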