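import Pool.Agent.Lib.MP_06793c_ag.PG.Asm
import Pool.Agent.Lib.MP_06793c_ag.PG.LowD
import Pool.Agent.Lib.MP_06793c_ag.PG.InjL
import Pool.Agent.Lib.MP_06793c_ag.PG.LowG
import Pool.Agent.Lib.MP_06793c_ag.PG.DCv
import Pool.Agent.Lib.MP_06793c_ag.PG.UTr
import Pool.Agent.Lib.MP_06793c_ag.PG.ExQ
import Pool.Agent.Lib.MP_06793c_ag.PG.Sg
import Pool.Agent.Lib.MP_06793c_ag.PG.Ln

/-!
# Unions of curves of degree one and two: assembly
-/

namespace MP_06793c_ag

open MvPolynomial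

universe u

variable {k : Type u} [Field k] {m : ℕ}

/-- If low degree forms vanishing on a section are divisible by the linear form. -/
theorem step_inj [IsAlgClosed k] {d : ℕ} {g : ℤ} {I : Ideal (S k)} (hI : IsCurve k d g I)
    (hD : Dis k I (Ideal.span {X 0, X 1})) (hdm : d ≤ m * (m + 1) / 2 + 1)
    (hi : ∀ p : Fin 2 → k, p ≠ 0 → ∀ n : ℕ, ∀ f : S k, f.IsHomogeneous n → f ∈ lt k m →
      f ∈ I ⊔ Ideal.span {io k (lp k p)} → io k (lp k p) ∣ f) :
    ∃ N : Submodule (R k) (Fin (m + 1) → R k), Gr N ∧ Sat N ∧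
      IsCurve k d g (KN k m (N : Set (Fin (m + 1) → R k))) ∧
      OneFam k d g I (KN k m (N : Set (Fin (m + 1) → R k))) :=
  step_gen hI hD hi (fun _ hp => gen_of_inj hI hD hdm
    (fun _ hp' _ hf => nzd hI hD hp' hf) hi hp)

/-- Curves of degree one and two. -/
theorem step_low [IsAlgClosed k] {d : ℕ} {g : ℤ} {I : Ideal (S k)} (hI : IsCurve k d g I)
    (hm : m ≤ 1) (hdm : d ≤ m * (m + 1) / 2 + 1) :
    ∃ N : Submodule (R k) (Fin (m + 1) → R k), Gr N ∧ Sat N ∧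
      IsCurve k d g (KN k m (N : Set (Fin (m + 1) → R k))) ∧
      SameComp k d g I (KN k m (N : Set (Fin (m + 1) → R k))) := by
  have hinf : Infinite k := IsAlgClosed.instInfinite
  obtain ⟨M, hM, hd⟩ := exists_line hI 0 1 (by decide)
  have hC := isCurve_tr hI M hM
  obtain ⟨N, hG, hS, hK, hf⟩ := step_inj (m := m) hC hd hdm
    (fun _ hp _ _ hf hl h => inj_low hC hd hm hp hf hl h)
  exact ⟨N, hG, hS, hK, sameComp_trans (sameComp_of_oneFam (oneFam_tr hI M hM))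
    (sameComp_of_oneFam hf)⟩

theorem conn_low [IsAlgClosed k] {d : ℕ} (hd : d ≤ 2) (g : ℤ) : Conn k d g := by
  intro I J hI hJ
  have hpos := hI.pos
  obtain ⟨m, hm, hdm⟩ : ∃ m : ℕ, m ≤ 1 ∧ d ≤ m * (m + 1) / 2 + 1 := by
    interval_cases d
    · exact ⟨0, by norm_num, by norm_num⟩
    · exact ⟨1, by norm_num, by norm_num⟩
  obtain ⟨N, hG, hS, hK, hf⟩ := step_low (m := m) hI hm hdm
  obtain ⟨N', hG', hS', hK', hf'⟩ := step_low (m := m) hJ hm hdm
  exact sameComp_trans hf (sameComp_trans (step_two hG hS hG' hS' hK hK') (sameComp_symm hf'))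

theorem genus_one [IsAlgClosed k] {g : ℤ} {I : Ideal (S k)} (hI : IsCurve k 1 g I) : g = 0 := by
  obtain ⟨N, hG, hS, hK, -⟩ := step_low (m := 0) hI (by norm_num) (by norm_num)
  exact genus_zero hG hS hK

theorem genus_two [IsAlgClosed k] {g : ℤ} {I : Ideal (S k)} (hI : IsCurve k 2 g I) : g ≤ 0 := by
  obtain ⟨N, hG, hS, hK, -⟩ := step_low (m := 1) hI (by norm_num) (by norm_num)
  exact genus_nonpos hG hS hK

section sg

variable [IsAlgClosed k]

variable (k) in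
theorem exists_double (a : ℕ) : ∃ I : Ideal (S k), IsCurve k 2 (-(a : ℤ)) I := by
  have hinf : Infinite k := IsAlgClosed.instInfinite
  obtain ⟨q, q', hq, hq', hz, hz', hc⟩ := exists_qq (k := k) a 0
  exact ⟨_, isCurve_Dq hq hz⟩

variable (k) in
/-- The class of a double line of genus `-a`. -/
noncomputable def DD (a : ℕ) : Comps k :=
  cl ⟨(exists_double k a).choose, 2, -(a : ℤ), (exists_double k a).choose_spec⟩

variable (k) in
/-- The class of a line. -/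
noncomputable def LL : Comps k := cl ⟨_, 1, 0, isCurve_line⟩

theorem cl_two {a : ℕ} (C : Curves k) (h : IsCurve k 2 (-(a : ℤ)) C.1) : cl C = DD k a :=
  cl_eq.mpr ⟨2, -(a : ℤ), conn_low le_rfl _ _ _ h (exists_double k a).choose_spec⟩

theorem cl_one (C : Curves k) (h : IsCurve k 1 0 C.1) : cl C = LL k :=
  cl_eq.mpr ⟨1, 0, conn_low (by norm_num) _ _ _ h isCurve_line⟩

omit [IsAlgClosed k] in
theorem typ_of {C : Curves k} {d : ℕ} {g : ℤ} (h : IsCurve k d g C.1) :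
    typ (cl C) = (d, 1 - g) := by
  obtain ⟨h1, h2⟩ := C.type_eq h
  rw [typ_cl, h1, h2]

theorem typ_DD (a : ℕ) : typ (DD k a) = (2, (a : ℤ) + 1) := by
  rw [DD, typ_of (exists_double k a).choose_spec]
  congr 1
  ring

theorem typ_LL : typ (LL k) = (1, 1) := by
  rw [LL, typ_of (isCurve_line (k := k))]
  rfl

theorem mul_LL : mulc (LL k) (LL k) = DD k 1 := by
  let C : Curves k := ⟨_, 1, 0, isCurve_line (k := k)⟩
  obtain ⟨D, h1, h2⟩ := exists_rep C C
  have hD : IsCurve k 1 0 D.1 := by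
    obtain ⟨d, g, h3⟩ := cl_eq.mp h1
    obtain ⟨rfl, rfl⟩ := type_unique (sameComp_right h3) (isCurve_line (k := k))
    exact h3.1
  have h3 : mulc (LL k) (LL k) = mulc (cl C) (cl D) := by rw [h1]; rfl
  rw [h3, mulc_cl C D h2]
  refine cl_two (a := 1) _ ?_
  have h4 := isCurve_inf (isCurve_line (k := k)) hD h2
  rw [show ((0 : ℤ) + 0 - 1) = -((1 : ℕ) : ℤ) by norm_num] at h4
  exact h4

/-- The union of two double lines in general position. -/
theorem exists_union (a b : ℕ) : ∃ U : Curves k, IsCurve k 4 (-((a : ℤ) + b) - 1) U.1 ∧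
    mulc (DD k a) (DD k b) = cl U ∧ ∃ N : Submodule (R k) (Fin (2 + 1) → R k), Gr N ∧ Sat N ∧
      IsCurve k 4 (-((a : ℤ) + b) - 1) (KN k 2 (N : Set (Fin (2 + 1) → R k))) ∧
      OneFam k 4 (-((a : ℤ) + b) - 1) U.1 (KN k 2 (N : Set (Fin (2 + 1) → R k))) := by
  have hinf : Infinite k := IsAlgClosed.instInfinite
  obtain ⟨q, q', hq, hq', hz, hz', hc⟩ := exists_qq (k := k) a b
  have c1 := isCurve_Dq hq hz
  have c2 := isCurve_tr (isCurve_Dq hq' hz') (TT (k := k)) det_TT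
  have hd := dis_union (k := k) (Nq 1 q : Set (Fin (1 + 1) → R k))
    (Nq 1 q' : Set (Fin (1 + 1) → R k))
  let C : Curves k := ⟨_, 2, _, c1⟩
  let D : Curves k := ⟨_, 2, _, c2⟩
  have c3 := isCurve_inf c1 c2 hd
  have e : (-(a : ℤ)) + (-(b : ℤ)) - 1 = -((a : ℤ) + b) - 1 := by ring
  rw [e] at c3
  refine ⟨union C D hd, c3, ?_, ?_⟩
  · rw [← cl_two C c1, ← cl_two D c2, mulc_cl C D hd]
  · exact step_inj (m := 2) c3 (dis_inf (dis_KN _) (dis_TT _)) (by norm_num)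
      (fun p hp n f hf hl h => inj_union hq hq' hc hp hf hl h)

theorem mul_DD {a b a' b' : ℕ} (h : a + b = a' + b') :
    mulc (DD k a) (DD k b) = mulc (DD k a') (DD k b') := by
  obtain ⟨U, hU, h1, N, hG, hS, hK, hf⟩ := exists_union (k := k) a b
  obtain ⟨U', hU', h1', N', hG', hS', hK', hf'⟩ := exists_union (k := k) a' b'
  have e : ((a' : ℤ) + b') = (a : ℤ) + b := by exact_mod_cast h.symm
  rw [e] at hU' hK' hf'
  rw [h1, h1']
  exact cl_eq.mpr ⟨4, _, sameComp_trans (sameComp_of_oneFam hf)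
    (sameComp_trans (step_two hG hS hG' hS' hK hK') (sameComp_symm (sameComp_of_oneFam hf')))⟩

noncomputable instance : CommSemigroup (Comps k) where
  mul := mulc
  mul_assoc := mulc_assoc
  mul_comm := mulc_comm

theorem gn_inj {x y : Comps k} (hx : Gn (LL k) (DD k) x) (hy : Gn (LL k) (DD k) y)
    (h : typ x = typ y) : x = y :=
  sg_inj (M := Comps k) mul_LL (fun a b => mul_DD (by simp)) typ typ_mulc typ_LL typ_DD hx hy h

theorem gn_low {d : ℕ} {g : ℤ} (hd : d ≤ 2) (C : Curves k) (h : IsCurve k d g C.1) :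
    cl C = LL k ∨ ∃ a, cl C = DD k a := by
  have hpos := h.pos
  interval_cases d
  · obtain rfl := genus_one h
    exact Or.inl (cl_one C h)
  · have h2 := genus_two h
    refine Or.inr ⟨(-g).toNat, cl_two C ?_⟩
    rwa [show (-(((-g).toNat : ℕ) : ℤ)) = g by rw [Int.toNat_of_nonneg (by omega)]; ring]

theorem gn_finset {ι : Type} (s : Finset ι) (hs : s.Nonempty) (d : ι → ℕ) (g : ι → ℤ)
    (I : ι → Ideal (S k)) (h : ∀ i ∈ s, IsCurve k (d i) (g i) (I i) ∧ d i ≤ 2)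
    (hI : ∀ i ∈ s, ∀ j ∈ s, i ≠ j → Dis k (I i) (I j)) :
    IsCurve k (∑ i ∈ s, d i) (1 - ∑ i ∈ s, (1 - g i)) (s.inf I) ∧
      ∀ C : Curves k, C.1 = s.inf I → Gn (LL k) (DD k) (cl C) := by
  classical
  induction hs using Finset.Nonempty.cons_induction with
  | singleton a =>
    obtain ⟨h1, h2⟩ := h a (by simp)
    refine ⟨by simpa using h1, fun C hC => ?_⟩
    rcases gn_low h2 C (by rw [hC]; simpa using h1) with h3 | ⟨b, h3⟩
    · rw [h3]; exact Gn.one
    · rw [h3]; exact Gn.two b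
  | cons a s ha hs ih =>
    obtain ⟨i1, i2⟩ := ih (fun i hi => h i (by simp [hi]))
      (fun i hi j hj => hI i (by simp [hi]) j (by simp [hj]))
    obtain ⟨h1, h2⟩ := h a (by simp)
    have h3 : Dis k (I a) (s.inf I) := dis_symm (dis_finset s hs I (I a) fun i hi =>
      hI i (by simp [hi]) a (by simp) (by rintro rfl; exact ha hi))
    have h4 := isCurve_inf h1 i1 h3
    have h6 : g a + (1 - ∑ i ∈ s, (1 - g i)) - 1 = 1 - ((1 - g a) + ∑ i ∈ s, (1 - g i)) := by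
      ring
    rw [h6] at h4
    refine ⟨by rw [Finset.inf_cons, Finset.sum_cons, Finset.sum_cons]; exact h4, fun C hC => ?_⟩
    let A : Curves k := ⟨I a, _, _, h1⟩
    let B : Curves k := ⟨s.inf I, _, _, i1⟩
    have h7 : cl C = mulc (cl A) (cl B) := by
      rw [mulc_cl A B h3]
      refine congrArg cl (Subtype.ext ?_)
      rw [hC, Finset.inf_cons]; rfl
    have h8 := i2 B rfl
    rcases gn_low h2 A h1 with h9 | ⟨b, h9⟩
    · rw [h7, h9]; exact Gn.mulL _ h8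
    · rw [h7, h9]; exact Gn.mulD b _ h8

theorem unions_low {ι ι' : Type} (s : Finset ι) (s' : Finset ι') (hs : s.Nonempty)
    (hs' : s'.Nonempty) (d : ι → ℕ) (g : ι → ℤ) (I : ι → Ideal (S k)) (d' : ι' → ℕ) (g' : ι' → ℤ)
    (J : ι' → Ideal (S k)) (h : ∀ i ∈ s, IsCurve k (d i) (g i) (I i) ∧ d i ≤ 2)
    (h' : ∀ i ∈ s', IsCurve k (d' i) (g' i) (J i) ∧ d' i ≤ 2)
    (hI : ∀ i ∈ s, ∀ j ∈ s, i ≠ j → Dis k (I i) (I j))
    (hJ : ∀ i ∈ s', ∀ j ∈ s', i ≠ j → Dis k (J i) (J j))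
    (hd : ∑ i ∈ s, d i = ∑ i ∈ s', d' i) (hg : ∑ i ∈ s, (1 - g i) = ∑ i ∈ s', (1 - g' i)) :
    SameComp k (∑ i ∈ s, d i) (1 - ∑ i ∈ s, (1 - g i)) (s.inf I) (s'.inf J) := by
  obtain ⟨c1, g1⟩ := gn_finset s hs d g I h hI
  obtain ⟨c2, g2⟩ := gn_finset s' hs' d' g' J h' hJ
  let C : Curves k := ⟨_, _, _, c1⟩
  let D : Curves k := ⟨_, _, _, c2⟩
  have e : cl C = cl D := by
    refine gn_inj (g1 C rfl) (g2 D rfl) ?_
    rw [typ_of (C := C) c1, typ_of (C := D) c2, hd, hg]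
  obtain ⟨d₀, g₀, h₀⟩ := cl_eq.mp e
  obtain ⟨rfl, rfl⟩ := type_unique c1 h₀.1
  exact h₀

end sg

end MP_06793c_ag
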