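import Pool.Agent.Lib.MP_06793c_ag.Fin

/-!
# Curves with general sections along a pencil of planes: the objects

`S k = k[x0, x1, x2, x3]`; the line `L` is `x0 = x1 = 0`, the planes through `L` are
`a x0 + b x1 = 0`.
-/

namespace MP_06793c_ag

open MvPolynomial

universe u

noncomputable section

variable (k : Type u) [Field k]

/-- The saturated ideal of the section of the curve `I` by the plane `l = 0`: the polynomials `f`
such that all products of `f` with elements of a power of `(x0, ..., x3)` lie in `I + (l)`. -/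
def sec (I : Ideal (S k)) (l : S k) : Ideal (S k) where
  carrier := {f | ∃ N : ℕ, ∀ p ∈ mm k ^ N, p * f ∈ I ⊔ Ideal.span {l}}
  add_mem' := by
    rintro a b ⟨N, hN⟩ ⟨M, hM⟩
    refine ⟨max N M, fun p hp => ?_⟩
    rw [mul_add]
    exact Ideal.add_mem _ (hN p (Ideal.pow_le_pow_right (le_max_left _ _) hp))
      (hM p (Ideal.pow_le_pow_right (le_max_right _ _) hp))
  zero_mem' := ⟨0, fun p _ => by simp⟩
  smul_mem' := by
    rintro c x ⟨N, hN⟩
    refine ⟨N, fun p hp => ?_⟩
    rw [smul_eq_mul, mul_left_comm]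
    exact Ideal.mul_mem_left _ _ (hN p hp)

/-- The curve `I` does not meet the line `x0 = x1 = 0`, and each plane `a x0 + b x1 = 0` through
this line cuts it in a scheme with the Hilbert function `min (d, (n+1)(n+2)/2)`, the largest
possible one for a scheme of length `d` in a plane. -/
structure Std (d : ℕ) (I : Ideal (S k)) : Prop where
  dis : Dis k I (Ideal.span {X 0, X 1})
  gen : ∀ a b : k, (a ≠ 0 ∨ b ≠ 0) → ∀ n : ℕ,
    hf k (sec k I (C a * X 0 + C b * X 1)) n = min (d : ℤ) (((n + 1) * (n + 2) / 2 : ℕ) : ℤ)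

/-- For some line `L` which does not meet the curve `I`, each plane through `L` cuts the curve in
a scheme with the Hilbert function `min (d, (n+1)(n+2)/2)`. (A linear change of coordinates moves
`L` to the line `x0 = x1 = 0`.) -/
def PencilGeneral (d : ℕ) (I : Ideal (S k)) : Prop :=
  ∃ M : Matrix (Fin 4) (Fin 4) k, IsUnit M.det ∧ Std k d (tr M I)

/-- The polynomial ring in two variables `x0, x1`. -/
abbrev R (A : Type u) [CommRing A] : Type u := MvPolynomial (Fin 2) A

/-- The inclusion of `A[x0, x1]` in `A[x0, x1, x2, x3]`. -/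
def io (A : Type u) [CommRing A] : R A →ₐ[A] S A :=
  rename (![0, 1] : Fin 2 → Fin 4)

/-- The linear form vanishing at the point `p` of the projective line. -/
def lp (p : Fin 2 → k) : R k := C (p 1) * X 0 - C (p 0) * X 1

/-- The monomial `x2^j x3^(m-j)`. -/
def mon (A : Type u) [CommRing A] (m : ℕ) (j : Fin (m + 1)) : S A :=
  X 2 ^ (j : ℕ) * X 3 ^ (m - (j : ℕ))

/-- The polynomial `∑ j, v j x2^j x3^(m-j)`. -/
def em (A : Type u) [CommRing A] (m : ℕ) (v : Fin (m + 1) → R A) : S A :=
  ∑ j, io A (v j) * mon A m j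

/-- The ideal generated by the `em v`, `v ∈ s`, and `(x2, x3)^(m+1)`. -/
def KN (A : Type u) [CommRing A] (m : ℕ) (s : Set (Fin (m + 1) → R A)) :
    Ideal (S A) :=
  Ideal.span (em A m '' s) ⊔ (Ideal.span {X 2, X 3}) ^ (m + 1)

/-- The polynomials all of whose monomials have degree `< m` in `x2, x3`. -/
def lt (m : ℕ) : Submodule k (S k) where
  carrier := {f | ∀ s ∈ f.support, s 2 + s 3 < m}
  add_mem' := by
    intro a b ha hb s hs
    rcases Finset.mem_union.mp (MvPolynomial.support_add hs) with h | h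
    · exact ha s h
    · exact hb s h
  zero_mem' := by simp
  smul_mem' := by
    intro c x hx s hs
    exact hx s (MvPolynomial.support_smul hs)

variable {k} {m : ℕ}

/-- Graded submodules of `k[x0, x1]^(m+1)`. -/
def Gr (N : Submodule (R k) (Fin (m + 1) → R k)) : Prop :=
  ∀ v ∈ N, ∀ i : ℕ, (fun j => homogeneousComponent i (v j)) ∈ N

/-- Submodules with torsion-free quotient. -/
def Sat (N : Submodule (R k) (Fin (m + 1) → R k)) : Prop :=
  ∀ r : R k, r ≠ 0 → ∀ v, r • v ∈ N → v ∈ N

/-- The vector `v` is homogeneous of degree `i`. -/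
def HomV (i : ℕ) (v : Fin (m + 1) → R k) : Prop := ∀ j, (v j).IsHomogeneous i

/-- The degree `i` part of `N`. -/
def degN (N : Submodule (R k) (Fin (m + 1) → R k)) (i : ℕ) :
    Submodule k (Fin (m + 1) → R k) :=
  N.restrictScalars k ⊓ Submodule.pi Set.univ (fun _ => homogeneousSubmodule (Fin 2) k i)

/-- Its dimension. -/
def hN (N : Submodule (R k) (Fin (m + 1) → R k)) (i : ℕ) : ℤ :=
  (Module.finrank k (degN N i) : ℤ)

/-- The value of the vector `v` at `p`. -/
def evp (p : Fin 2 → k) : (Fin (m + 1) → R k) →ₗ[k] (Fin (m + 1) → k) where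
  toFun v := fun j => eval p (v j)
  map_add' v w := by ext j; simp
  map_smul' c v := by ext j; simp [smul_eval]

/-- The values at `p` of the elements of `N`. -/
def Np (p : Fin 2 → k) (N : Submodule (R k) (Fin (m + 1) → R k)) :
    Submodule k (Fin (m + 1) → k) := (N.restrictScalars k).map (evp p)

/-- The image of `N` under a matrix with entries in `k`. -/
def act (M : Matrix (Fin (m + 1)) (Fin (m + 1)) k)
    (N : Submodule (R k) (Fin (m + 1) → R k)) : Submodule (R k) (Fin (m + 1) → R k) :=
  N.map (Matrix.mulVecLin (M.map (C : k →+* R k)))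

/-- The matrix `M` is injective on the values of `N` at all points of the projective line. -/
def InjOn (M : Matrix (Fin (m + 1)) (Fin (m + 1)) k)
    (N : Submodule (R k) (Fin (m + 1) → R k)) : Prop :=
  ∀ p : Fin 2 → k, p ≠ 0 → ∀ w ∈ Np p N, M.mulVec w = 0 → w = 0

/-- Any `r + 1` elements of `N` are linearly dependent. -/
def Rk (r : ℕ) (N : Submodule (R k) (Fin (m + 1) → R k)) : Prop :=
  ∀ v : Fin (r + 1) → (Fin (m + 1) → R k), (∀ i, v i ∈ N) → ¬ LinearIndependent (R k) v

/-- There are `r` linearly independent elements of `N`. -/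
def Ind (r : ℕ) (N : Submodule (R k) (Fin (m + 1) → R k)) : Prop :=
  ∃ v : Fin r → (Fin (m + 1) → R k), (∀ i, v i ∈ N) ∧ LinearIndependent (R k) v

/-- The polynomials `q j` have no common zero on the projective line. -/
def NoZ (q : Fin (m + 1) → R k) : Prop := ∀ p : Fin 2 → k, p ≠ 0 → ∃ j, eval p (q j) ≠ 0

/-- The kernel of `q` on the first `r + 1` coordinates. -/
def Nq (r : ℕ) (q : Fin (m + 1) → R k) : Submodule (R k) (Fin (m + 1) → R k) where
  carrier := {v | (∀ j : Fin (m + 1), r < (j : ℕ) → v j = 0) ∧ ∑ j, q j * v j = 0}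
  add_mem' := by
    rintro a b ⟨h1, h2⟩ ⟨h3, h4⟩
    refine ⟨fun j hj => by simp [h1 j hj, h3 j hj], ?_⟩
    simp [mul_add, Finset.sum_add_distrib, h2, h4]
  zero_mem' := by simp
  smul_mem' := by
    rintro c x ⟨h1, h2⟩
    refine ⟨fun j hj => by simp [h1 j hj], ?_⟩
    have : ∑ j, q j * (c • x) j = c * ∑ j, q j * x j := by
      rw [Finset.mul_sum]; refine Finset.sum_congr rfl fun j _ => ?_
      simp only [Pi.smul_apply, smul_eq_mul]; ring
    rw [this, h2, mul_zero]

/-- The Koszul relations of `q` on the first `r + 1` coordinates. -/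
def kos (A : Type u) [CommRing A] (m : ℕ) (r : ℕ) (q : Fin (m + 1) → R A) :
    Set (Fin (m + 1) → R A) :=
  {v | ∃ i j : Fin (m + 1), (i : ℕ) ≤ r ∧ (j : ℕ) ≤ r ∧
    v = Pi.single j (q i) - Pi.single i (q j)}

/-- The top degree parts in `x2^j x3^(m-j)` of the elements of `I` of degree `≤ m` in `x2, x3`. -/
def NI (m : ℕ) (I : Ideal (S k)) : Submodule (R k) (Fin (m + 1) → R k) where
  carrier := {v | ∃ u ∈ lt k m, em k m v + u ∈ I}
  add_mem' := by
    rintro a b ⟨u, hu, h⟩ ⟨u', hu', h'⟩
    refine ⟨u + u', add_mem hu hu', ?_⟩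
    have : em k m (a + b) + (u + u') = (em k m a + u) + (em k m b + u') := by
      simp only [em, Pi.add_apply, map_add, add_mul, Finset.sum_add_distrib]; ring
    rw [this]; exact add_mem h h'
  zero_mem' := ⟨0, zero_mem _, by simp [em]⟩
  smul_mem' := by
    rintro c x ⟨u, hu, h⟩
    refine ⟨io k c * u, ?_, ?_⟩
    · intro s hs
      obtain ⟨a, ha, b, hb, rfl⟩ := Finset.mem_add.mp (MvPolynomial.support_mul _ _ hs)
      have h1 : a 2 = 0 ∧ a 3 = 0 := by
        rw [io, support_rename_of_injective (by intro i j hij; fin_cases i <;> fin_cases j <;> simp_all)] at ha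
        obtain ⟨t, -, rfl⟩ := Finset.mem_image.mp ha
        refine ⟨Finsupp.mapDomain_of_notMem_range _ _ ?_, Finsupp.mapDomain_of_notMem_range _ _ ?_⟩ <;>
        · rintro ⟨i, hi⟩; fin_cases i <;> simp at hi
      have := hu b hb
      simp only [Finsupp.add_apply, h1.1, h1.2]; omega
    · have : em k m (c • x) + io k c * u = io k c * (em k m x + u) := by
        simp only [em, Pi.smul_apply, smul_eq_mul, map_mul, mul_add, Finset.mul_sum, mul_assoc]
      rw [this]; exact Ideal.mul_mem_left _ _ h

end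

end MP_06793c_ag
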