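import Pool.Agent.Lib.MP_06793c_ag.PG.AgI

/-!
# The degeneration of `I` to its ideal of leading forms
Plan: A = k[X] (Polynomial k), hz j f = ∑_{s ∈ supp f} monomial s (C-coefficient coeff s f * X^(j - (s 2 + s 3))),
F = Ideal.span {hz j f | f ∈ I, f ∈ lt (j+1)}. fib at c: span of the ∑ coeff c^(j - s2 - s3) x^s. For
c = 0 it is inI I exactly. For c ≠ 0 it is tr M_c I, M_c = diagonal (1, 1, c⁻¹, c⁻¹):
∑ coeff c^(j-s2-s3) x^s = c^j * sub M_c f, and every f ∈ I is in some lt (j+1). IsHom F:
isHom_of_span with homogeneous f (the generators with f homogeneous generate: hz j is linear, I homogeneous).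
IsFam: c ≠ 0: isCurve_tr, agree_refl; c = 0: hC, agree_inI. h = 1, φ = eval 1 (M_1 = 1, tr_one), ψ = eval 0.
-/

namespace MP_06793c_ag

open MvPolynomial

universe u

variable {k : Type u} [Field k] {m : ℕ}

private noncomputable def hz (j : ℕ) (f : S k) : S (Polynomial k) :=
  f.support.sum fun s =>
    monomial s (Polynomial.C (coeff s f) * Polynomial.X ^ (j - (s 2 + s 3)))

private theorem coeff_hz (j : ℕ) (f : S k) (s : Fin 4 →₀ ℕ) :
    coeff s (hz j f) = Polynomial.C (coeff s f) * Polynomial.X ^ (j - (s 2 + s 3)) := by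
  classical
  unfold hz
  rw [coeff_sum]
  simp only [coeff_monomial]
  rw [Finset.sum_ite_eq']
  split_ifs with h
  · rfl
  · rw [notMem_support_iff.1 h]; simp

private theorem coeff_tpj (j : ℕ) (f : S k) (s : Fin 4 →₀ ℕ) :
    coeff s (tpj j f) = if s 2 + s 3 = j then coeff s f else 0 := by
  classical
  unfold tpj
  rw [coeff_sum]
  have h : ∀ t ∈ f.support, coeff s (if t 2 + t 3 = j then monomial t (coeff t f) else 0) =
      if t = s then (if s 2 + s 3 = j then coeff s f else 0) else 0 := by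
    intro t _
    by_cases h1 : t = s
    · subst h1
      rw [if_pos rfl]
      split_ifs <;> simp
    · rw [if_neg h1]
      split_ifs
      · rw [coeff_monomial, if_neg h1]
      · simp
  rw [Finset.sum_congr rfl h, Finset.sum_ite_eq']
  by_cases h1 : s ∈ f.support
  · rw [if_pos h1]
  · rw [if_neg h1, notMem_support_iff.1 h1]; simp

private theorem sub_mon (c : k) (t : Fin 4 →₀ ℕ) (a : k) :
    (sub (Matrix.diagonal ![1, 1, c, c]) (monomial t a : S k) : S k) =
      monomial t (a * c ^ (t 2 + t 3)) := by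
  have hX : ∀ i : Fin 4, (∑ j, C ((Matrix.diagonal ![1, 1, c, c] : Matrix (Fin 4) (Fin 4) k) i j) * X j : S k) =
      C ((![1, 1, c, c] : Fin 4 → k) i) * X i := by
    intro i
    rw [Finset.sum_eq_single i]
    · rw [Matrix.diagonal_apply_eq]
    · intro j _ hj
      rw [Matrix.diagonal_apply_ne _ (Ne.symm hj)]
      simp
    · intro h
      exact absurd (Finset.mem_univ i) h
  unfold sub
  rw [eval₂Hom_monomial]
  simp only [hX]
  rw [Finsupp.prod_fintype _ _ (fun i => by simp), monomial_eq,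
    Finsupp.prod_fintype _ _ (fun i => by simp), Fin.prod_univ_four, Fin.prod_univ_four]
  simp only [RingHom.comp_apply, Matrix.cons_val_zero, Matrix.cons_val_one, Matrix.cons_val,
    map_one, one_mul, map_mul, map_pow]
  have : (algebraMap k k) a = a := rfl
  rw [this]
  ring

private theorem coeff_sub (c : k) (f : S k) (s : Fin 4 →₀ ℕ) :
    coeff s (sub (Matrix.diagonal ![1, 1, c, c]) f : S k) = coeff s f * c ^ (s 2 + s 3) := by
  classical
  induction f using MvPolynomial.induction_on' with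
  | monomial t a =>
    rw [sub_mon, coeff_monomial, coeff_monomial]
    split_ifs with h
    · rw [h]
    · simp
  | add p q hp hq =>
    rw [map_add, coeff_add, coeff_add, hp, hq, add_mul]

private theorem coeff_fib (φ : Polynomial k →ₐ[k] k) (j : ℕ) (f : S k) (s : Fin 4 →₀ ℕ) :
    coeff s (MvPolynomial.map (φ : Polynomial k →+* k) (hz j f)) =
      coeff s f * φ Polynomial.X ^ (j - (s 2 + s 3)) := by
  rw [coeff_map, coeff_hz]
  have h : φ (Polynomial.C (coeff s f)) = coeff s f := φ.commutes (coeff s f)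
  show φ (Polynomial.C (coeff s f) * Polynomial.X ^ (j - (s 2 + s 3))) = _
  rw [map_mul, map_pow, h]

private def gens (I : Ideal (S k)) : Set (S (Polynomial k)) :=
  {g | ∃ (j n : ℕ) (f : S k), f ∈ I ∧ f ∈ lt k (j + 1) ∧ f ∈ deg k n ∧ g = hz j f}

private theorem isHom_gens (I : Ideal (S k)) : IsHom (Ideal.span (gens I)) := by
  refine isHom_of_span ?_
  rintro _ ⟨j, n, f, _, _, hf, rfl⟩
  refine ⟨n, (mem_homogeneousSubmodule n _).2 ?_⟩
  intro s hs
  rw [coeff_hz] at hs
  have h1 : coeff s f ≠ 0 := by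
    intro h
    rw [h] at hs
    simp at hs
  exact (mem_homogeneousSubmodule n _).1 hf h1

private theorem lt_hc {j : ℕ} {f : S k} (h : f ∈ lt k j) (n : ℕ) : homogeneousComponent n f ∈ lt k j := by
  intro s hs
  refine h s ?_
  rw [mem_support_iff] at hs ⊢
  intro h0
  rw [coeff_homogeneousComponent] at hs
  split_ifs at hs
  · exact hs h0
  · exact hs rfl

private theorem lt_ex (f : S k) : ∃ j, f ∈ lt k (j + 1) :=
  ⟨f.support.sup fun s => s 2 + s 3, fun _ hs => Nat.lt_succ_of_le (Finset.le_sup (f := fun s : Fin 4 →₀ ℕ => s 2 + s 3) hs)⟩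

private theorem fib_zero {I : Ideal (S k)} (hI : IsHom I) (φ : Polynomial k →ₐ[k] k) (h : φ Polynomial.X = 0) :
    fib φ (Ideal.span (gens I)) = inI I := by
  have key : ∀ (j : ℕ) (f : S k), f ∈ lt k (j + 1) →
      MvPolynomial.map (φ : Polynomial k →+* k) (hz j f) = tpj j f := by
    intro j f hf
    ext s
    rw [coeff_fib, coeff_tpj, h]
    by_cases hs : s ∈ f.support
    · have h1 := hf s hs
      split_ifs with h2
      · rw [h2]; simp
      · rw [zero_pow (by omega), mul_zero]
    · rw [notMem_support_iff.1 hs]; simp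
  unfold fib inI
  rw [Ideal.map_span]
  refine le_antisymm (Ideal.span_le.2 ?_) (Ideal.span_le.2 ?_)
  · rintro _ ⟨_, ⟨j, n, f, h1, h2, _, rfl⟩, rfl⟩
    rw [key j f h2]
    exact Ideal.subset_span ⟨j, f, h1, h2, rfl⟩
  · rintro _ ⟨j, f, h1, h2, rfl⟩
    have h3 : tpj j f = ∑ n ∈ Finset.range (f.totalDegree + 1), tpj j (homogeneousComponent n f) := by
      ext s
      rw [coeff_sum, coeff_tpj]
      simp only [coeff_tpj]
      split_ifs
      · conv_lhs => rw [← sum_homogeneousComponent f]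
        rw [coeff_sum]
      · simp
    rw [h3]
    refine Ideal.sum_mem _ fun n _ => Ideal.subset_span ⟨hz j (homogeneousComponent n f),
      ⟨j, n, _, hI f h1 n, lt_hc h2 n, homogeneousComponent_mem n f, rfl⟩, key j _ (lt_hc h2 n)⟩

private theorem fib_ne {I : Ideal (S k)} (hI : IsHom I) (φ : Polynomial k →ₐ[k] k) (h : φ Polynomial.X ≠ 0) :
    fib φ (Ideal.span (gens I)) =
      tr (Matrix.diagonal ![1, 1, (φ Polynomial.X)⁻¹, (φ Polynomial.X)⁻¹]) I := by
  have key : ∀ (j : ℕ) (f : S k), f ∈ lt k (j + 1) →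
      MvPolynomial.map (φ : Polynomial k →+* k) (hz j f) =
        C (φ Polynomial.X ^ j) * (sub (Matrix.diagonal ![1, 1, (φ Polynomial.X)⁻¹, (φ Polynomial.X)⁻¹]) f : S k) := by
    intro j f hf
    ext s
    rw [coeff_fib, coeff_C_mul, coeff_sub]
    by_cases hs : s ∈ f.support
    · have h1 := hf s hs
      obtain ⟨e, he⟩ : ∃ e, j = (s 2 + s 3) + e := ⟨j - (s 2 + s 3), by omega⟩
      rw [he, Nat.add_sub_cancel_left, pow_add, inv_pow]
      field_simp
    · rw [notMem_support_iff.1 hs]; simp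
  unfold fib tr
  rw [Ideal.map_span]
  refine le_antisymm (Ideal.span_le.2 ?_) (Ideal.map_le_iff_le_comap.2 fun f hf => ?_)
  · rintro _ ⟨_, ⟨j, n, f, h1, h2, _, rfl⟩, rfl⟩
    rw [key j f h2]
    exact Ideal.mul_mem_left _ _ (Ideal.mem_map_of_mem _ h1)
  · rw [Ideal.mem_comap, ← sum_homogeneousComponent f, map_sum]
    refine Ideal.sum_mem _ fun n _ => ?_
    obtain ⟨j, hj⟩ := lt_ex (homogeneousComponent n f)
    have h3 := Ideal.mul_mem_left (Ideal.span ((MvPolynomial.map (φ : Polynomial k →+* k)) '' gens I))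
      (C ((φ Polynomial.X ^ j)⁻¹))
      (Ideal.subset_span ⟨hz j (homogeneousComponent n f),
        ⟨j, n, _, hI f hf n, hj, homogeneousComponent_mem n f, rfl⟩, key j _ hj⟩)
    rw [← mul_assoc, ← C_mul, inv_mul_cancel₀ (pow_ne_zero _ h), C_1, one_mul] at h3
    exact h3

theorem oneFam_inI {d : ℕ} {g : ℤ} {I K : Ideal (S k)} (hI : IsCurve k d g I)
    (hK : IsCurve k d g K) (hA : Agree k (inI I) K) : OneFam k d g I K := by
  refine ⟨hI, hK, Polynomial k, inferInstance, inferInstance, inferInstance, inferInstance, 1,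
    Ideal.span (gens I), ⟨isHom_gens I, ?_⟩, Polynomial.aeval (1 : k), Polynomial.aeval (0 : k),
    by simp, by simp, ?_, ?_⟩
  · intro φ _
    by_cases h : φ Polynomial.X = 0
    · exact ⟨K, hK, by rw [fib_zero hI.hom φ h]; exact hA⟩
    · refine ⟨tr (Matrix.diagonal ![1, 1, (φ Polynomial.X)⁻¹, (φ Polynomial.X)⁻¹]) I,
        isCurve_tr hI _ ?_, by rw [fib_ne hI.hom φ h]; exact agree_refl _⟩
      rw [Matrix.det_diagonal, Fin.prod_univ_four]
      simp [h]
  · have h : (Polynomial.aeval (1 : k) : Polynomial k →ₐ[k] k) Polynomial.X ≠ 0 := by simp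
    rw [fib_ne hI.hom _ h]
    have h1 : (Matrix.diagonal ![1, 1, ((Polynomial.aeval (1 : k) : Polynomial k →ₐ[k] k) Polynomial.X)⁻¹,
        ((Polynomial.aeval (1 : k) : Polynomial k →ₐ[k] k) Polynomial.X)⁻¹] : Matrix (Fin 4) (Fin 4) k) = 1 := by
      rw [Polynomial.aeval_X, inv_one, ← Matrix.diagonal_one]
      congr 1
      ext i
      fin_cases i <;> rfl
    rw [h1, tr_one]
    exact agree_refl _
  · rw [fib_zero hI.hom _ (by simp)]
    exact hA

end MP_06793c_ag
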