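import Pool.Agent.Lib.MP_06793c_ag.PG.SatL
import Pool.Agent.Lib.MP_06793c_ag.PG.Mem
import Pool.Agent.Lib.MP_06793c_ag.PG.Fib
import Pool.Agent.Lib.MP_06793c_ag.PG.Dv

/-!
# `NI` is graded and saturated
-/

namespace MP_06793c_ag

open MvPolynomial

universe u

variable {k : Type u} [Field k] {m : ℕ}

private theorem NIs_whc_mul {w : Fin 4 → ℕ} {a : ℕ} {q : S k} (hq : IsWeightedHomogeneous w q a)
    (n : ℕ) (f : S k) :
    weightedHomogeneousComponent w (a + n) (q * f) = q * weightedHomogeneousComponent w n f := by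
  classical
  induction f using MvPolynomial.induction_on' with
  | monomial t b =>
    have h1 : IsWeightedHomogeneous w (monomial t b : S k) (Finsupp.weight w t) :=
      isWeightedHomogeneous_monomial w t b rfl
    rw [weightedHomogeneousComponent_of_mem
        ((mem_weightedHomogeneousSubmodule k w _ _).2 (hq.mul h1)),
      weightedHomogeneousComponent_of_mem ((mem_weightedHomogeneousSubmodule k w _ _).2 h1)]
    by_cases h2 : n = Finsupp.weight w t
    · rw [if_pos h2, if_pos (by rw [h2])]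
    · rw [if_neg h2, if_neg (by omega), mul_zero]
  | add p q' hp hq' => rw [mul_add, map_add, hp, hq', map_add, mul_add]

private theorem NIs_hc_mul {a : ℕ} {q : S k} (hq : q.IsHomogeneous a) (n : ℕ) (f : S k) :
    homogeneousComponent (a + n) (q * f) = q * homogeneousComponent n f :=
  NIs_whc_mul hq n f

private theorem NIs_io_supp (r : R k) : ∀ a ∈ (io k r).support, a 2 = 0 ∧ a 3 = 0 := by
  intro a ha
  rw [io, support_rename_of_injective
    (by intro i j hij; fin_cases i <;> fin_cases j <;> simp_all)] at ha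
  obtain ⟨t, -, rfl⟩ := Finset.mem_image.mp ha
  refine ⟨Finsupp.mapDomain_of_notMem_range _ _ ?_, Finsupp.mapDomain_of_notMem_range _ _ ?_⟩ <;>
  · rintro ⟨i, hi⟩; fin_cases i <;> simp at hi

private theorem NIs_io_inj : Function.Injective (io k) := by
  rw [io]
  exact rename_injective _ (by intro i j hij; fin_cases i <;> fin_cases j <;> simp_all)

private def NIs_w : Fin 4 → ℕ := ![0, 0, 1, 1]

private theorem NIs_weight (s : Fin 4 →₀ ℕ) : Finsupp.weight NIs_w s = s 2 + s 3 := by
  rw [Finsupp.weight_apply, Finsupp.sum_fintype _ _ (by simp), Fin.sum_univ_four]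
  simp [NIs_w]

private theorem NIs_io_wh (r : R k) : IsWeightedHomogeneous NIs_w (io k r) 0 := by
  intro d hd
  have := NIs_io_supp r d (mem_support_iff.2 hd)
  rw [NIs_weight, this.1, this.2]

private theorem NIs_mem_lt {f : S k} :
    f ∈ lt k m ↔ ∀ n : ℕ, m ≤ n → weightedHomogeneousComponent NIs_w n f = 0 := by
  classical
  constructor
  · intro h n hn
    ext s
    rw [coeff_weightedHomogeneousComponent, coeff_zero]
    split_ifs with hs
    · by_contra hc
      have := h s (mem_support_iff.2 hc)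
      rw [NIs_weight] at hs
      omega
    · rfl
  · intro h s hs
    by_contra hc
    have h1 := congrArg (coeff s) (h (s 2 + s 3) (by omega))
    rw [coeff_weightedHomogeneousComponent, NIs_weight, if_pos rfl, coeff_zero] at h1
    exact mem_support_iff.1 hs h1

private theorem NIs_lt_comp {f : S k} (hf : f ∈ lt k m) (n : ℕ) :
    homogeneousComponent n f ∈ lt k m := by
  intro s hs
  refine hf s ?_
  rw [mem_support_iff, coeff_homogeneousComponent] at hs
  rw [mem_support_iff]
  intro h0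
  exact hs (by rw [h0, ite_self])

private theorem NIs_em_smul (r : R k) (v : Fin (m + 1) → R k) :
    em k m (r • v) = io k r * em k m v := by
  simp only [em, Pi.smul_apply, smul_eq_mul, map_mul, Finset.mul_sum, mul_assoc]

private theorem NIs_io_homog {r : R k} {i : ℕ} (hr : r.IsHomogeneous i) :
    (io k r).IsHomogeneous i := by
  rw [io]
  exact hr.rename_isHomogeneous

theorem lt_of_mul_io {r : R k} (hr : r ≠ 0) {u : S k} (h : io k r * u ∈ lt k m) : u ∈ lt k m := by
  rw [NIs_mem_lt] at h ⊢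
  intro n hn
  have h1 := h n hn
  have h2 := NIs_whc_mul (NIs_io_wh r) n u
  rw [zero_add, h1] at h2
  rcases mul_eq_zero.1 h2.symm with h3 | h3
  · exact absurd (NIs_io_inj (h3.trans (map_zero _).symm)) hr
  · exact h3

theorem gr_NI {I : Ideal (S k)} (hI : IsHom I) : Gr (NI m I) := by
  rintro v ⟨u, hu, h⟩ i
  refine ⟨homogeneousComponent (i + m) u, NIs_lt_comp hu _, ?_⟩
  have h1 := hI _ h (i + m)
  rwa [map_add, em_comp] at h1

/-- the quotient may be taken homogeneous -/
private theorem NIs_step {I : Ideal (S k)}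
    (hn : ∀ p : Fin 2 → k, p ≠ 0 → ∀ f : S k, io k (lp k p) * f ∈ I → f ∈ I)
    (hi : ∀ p : Fin 2 → k, p ≠ 0 → ∀ n : ℕ, ∀ f : S k, f.IsHomogeneous n → f ∈ lt k m →
      f ∈ I ⊔ Ideal.span {io k (lp k p)} → io k (lp k p) ∣ f)
    (n : ℕ) : ∀ f ∈ I, f ∈ lt k m → f.IsHomogeneous n → f = 0 := by
  have hp : (fun _ => 1 : Fin 2 → k) ≠ 0 := fun h => one_ne_zero (congrFun h 0)
  have hl : (io k (lp k (fun _ => 1))).IsHomogeneous 1 := NIs_io_homog (lp_homog _)
  induction n with
  | zero =>
    intro f hf hlt hh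
    obtain ⟨g, rfl⟩ := hi _ hp 0 f hh hlt (Ideal.mem_sup_left hf)
    by_contra hne
    have hg : g ≠ 0 := fun h => hne (by rw [h, mul_zero])
    have hl0 : io k (lp k (fun _ => 1)) ≠ 0 := fun h => hne (by rw [h, zero_mul])
    have h1 := hh.totalDegree hne
    have h2 := hl.totalDegree hl0
    rw [totalDegree_mul_of_isDomain hl0 hg] at h1
    omega
  | succ n ih =>
    intro f hf hlt hh
    obtain ⟨g, hg⟩ := hi _ hp (n + 1) f hh hlt (Ideal.mem_sup_left hf)
    have h1 := NIs_hc_mul hl n g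
    rw [← hg, add_comm 1 n, homogeneousComponent_eq_self hh] at h1
    have h2 : homogeneousComponent n g ∈ I := hn _ hp _ (h1 ▸ hf)
    have h3 : homogeneousComponent n g ∈ lt k m := lt_of_mul_io (lp_ne_zero hp) (h1 ▸ hlt)
    rw [h1, ih _ h2 h3 (homogeneousComponent_isHomogeneous n g), mul_zero]

theorem sat_NI [IsAlgClosed k] {I : Ideal (S k)} (hI : IsHom I)
    (hn : ∀ p : Fin 2 → k, p ≠ 0 → ∀ f : S k, io k (lp k p) * f ∈ I → f ∈ I)
    (hi : ∀ p : Fin 2 → k, p ≠ 0 → ∀ n : ℕ, ∀ f : S k, f.IsHomogeneous n → f ∈ lt k m →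
      f ∈ I ⊔ Ideal.span {io k (lp k p)} → io k (lp k p) ∣ f) : Sat (NI m I) := by
  refine sat_of_lin (gr_NI hI) ?_
  rintro p hp i v hv ⟨u, hu, h⟩
  have hl : (io k (lp k p)).IsHomogeneous 1 := NIs_io_homog (lp_homog _)
  have hlv : (io k (lp k p) * em k m v).IsHomogeneous (1 + (i + m)) := hl.mul (em_homog.1 hv)
  set u1 := homogeneousComponent (1 + (i + m)) u with hu1
  have hu1l : u1 ∈ lt k m := NIs_lt_comp hu _
  have h1 := hI _ h (1 + (i + m))
  rw [NIs_em_smul, map_add, homogeneousComponent_eq_self hlv, ← hu1] at h1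
  have h2 : u1 ∈ I ⊔ Ideal.span {io k (lp k p)} := by
    have h3 : u1 = (io k (lp k p) * em k m v + u1) - em k m v * io k (lp k p) := by ring
    rw [h3]
    exact Ideal.sub_mem _ (Ideal.mem_sup_left h1)
      (Ideal.mem_sup_right (Ideal.mul_mem_left _ _ (Ideal.mem_span_singleton_self _)))
  obtain ⟨u', hu'⟩ := hi p hp _ u1 (homogeneousComponent_isHomogeneous _ u) hu1l h2
  refine ⟨u', lt_of_mul_io (lp_ne_zero hp) (hu' ▸ hu1l), hn p hp _ ?_⟩
  rw [mul_add, ← hu']
  exact h1

/-- No nonzero element of `I` has degree `< m` in `x2, x3`. -/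
theorem lt_zero {I : Ideal (S k)} (hI : IsHom I)
    (hn : ∀ p : Fin 2 → k, p ≠ 0 → ∀ f : S k, io k (lp k p) * f ∈ I → f ∈ I)
    (hi : ∀ p : Fin 2 → k, p ≠ 0 → ∀ n : ℕ, ∀ f : S k, f.IsHomogeneous n → f ∈ lt k m →
      f ∈ I ⊔ Ideal.span {io k (lp k p)} → io k (lp k p) ∣ f)
    {f : S k} (hf : f ∈ I) (hl : f ∈ lt k m) : f = 0 := by
  rw [← sum_homogeneousComponent f]
  exact Finset.sum_eq_zero fun n _ => NIs_step hn hi n _ (hI f hf n) (NIs_lt_comp hl n)
    (homogeneousComponent_isHomogeneous n f)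

end MP_06793c_ag
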