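import Pool.Agent.Lib.MP_06793c_ag.PG.Defs

/-!
# Finitely many polynomial maps `k^a → k^b`, `a < b`, do not cover `k^b`

For each map `φ` the `b` polynomials `φ i` in `a < b` variables are algebraically dependent
(transcendence degree), so there is `g ≠ 0` with `g(φ) = 0`, vanishing on the image. The product
of these polynomials is nonzero, and `k` is infinite, so it does not vanish at some point.
-/

namespace MP_06793c_ag

open MvPolynomial

universe u

variable {k : Type u} [Field k] {m : ℕ}

/-- A polynomial vanishing on the image. -/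
private theorem NoS_rel {a b : ℕ} (hab : a < b) (φ : Fin b → MvPolynomial (Fin a) k) :
    ∃ g : MvPolynomial (Fin b) k, g ≠ 0 ∧ aeval φ g = 0 := by
  have hni : ¬ AlgebraicIndependent k φ := by
    intro h
    have h1 := h.lift_cardinalMk_le_trdeg
    rw [MvPolynomial.trdeg_of_isDomain] at h1
    simp only [Cardinal.mk_fin, Cardinal.lift_natCast, Nat.cast_le] at h1
    omega
  rw [algebraicIndependent_iff] at hni
  push Not at hni
  obtain ⟨g, hg, hne⟩ := hni
  exact ⟨g, hne, hg⟩

theorem not_cover [Infinite k] {a b : ℕ} (hab : a < b) {ι : Type} (s : Finset ι)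
    (φ : ι → Fin b → MvPolynomial (Fin a) k) :
    ∃ w : Fin b → k, ∀ σ ∈ s, ∀ c : Fin a → k, (fun i => eval c (φ σ i)) ≠ w := by
  choose g hg0 hg using fun σ => NoS_rel hab (φ σ)
  have hprod : ∏ σ ∈ s, g σ ≠ 0 := Finset.prod_ne_zero_iff.mpr fun σ _ => hg0 σ
  obtain ⟨w, hw⟩ : ∃ w : Fin b → k, eval w (∏ σ ∈ s, g σ) ≠ 0 := by
    by_contra hcon
    push Not at hcon
    exact hprod (MvPolynomial.funext fun w => by rw [hcon w, map_zero])
  refine ⟨w, fun σ hσ c hc => ?_⟩
  rw [map_prod, Finset.prod_ne_zero_iff] at hw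
  refine hw σ hσ ?_
  have h1 : eval c (aeval (φ σ) (g σ)) = 0 := by rw [hg σ, map_zero]
  rw [← hc]
  have h2 : ∀ p : MvPolynomial (Fin b) k,
      eval c (aeval (φ σ) p) = eval (fun i => eval c (φ σ i)) p := by
    intro p
    induction p using MvPolynomial.induction_on with
    | C r => simp
    | add p q hp hq => simp only [map_add, hp, hq]
    | mul_X p i hp => simp only [map_mul, hp, aeval_X, eval_X]
  rw [← h2]
  exact h1

end MP_06793c_ag
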