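import Pool.Agent.Lib.MP_06793c_ag.PG.Act
import Pool.Agent.Lib.MP_06793c_ag.PG.Cur
import Pool.Agent.Lib.MP_06793c_ag.PG.HK

/-!
# A path of matrices gives a family of curves
Plan: A = k[X] (Polynomial k: domain, FiniteType), F = KN A m {G v | v ∈ N} (v mapped to A[x0,x1],
G mapped to A[x0,x1]). Points of A over k are evaluations at c = φ X. fib_KN:
fib φ F = KN k m (act G(c) N) exactly (set equality of generators). For h(c) ≠ 0 it is a curve by
isCurve_KN, act_gr, act_sat; Hilbert function by hf_KN_sub and act_hN and hC.hilb. isHom_KN for F.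
Agree is reflexive (agree_refl).
-/

namespace MP_06793c_ag

open MvPolynomial

universe u

variable {k : Type u} [Field k] {m : ℕ}

/-- The generators over `k[X]`. -/
private def pathSet (N : Submodule (R k) (Fin (m + 1) → R k))
    (G : Matrix (Fin (m + 1)) (Fin (m + 1)) (Polynomial k)) : Set (Fin (m + 1) → R (Polynomial k)) :=
  {w | ∃ v ∈ N, w = fun j => ∑ l, C (G j l) * MvPolynomial.map (Polynomial.C : k →+* Polynomial k) (v l)}

private theorem comp_map (i : ℕ) (p : R k) :
    homogeneousComponent i (MvPolynomial.map (Polynomial.C : k →+* Polynomial k) p) =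
      MvPolynomial.map (Polynomial.C : k →+* Polynomial k) (homogeneousComponent i p) := by
  ext1 d
  rw [coeff_map, coeff_homogeneousComponent, coeff_homogeneousComponent, coeff_map]
  split_ifs with h
  · rfl
  · rw [map_zero]

private theorem pathSet_hom {N : Submodule (R k) (Fin (m + 1) → R k)} (hG : Gr N)
    (G : Matrix (Fin (m + 1)) (Fin (m + 1)) (Polynomial k)) :
    IsHom (KN (Polynomial k) m (pathSet N G)) := by
  refine isHom_KN _ ?_
  rintro _ ⟨v, hv, rfl⟩ i
  refine ⟨fun j => homogeneousComponent i (v j), hG v hv i, ?_⟩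
  funext j
  rw [map_sum]
  refine Finset.sum_congr rfl fun l _ => ?_
  rw [homogeneousComponent_C_mul, comp_map]

private theorem phi_eq (φ : Polynomial k →ₐ[k] k) (p : Polynomial k) :
    φ p = p.eval (φ Polynomial.X) := by
  have h : φ = Polynomial.aeval (φ Polynomial.X) := by
    apply Polynomial.algHom_ext
    rw [Polynomial.aeval_X]
  conv_lhs => rw [h]
  rw [Polynomial.coe_aeval_eq_eval]

private theorem pathSet_fib (N : Submodule (R k) (Fin (m + 1) → R k))
    (G : Matrix (Fin (m + 1)) (Fin (m + 1)) (Polynomial k)) (φ : Polynomial k →ₐ[k] k) :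
    fib φ (KN (Polynomial k) m (pathSet N G)) =
      KN k m (act (G.map (Polynomial.eval (φ Polynomial.X))) N : Set (Fin (m + 1) → R k)) := by
  rw [fib_KN]
  congr 1
  have key : ∀ v : Fin (m + 1) → R k,
      (fun j => MvPolynomial.map (φ : Polynomial k →+* k)
        (∑ l, C (G j l) * MvPolynomial.map (Polynomial.C : k →+* Polynomial k) (v l))) =
      ((G.map (Polynomial.eval (φ Polynomial.X))).map (C : k →+* R k)).mulVec v := by
    intro v
    funext j
    rw [map_sum]
    simp only [Matrix.mulVec, dotProduct, Matrix.map_apply]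
    refine Finset.sum_congr rfl fun l _ => ?_
    rw [map_mul, map_C, MvPolynomial.map_map]
    have h1 : (φ : Polynomial k →+* k).comp (Polynomial.C : k →+* Polynomial k) = RingHom.id k := by
      ext c
      simp only [RingHom.comp_apply, RingHom.id_apply]
      exact φ.commutes c
    rw [h1, MvPolynomial.map_id]
    congr 2
    exact phi_eq φ _
  ext w
  constructor
  · rintro ⟨_, ⟨v, hv, rfl⟩, rfl⟩
    refine ⟨v, hv, ?_⟩
    rw [Matrix.mulVecLin_apply]
    exact (key v).symm
  · rintro ⟨v, hv, rfl⟩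
    refine ⟨_, ⟨v, hv, rfl⟩, ?_⟩
    rw [Matrix.mulVecLin_apply]
    exact key v

private theorem act_curve [IsAlgClosed k] {d : ℕ} {g : ℤ}
    {N : Submodule (R k) (Fin (m + 1) → R k)} (hG : Gr N) (hS : Sat N)
    {M : Matrix (Fin (m + 1)) (Fin (m + 1)) k} (hM : InjOn M N)
    (hC : IsCurve k d g (KN k m (N : Set (Fin (m + 1) → R k)))) :
    IsCurve k d g (KN k m (act M N : Set (Fin (m + 1) → R k))) := by
  refine isCurve_KN (act_gr hG M) (act_sat hG hS hM) hC.pos ?_
  obtain ⟨n₀, hn₀⟩ := hC.hilb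
  refine ⟨n₀ + m, fun n hn => ?_⟩
  obtain ⟨n', rfl⟩ : ∃ n', n = n' + m := ⟨n - m, by omega⟩
  have h1 := hf_KN_sub (act_gr hG M) hG n'
  rw [act_hN hG hM, sub_self, sub_eq_zero] at h1
  rw [h1]
  exact hn₀ _ (by omega)

theorem gl_path [IsAlgClosed k] {d : ℕ} {g : ℤ} {N : Submodule (R k) (Fin (m + 1) → R k)}
    (hG : Gr N) (hS : Sat N) (G : Matrix (Fin (m + 1)) (Fin (m + 1)) (Polynomial k))
    (h : Polynomial k)
    (hinj : ∀ c : k, h.eval c ≠ 0 → InjOn (G.map (Polynomial.eval c)) N)
    (hC : IsCurve k d g (KN k m (N : Set (Fin (m + 1) → R k)))) (c₁ c₂ : k)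
    (h₁ : h.eval c₁ ≠ 0) (h₂ : h.eval c₂ ≠ 0) :
    OneFam k d g (KN k m (act (G.map (Polynomial.eval c₁)) N : Set (Fin (m + 1) → R k)))
      (KN k m (act (G.map (Polynomial.eval c₂)) N : Set (Fin (m + 1) → R k))) := by
  have hX : ∀ c : k, (Polynomial.aeval c : Polynomial k →ₐ[k] k) Polynomial.X = c := fun c =>
    Polynomial.aeval_X c
  have hfib : ∀ c : k, Agree k
      (fib (Polynomial.aeval c : Polynomial k →ₐ[k] k) (KN (Polynomial k) m (pathSet N G)))
      (KN k m (act (G.map (Polynomial.eval c)) N : Set (Fin (m + 1) → R k))) := by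
    intro c
    rw [pathSet_fib, hX]
    exact agree_refl _
  refine ⟨act_curve hG hS (hinj c₁ h₁) hC, act_curve hG hS (hinj c₂ h₂) hC, Polynomial k,
    inferInstance, inferInstance, inferInstance, inferInstance, h,
    KN (Polynomial k) m (pathSet N G), ⟨pathSet_hom hG G, fun φ hφ => ?_⟩,
    Polynomial.aeval c₁, Polynomial.aeval c₂, ?_, ?_, hfib c₁, hfib c₂⟩
  · rw [phi_eq φ h] at hφ
    refine ⟨_, act_curve hG hS (hinj _ hφ) hC, ?_⟩
    rw [pathSet_fib]
    exact agree_refl _
  · rw [Polynomial.coe_aeval_eq_eval]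
    exact h₁
  · rw [Polynomial.coe_aeval_eq_eval]
    exact h₂

end MP_06793c_ag
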