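import Pool.Agent.Lib.MP_06793c_ag.PG.SatL

/-!
# Forms without common zero generate all forms of large degree
Plan: q_0..q_m homogeneous of degree nu without common zero on P^1. The ideal (q_j) of k[x0,x1]
contains powers of x0 and x1: Nullstellensatz (k algebraically closed; the zero set of (q_j) in k^2
is ⊆ {0}; MvPolynomial.vanishingIdeal_zeroLocus_eq_radical), so x0, x1 are in the radical.
-/

namespace MP_06793c_ag

open MvPolynomial

universe u

variable {k : Type u} [Field k] {m : ℕ}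

private theorem Pw_rad [IsAlgClosed k] {q : Fin (m + 1) → R k} (hz : NoZ q) (i : Fin 2) :
    (X i : R k) ∈ (Ideal.span (Set.range q)).radical := by
  rw [← vanishingIdeal_zeroLocus_eq_radical (K := k), mem_vanishingIdeal_iff]
  intro x hx
  have h0 : x = 0 := by
    by_contra hne
    obtain ⟨j, hj⟩ := hz x hne
    have h1 := (mem_zeroLocus_iff.1 hx) (q j) (Ideal.subset_span ⟨j, rfl⟩)
    exact hj (by rw [← h1, aeval_eq_eval])
  rw [aeval_X, h0]
  rfl

theorem pow_mem_of_noZ [IsAlgClosed k] {nu : ℕ} {q : Fin (m + 1) → R k} (hq : HomV nu q)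
    (hz : NoZ q) : ∃ M : ℕ, (X 0 : R k) ^ M ∈ Ideal.span (Set.range q) ∧
      (X 1 : R k) ^ M ∈ Ideal.span (Set.range q) := by
  obtain ⟨a, ha⟩ := Pw_rad hz 0
  obtain ⟨b, hb⟩ := Pw_rad hz 1
  refine ⟨a + b, ?_, ?_⟩
  · rw [pow_add]
    exact Ideal.mul_mem_right _ _ ha
  · rw [pow_add]
    exact Ideal.mul_mem_left _ _ hb

end MP_06793c_ag
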