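import Pool.Agent.Lib.MP_06793c_ag.PG.RkP
import Pool.Agent.Lib.MP_06793c_ag.PG.NoS

/-!
# A vector outside all the values of `N`
Plan: V ≤ k^(m+1) of dimension ≥ r + 2; choose a linear map π : k^(m+1) → k^(r+2) which is
surjective on V (a basis of V extended; or r+2 independent vectors b_i of V and
V'' = their span, with dual coordinates). N is finitely generated (R noetherian) by v_1..v_l; for
p ≠ 0 the values v_i(p) span Np p N, of dimension ≤ r (finrank_Np), so an element of Np p N is a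
combination of some r of them, ∑ c_i v_(σ i)(p), σ : Fin r → Fin l, and Np p N = Np (s p) N for
s ≠ 0 (Np_span), so we may take p = (1, b) or (b, 1). With a = r + 1 parameters (b, c) apply not_cover with the maps
π (∑ c_i v_(σ i)(1, b)), π (∑ c_i v_(σ i)(b, 1)), b := r + 2: a point of k^(r+2) outside all images;
a preimage w ∈ V of it is the required vector. (If l < r pad, or take σ : Fin r → Option.)
-/

namespace MP_06793c_ag

open MvPolynomial

universe u

variable {k : Type u} [Field k] {m : ℕ}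

private theorem Wv_proj {n q : ℕ} (V : Submodule k (Fin n → k)) (hV : q ≤ Module.finrank k V) :
    ∃ π : (Fin n → k) →ₗ[k] (Fin q → k), ∀ y, ∃ w ∈ V, π w = y := by
  let b := Module.finBasis k V
  let e : V →ₗ[k] (Fin q → k) :=
    (LinearMap.funLeft k k (Fin.castLE hV)).comp b.equivFun.toLinearMap
  have he : Function.Surjective e :=
    (LinearMap.funLeft_surjective_of_injective k k _ (Fin.castLE_injective hV)).comp
      b.equivFun.surjective
  obtain ⟨π, hπ⟩ := LinearMap.exists_extend e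
  refine ⟨π, fun y => ?_⟩
  obtain ⟨w, hw⟩ := he y
  refine ⟨w, w.2, ?_⟩
  rw [← hw, ← hπ]
  rfl

private theorem Wv_few' {n l r d : ℕ} (u : Fin (l + 1) → (Fin n → k)) (f : Fin d → (Fin n → k))
    (τ : Fin d → Fin (l + 1)) (hτ : ∀ i, u (τ i) = f i) (hr : d ≤ r) {w : Fin n → k}
    (c : Fin d → k) (hc : ∑ i, c i • f i = w) :
    ∃ (σ : Fin r → Fin (l + 1)) (c : Fin r → k), w = ∑ j, c j • u (σ j) := by
  refine ⟨fun j => if h : (j : ℕ) < d then τ ⟨j, h⟩ else 0,
    fun j => if h : (j : ℕ) < d then c ⟨j, h⟩ else 0, ?_⟩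
  rw [← hc]
  have h1 : ∀ j : Fin r, (if h : (j : ℕ) < d then c ⟨j, h⟩ else 0) •
      u (if h : (j : ℕ) < d then τ ⟨j, h⟩ else 0) =
      if h : (j : ℕ) < d then c ⟨j, h⟩ • f ⟨j, h⟩ else 0 := by
    intro j
    by_cases h : (j : ℕ) < d
    · simp only [dif_pos h, hτ]
    · simp only [dif_neg h, zero_smul]
  rw [Finset.sum_congr rfl fun j _ => h1 j]
  obtain ⟨e, rfl⟩ := Nat.exists_eq_add_of_le hr
  rw [Fin.sum_univ_add]
  have h2 : ∑ i : Fin e, (if h : ((Fin.natAdd d i : Fin (d + e)) : ℕ) < d then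
      c ⟨(Fin.natAdd d i : Fin (d + e)), h⟩ • f ⟨(Fin.natAdd d i : Fin (d + e)), h⟩ else 0) = 0 := by
    refine Finset.sum_eq_zero fun i _ => dif_neg ?_
    simp
  rw [h2, add_zero]
  refine Finset.sum_congr rfl fun i _ => ?_
  rw [dif_pos (by simp)]
  rfl

private theorem Wv_few {n l r : ℕ} (u : Fin (l + 1) → (Fin n → k))
    (hr : Module.finrank k (Submodule.span k (Set.range u)) ≤ r) {w : Fin n → k}
    (hw : w ∈ Submodule.span k (Set.range u)) :
    ∃ (σ : Fin r → Fin (l + 1)) (c : Fin r → k), w = ∑ j, c j • u (σ j) := by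
  obtain ⟨f, hf1, hf2, hf3⟩ := Submodule.exists_fun_fin_finrank_span_eq k (Set.range u)
  choose τ hτ using hf1
  rw [← hf2] at hw
  obtain ⟨c, hc⟩ := (Submodule.mem_span_range_iff_exists_fun k).1 hw
  exact Wv_few' u f τ hτ hr c hc

private theorem Wv_smul {N : Submodule (R k) (Fin (m + 1) → R k)} (hG : Gr N) (p : Fin 2 → k)
    {s : k} (hs : s ≠ 0) : Np p N ≤ Np (s • p) N := by
  rw [Np_span hG p, Np_span hG (s • p), Submodule.span_le]
  rintro w ⟨i, v, hv, hi, rfl⟩
  have h1 : evp (s • p) v = s ^ i • evp p v := by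
    ext j
    show eval (s • p) (v j) = s ^ i • eval p (v j)
    rw [eval_eq', eval_eq', smul_eq_mul, Finset.mul_sum]
    refine Finset.sum_congr rfl fun d hd => ?_
    have h2 : d.degree = i := by
      have h5 := hi j (mem_support_iff.1 hd)
      rw [← h5, Finsupp.degree_eq_weight_one]
      rfl
    have h4 : ∏ t, (s • p) t ^ d t = s ^ i * ∏ t, p t ^ d t := by
      simp only [Pi.smul_apply, smul_eq_mul, mul_pow]
      rw [Finset.prod_mul_distrib, Finset.prod_pow_eq_pow_sum, ← h2, Finsupp.degree_eq_sum]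
    rw [h4]
    ring
  have h3 : evp p v = (s ^ i)⁻¹ • evp (s • p) v := by
    rw [h1, smul_smul, inv_mul_cancel₀ (pow_ne_zero _ hs), one_smul]
  rw [h3]
  exact Submodule.smul_mem _ _ (Submodule.subset_span ⟨i, v, hv, hi, rfl⟩)

private theorem Wv_smul_eq {N : Submodule (R k) (Fin (m + 1) → R k)} (hG : Gr N) (p : Fin 2 → k)
    {s : k} (hs : s ≠ 0) : Np (s • p) N = Np p N := by
  apply le_antisymm _ (Wv_smul hG p hs)
  have h := Wv_smul hG (s • p) (inv_ne_zero hs)
  rwa [smul_smul, inv_mul_cancel₀ hs, one_smul] at h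

/-- the two charts -/
private def Wv_pt (c : Bool) (b : k) : Fin 2 → k := if c then ![1, b] else ![b, 1]

private theorem Wv_chart {N : Submodule (R k) (Fin (m + 1) → R k)} (hG : Gr N) {p : Fin 2 → k}
    (hp : p ≠ 0) : ∃ (c : Bool) (b : k), Np p N = Np (Wv_pt c b) N := by
  by_cases h0 : p 0 = 0
  · have h1 : p 1 ≠ 0 := by
      intro h1
      apply hp
      ext i
      fin_cases i
      · exact h0
      · exact h1
    refine ⟨false, p 0 / p 1, ?_⟩
    have h2 : p = p 1 • Wv_pt false (p 0 / p 1) := by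
      ext i
      fin_cases i
      · simp [Wv_pt, h0]
      · simp [Wv_pt]
    conv_lhs => rw [h2]
    exact Wv_smul_eq hG _ h1
  · refine ⟨true, p 1 / p 0, ?_⟩
    have h2 : p = p 0 • Wv_pt true (p 1 / p 0) := by
      ext i
      fin_cases i
      · simp [Wv_pt]
      · simp [Wv_pt, mul_div_cancel₀ _ h0]
    conv_lhs => rw [h2]
    exact Wv_smul_eq hG _ h0

private theorem Wv_pt_ne (c : Bool) (b : k) : Wv_pt c b ≠ 0 := by
  intro h
  cases c
  · have := congrFun h 1
    simp [Wv_pt] at this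
  · have := congrFun h 0
    simp [Wv_pt] at this

private theorem Wv_span {N : Submodule (R k) (Fin (m + 1) → R k)} {l : ℕ}
    (v : Fin (l + 1) → (Fin (m + 1) → R k)) (hv : Submodule.span (R k) (Set.range v) = N)
    (p : Fin 2 → k) : Np p N = Submodule.span k (Set.range fun i => evp p (v i)) := by
  apply le_antisymm
  · rintro w ⟨x, hx, rfl⟩
    have hx' : x ∈ Submodule.span (R k) (Set.range v) := by rw [hv]; exact hx
    obtain ⟨a, ha⟩ := (Submodule.mem_span_range_iff_exists_fun (R k)).1 hx'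
    rw [← ha, map_sum]
    refine Submodule.sum_mem _ fun i _ => ?_
    have h1 : evp p (a i • v i) = eval p (a i) • evp p (v i) := by
      ext j
      simp [evp]
    rw [h1]
    exact Submodule.smul_mem _ _ (Submodule.subset_span ⟨i, rfl⟩)
  · rw [Submodule.span_le]
    rintro w ⟨i, rfl⟩
    refine ⟨v i, ?_, rfl⟩
    show v i ∈ N
    rw [← hv]
    exact Submodule.subset_span ⟨i, rfl⟩

/-- the point of the chart with a variable coordinate -/
private noncomputable def Wv_ptX (c : Bool) (a : ℕ) : Fin 2 → MvPolynomial (Fin (a + 1)) k :=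
  if c then ![1, X 0] else ![X 0, 1]

private theorem Wv_evalX (c : Bool) {a : ℕ} (x : Fin (a + 1) → k) (q : R k) :
    eval x (aeval (Wv_ptX c a) q) = eval (Wv_pt c (x 0)) q := by
  have h1 : (aeval x : MvPolynomial (Fin (a + 1)) k →ₐ[k] k).comp
      (aeval (Wv_ptX (k := k) c a)) = aeval (Wv_pt c (x 0)) := by
    apply MvPolynomial.algHom_ext
    intro i
    cases c <;> fin_cases i <;> simp [Wv_ptX, Wv_pt]
  have h2 := DFunLike.congr_fun h1 q
  simpa [AlgHom.comp_apply, aeval_eq_eval] using h2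

theorem exists_w [Infinite k] {N : Submodule (R k) (Fin (m + 1) → R k)} (hG : Gr N) {r : ℕ}
    (h : Rk r N) (V : Submodule k (Fin (m + 1) → k)) (hV : r + 2 ≤ Module.finrank k V) :
    ∃ w ∈ V, ∀ p : Fin 2 → k, p ≠ 0 → w ∉ Np p N := by
  obtain ⟨π, hπ⟩ := Wv_proj V hV
  obtain ⟨l, v0, hv0⟩ := Submodule.fg_iff_exists_fin_generating_family.1
    (IsNoetherian.noetherian N)
  let v : Fin (l + 1) → (Fin (m + 1) → R k) := Fin.cons 0 v0
  have hv : Submodule.span (R k) (Set.range v) = N := by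
    rw [← hv0, Fin.range_cons]
    exact Submodule.span_insert_zero
  let φ : (Fin r → Fin (l + 1)) × Bool → Fin (r + 2) → MvPolynomial (Fin (r + 1)) k :=
    fun σ i => ∑ t : Fin (m + 1), C (π (Pi.single t 1) i) *
      ∑ j : Fin r, X j.succ * aeval (Wv_ptX σ.2 r) (v (σ.1 j) t)
  have hφ : ∀ (σ : (Fin r → Fin (l + 1)) × Bool) (x : Fin (r + 1) → k) (i : Fin (r + 2)),
      eval x (φ σ i) =
        π (∑ j : Fin r, x j.succ • evp (Wv_pt σ.2 (x 0)) (v (σ.1 j))) i := by
    intro σ x i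
    set y : Fin (m + 1) → k := ∑ j : Fin r, x j.succ • evp (Wv_pt σ.2 (x 0)) (v (σ.1 j)) with hy
    have h1 : π y = ∑ t, y t • π (Pi.single t 1) := by
      conv_lhs => rw [LinearMap.pi_apply_eq_sum_univ π y]
      refine Finset.sum_congr rfl fun t _ => ?_
      congr 2
      ext s
      simp [Pi.single_apply, eq_comm]
    rw [h1, Finset.sum_apply]
    simp only [φ, map_sum, map_mul, eval_C, eval_X]
    refine Finset.sum_congr rfl fun t _ => ?_
    have h2 : y t = ∑ j : Fin r, x j.succ * eval (Wv_pt σ.2 (x 0)) (v (σ.1 j) t) := by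
      rw [hy, Finset.sum_apply]
      rfl
    rw [Pi.smul_apply, smul_eq_mul, h2, mul_comm]
    congr 1
    refine Finset.sum_congr rfl fun j _ => ?_
    rw [Wv_evalX]
  obtain ⟨w0, hw0⟩ := not_cover (k := k) (show r + 1 < r + 2 by omega) Finset.univ φ
  obtain ⟨w, hwV, hw⟩ := hπ w0
  refine ⟨w, hwV, fun p hp hwp => ?_⟩
  obtain ⟨c, b, hcb⟩ := Wv_chart hG hp
  have hr := finrank_Np hG h (Wv_pt_ne c b)
  rw [hcb, Wv_span v hv] at hwp
  rw [Wv_span v hv] at hr
  obtain ⟨σ, d, hd⟩ := Wv_few (fun i => evp (Wv_pt c b) (v i)) hr hwp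
  apply hw0 (σ, c) (Finset.mem_univ _) (Fin.cons b d)
  ext i
  rw [hφ, ← hw, hd]
  simp

end MP_06793c_ag
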