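import Pool.Agent.Lib.MP_06793c_ag.PG.Path
import Pool.Agent.Lib.MP_06793c_ag.PG.Wv

/-!
# Reduction to `r + 1` dimensions
-/

namespace MP_06793c_ag

open MvPolynomial

universe u

variable {k : Type u} [Field k] {m : ℕ}

private theorem Red_act_one (N : Submodule (R k) (Fin (m + 1) → R k)) :
    act (1 : Matrix (Fin (m + 1)) (Fin (m + 1)) k) N = N := by
  unfold act
  have h1 : ((1 : Matrix (Fin (m + 1)) (Fin (m + 1)) k).map (C : k →+* R k)) = 1 := by
    exact Matrix.map_one _ (map_zero _) (map_one _)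
  rw [h1, Matrix.mulVecLin_one, Submodule.map_id]

private theorem Red_mulVec (w x : Fin (m + 1) → k) (j : Fin (m + 1)) (c : k) :
    ((1 : Matrix (Fin (m + 1)) (Fin (m + 1)) k) -
      c • Matrix.vecMulVec w (Pi.single j (w j)⁻¹)).mulVec x = x - (c * ((w j)⁻¹ * x j)) • w := by
  rw [Matrix.sub_mulVec, Matrix.one_mulVec, Matrix.smul_mulVec]
  congr 1
  ext i
  simp only [Pi.smul_apply, smul_eq_mul, Matrix.mulVec, dotProduct, Matrix.vecMulVec_apply]
  rw [Finset.sum_eq_single j]
  · rw [Pi.single_eq_same]; ring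
  · intro l _ hl
    rw [Pi.single_eq_of_ne hl]; ring
  · intro h
    exact absurd (Finset.mem_univ j) h

private theorem Red_step [IsAlgClosed k] {d : ℕ} {g : ℤ} {r : ℕ} (e : ℕ) :
    ∀ N : Submodule (R k) (Fin (m + 1) → R k), Gr N → Sat N → Rk r N → Ind r N →
    IsCurve k d g (KN k m (N : Set (Fin (m + 1) → R k))) →
    ∀ V : Submodule k (Fin (m + 1) → k), Module.finrank k V = r + 1 + e →
    (∀ p : Fin 2 → k, p ≠ 0 → Np p N ≤ V) →
    ∃ N' : Submodule (R k) (Fin (m + 1) → R k), Gr N' ∧ Sat N' ∧ Rk r N' ∧ Ind r N' ∧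
      SameComp k d g (KN k m (N : Set (Fin (m + 1) → R k)))
        (KN k m (N' : Set (Fin (m + 1) → R k))) ∧
      IsCurve k d g (KN k m (N' : Set (Fin (m + 1) → R k))) ∧
      ∃ V : Submodule k (Fin (m + 1) → k), Module.finrank k V = r + 1 ∧
        ∀ p : Fin 2 → k, p ≠ 0 → Np p N' ≤ V := by
  induction e with
  | zero =>
    intro N hG hS hR hI hC V hV hNV
    exact ⟨N, hG, hS, hR, hI, ⟨hC, Relation.ReflTransGen.refl⟩, hC, V, by simpa using hV, hNV⟩
  | succ e ih =>
    intro N hG hS hR hI hC V hV hNV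
    haveI : Infinite k := IsAlgClosed.instInfinite
    obtain ⟨w, hwV, hw⟩ := exists_w hG hR V (by omega)
    have hp1 : (fun _ => 1 : Fin 2 → k) ≠ 0 := by
      intro h
      have := congrFun h 0
      simp at this
    have hw0 : w ≠ 0 := by
      intro h
      apply hw _ hp1
      rw [h]
      exact zero_mem _
    obtain ⟨j, hj⟩ : ∃ j, w j ≠ 0 := by
      by_contra hcon
      push Not at hcon
      exact hw0 (funext hcon)
    set A0 : Matrix (Fin (m + 1)) (Fin (m + 1)) k := Matrix.vecMulVec w (Pi.single j (w j)⁻¹) with hA0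
    set G : Matrix (Fin (m + 1)) (Fin (m + 1)) (Polynomial k) :=
      1 - (Polynomial.X : Polynomial k) • A0.map Polynomial.C with hGdef
    have hGc : ∀ c : k, G.map (Polynomial.eval c) = 1 - c • A0 := by
      intro c
      ext a b
      rw [hGdef]
      simp only [Matrix.map_apply, Matrix.sub_apply, Matrix.smul_apply, smul_eq_mul,
        Polynomial.eval_sub, Polynomial.eval_mul, Polynomial.eval_X, Polynomial.eval_C,
        Matrix.one_apply]
      split_ifs <;> simp
    have hinj : ∀ c : k, InjOn (G.map (Polynomial.eval c)) N := by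
      intro c p hp x hx hMx
      rw [hGc, hA0, Red_mulVec] at hMx
      have hxw : x = (c * ((w j)⁻¹ * x j)) • w := sub_eq_zero.mp hMx
      by_cases h0 : c * ((w j)⁻¹ * x j) = 0
      · rw [hxw, h0, zero_smul]
      · exfalso
        apply hw p hp
        have h1 : w = (c * ((w j)⁻¹ * x j))⁻¹ • x := by
          have h2 : (c * ((w j)⁻¹ * x j))⁻¹ • x =
              (c * ((w j)⁻¹ * x j))⁻¹ • ((c * ((w j)⁻¹ * x j)) • w) := by
            rw [← hxw]
          rw [h2, smul_smul, inv_mul_cancel₀ h0, one_smul]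
        rw [h1]
        exact Submodule.smul_mem _ _ hx
    have hfam := gl_path hG hS G 1 (fun c _ => hinj c) hC 0 1 (by simp) (by simp)
    have hG0 : G.map (Polynomial.eval 0) = 1 := by
      rw [hGc, zero_smul, sub_zero]
    rw [hG0, Red_act_one] at hfam
    set M : Matrix (Fin (m + 1)) (Fin (m + 1)) k := G.map (Polynomial.eval 1) with hM
    have hMi : InjOn M N := hinj 1
    let φ : V →ₗ[k] k := ((w j)⁻¹ • (LinearMap.proj j : (Fin (m + 1) → k) →ₗ[k] k)).comp V.subtype
    have hφ : ∀ x : V, φ x = (w j)⁻¹ * (x : Fin (m + 1) → k) j := fun x => rfl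
    have hφw : φ ⟨w, hwV⟩ = 1 := by
      rw [hφ]
      exact inv_mul_cancel₀ hj
    have hrange : LinearMap.range φ = ⊤ := by
      rw [LinearMap.range_eq_top]
      intro c
      exact ⟨c • ⟨w, hwV⟩, by rw [map_smul, hφw, smul_eq_mul, mul_one]⟩
    have hfin := LinearMap.finrank_range_add_finrank_ker φ
    rw [hrange, finrank_top, Module.finrank_self, hV] at hfin
    have hV1 : Module.finrank k ((LinearMap.ker φ).map V.subtype) = r + 1 + e := by
      rw [Submodule.finrank_map_subtype_eq]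
      omega
    have hNp1 : ∀ p : Fin 2 → k, p ≠ 0 → Np p (act M N) ≤ (LinearMap.ker φ).map V.subtype := by
      intro p hp
      rw [Np_act]
      rintro _ ⟨x, hx, rfl⟩
      have hxV : x ∈ V := hNV p hp hx
      have h1 : M.mulVecLin x = x - ((w j)⁻¹ * x j) • w := by
        rw [Matrix.mulVecLin_apply, hM, hGc, hA0, Red_mulVec, one_mul]
      rw [h1]
      refine ⟨⟨x - ((w j)⁻¹ * x j) • w, V.sub_mem hxV (V.smul_mem _ hwV)⟩, ?_, rfl⟩
      show φ _ = 0
      rw [hφ]
      simp only [Pi.sub_apply, Pi.smul_apply, smul_eq_mul]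
      field_simp
      ring
    obtain ⟨N', h1, h2, h3, h4, h5, h6, h7⟩ := ih (act M N) (act_gr hG M) (act_sat hG hS hMi)
      (act_rk hMi hR) (act_ind hMi hI) hfam.2.1 _ hV1 hNp1
    exact ⟨N', h1, h2, h3, h4, ⟨hC, Relation.ReflTransGen.head hfam h5.2⟩, h6, h7⟩

theorem reduce_V [IsAlgClosed k] {d : ℕ} {g : ℤ} {r : ℕ} (hr : r ≤ m)
    {N : Submodule (R k) (Fin (m + 1) → R k)}
    (hG : Gr N) (hS : Sat N) (hR : Rk r N) (hI : Ind r N)
    (hC : IsCurve k d g (KN k m (N : Set (Fin (m + 1) → R k)))) :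
    ∃ N' : Submodule (R k) (Fin (m + 1) → R k), Gr N' ∧ Sat N' ∧ Rk r N' ∧ Ind r N' ∧
      SameComp k d g (KN k m (N : Set (Fin (m + 1) → R k)))
        (KN k m (N' : Set (Fin (m + 1) → R k))) ∧
      IsCurve k d g (KN k m (N' : Set (Fin (m + 1) → R k))) ∧
      ∃ V : Submodule k (Fin (m + 1) → k), Module.finrank k V = r + 1 ∧
        ∀ p : Fin 2 → k, p ≠ 0 → Np p N' ≤ V := by
  refine Red_step (m - r) N hG hS hR hI hC ⊤ ?_ fun p _ => le_top
  rw [finrank_top, Module.finrank_fin_fun]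
  omega

end MP_06793c_ag
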