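import Pool.Agent.Lib.MP_06793c_ag.PG.Dv

/-!
# The values of `N` have dimension at most the rank
Proof: vectors `v_i` of polynomials with linearly independent values at a point `p` are linearly
independent: for a left inverse of the values, a matrix `W` over `k`, the square matrix
`(v_i j) W` has the value `1` at `p`, so its determinant is not zero, and a relation between the
`v_i` is one between its rows. So `r + 1` elements of `N` with independent values at `p` would
contradict `Rk`.
-/

namespace MP_06793c_ag

open MvPolynomial

universe u

variable {k : Type u} [Field k] {m : ℕ}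

/-- Vectors of polynomials with linearly independent values at a point are linearly independent. -/
private theorem RkP_indep {n : ℕ} (p : Fin 2 → k) (v : Fin n → (Fin (m + 1) → R k))
    (hv : LinearIndependent k fun i => evp p (v i)) : LinearIndependent (R k) v := by
  classical
  set w : Fin n → (Fin (m + 1) → k) := fun i => evp p (v i) with hw
  set f : (Fin n → k) →ₗ[k] (Fin (m + 1) → k) := Fintype.linearCombination k w with hf
  have hker : LinearMap.ker f = ⊥ := by
    rw [LinearMap.ker_eq_bot']
    intro c hc
    funext i
    exact Fintype.linearIndependent_iff.1 hv c hc i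
  obtain ⟨g, hg⟩ := f.exists_leftInverse_of_injective hker
  have hgw : ∀ i, g (w i) = Pi.single i 1 := by
    intro i
    have h1 : f (Pi.single i 1) = w i := by
      rw [hf, Fintype.linearCombination_apply_single, one_smul]
    rw [← h1, ← LinearMap.comp_apply, hg, LinearMap.id_apply]
  set W : Fin (m + 1) → Fin n → k := fun j i' => g (Pi.single j 1) i' with hW
  set B : Matrix (Fin n) (Fin n) (R k) := fun i i' => ∑ j, v i j * C (W j i') with hB
  have hBp : (eval p).mapMatrix B = 1 := by
    ext i i'
    have h1 : (eval p).mapMatrix B i i' = ∑ j, eval p (v i j) * W j i' := by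
      simp only [RingHom.mapMatrix_apply, Matrix.map_apply, hB, map_sum, map_mul, eval_C]
    have h2 : w i = ∑ j, (eval p (v i j)) • (Pi.single j (1 : k) : Fin (m + 1) → k) := by
      funext j'
      simp only [Finset.sum_apply, Pi.smul_apply, Pi.single_apply, smul_eq_mul, mul_ite, mul_one,
        mul_zero, Finset.sum_ite_eq, Finset.mem_univ, if_true]
      rfl
    have h3 : g (w i) i' = ∑ j, eval p (v i j) * W j i' := by
      rw [h2, map_sum, Finset.sum_apply]
      refine Finset.sum_congr rfl fun j _ => ?_
      rw [map_smul, Pi.smul_apply, smul_eq_mul]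
    rw [h1, ← h3, hgw i, Matrix.one_apply, Pi.single_apply]
    by_cases hii : i = i'
    · rw [if_pos hii, if_pos hii.symm]
    · rw [if_neg hii, if_neg (fun e => hii e.symm)]
  have hdet : B.det ≠ 0 := by
    intro h0
    have h1 := RingHom.map_det (eval p) B
    rw [hBp, Matrix.det_one, h0, map_zero] at h1
    exact zero_ne_one h1
  rw [Fintype.linearIndependent_iff]
  intro a ha
  have hmul : Matrix.vecMul a B = 0 := by
    funext i'
    have h1 : ∀ j, ∑ i, a i * v i j = 0 := by
      intro j
      have := congrFun ha j
      simpa only [Finset.sum_apply, Pi.smul_apply, smul_eq_mul, Pi.zero_apply] using this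
    have h2 : Matrix.vecMul a B i' = ∑ j, (∑ i, a i * v i j) * C (W j i') := by
      simp only [Matrix.vecMul, dotProduct, hB, Finset.mul_sum, Finset.sum_mul]
      rw [Finset.sum_comm]
      refine Finset.sum_congr rfl fun j _ => Finset.sum_congr rfl fun i _ => ?_
      rw [mul_assoc]
    rw [h2, Pi.zero_apply]
    refine Finset.sum_eq_zero fun j _ => ?_
    rw [h1 j, zero_mul]
  intro i
  exact congrFun (Matrix.eq_zero_of_vecMul_eq_zero hdet hmul) i

theorem finrank_Np [Infinite k] {N : Submodule (R k) (Fin (m + 1) → R k)} (hG : Gr N) {r : ℕ}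
    (h : Rk r N) {p : Fin 2 → k} (hp : p ≠ 0) : Module.finrank k (Np p N) ≤ r := by
  by_contra hcon
  have hcon : r + 1 ≤ Module.finrank k (Np p N) := by omega
  obtain ⟨f, hf⟩ := exists_linearIndependent_of_le_finrank hcon
  have hex : ∀ i, ∃ v ∈ N, evp p v = (f i : Fin (m + 1) → k) := by
    intro i
    obtain ⟨v, hv, hvi⟩ := (f i).2
    exact ⟨v, hv, hvi⟩
  choose v hv hvi using hex
  refine h v hv (RkP_indep p v ?_)
  have h1 : (fun i => evp p (v i)) = fun i => ((f i : Np p N) : Fin (m + 1) → k) := funext hvi
  rw [h1]
  exact hf.map' (Np p N).subtype (Submodule.ker_subtype _)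

end MP_06793c_ag
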