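import Pool.Agent.Lib.MP_06793c_ag.PG.Mem
import Pool.Agent.Lib.MP_06793c_ag.PG.Dv

/-!
# Adding lines to a curve: the objects of the proof
-/

namespace MP_06793c_ag

open MvPolynomial

universe u

noncomputable section

variable {k : Type u} [Field k]

/-- Restriction to the affine plane of the points `(p 0, p 1, u, v)`. -/
def sg (p : Fin 2 → k) : S k →ₐ[k] R k := aeval ![C (p 0), C (p 1), X 0, X 1]

variable (k) in
/-- The polynomials of degree `< m` in two variables. -/
def pm (m : ℕ) : Submodule k (R k) where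
  carrier := {F | ∀ s ∈ F.support, s 0 + s 1 < m}
  add_mem' := by
    intro a b ha hb s hs
    rcases Finset.mem_union.mp (MvPolynomial.support_add hs) with h | h
    · exact ha s h
    · exact hb s h
  zero_mem' := by simp
  smul_mem' := by
    intro c x hx s hs
    exact hx s (MvPolynomial.support_smul hs)

/-- The polynomials of degree `< m` vanishing on the affine section of `I` at `p`. -/
def Kp (m : ℕ) (I : Ideal (S k)) (p : Fin 2 → k) : Submodule k (R k) :=
  (I.map (sg p)).restrictScalars k ⊓ pm k m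

/-- The line `x2 = q0 x0 + q1 x1`, `x3 = q2 x0 + q3 x1`. -/
def ln (q : Fin 4 → k) : Ideal (S k) :=
  Ideal.span {X 2 - (C (q 0) * X 0 + C (q 1) * X 1), X 3 - (C (q 2) * X 0 + C (q 3) * X 1)}

/-- The point of this line over `p`. -/
def pq (q : Fin 4 → k) (p : Fin 2 → k) : Fin 2 → k :=
  ![q 0 * p 0 + q 1 * p 1, q 2 * p 0 + q 3 * p 1]

/-- Those vanishing also on the points of the lines in `Q`. -/
def KK (m : ℕ) (I : Ideal (S k)) (Q : List (Fin 4 → k)) (p : Fin 2 → k) :
    Submodule k (R k) where
  carrier := {F | F ∈ Kp m I p ∧ ∀ q ∈ Q, eval (pq q p) F = 0}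
  add_mem' := by
    rintro a b ⟨h1, h2⟩ ⟨h3, h4⟩
    exact ⟨add_mem h1 h3, fun q hq => by rw [map_add, h2 q hq, h4 q hq, add_zero]⟩
  zero_mem' := ⟨zero_mem _, fun q _ => map_zero _⟩
  smul_mem' := by
    rintro c x ⟨h1, h2⟩
    exact ⟨Submodule.smul_mem _ _ h1, fun q hq => by rw [smul_eval, h2 q hq, mul_zero]⟩

/-- The union of the curve `I` and the lines in `Q`. -/
def un (I : Ideal (S k)) : List (Fin 4 → k) → Ideal (S k)
  | [] => I
  | q :: Q => un I Q ⊓ ln q

/-- The curve and the lines are pairwise disjoint. -/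
def Good (I : Ideal (S k)) : List (Fin 4 → k) → Prop
  | [] => True
  | q :: Q => Good I Q ∧ Dis k (un I Q) (ln q)

end

end MP_06793c_ag
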