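import Pool.Agent.Lib.MP_06793c_ag.PG.Dv

/-!
# The second linear form is not a zero divisor modulo the section
-/

namespace MP_06793c_ag

open MvPolynomial

universe u

variable {k : Type u} [Field k] {m : ℕ}

/-- Homogeneous components of elements of a power of `(x0, ..., x3)`. -/
theorem SNz_comp_pow {N : ℕ} {p : S k} (hp : p ∈ mm k ^ N) (i : ℕ) :
    homogeneousComponent i p ∈ mm k ^ N := by
  rw [mem_pow_idealOfVars_iff'] at hp ⊢
  intro x hx
  rw [coeff_homogeneousComponent]
  split_ifs
  · exact hp x hx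
  · rfl

theorem SNz_comp_lt {N : ℕ} {p : S k} (hp : p ∈ mm k ^ N) {i : ℕ} (hi : i < N) :
    homogeneousComponent i p = 0 := by
  rw [mem_pow_idealOfVars_iff'] at hp
  ext x
  rw [coeff_homogeneousComponent, coeff_zero]
  split_ifs with h
  · exact hp x (by omega)
  · rfl

theorem SNz_deg_le_pow (n N : ℕ) (h : N ≤ n) (p : S k) (hp : p ∈ deg k n) :
    p ∈ mm k ^ N := by
  rw [mem_pow_idealOfVars_iff']
  intro x hx
  exact ((mem_homogeneousSubmodule n p).1 hp).coeff_eq_zero (by omega)

/-- Homogeneous components of a product with a homogeneous factor. -/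
theorem SNz_comp_mul {i : ℕ} {a : S k} (ha : a.IsHomogeneous i) (f : S k) (n : ℕ) :
    homogeneousComponent (i + n) (a * f) = a * homogeneousComponent n f := by
  conv_lhs => rw [← sum_homogeneousComponent f]
  rw [Finset.mul_sum, map_sum]
  have h1 : ∀ j ∈ Finset.range (f.totalDegree + 1),
      homogeneousComponent (i + n) (a * homogeneousComponent j f) =
        if j = n then a * homogeneousComponent j f else 0 := by
    intro j _
    have h2 : a * homogeneousComponent j f ∈ deg k (i + j) :=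
      ha.mul (homogeneousComponent_isHomogeneous j f)
    rw [homogeneousComponent_of_mem h2]
    by_cases h : j = n
    · rw [if_pos h, if_pos (by omega)]
    · rw [if_neg h, if_neg (by omega)]
  rw [Finset.sum_congr rfl h1, Finset.sum_ite_eq']
  split_ifs with h
  · rfl
  · rw [Finset.mem_range, not_lt] at h
    rw [homogeneousComponent_eq_zero _ _ (by omega), mul_zero]

theorem SNz_isHom_sup {I : Ideal (S k)} (hI : IsHom I) {l : S k} (hl : l.IsHomogeneous 1) :
    IsHom (I ⊔ Ideal.span {l}) := by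
  refine isHom_sup hI (isHom_of_span ?_)
  rintro p hp
  rw [Set.mem_singleton_iff] at hp
  subst hp
  exact ⟨1, hl⟩

theorem isHom_sec {I : Ideal (S k)} (hI : IsHom I) {l : S k} (hl : l.IsHomogeneous 1) :
    IsHom (sec k I l) := by
  rintro f ⟨N, hN⟩ n
  refine ⟨N, fun p hp => ?_⟩
  have h1 : p * homogeneousComponent n f = ∑ i ∈ Finset.range (p.totalDegree + 1),
      homogeneousComponent i p * homogeneousComponent n f := by
    rw [← Finset.sum_mul, sum_homogeneousComponent]
  rw [h1]
  refine Ideal.sum_mem _ fun i _ => ?_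
  rw [← SNz_comp_mul (homogeneousComponent_isHomogeneous i p)]
  exact SNz_isHom_sup hI hl _ (hN _ (SNz_comp_pow hp i)) _

/-- `sec k I l` is saturated. -/
theorem SNz_sat {I : Ideal (S k)} {l : S k} {M : ℕ} {f : S k}
    (h : ∀ g ∈ mm k ^ M, g * f ∈ sec k I l) : f ∈ sec k I l := by
  obtain ⟨s, hs⟩ := (isNoetherian_def.1 (inferInstance : IsNoetherian (S k) (S k))) (mm k ^ M)
  have h1 : ∀ g ∈ s, ∃ N : ℕ, ∀ p ∈ mm k ^ N, p * (g * f) ∈ I ⊔ Ideal.span {l} := by
    intro g hg
    exact h g (hs ▸ Submodule.subset_span hg)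
  choose! N hN using h1
  refine ⟨s.sup N + M, fun p hp => ?_⟩
  rw [pow_add] at hp
  refine Submodule.mul_induction_on hp ?_ ?_
  · intro a ha b hb
    rw [← hs] at hb
    refine Submodule.span_induction
      (p := fun b _ => a * b * f ∈ I ⊔ Ideal.span {l}) ?_ ?_ ?_ ?_ hb
    · intro g hg
      rw [mul_assoc]
      exact hN g hg a (Ideal.pow_le_pow_right (Finset.le_sup hg) ha)
    · rw [mul_zero, zero_mul]; exact Ideal.zero_mem _
    · intro x y _ _ hx hy
      rw [mul_add, add_mul]; exact Ideal.add_mem _ hx hy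
    · intro c x _ hx
      rw [smul_eq_mul, mul_left_comm, mul_assoc c]; exact Ideal.mul_mem_left _ _ hx
  · intro x y hx hy
    rw [add_mul]; exact Ideal.add_mem _ hx hy

/-- Multiplication by a linear form that generates together with `J` a power of `mm` is injective
modulo `J` in large degrees, if the Hilbert function of `J` is constant. -/
theorem SNz_inj {J : Ideal (S k)} (hJ : IsHom J) {y : S k} (hy : y.IsHomogeneous 1) (hy0 : y ≠ 0)
    {N : ℕ} (h : mm k ^ N ≤ J ⊔ Ideal.span {y}) {n : ℕ} (hn : N ≤ n)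
    (he : hf k J n = hf k J (n + 1)) {f : S k} (hf : f.IsHomogeneous n) (hyf : y * f ∈ J) :
    f ∈ J := by
  have fd : ∀ n, Module.Finite k (deg k n) := fun n =>
    Module.Finite.iff_fg.2 (homogeneousSubmodule_fg _ _ n)
  have fd1 := fd n
  have fd2 := fd (n + 1)
  have fd3 : Module.Finite k ((J.restrictScalars k ⊓ deg k n : Submodule k (S k))) :=
    Submodule.finiteDimensional_inf_right _ _
  have fd4 : Module.Finite k ((J.restrictScalars k ⊓ deg k (n + 1) : Submodule k (S k))) :=
    Submodule.finiteDimensional_inf_right _ _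
  obtain ⟨φ, hφ⟩ : ∃ φ : S k →ₗ[k] S k, ∀ f, φ f = y * f := ⟨LinearMap.mulLeft k y, fun f => rfl⟩
  have hφi : Function.Injective φ := by
    intro a b hab
    rw [hφ, hφ] at hab
    exact mul_left_cancel₀ hy0 hab
  obtain ⟨A, hA⟩ : ∃ A : Submodule k (S k), A = (deg k n).map φ := ⟨_, rfl⟩
  obtain ⟨B, hB⟩ : ∃ B : Submodule k (S k), B = J.restrictScalars k ⊓ deg k (n + 1) := ⟨_, rfl⟩
  obtain ⟨D, hD⟩ : ∃ D : Submodule k (S k), D = (J.restrictScalars k ⊓ deg k n).map φ := ⟨_, rfl⟩
  have fdA : Module.Finite k A := by rw [hA]; infer_instance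
  have fdB : Module.Finite k B := by rw [hB]; infer_instance
  have h1 : A ⊔ B = deg k (n + 1) := by
    apply le_antisymm
    · refine sup_le ?_ (hB ▸ inf_le_right)
      rw [hA]
      rintro _ ⟨g, hg, rfl⟩
      rw [hφ, add_comm n 1]
      exact hy.mul hg
    · intro g hg
      obtain ⟨a, ha, b, hb, hab⟩ := Submodule.mem_sup.1
        (h (SNz_deg_le_pow (n + 1) N (by omega) g hg))
      obtain ⟨c, rfl⟩ := Ideal.mem_span_singleton'.1 hb
      have h2 : homogeneousComponent (n + 1) a + y * homogeneousComponent n c = g := by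
        rw [← SNz_comp_mul hy, add_comm 1 n, mul_comm y c, ← map_add, hab]
        exact (homogeneousComponent_of_mem hg).trans (if_pos rfl)
      rw [sup_comm]
      refine Submodule.mem_sup.2 ⟨_, hB ▸ ⟨hJ a ha (n + 1), homogeneousComponent_mem _ _⟩,
        y * homogeneousComponent n c, ?_, h2⟩
      rw [hA]
      exact ⟨homogeneousComponent n c, homogeneousComponent_mem _ _, hφ _⟩
  have h3 := Submodule.finrank_sup_add_finrank_inf_eq A B
  rw [h1] at h3
  have h4 : Module.finrank k A = Module.finrank k (deg k n) := by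
    rw [hA]
    exact (Submodule.equivMapOfInjective φ hφi (deg k n)).finrank_eq.symm
  have h5 : Module.finrank k D =
      Module.finrank k (J.restrictScalars k ⊓ deg k n : Submodule k (S k)) := by
    rw [hD]
    exact (Submodule.equivMapOfInjective φ hφi _).finrank_eq.symm
  have h6 : D ≤ A ⊓ B := by
    rw [hD, hA, hB]
    rintro _ ⟨g, ⟨hg, hg'⟩, rfl⟩
    refine ⟨⟨g, hg', rfl⟩, ?_, ?_⟩
    · rw [hφ]; exact Ideal.mul_mem_left _ _ hg
    · rw [hφ, add_comm n 1]; exact hy.mul hg'
  have h7 : D = A ⊓ B := by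
    have : Module.Finite k (A ⊓ B : Submodule k (S k)) :=
      Submodule.finiteDimensional_inf_right _ _
    apply Submodule.eq_of_le_of_finrank_le h6
    rw [MP_06793c_ag.hf, MP_06793c_ag.hf] at he
    rw [hB] at h3
    rw [hB]
    omega
  have h8 : y * f ∈ D := by
    rw [h7, hA, hB]
    refine ⟨⟨f, hf, hφ f⟩, hyf, ?_⟩
    rw [add_comm n 1]; exact hy.mul hf
  rw [hD] at h8
  obtain ⟨g, ⟨hg, -⟩, hg2⟩ := h8
  rw [← hφ] at hg2
  rw [← hφi hg2]
  exact hg

theorem SNz_io_lp (p : Fin 2 → k) : io k (lp k p) = C (p 1) * X 0 + C (-p 0) * X 1 := by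
  simp [io, lp, sub_eq_add_neg]

theorem SNz_io_inj : Function.Injective (io k) := by
  refine rename_injective _ ?_
  intro i j hij
  fin_cases i <;> fin_cases j <;> simp_all

theorem SNz_io_homog {r : R k} {n : ℕ} (hr : r.IsHomogeneous n) : (io k r).IsHomogeneous n :=
  hr.rename_isHomogeneous

/-- A linear form in two variables. -/
theorem SNz_lin {r : R k} (hr : r.IsHomogeneous 1) :
    ∃ a b : k, r = C a * X 0 + C b * X 1 := by
  refine ⟨coeff (Finsupp.single 0 1) r, coeff (Finsupp.single 1 1) r, ?_⟩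
  ext s
  rw [coeff_add, coeff_C_mul, coeff_C_mul, coeff_X, coeff_X]
  by_cases h0 : Finsupp.single 0 1 = s
  · subst h0
    rw [if_pos rfl, if_neg]
    · simp
    · intro h
      have := DFunLike.congr_fun h 0
      simp at this
  · by_cases h1 : Finsupp.single 1 1 = s
    · subst h1
      rw [if_pos rfl, if_neg h0]
      simp
    · rw [if_neg h0, if_neg h1, mul_zero, mul_zero, add_zero]
      by_contra hc
      have h2 := hr hc
      have h3 : s 0 + s 1 = 1 := by
        simpa [Finsupp.weight_apply, Finsupp.sum_fintype] using h2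
      rcases Nat.eq_zero_or_pos (s 0) with h4 | h4
      · apply h1
        ext i
        fin_cases i
        · simp [h4]
        · simp; omega
      · apply h0
        ext i
        fin_cases i
        · simp; omega
        · simp; omega

theorem sec_nzd {d : ℕ} {I : Ideal (S k)} (hI : IsHom I) (hS : Std k d I) {p : Fin 2 → k}
    (hp : p ≠ 0) {r : R k} (hr : r.IsHomogeneous 1) (hr0 : eval p r ≠ 0) {n : ℕ} {f : S k}
    (hf : f.IsHomogeneous n) (h : io k r * f ∈ sec k I (io k (lp k p))) :
    f ∈ sec k I (io k (lp k p)) := by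
  have hl : (io k (lp k p)).IsHomogeneous 1 := SNz_io_homog (lp_homog p)
  have hy : (io k r).IsHomogeneous 1 := SNz_io_homog hr
  have hJ := isHom_sec hI hl
  have hr1 : r ≠ 0 := by
    rintro rfl
    simp at hr0
  have hy0 : io k r ≠ 0 := fun h => hr1 (SNz_io_inj (by rw [h, map_zero]))
  obtain ⟨N, hN⟩ := hS.dis
  have hIJ : I ≤ sec k I (io k (lp k p)) := fun g hg =>
    ⟨0, fun q _ => Ideal.mul_mem_left _ _ (Ideal.mem_sup_left hg)⟩
  have hlJ : io k (lp k p) ∈ sec k I (io k (lp k p)) :=
    ⟨0, fun q _ => Ideal.mul_mem_left _ _ (Ideal.mem_sup_right (Ideal.mem_span_singleton_self _))⟩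
  obtain ⟨a, b, hab⟩ := SNz_lin hr
  have hdet : a * p 0 + b * p 1 ≠ 0 := by
    rw [hab] at hr0
    simpa using hr0
  obtain ⟨K, hK⟩ : ∃ K : Ideal (S k), K = sec k I (io k (lp k p)) ⊔ Ideal.span {io k r} :=
    ⟨_, rfl⟩
  have hlK : C (p 1) * X 0 + C (-p 0) * X 1 ∈ K := by
    rw [← SNz_io_lp, hK]; exact Ideal.mem_sup_left hlJ
  have hyK : C a * X 0 + C b * X 1 ∈ K := by
    have h1 : io k r = C a * X 0 + C b * X 1 := by rw [hab]; simp [io]
    rw [← h1, hK]; exact Ideal.mem_sup_right (Ideal.mem_span_singleton_self _)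
  have hdet' : (C (a * p 0 + b * p 1)⁻¹ : S k) * C (a * p 0 + b * p 1) = 1 := by
    rw [← C_mul, inv_mul_cancel₀ hdet, C_1]
  have hX0 : (X 0 : S k) ∈ K := by
    have h1 : (X 0 : S k) = C (a * p 0 + b * p 1)⁻¹ * (C b * (C (p 1) * X 0 + C (-p 0) * X 1) +
        C (p 0) * (C a * X 0 + C b * X 1)) := by
      have h2 : (C b * (C (p 1) * X 0 + C (-p 0) * X 1) +
        C (p 0) * (C a * X 0 + C b * X 1) : S k) = C (a * p 0 + b * p 1) * X 0 := by
        simp only [map_add, map_mul, map_neg]; ring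
      rw [h2, ← mul_assoc, hdet', one_mul]
    rw [h1]
    exact Ideal.mul_mem_left _ _ (Ideal.add_mem _ (Ideal.mul_mem_left _ _ hlK)
      (Ideal.mul_mem_left _ _ hyK))
  have hX1 : (X 1 : S k) ∈ K := by
    have h1 : (X 1 : S k) = C (a * p 0 + b * p 1)⁻¹ * (C (-a) * (C (p 1) * X 0 + C (-p 0) * X 1) +
        C (p 1) * (C a * X 0 + C b * X 1)) := by
      have h2 : (C (-a) * (C (p 1) * X 0 + C (-p 0) * X 1) +
        C (p 1) * (C a * X 0 + C b * X 1) : S k) = C (a * p 0 + b * p 1) * X 1 := by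
        simp only [map_add, map_mul, map_neg]; ring
      rw [h2, ← mul_assoc, hdet', one_mul]
    rw [h1]
    exact Ideal.mul_mem_left _ _ (Ideal.add_mem _ (Ideal.mul_mem_left _ _ hlK)
      (Ideal.mul_mem_left _ _ hyK))
  have hNK : mm k ^ N ≤ K := by
    refine hN.trans (sup_le (hIJ.trans (hK ▸ le_sup_left)) ?_)
    rw [Ideal.span_le]
    rintro x (rfl | rfl)
    · exact hX0
    · exact hX1
  have hgen : ∀ n, d ≤ n → MP_06793c_ag.hf k (sec k I (io k (lp k p))) n = d := by
    intro n hn
    have h1 : p 1 ≠ 0 ∨ -p 0 ≠ 0 := by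
      by_contra hc
      push Not at hc
      apply hp
      ext i
      fin_cases i
      · simpa using hc.2
      · simpa using hc.1
    rw [SNz_io_lp, hS.gen _ _ h1]
    apply min_eq_left
    have h2 : n ≤ (n + 1) * (n + 2) / 2 := by
      rw [Nat.le_div_iff_mul_le (by norm_num)]; nlinarith
    exact_mod_cast hn.trans h2
  refine SNz_sat (M := max N d) fun g hg => ?_
  have h9 : g * f = ∑ i ∈ Finset.range (g.totalDegree + 1), homogeneousComponent i g * f := by
    rw [← Finset.sum_mul, sum_homogeneousComponent]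
  rw [h9]
  refine Ideal.sum_mem _ fun i _ => ?_
  by_cases hi : i < max N d
  · rw [SNz_comp_lt hg hi, zero_mul]; exact Ideal.zero_mem _
  · have hi2 : max N d ≤ i := not_lt.1 hi
    refine SNz_inj hJ hy hy0 (hK ▸ hNK) (n := i + n) ?_ ?_
      ((homogeneousComponent_isHomogeneous i g).mul hf) ?_
    · exact (le_max_left _ _).trans (hi2.trans (by omega))
    · rw [hgen _ ((le_max_right _ _).trans (hi2.trans (by omega))),
        hgen _ ((le_max_right _ _).trans (hi2.trans (by omega)))]
    · rw [mul_left_comm]; exact Ideal.mul_mem_left _ _ h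

end MP_06793c_ag
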